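import Pool.Agent.CmpDef.Basic

/-!
# A Borsuk–Ulam theorem for cochains on small tuples
-/

open Set TopologicalSpace Filter Topology

namespace Pool.Agent.CmpDef

/-- the `j`-dimensional sup-norm sphere inside `Fin N → ℝ`. -/
def Sph (N j : ℕ) : Set (Fin N → ℝ) := {x | ‖x‖ = 1 ∧ ∀ i : Fin N, j < (i : ℕ) → x i = 0}

/-- `cupList [s₁, …, sₙ] [x₀, …, xₙ] = (s₁ x₀ + s₁ x₁) * ⋯ * (sₙ xₙ₋₁ + sₙ xₙ)`. -/
def cupList {T : Type*} : List (T → ZMod 2) → List T → ZMod 2
  | [], _ => 1
  | s :: ss, x :: y :: l => (s x + s y) * cupList ss (y :: l)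
  | _ :: _, _ => 0

section algebra

variable {T T' : Type*}

theorem bu_lcob_cons (ζ : List T → ZMod 2) (x : T) (l : List T) :
    lcob ζ (x :: l) = ζ l + lcob (fun m => ζ (x :: m)) l := by
  rw [lcob]

theorem bu_lcob_nil (ζ : List T → ZMod 2) : lcob ζ [] = 0 := by
  rw [lcob]

theorem bu_lcob_add (a b : List T → ZMod 2) (l : List T) :
    lcob (fun m => a m + b m) l = lcob a l + lcob b l := by
  induction l generalizing a b with
  | nil => simp [bu_lcob_nil]
  | cons x l ih =>
    rw [bu_lcob_cons, bu_lcob_cons, bu_lcob_cons, ih]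
    ring

theorem bu_lcob_mul (c : ZMod 2) (a : List T → ZMod 2) (l : List T) :
    lcob (fun m => c * a m) l = c * lcob a l := by
  induction l generalizing a with
  | nil => simp [bu_lcob_nil]
  | cons x l ih =>
    rw [bu_lcob_cons, bu_lcob_cons, ih]
    ring

theorem bu_lcob_map (f : T → T') (ζ : List T' → ZMod 2) (l : List T) :
    lcob (fun m => ζ (m.map f)) l = lcob ζ (l.map f) := by
  induction l generalizing ζ with
  | nil => simp [bu_lcob_nil]
  | cons x l ih =>
    rw [List.map_cons, bu_lcob_cons, bu_lcob_cons, ← ih]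
    simp only [List.map_cons]

theorem bu_lcob_congr (a b : List T → ZMod 2) (l : List T)
    (h : ∀ m, m.length + 1 = l.length → m ⊆ l → a m = b m) : lcob a l = lcob b l := by
  induction l generalizing a b with
  | nil => simp [bu_lcob_nil]
  | cons x l ih =>
    rw [bu_lcob_cons, bu_lcob_cons, h l (by simp) (by simp),
      ih (fun m => a (x :: m)) (fun m => b (x :: m))]
    intro m hm hml
    refine h _ ?_ ?_
    · simp only [List.length_cons]
      omega
    · exact List.cons_subset_cons _ hml

/-- the cup product of 1-coboundaries is a cocycle -/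
theorem bu_cup_cocycle (ss : List (T → ZMod 2)) (l : List T) (hl : l.length = ss.length + 2) :
    lcob (cupList ss) l = 0 := by
  induction ss generalizing l with
  | nil =>
    match l, hl with
    | [x, y], _ =>
      simp only [bu_lcob_cons, bu_lcob_nil, cupList]
      decide
  | cons s ss ih =>
    match l, hl with
    | x :: y :: z :: l, hl =>
      have hyz : (y :: z :: l).length = ss.length + 2 := by
        simpa using hl
      have h1 := ih (y :: z :: l) hyz
      rw [bu_lcob_cons] at h1
      have h2 : lcob (cupList (s :: ss)) (x :: y :: z :: l) =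
          (s y + s z) * cupList ss (z :: l) + ((s x + s z) * cupList ss (z :: l) +
            (s x + s y) * lcob (fun m => cupList ss (y :: m)) (z :: l)) := by
        rw [bu_lcob_cons, bu_lcob_cons]
        simp only [cupList]
        rw [bu_lcob_mul]
      rw [h2]
      have h3 : lcob (fun m => cupList ss (y :: m)) (z :: l) = cupList ss (z :: l) := by
        have h4 : cupList ss (z :: l) + (cupList ss (z :: l) +
          lcob (fun m => cupList ss (y :: m)) (z :: l)) = cupList ss (z :: l) + 0 := by rw [h1]
        rw [← add_assoc, CharTwo.add_self_eq_zero, zero_add, add_zero] at h4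
        exact h4
      rw [h3]
      generalize cupList ss (z :: l) = c
      generalize s x = a
      generalize s y = b
      generalize s z = d
      revert a b c d
      decide

/-- the homotopy operator -/
def buH (f g : T → T') (ζ : List T' → ZMod 2) : List T → ZMod 2
  | [] => 0
  | x :: l => ζ (f x :: g x :: l.map g) + buH f g (fun m => ζ (f x :: m)) l

theorem bu_H_add (f g : T → T') (a b : List T' → ZMod 2) (l : List T) :
    buH f g (fun m => a m + b m) l = buH f g a l + buH f g b l := by
  induction l generalizing a b with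
  | nil => simp [buH]
  | cons x l ih =>
    simp only [buH]
    rw [ih]
    ring

theorem bu_H_zero (f g : T → T') (ζ : List T' → ZMod 2) (l : List T)
    (h : ∀ m, m.length = l.length + 1 → (∀ y ∈ m, ∃ x ∈ l, y = f x ∨ y = g x) → ζ m = 0) :
    buH f g ζ l = 0 := by
  induction l generalizing ζ with
  | nil => simp [buH]
  | cons x l ih =>
    simp only [buH]
    rw [h (f x :: g x :: l.map g) (by simp), ih (fun m => ζ (f x :: m)), add_zero]
    · intro m hm hml
      refine h _ (by simp [hm]) ?_
      intro y hy
      rcases List.mem_cons.1 hy with rfl | hy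
      · exact ⟨x, by simp, Or.inl rfl⟩
      · obtain ⟨z, hz, hz'⟩ := hml y hy
        exact ⟨z, List.mem_cons_of_mem _ hz, hz'⟩
    · intro y hy
      rcases List.mem_cons.1 hy with rfl | hy
      · exact ⟨x, by simp, Or.inl rfl⟩
      rcases List.mem_cons.1 hy with rfl | hy
      · exact ⟨x, by simp, Or.inr rfl⟩
      obtain ⟨z, hz, rfl⟩ := List.mem_map.1 hy
      exact ⟨z, List.mem_cons_of_mem _ hz, Or.inr rfl⟩

theorem bu_homotopy (f g : T → T') (ζ : List T' → ZMod 2) (l : List T) :
    lcob (buH f g ζ) l + buH f g (lcob ζ) l = ζ (l.map f) + ζ (l.map g) := by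
  induction l generalizing ζ with
  | nil =>
    simp only [bu_lcob_nil, buH, List.map_nil]
    generalize ζ [] = a
    revert a
    decide
  | cons x l ih =>
    have h1 : lcob (buH f g ζ) (x :: l) = buH f g ζ l +
        (lcob (fun m => ζ (f x :: g x :: m)) (l.map g) +
          lcob (buH f g (fun m => ζ (f x :: m))) l) := by
      rw [bu_lcob_cons]
      simp only [buH]
      rw [bu_lcob_add, bu_lcob_map g (fun m => ζ (f x :: g x :: m))]
    have h2 : buH f g (lcob ζ) (x :: l) = (ζ (g x :: l.map g) + (ζ (f x :: l.map g) +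
        lcob (fun m => ζ (f x :: g x :: m)) (l.map g))) +
          (buH f g ζ l + buH f g (lcob (fun m => ζ (f x :: m))) l) := by
      simp only [buH]
      have h3 : (fun m => lcob ζ (f x :: m)) = fun m => ζ m + lcob (fun m => ζ (f x :: m)) m := by
        funext m
        rw [bu_lcob_cons]
      rw [h3, bu_H_add, bu_lcob_cons, bu_lcob_cons]
    have h3 := ih (fun m => ζ (f x :: m))
    rw [h1, h2]
    simp only [List.map_cons]
    have h4 : lcob (buH f g (fun m => ζ (f x :: m))) l =
        ζ (f x :: l.map f) + ζ (f x :: l.map g) + buH f g (lcob (fun m => ζ (f x :: m))) l := by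
      rw [← h3]
      rw [add_assoc, CharTwo.add_self_eq_zero, add_zero]
    rw [h4]
    generalize ζ (f x :: l.map f) = a1
    generalize ζ (f x :: l.map g) = a2
    generalize ζ (g x :: l.map g) = a3
    generalize buH f g (lcob (fun m => ζ (f x :: m))) l = a4
    generalize buH f g ζ l = a5
    generalize lcob (fun m => ζ (f x :: g x :: m)) (l.map g) = a6
    revert a1 a2 a3 a4 a5 a6
    decide

end algebra

/-- the deformation of the hemisphere -/
noncomputable def buF {N : ℕ} (j : ℕ) (t : ℝ) (x : Fin N → ℝ) : Fin N → ℝ := fun i =>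
  if (i : ℕ) = j then min (max (x i) t) 1 else min 1 (2 - t) * x i

theorem bu_F_lip {N : ℕ} (j : ℕ) (t t' : ℝ) (ht : 0 ≤ t) (ht2 : t ≤ 2) (ht' : 0 ≤ t')
    (ht2' : t' ≤ 2) (x y : Fin N → ℝ) (hx : ‖x‖ ≤ 1) (_hy : ‖y‖ ≤ 1) :
    dist (buF j t x) (buF j t' y) ≤ dist x y + |t - t'| := by
  have hd : 0 ≤ dist x y + |t - t'| := by positivity
  rw [dist_pi_le_iff hd]
  intro i
  have hi : |x i - y i| ≤ dist x y := by
    have := dist_le_pi_dist x y i
    rwa [Real.dist_eq] at this
  have hxi : |x i| ≤ 1 := (norm_le_pi_norm x i).trans hx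
  rw [Real.dist_eq]
  simp only [buF]
  split_ifs with h
  · have h1 : |min (max (x i) t) 1 - min (max (y i) t') 1| ≤ |max (x i) t - max (y i) t'| := by
      have := abs_min_sub_min_le_max (max (x i) t) 1 (max (y i) t') 1
      simpa using this
    have h2 : |max (x i) t - max (y i) t'| ≤ max |x i - y i| |t - t'| :=
      abs_max_sub_max_le_max _ _ _ _
    refine h1.trans (h2.trans ?_)
    rw [max_le_iff]
    constructor
    · linarith [abs_nonneg (t - t')]
    · linarith [dist_nonneg (x := x) (y := y)]
  · have h1 : |min 1 (2 - t) - min 1 (2 - t')| ≤ |t - t'| := by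
      have := abs_min_sub_min_le_max 1 (2 - t) 1 (2 - t')
      have h2 : |2 - t - (2 - t')| = |t - t'| := by
        rw [← abs_neg]
        ring_nf
      rw [abs_sub_comm t t']
      simpa using this
    have h3 : min 1 (2 - t) * x i - min 1 (2 - t') * y i =
        (min 1 (2 - t) - min 1 (2 - t')) * x i + min 1 (2 - t') * (x i - y i) := by ring
    rw [h3]
    have h4 : |min 1 (2 - t')| ≤ 1 := by
      rw [abs_le]
      constructor
      · have : (0 : ℝ) ≤ min 1 (2 - t') := le_min (by norm_num) (by linarith)
        linarith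
      · exact min_le_left _ _
    calc |(min 1 (2 - t) - min 1 (2 - t')) * x i + min 1 (2 - t') * (x i - y i)|
        ≤ |(min 1 (2 - t) - min 1 (2 - t')) * x i| + |min 1 (2 - t') * (x i - y i)| :=
          abs_add_le _ _
      _ = |min 1 (2 - t) - min 1 (2 - t')| * |x i| + |min 1 (2 - t')| * |x i - y i| := by
          rw [abs_mul, abs_mul]
      _ ≤ |t - t'| * 1 + 1 * dist x y := by
          gcongr
      _ = dist x y + |t - t'| := by ring

/-- the hemisphere -/
def buHem (N j : ℕ) : Set (Fin N → ℝ) := {x | x ∈ Sph N j ∧ ∀ i : Fin N, (i : ℕ) = j → 0 ≤ x i}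

theorem bu_exists_one {N : ℕ} {x : Fin N → ℝ} (hx : ‖x‖ = 1) : ∃ i, |x i| = 1 := by
  by_contra h
  push Not at h
  have h1 : ∀ i, ‖x i‖ < 1 := fun i =>
    lt_of_le_of_ne (hx ▸ norm_le_pi_norm x i) (h i)
  have := (pi_norm_lt_iff (by norm_num : (0 : ℝ) < 1)).2 h1
  linarith

theorem bu_norm_one {N : ℕ} {x : Fin N → ℝ} (h : ∀ i, |x i| ≤ 1) (h' : ∃ i, |x i| = 1) :
    ‖x‖ = 1 := by
  apply le_antisymm
  · exact (pi_norm_le_iff_of_nonneg (by norm_num)).2 h
  · obtain ⟨i, hi⟩ := h'
    have := norm_le_pi_norm x i
    rw [Real.norm_eq_abs, hi] at this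
    exact this

theorem bu_F_mem {N : ℕ} {j : ℕ} (hj : j < N) {t : ℝ} (ht : 0 ≤ t) (ht2 : t ≤ 2)
    {x : Fin N → ℝ} (hx : x ∈ buHem N j) : buF j t x ∈ buHem N j := by
  obtain ⟨⟨h1, h2⟩, h3⟩ := hx
  have hle : ∀ i, |x i| ≤ 1 := fun i => h1 ▸ norm_le_pi_norm x i
  have hpos : ∀ i : Fin N, (i : ℕ) = j → 0 ≤ buF j t x i := by
    intro i hi
    simp only [buF, hi, if_true]
    exact le_min (le_max_of_le_right ht) (by norm_num)
  refine ⟨⟨bu_norm_one ?_ ?_, ?_⟩, hpos⟩
  · intro i
    by_cases hi : (i : ℕ) = j
    · rw [abs_of_nonneg (hpos i hi)]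
      simp only [buF, hi, if_true]
      exact min_le_right _ _
    · simp only [buF, hi, if_false, abs_mul]
      have h4 : |min 1 (2 - t)| ≤ 1 := by
        rw [abs_le]
        constructor
        · have : (0 : ℝ) ≤ min 1 (2 - t) := le_min (by norm_num) (by linarith)
          linarith
        · exact min_le_left _ _
      exact mul_le_one₀ h4 (abs_nonneg _) (hle i)
  · by_cases ht1 : t ≤ 1
    · obtain ⟨i, hi⟩ := bu_exists_one h1
      refine ⟨i, ?_⟩
      by_cases hij : (i : ℕ) = j
      · have : x i = 1 := by
          rw [abs_of_nonneg (h3 i hij)] at hi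
          exact hi
        simp only [buF, hij, if_true, this]
        rw [max_eq_left ht1]
        simp
      · simp only [buF, hij, if_false]
        rw [min_eq_left (by linarith), one_mul]
        exact hi
    · push Not at ht1
      refine ⟨⟨j, hj⟩, ?_⟩
      simp only [buF, if_true]
      rw [min_eq_right (le_max_of_le_right ht1.le)]
      simp
  · intro i hi
    simp only [buF, hi.ne', if_false, h2 i hi, mul_zero]

theorem bu_F_zero {N : ℕ} {j : ℕ} {x : Fin N → ℝ} (hx : x ∈ buHem N j) : buF j 0 x = x := by
  obtain ⟨⟨h1, h2⟩, h3⟩ := hx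
  have hle : ∀ i, |x i| ≤ 1 := fun i => h1 ▸ norm_le_pi_norm x i
  funext i
  simp only [buF]
  split_ifs with h
  · rw [max_eq_left (h3 i h), min_eq_left (le_of_abs_le (hle i))]
  · rw [min_eq_left (by norm_num), one_mul]

theorem bu_F_two {N : ℕ} {j : ℕ} {x : Fin N → ℝ} :
    buF j 2 x = fun i : Fin N => if (i : ℕ) = j then (1 : ℝ) else 0 := by
  funext i
  simp only [buF]
  split_ifs with h
  · rw [min_eq_right (le_max_of_le_right (by norm_num))]
  · norm_num

theorem bu_steps {N j : ℕ} (hj : j < N) (n : ℕ) (ζ : List (Fin N → ℝ) → ZMod 2) {δ : ℝ}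
    (hδ : 0 < δ)
    (hζ : ∀ l : List (Fin N → ℝ), l.length = n + 1 → Small (Sph N j) δ l → lcob ζ l = 0)
    (L : ℕ) (hL : (2 : ℝ) / L < δ / 2) (k : ℕ) (hk : k ≤ L) :
    ∃ ξ : List (Fin N → ℝ) → ZMod 2, ξ [] = 0 ∧
      ∀ l : List (Fin N → ℝ), l.length = n → Small (buHem N j) (δ / 2) l →
        ζ l + ζ (l.map (buF j (2 * k / L))) = lcob ξ l := by
  induction k with
  | zero =>
    refine ⟨fun _ => 0, rfl, ?_⟩
    intro l _ hl'
    have h1 : l.map (buF j (2 * (0 : ℕ) / L)) = l := by
      simp only [Nat.cast_zero, mul_zero, zero_div]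
      conv_rhs => rw [← List.map_id l]
      apply List.map_congr_left
      intro x hx
      exact bu_F_zero (hl'.1 x hx)
    rw [h1, CharTwo.add_self_eq_zero]
    have h2 : ∀ l : List (Fin N → ℝ), lcob (fun _ => 0) l = 0 := by
      intro l
      induction l with
      | nil => exact bu_lcob_nil _
      | cons x l ih => rw [bu_lcob_cons, ih, add_zero]
    rw [h2]
  | succ k ih =>
    obtain ⟨ξ, hξ0, hξ⟩ := ih (by omega)
    have hL0 : (0 : ℝ) < L := by
      have : 0 < L := by omega
      exact_mod_cast this
    refine ⟨fun l => ξ l + buH (buF j (2 * k / L)) (buF j (2 * (k + 1 : ℕ) / L)) ζ l, ?_, ?_⟩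
    · simp [hξ0, buH]
    · intro l hl hl'
      rw [bu_lcob_add, ← hξ l hl hl']
      have h1 := bu_homotopy (buF j (2 * k / L)) (buF j (2 * (k + 1 : ℕ) / L)) ζ l
      have h2 : buH (buF j (2 * k / L)) (buF j (2 * (k + 1 : ℕ) / L)) (lcob ζ) l = 0 := by
        apply bu_H_zero
        intro m hm hm'
        refine hζ m (by omega) ?_
        have ht1 : (0 : ℝ) ≤ 2 * k / L := by positivity
        have ht2 : (2 : ℝ) * k / L ≤ 2 := by
          rw [div_le_iff₀ hL0]
          have : (k : ℝ) ≤ L := by exact_mod_cast (by omega : k ≤ L)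
          linarith
        have ht1' : (0 : ℝ) ≤ 2 * (k + 1 : ℕ) / L := by positivity
        have ht2' : (2 : ℝ) * (k + 1 : ℕ) / L ≤ 2 := by
          rw [div_le_iff₀ hL0]
          have : ((k + 1 : ℕ) : ℝ) ≤ L := by exact_mod_cast hk
          linarith
        have htt : |2 * (k : ℝ) / L - 2 * (k + 1 : ℕ) / L| = 2 / L := by
          have : 2 * (k : ℝ) / L - 2 * (k + 1 : ℕ) / L = - (2 / L) := by
            push_cast
            ring
          rw [this, abs_neg, abs_of_nonneg (by positivity)]
        have htt' : |2 * ((k + 1 : ℕ) : ℝ) / L - 2 * k / L| = 2 / L := by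
          rw [abs_sub_comm, htt]
        constructor
        · intro y hy
          obtain ⟨x, hx, rfl | rfl⟩ := hm' y hy
          · exact (bu_F_mem hj ht1 ht2 (hl'.1 x hx)).1
          · exact (bu_F_mem hj ht1' ht2' (hl'.1 x hx)).1
        · intro y hy y' hy'
          obtain ⟨x, hx, hxy⟩ := hm' y hy
          obtain ⟨x', hx', hxy'⟩ := hm' y' hy'
          have hd := hl'.2 x hx x' hx'
          have hn : ‖x‖ ≤ 1 := (hl'.1 x hx).1.1.le
          have hn' : ‖x'‖ ≤ 1 := (hl'.1 x' hx').1.1.le
          rcases hxy with rfl | rfl <;> rcases hxy' with rfl | rfl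
          · have := bu_F_lip j _ _ ht1 ht2 ht1 ht2 x x' hn hn'
            simp only [sub_self, abs_zero, add_zero] at this
            linarith
          · have := bu_F_lip j _ _ ht1 ht2 ht1' ht2' x x' hn hn'
            rw [htt] at this
            linarith
          · have := bu_F_lip j _ _ ht1' ht2' ht1 ht2 x x' hn hn'
            rw [htt'] at this
            linarith
          · have := bu_F_lip j _ _ ht1' ht2' ht1' ht2' x x' hn hn'
            simp only [sub_self, abs_zero, add_zero] at this
            linarith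
      rw [h2, add_zero] at h1
      rw [h1]
      generalize ζ l = a
      generalize ζ (l.map (buF j (2 * k / L))) = b
      generalize ζ (l.map (buF j (2 * (k + 1 : ℕ) / L))) = c
      revert a b c
      decide

theorem bu_cup_even {T : Type*} (neg : T → T) (Z : Set T) (ss : List (T → ZMod 2))
    (hs : ∀ s ∈ ss, ∀ x ∈ Z, s (neg x) = s x + 1) (l : List T) (hl : ∀ x ∈ l, x ∈ Z) :
    cupList ss (l.map neg) = cupList ss l := by
  induction ss generalizing l with
  | nil => rfl
  | cons s ss ih =>
    match l with
    | [] => rfl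
    | [x] => rfl
    | x :: y :: l =>
      simp only [List.map_cons, cupList]
      have h1 := ih (fun s' hs' => hs s' (List.mem_cons_of_mem _ hs')) (y :: l)
        (fun z hz => hl z (List.mem_cons_of_mem _ hz))
      rw [List.map_cons] at h1
      rw [h1, hs s (by simp) x (hl x (by simp)), hs s (by simp) y (hl y (by simp))]
      generalize s x = a
      generalize s y = b
      generalize cupList ss (y :: l) = c
      revert a b c
      decide

/-- Borsuk–Ulam: the cup product of `j` odd functions on the `j`-sphere is not the coboundary of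
an even cochain (on small tuples). -/
theorem borsukUlam_lists (N : ℕ) : ∀ (j : ℕ), j < N → ∀ (ss : List ((Fin N → ℝ) → ZMod 2)),
    ss.length = j → (∀ s ∈ ss, ∀ x ∈ Sph N j, s (-x) = s x + 1) →
    ∀ (η : List (Fin N → ℝ) → ZMod 2), η [] = 0 →
    (∀ l : List (Fin N → ℝ), (∀ x ∈ l, x ∈ Sph N j) → η (l.map (fun x => -x)) = η l) →
    ∀ δ : ℝ, 0 < δ →
    ¬ ∀ l : List (Fin N → ℝ), l.length = j + 1 → Small (Sph N j) δ l →
      lcob η l = cupList ss l := by
  intro j
  induction j with
  | zero =>
    intro hj ss hss _ η hη _ δ hδ h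
    have hss' : ss = [] := List.length_eq_zero_iff.1 hss
    subst hss'
    have hmem : (fun i : Fin N => if (i : ℕ) = 0 then (1 : ℝ) else 0) ∈ Sph N 0 := by
      constructor
      · apply bu_norm_one
        · intro i
          split_ifs <;> simp
        · exact ⟨⟨0, hj⟩, by simp⟩
      · intro i hi
        simp [hi.ne']
    have := h [fun i : Fin N => if (i : ℕ) = 0 then (1 : ℝ) else 0] (by simp) (by
      constructor
      · intro p hp
        rw [List.mem_singleton] at hp
        rw [hp]
        exact hmem
      · intro p hp q hq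
        rw [List.mem_singleton] at hp hq
        rw [hp, hq, dist_self]
        exact hδ)
    rw [bu_lcob_cons, bu_lcob_nil, hη, add_zero] at this
    simp [cupList] at this
  | succ j ih =>
    intro hj ss hss hodd η hη heven δ hδ h
    obtain ⟨s, ss', rfl⟩ : ∃ s ss', ss = s :: ss' := by
      cases ss with
      | nil => simp at hss
      | cons s ss' => exact ⟨s, ss', rfl⟩
    have hlen : ss'.length = j := by simpa using hss
    -- the cochain ζ
    let ζ : List (Fin N → ℝ) → ZMod 2 := fun l =>
      match l with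
      | [] => 0
      | x :: l => s x * cupList ss' (x :: l) + η (x :: l)
    have hζcons : ∀ x l, ζ (x :: l) = s x * cupList ss' (x :: l) + η (x :: l) := fun _ _ => rfl
    have hζ : ∀ l : List (Fin N → ℝ), l.length = (j + 1) + 1 → Small (Sph N (j + 1)) δ l →
        lcob ζ l = 0 := by
      intro l hl hl'
      match l, hl with
      | x :: y :: l, hl =>
        have h1 := h (x :: y :: l) hl hl'
        have h2 := bu_cup_cocycle ss' (x :: y :: l) (by rw [hl, hlen])
        rw [bu_lcob_cons] at h1 h2
        rw [bu_lcob_cons]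
        simp only [hζcons]
        rw [bu_lcob_add (fun m => s x * cupList ss' (x :: m)) (fun m => η (x :: m)), bu_lcob_mul]
        simp only [cupList] at h1
        revert h1 h2
        generalize lcob (fun m => η (x :: m)) (y :: l) = a1
        generalize lcob (fun m => cupList ss' (x :: m)) (y :: l) = a2
        generalize cupList ss' (y :: l) = a3
        generalize η (y :: l) = a4
        generalize s x = a5
        generalize s y = a6
        revert a1 a2 a3 a4 a5 a6
        decide
    obtain ⟨L, hL⟩ := exists_nat_gt (4 / δ)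
    have hL0 : (0 : ℝ) < L := lt_trans (by positivity) hL
    have hL' : (2 : ℝ) / L < δ / 2 := by
      rw [div_lt_iff₀ hδ] at hL
      rw [div_lt_iff₀ hL0]
      linarith
    obtain ⟨ξ, hξ0, hξ⟩ := bu_steps hj (j + 1) ζ hδ hζ L hL' L le_rfl
    have hLL : (2 : ℝ) * L / L = 2 := by
      field_simp
    rw [hLL] at hξ
    refine ih (by omega) ss' hlen (fun s' hs' x hx => hodd s' (List.mem_cons_of_mem _ hs') x
      ⟨hx.1, fun i hi => hx.2 i (by omega)⟩) (fun l => ξ l + ξ (l.map (fun x => -x)))
      (by simp [hξ0]) ?_ (δ / 2) (by positivity) ?_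
    · intro l _
      have : (l.map (fun x => -x)).map (fun x => -x) = l := by
        rw [List.map_map]
        conv_rhs => rw [← List.map_id l]
        apply List.map_congr_left
        intro x _
        simp
      rw [this, add_comm]
    · intro l hl hl'
      have hsph : ∀ x ∈ Sph N j, x ∈ buHem N (j + 1) := by
        intro x hx
        refine ⟨⟨hx.1, fun i hi => hx.2 i (by omega)⟩, fun i hi => ?_⟩
        rw [hx.2 i (by omega)]
      have hneg : ∀ x ∈ Sph N j, -x ∈ Sph N j := by
        intro x hx
        refine ⟨by rw [norm_neg]; exact hx.1, fun i hi => ?_⟩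
        rw [Pi.neg_apply, hx.2 i hi, neg_zero]
      have hS1 : Small (buHem N (j + 1)) (δ / 2) l :=
        ⟨fun p hp => hsph p (hl'.1 p hp), hl'.2⟩
      have hS2 : Small (buHem N (j + 1)) (δ / 2) (l.map (fun x => -x)) := by
        constructor
        · intro p hp
          obtain ⟨x, hx, rfl⟩ := List.mem_map.1 hp
          exact hsph _ (hneg x (hl'.1 x hx))
        · intro p hp q hq
          obtain ⟨x, hx, rfl⟩ := List.mem_map.1 hp
          obtain ⟨y, hy, rfl⟩ := List.mem_map.1 hq
          rw [dist_neg_neg]
          exact hl'.2 x hx y hy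
      have h1 := hξ l hl hS1
      have h2 := hξ (l.map (fun x => -x)) (by rw [List.length_map, hl]) hS2
      have h3 : ∀ l : List (Fin N → ℝ), l.map (buF (j + 1) 2) =
          l.map (fun _ => (fun i : Fin N => if (i : ℕ) = j + 1 then (1 : ℝ) else 0)) := by
        intro l
        apply List.map_congr_left
        intro x _
        exact bu_F_two
      rw [h3] at h1 h2
      rw [List.map_map] at h2
      rw [bu_lcob_add, bu_lcob_map (fun x => -x) ξ, ← h1, ← h2]
      have h4 : l.map ((fun _ : Fin N → ℝ =>
          (fun i : Fin N => if (i : ℕ) = j + 1 then (1 : ℝ) else 0)) ∘ fun x => -x) =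
          l.map (fun _ => (fun i : Fin N => if (i : ℕ) = j + 1 then (1 : ℝ) else 0)) := rfl
      rw [h4]
      match l, hl with
      | x :: l, hl =>
        have h5 := bu_cup_even (fun x : Fin N → ℝ => -x) (Sph N j) ss'
          (fun s' hs' x hx => hodd s' (List.mem_cons_of_mem _ hs') x
            ⟨hx.1, fun i hi => hx.2 i (by omega)⟩) (x :: l) hl'.1
        have h6 := heven (x :: l) (fun y hy => ⟨(hl'.1 y hy).1, fun i hi => (hl'.1 y hy).2 i
          (by omega)⟩)
        have h7 := hodd s (by simp) x ⟨(hl'.1 x (by simp)).1, fun i hi => (hl'.1 x (by simp)).2 i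
          (by omega)⟩
        rw [List.map_cons] at h5 h6
        rw [List.map_cons (f := fun x => -x), hζcons, hζcons, h5, h6, h7]
        generalize ζ _ = a1
        generalize s x = a2
        generalize cupList ss' (x :: l) = a3
        generalize η (x :: l) = a4
        revert a1 a2 a3 a4
        decide

end Pool.Agent.CmpDef
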