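import Pool.Agent.CmpDef.Basic

/-!
# The data on the base space
-/

open Set TopologicalSpace Filter Topology

namespace Pool.Agent.CmpDef

/-- Everything which the construction needs to know about the base space (which will be the
real projective space of dimension 12). -/
structure BaseData (D : Type) [MetricSpace D] where
  /-- the characteristic class -/
  a : D → D → ZMod 2
  a_self : ∀ P, a P P = 0
  /-- the scale on which `a` is a cocycle -/
  c : ℝ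
  c_pos : 0 < c
  a_coc : ∀ P Q R, Small univ c [P, Q, R] → a Q R + a P R + a P Q = 0
  /-- the spheres `{psi l = r l}` -/
  psi : ℕ → D → ℝ
  psi_cont : ∀ l, Continuous (psi l)
  r : ℕ → ℝ
  basis : ∀ (P : D) (ε : ℝ), 0 < ε → ∃ l, psi l P < r l ∧ ∀ Q, psi l Q ≤ r l → dist P Q < ε
  /-- the subspaces in which the first `k` spheres fall into small pieces -/
  M : ℕ → Set D
  M_closed : ∀ k, IsClosed (M k)
  eps : ℕ → ℝ
  eps_lim : Tendsto eps atTop (𝓝 0)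
  Lab : Type
  lab : ℕ → ℕ → D → Lab
  lab_loc : ∀ k l, l < k → ∃ t > 0, ∀ P ∈ M k, ∀ Q ∈ M k, psi l P = r l → psi l Q = r l →
    dist P Q < t → lab k l P = lab k l Q
  lab_diam : ∀ k l, l < k → ∀ P ∈ M k, ∀ Q ∈ M k, psi l P = r l → psi l Q = r l →
    lab k l P = lab k l Q → dist P Q ≤ eps k
  nonexact6 : ∀ k, ¬ Exact6 (sq3 (cup3 a)) (M k)
  /-- a projective space of dimension 3 -/
  Z : Set D
  Z_closed : IsClosed Z
  nonexact2 : ∀ k, ¬ Exact2 (cup2 a) id (M k ∩ Z)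
  A : Set D
  B : Set D
  A_closed : IsClosed A
  B_closed : IsClosed B
  disj : Disjoint A B
  /-- primitives of `a ∪ a` off `B` and off `A` -/
  etaP : D → D → ZMod 2
  etaQ : D → D → ZMod 2
  hP : ∀ P0 P1 P2, Small Z c [P0, P1, P2] → P0 ∉ B →
    a P0 P1 * a P1 P2 = etaP P1 P2 + etaP P0 P2 + etaP P0 P1
  hQ : ∀ P0 P1 P2, Small Z c [P0, P1, P2] → P0 ∉ A →
    a P0 P1 * a P1 P2 = etaQ P1 P2 + etaQ P0 P2 + etaQ P0 P1

/-- What we need to know about the piece `E` (at level `k`) over `D`. -/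
structure IsPiece {D : Type} [MetricSpace D] (a : D → D → ZMod 2) (M Z : Set D) (k : ℕ)
    (φ : ℕ → D → ℝ) (ε : ℝ) (E : Type) [MetricSpace E] (π : E → D) : Prop where
  cont : Continuous π
  mem : ∀ q, π q ∈ M
  coord : ∀ i < k, ∃ (f α : E → ℝ) (c1 c2 : E → D), Continuous f ∧ Continuous α ∧
    (∀ q, 0 < f q → φ i (π q) ≤ 2 / 3) ∧ (∀ q, f q < 0 → 1 / 3 ≤ φ i (π q)) ∧
    (∀ q, f q = 0 → 1 / 2 < α q →
      dist (c1 q) (π q) ≤ ε ∧ ∀ᶠ q' in 𝓝 q, f q' = 0 → c1 q' = c1 q) ∧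
    (∀ q, f q = 0 → α q ≤ 1 / 2 →
      dist (c2 q) (π q) ≤ ε ∧ ∀ᶠ q' in 𝓝 q, f q' = 0 → α q' ≤ 1 / 2 → c2 q' = c2 q)
  nonexact3 : ¬ Exact3 (cup3 a) π univ
  nonexact2 : ¬ Exact2 (cup2 a) π (π ⁻¹' Z)

end Pool.Agent.CmpDef
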