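import Pool.Agent.CmpDef.Basic

/-!
# Lusternik–Schnirelmann type lemmas
-/

open Set TopologicalSpace Filter Topology

namespace Pool.Agent.CmpDef

/-- pigeonhole: a gap of length `t0 / m` between the values `v i`. -/
theorem ls_pigeon {ι : Type*} [Fintype ι] (v : ι → ℝ) (m : ℕ) (hm : {i | 0 < v i}.ncard ≤ m)
    (t0 : ℝ) (ht0 : 0 < t0) (hmax : ∃ i, t0 ≤ v i) :
    ∃ c : ℕ, ∃ B : Finset ι, B.Nonempty ∧ B.card ≤ m ∧
      (∀ i ∈ B, ((c : ℝ) + 1) * (t0 / m) ≤ v i) ∧ ∀ j ∉ B, v j ≤ (c : ℝ) * (t0 / m) := by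
  classical
  obtain ⟨i0, hi0⟩ := hmax
  have hmpos : 0 < m := by
    refine lt_of_lt_of_le ?_ hm
    rw [Set.ncard_pos]
    exact ⟨i0, lt_of_lt_of_le ht0 hi0⟩
  have hm0 : (0 : ℝ) < m := by exact_mod_cast hmpos
  have hpos : 0 < t0 / m := by positivity
  by_cases h : ∃ c : ℕ, c < m ∧ ∀ i, ¬ ((c : ℝ) * (t0 / m) < v i ∧ v i < ((c : ℝ) + 1) * (t0 / m))
  · obtain ⟨c, hc, h⟩ := h
    have hc' : ((c : ℝ) + 1) * (t0 / m) ≤ t0 := by
      have : ((c : ℝ) + 1) ≤ m := by exact_mod_cast hc
      calc ((c : ℝ) + 1) * (t0 / m) ≤ m * (t0 / m) := mul_le_mul_of_nonneg_right this hpos.le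
        _ = t0 := by field_simp
    refine ⟨c, Finset.univ.filter (fun i => ((c : ℝ) + 1) * (t0 / m) ≤ v i), ⟨i0, ?_⟩, ?_, ?_, ?_⟩
    · simp only [Finset.mem_filter, Finset.mem_univ, true_and]
      exact hc'.trans hi0
    · rw [← Set.ncard_coe_finset]
      refine (Set.ncard_le_ncard ?_ (Set.toFinite _)).trans hm
      intro i hi
      simp only [Finset.coe_filter, Finset.mem_univ, true_and] at hi
      have : 0 < ((c : ℝ) + 1) * (t0 / m) := by positivity
      exact lt_of_lt_of_le this hi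
    · intro i hi
      exact (Finset.mem_filter.1 hi).2
    · intro j hj
      have hj' : ¬ ((c : ℝ) + 1) * (t0 / m) ≤ v j := fun h' =>
        hj (Finset.mem_filter.2 ⟨Finset.mem_univ _, h'⟩)
      by_contra hcon
      exact h j ⟨not_le.1 hcon, not_le.1 hj'⟩
  · exfalso
    push Not at h
    choose f hf using h
    -- an injection of `Option (Fin m)` into the positive indices
    let F : Option (Fin m) → ι := fun o => o.elim i0 (fun c => f c c.2)
    have hval : ∀ c : Fin m, (c : ℝ) * (t0 / m) < v (f c c.2) ∧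
        v (f c c.2) < ((c : ℝ) + 1) * (t0 / m) := fun c => hf c c.2
    have hlt : ∀ c : Fin m, v (f c c.2) < t0 := by
      intro c
      refine (hval c).2.trans_le ?_
      have : (((c : ℕ) : ℝ) + 1) ≤ m := by exact_mod_cast c.2
      calc (((c : ℕ) : ℝ) + 1) * (t0 / m) ≤ m * (t0 / m) := mul_le_mul_of_nonneg_right this hpos.le
        _ = t0 := by field_simp
    have key : ∀ c d : Fin m, c < d → v (f c c.2) < v (f d d.2) := by
      intro c d hcd
      refine (hval c).2.trans ?_
      refine lt_of_le_of_lt ?_ (hval d).1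
      apply mul_le_mul_of_nonneg_right _ hpos.le
      have : (c : ℕ) + 1 ≤ d := hcd
      exact_mod_cast this
    have hinj : Function.Injective F := by
      intro x y hxy
      rcases x with _ | c <;> rcases y with _ | d
      · rfl
      · exfalso
        have h1 := hlt d
        have : i0 = f d d.2 := hxy
        rw [← this] at h1
        linarith
      · exfalso
        have h1 := hlt c
        have : f c c.2 = i0 := hxy
        rw [this] at h1
        linarith
      · have hcd : f c c.2 = f d d.2 := hxy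
        rcases lt_trichotomy c d with h1 | h1 | h1
        · have := key c d h1
          rw [hcd] at this
          exact absurd this (lt_irrefl _)
        · rw [h1]
        · have := key d c h1
          rw [hcd] at this
          exact absurd this (lt_irrefl _)
    have hsub : Set.range F ⊆ {i | 0 < v i} := by
      rintro _ ⟨o, rfl⟩
      rcases o with _ | c
      · exact lt_of_lt_of_le ht0 hi0
      · have h1 := (hval c).1
        have h2 : (0 : ℝ) ≤ (c : ℝ) * (t0 / m) := by positivity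
        exact lt_of_le_of_lt h2 h1
    have h1 : (Set.range F).ncard = m + 1 := by
      rw [← Set.image_univ, Set.ncard_image_of_injective _ hinj, Set.ncard_univ,
        Nat.card_eq_fintype_card]
      simp
    have h2 := (Set.ncard_le_ncard hsub (Set.toFinite _)).trans hm
    omega

/-- `B` is a set of indices with the largest values. -/
def lsTop {ι : Type*} (v : ι → ℝ) (B : Finset ι) : Prop := ∀ i ∈ B, ∀ j ∉ B, v j < v i

theorem lsTop_unique {ι : Type*} {v : ι → ℝ} {B B' : Finset ι} (h : lsTop v B) (h' : lsTop v B')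
    (hc : B.card = B'.card) : B = B' := by
  classical
  by_contra hne
  have h1 : ¬ B ⊆ B' := fun hs => hne (Finset.eq_of_subset_of_card_le hs hc.ge)
  have h2 : ¬ B' ⊆ B := fun hs => hne (Finset.eq_of_subset_of_card_le hs hc.le).symm
  obtain ⟨i, hi, hi'⟩ := Finset.not_subset.1 h1
  obtain ⟨j, hj, hj'⟩ := Finset.not_subset.1 h2
  exact lt_asymm (h i hi j hj') (h' j hj i hi')

/-- If finitely many uniformly continuous functions `ρ i` are such that at each point of `Z` at
most `m` of them are positive and one is `≥ t0`, and if `a` is trivial on each `{ρ i > 0}`, then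
there are `m` functions such that on each small tuple `a` is the coboundary of one of them. -/
theorem ls_lemma {T : Type*} [PseudoMetricSpace T] (Z : Set T) (a : T → T → ZMod 2)
    {ι : Type*} [Fintype ι] (ρ : ι → T → ℝ) (hρ : ∀ i, UniformContinuous (ρ i)) (m : ℕ)
    (hm : ∀ p ∈ Z, {i | 0 < ρ i p}.ncard ≤ m) (t0 : ℝ) (ht0 : 0 < t0)
    (hmax : ∀ p ∈ Z, ∃ i, t0 ≤ ρ i p) (g : ι → T → ZMod 2)
    (hg : ∀ i, ∀ p ∈ Z, ∀ q ∈ Z, 0 < ρ i p → 0 < ρ i q → a p q = g i p + g i q) :
    ∃ lam > 0, ∃ G : ℕ → T → ZMod 2, ∀ l : List T, l ≠ [] → Small Z lam l →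
      ∃ b < m, ∀ p ∈ l, ∀ q ∈ l, a p q = G b p + G b q := by
  classical
  rcases Nat.eq_zero_or_pos m with hm0 | hm0
  · -- `Z` is empty
    refine ⟨1, one_pos, fun _ _ => 0, fun l hl hs => ?_⟩
    exfalso
    obtain ⟨p, hp⟩ := List.exists_mem_of_ne_nil l hl
    have hpZ := hs.1 p hp
    obtain ⟨i, hi⟩ := hmax p hpZ
    have h1 := hm p hpZ
    rw [hm0, Nat.le_zero, Set.ncard_eq_zero] at h1
    have : i ∈ ({i | 0 < ρ i p} : Set ι) := lt_of_lt_of_le ht0 hi
    rw [h1] at this
    exact this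
  have hm1 : (0 : ℝ) < m := by exact_mod_cast hm0
  have hpos : 0 < t0 / m := by positivity
  -- uniform continuity
  have huc : ∀ i, ∃ lam > 0, ∀ p q : T, dist p q < lam → |ρ i p - ρ i q| < t0 / m / 2 := by
    intro i
    obtain ⟨lam, h1, h2⟩ := Metric.uniformContinuous_iff.1 (hρ i) (t0 / m / 2) (by positivity)
    exact ⟨lam, h1, fun p q hpq => by have := h2 hpq; rwa [Real.dist_eq] at this⟩
  choose lam hlam hlam2 using huc
  obtain ⟨lam0, hlam0, hle⟩ : ∃ lam0 > 0, ∀ i, lam0 ≤ lam i := by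
    rcases isEmpty_or_nonempty ι with he | he
    · exact ⟨1, one_pos, fun i => he.elim i⟩
    · refine ⟨Finset.univ.inf' Finset.univ_nonempty lam, ?_, fun i =>
        Finset.inf'_le _ (Finset.mem_univ i)⟩
      rw [gt_iff_lt, Finset.lt_inf'_iff]
      exact fun i _ => hlam i
  -- the functions
  let idx : (B : Finset ι) → B.Nonempty → ι := fun B hB => hB.choose
  have hidx : ∀ B (hB : B.Nonempty), idx B hB ∈ B := fun B hB => hB.choose_spec
  let G : ℕ → T → ZMod 2 := fun b q =>
    if h : ∃ B : Finset ι, B.card = b + 1 ∧ lsTop (fun i => ρ i q) B then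
      g (idx h.choose (Finset.card_pos.1 (by rw [h.choose_spec.1]; omega))) q else 0
  have hG : ∀ (b : ℕ) (q : T) (B : Finset ι) (hB : B.Nonempty), B.card = b + 1 →
      lsTop (fun i => ρ i q) B → G b q = g (idx B hB) q := by
    intro b q B hB hc ht
    have h : ∃ B : Finset ι, B.card = b + 1 ∧ lsTop (fun i => ρ i q) B := ⟨B, hc, ht⟩
    have h1 : h.choose = B := lsTop_unique h.choose_spec.2 ht (by rw [h.choose_spec.1, hc])
    have h2 : G b q = g (idx h.choose (Finset.card_pos.1 (by rw [h.choose_spec.1]; omega))) q :=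
      dif_pos h
    rw [h2]
    congr 1
    congr 1
  refine ⟨lam0, hlam0, G, fun l hl hs => ?_⟩
  obtain ⟨p, hp⟩ := List.exists_mem_of_ne_nil l hl
  have hpZ := hs.1 p hp
  obtain ⟨c, B, hB, hBm, h1, h2⟩ := ls_pigeon (fun i => ρ i p) m (hm p hpZ) t0 ht0 (hmax p hpZ)
  have hBc : 0 < B.card := Finset.card_pos.2 hB
  have hclose : ∀ q ∈ l, ∀ i, |ρ i p - ρ i q| < t0 / m / 2 := fun q hq i =>
    hlam2 i p q ((hs.2 p hp q hq).trans_le (hle i))
  have htop : ∀ q ∈ l, lsTop (fun i => ρ i q) B := by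
    intro q hq i hi j hj
    have h3 := abs_lt.1 (hclose q hq i)
    have h4 := abs_lt.1 (hclose q hq j)
    have h5 := h1 i hi
    have h6 := h2 j hj
    show ρ j q < ρ i q
    nlinarith
  have hpos2 : ∀ q ∈ l, 0 < ρ (idx B hB) q := by
    intro q hq
    have h3 := abs_lt.1 (hclose q hq (idx B hB))
    have h5 := h1 _ (hidx B hB)
    have h6 : (0 : ℝ) ≤ (c : ℝ) * (t0 / m) := by positivity
    nlinarith
  refine ⟨B.card - 1, by omega, fun q hq r hr => ?_⟩
  rw [hG _ q B hB (by omega) (htop q hq), hG _ r B hB (by omega) (htop r hr)]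
  exact hg _ q (hs.1 q hq) r (hs.1 r hr) (hpos2 q hq) (hpos2 r hr)

/-- three functions suffice to trivialise `a ∪ a ∪ a`. -/
theorem exact3_of_ls {T D : Type*} [PseudoMetricSpace T] (a : D → D → ZMod 2) (π : T → D)
    (Z : Set T)
    (hcoc : ∃ lam > 0, ∀ p0 p1 p2, Small Z lam [p0, p1, p2] →
      a (π p1) (π p2) + a (π p0) (π p2) + a (π p0) (π p1) = 0)
    (hG : ∃ lam > 0, ∃ G : ℕ → T → ZMod 2, ∀ l : List T, l ≠ [] → Small Z lam l →
      ∃ b < 3, ∀ p ∈ l, ∀ q ∈ l, a (π p) (π q) = G b p + G b q) :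
    Exact3 (cup3 a) π Z := by
  obtain ⟨lam1, hlam1, hcoc⟩ := hcoc
  obtain ⟨lam2, hlam2, G, hG⟩ := hG
  refine ⟨min lam1 lam2, lt_min hlam1 hlam2, fun x0 x1 x2 =>
    G 0 x0 * a (π x0) (π x1) * a (π x1) (π x2) +
    (a (π x0) (π x1) + G 0 x0 + G 0 x1) * G 1 x1 * a (π x1) (π x2) +
    (a (π x0) (π x1) + G 0 x0 + G 0 x1) * (a (π x1) (π x2) + G 1 x1 + G 1 x2) * G 2 x2,
    fun p0 p1 p2 p3 hs => ?_⟩
  have hs1 : Small Z lam1 [p0, p1, p2, p3] := hs.mono Subset.rfl (min_le_left _ _) (by simp)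
  have hs2 : Small Z lam2 [p0, p1, p2, p3] := hs.mono Subset.rfl (min_le_right _ _) (by simp)
  have c1 := hcoc p0 p1 p2 (hs1.sub (by simp))
  have c2 := hcoc p1 p2 p3 (hs1.sub (by simp))
  have c3 := hcoc p0 p1 p3 (hs1.sub (by simp))
  obtain ⟨b, hb, hab⟩ := hG [p0, p1, p2, p3] (by simp) hs2
  have hz : (a (π p0) (π p1) + G 0 p0 + G 0 p1) * (a (π p1) (π p2) + G 1 p1 + G 1 p2) *
      (a (π p2) (π p3) + G 2 p2 + G 2 p3) = 0 := by
    have hch : ∀ x y : ZMod 2, x + y + x + y = 0 := by decide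
    rcases (by omega : b = 0 ∨ b = 1 ∨ b = 2) with rfl | rfl | rfl
    · rw [hab p0 (by simp) p1 (by simp), hch]; ring
    · rw [hab p1 (by simp) p2 (by simp), hch]; ring
    · rw [hab p2 (by simp) p3 (by simp), hch]; ring
  have e02 : a (π p0) (π p2) = a (π p0) (π p1) + a (π p1) (π p2) := by
    generalize a (π p0) (π p2) = x at *
    generalize a (π p0) (π p1) = y at *
    generalize a (π p1) (π p2) = z at *
    revert c1
    clear * -
    revert x y z
    decide
  have e13 : a (π p1) (π p3) = a (π p1) (π p2) + a (π p2) (π p3) := by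
    generalize a (π p1) (π p3) = x at *
    generalize a (π p1) (π p2) = y at *
    generalize a (π p2) (π p3) = z at *
    revert c2
    clear * -
    revert x y z
    decide
  have e03 : a (π p0) (π p3) = a (π p0) (π p1) + a (π p1) (π p3) := by
    generalize a (π p0) (π p3) = x at *
    generalize a (π p0) (π p1) = y at *
    generalize a (π p1) (π p3) = z at *
    revert c3
    clear * -
    revert x y z
    decide
  have h0 : ∀ x y : ZMod 2, x + y = 0 → x = y := by decide
  apply h0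
  simp only [cup3]
  rw [e02, e13]
  have h2 : (2 : ZMod 2) = 0 := rfl
  linear_combination (norm := skip) hz
  ring_nf
  simp only [h2, mul_zero, add_zero]
  
end Pool.Agent.CmpDef
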