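import Pool.Agent.CmpDef.Nets
import Pool.Agent.CmpDef.LS
import Pool.Agent.CmpDef.Base

/-!
# The base data exist
-/

open Set TopologicalSpace Filter Topology

namespace Pool.Agent.CmpDef

/-- the closed set of the points of `ZRP 13 3` with small coordinates `i` and `j`. -/
def beSet (i j : Fin 13) : Set (RP 13) :=
  {P | P ∈ ZRP 13 3 ∧ P.1 i i ≤ 1 / 16 ∧ P.1 j j ≤ 1 / 16}

theorem isClosed_beSet (i j : Fin 13) : IsClosed (beSet i j) := by
  have h1 : ∀ i : Fin 13, Continuous (fun P : RP 13 => P.1 i i) := by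
    intro i
    exact (continuous_apply i).comp ((continuous_apply i).comp continuous_subtype_val)
  exact (isClosed_ZRP 13 3).inter
    ((isClosed_le (h1 i) continuous_const).inter (isClosed_le (h1 j) continuous_const))

theorem beSet_disj : Disjoint (beSet 2 3) (beSet 0 1) := by
  rw [Set.disjoint_left]
  rintro P ⟨hZ, h2, h3⟩ ⟨-, h0, h1⟩
  obtain ⟨i, hi⟩ := rp_exists_abs (sec P) (norm_sec P)
  have hi2 : P.1 i i = 1 := by rw [← sq_sec, ← sq_abs, hi, one_pow]
  have hi3 : (i : ℕ) ≤ 3 := by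
    by_contra hcon
    have := hZ i (by omega)
    rw [this, abs_zero] at hi
    norm_num at hi
  have hc : i = 0 ∨ i = 1 ∨ i = 2 ∨ i = 3 := by
    have hlt := i.2
    rcases (by omega : (i : ℕ) = 0 ∨ (i : ℕ) = 1 ∨ (i : ℕ) = 2 ∨ (i : ℕ) = 3) with h | h | h | h
    · exact Or.inl (Fin.ext h)
    · exact Or.inr (Or.inl (Fin.ext h))
    · exact Or.inr (Or.inr (Or.inl (Fin.ext h)))
    · exact Or.inr (Or.inr (Or.inr (Fin.ext h)))
  rcases hc with rfl | rfl | rfl | rfl
  · rw [hi2] at h0; norm_num at h0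
  · rw [hi2] at h1; norm_num at h1
  · rw [hi2] at h2; norm_num at h2
  · rw [hi2] at h3; norm_num at h3

/-- primitive of `a ∪ a`. -/
noncomputable def bePrim (g0 g1 : RP 13 → ZMod 2) (P Q : RP 13) : ZMod 2 :=
  g0 P * aRP P Q + (aRP P Q + g0 P + g0 Q) * g1 Q

theorem be_coord_near (i : Fin 13) (P Q : RP 13) (h : 1 / 16 < P.1 i i) (hd : dist P Q < 1 / 32) :
    1 / 8 < |sec Q i| := by
  have h1 : dist P Q = dist P.1 Q.1 := rfl
  have h2 : dist (P.1 i i) (Q.1 i i) ≤ dist P.1 Q.1 :=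
    (dist_le_pi_dist (P.1 i) (Q.1 i) i).trans (dist_le_pi_dist P.1 Q.1 i)
  rw [← h1, Real.dist_eq] at h2
  have h3 := abs_lt.1 (h2.trans_lt hd)
  have h4 : sec Q i ^ 2 = Q.1 i i := sq_sec Q i
  by_contra hcon
  have h5 : |sec Q i| ≤ 1 / 8 := not_lt.1 hcon
  have h6 : sec Q i ^ 2 ≤ 1 / 64 := by
    rw [← sq_abs]
    have := abs_nonneg (sec Q i)
    nlinarith
  linarith

theorem bePrim_eq (i j : Fin 13) (g0 g1 : RP 13 → ZMod 2)
    (h0 : ∀ P Q : RP 13, 1 / 8 < |sec P i| → 1 / 8 < |sec Q i| → dist P Q < 1 / 16 →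
      aRP P Q = g0 P + g0 Q)
    (h1 : ∀ P Q : RP 13, 1 / 8 < |sec P j| → 1 / 8 < |sec Q j| → dist P Q < 1 / 16 →
      aRP P Q = g1 P + g1 Q)
    (P0 P1 P2 : RP 13) (hs : Small (ZRP 13 3) (1 / 32) [P0, P1, P2]) (hP : P0 ∉ beSet i j) :
    aRP P0 P1 * aRP P1 P2 = bePrim g0 g1 P1 P2 + bePrim g0 g1 P0 P2 + bePrim g0 g1 P0 P1 := by
  have hZ := hs.1 P0 (by simp)
  have d00 := hs.2 P0 (by simp) P0 (by simp)
  have d01 := hs.2 P0 (by simp) P1 (by simp)
  have d02 := hs.2 P0 (by simp) P2 (by simp)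
  have d12 := hs.2 P1 (by simp) P2 (by simp)
  have hor : 1 / 16 < P0.1 i i ∨ 1 / 16 < P0.1 j j := by
    by_contra hcon
    push Not at hcon
    exact hP ⟨hZ, hcon.1, hcon.2⟩
  unfold bePrim
  rcases hor with h | h
  · have n0 := be_coord_near i P0 P0 h d00
    have n1 := be_coord_near i P0 P1 h d01
    have n2 := be_coord_near i P0 P2 h d02
    rw [h0 P0 P1 n0 n1 (by linarith), h0 P1 P2 n1 n2 (by linarith), h0 P0 P2 n0 n2 (by linarith)]
    generalize g0 P0 = x0
    generalize g0 P1 = x1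
    generalize g0 P2 = x2
    generalize g1 P1 = y1
    generalize g1 P2 = y2
    clear * -
    revert x0 x1 x2 y1 y2
    decide
  · have n0 := be_coord_near j P0 P0 h d00
    have n1 := be_coord_near j P0 P1 h d01
    have n2 := be_coord_near j P0 P2 h d02
    rw [h1 P0 P1 n0 n1 (by linarith), h1 P1 P2 n1 n2 (by linarith), h1 P0 P2 n0 n2 (by linarith)]
    generalize g0 P0 = x0
    generalize g0 P1 = x1
    generalize g0 P2 = x2
    generalize g1 P0 = y0
    generalize g1 P1 = y1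
    generalize g1 P2 = y2
    clear * -
    revert x0 x1 x2 y0 y1 y2
    decide

/-- the common part of the two non-exactness statements. -/
theorem be_nonexact (k : ℕ) (M : Set (RP 13)) (ρ : Fin k → RP 13 → ℝ) (κ : ℝ) (hκ : 0 < κ)
    (hc : ∀ l, Continuous (ρ l)) (hM : ∀ P, P ∉ M → ∃ l, κ < ρ l P)
    (htriv : ∀ l, ∃ g : RP 13 → ZMod 2, ∀ P Q, 0 < ρ l P → 0 < ρ l Q → aRP P Q = g P + g Q)
    (j q m : ℕ) (hj : j < 13) (hq : 0 < q) (hqm : q + m = j)
    (hcard : ∀ P ∈ ZRP 13 j, {l | 0 < ρ l P}.ncard ≤ m)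
    (η : List (RP 13) → ZMod 2) (h0 : η [] = 0) (lam : ℝ) (hlam : 0 < lam)
    (h1 : ∀ l : List (RP 13), l.length = q + 1 → Small (M ∩ ZRP 13 j) lam l →
      acup aRP q l = lcob η l) : False := by
  classical
  have := compactSpace_RP 13
  have huc : ∀ l, UniformContinuous (ρ l) := fun l =>
    CompactSpace.uniformContinuous_of_continuous (hc l)
  choose g hg using htriv
  obtain ⟨lam2, hlam2, G, hG⟩ := ls_lemma (T := RP 13) {P | P ∈ ZRP 13 j ∧ ∃ l, κ / 2 ≤ ρ l P} aRP ρ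
    huc m (fun p hp => hcard p hp.1) (κ / 2) (by positivity) (fun p hp => hp.2) g
    (fun i p _ q _ hp hq => hg i p q hp hq)
  have huc2 : ∀ i, ∃ l > 0, ∀ p q : RP 13, dist p q < l → |ρ i p - ρ i q| < κ / 2 := by
    intro i
    obtain ⟨l, h1, h2⟩ := Metric.uniformContinuous_iff.1 (huc i) (κ / 2) (by positivity)
    exact ⟨l, h1, fun p q hpq => by have := h2 hpq; rwa [Real.dist_eq] at this⟩
  choose mu hmu hmu2 using huc2
  obtain ⟨lam3, hlam3, hle⟩ : ∃ lam3 > 0, ∀ i, lam3 ≤ mu i := by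
    rcases isEmpty_or_nonempty (Fin k) with he | he
    · exact ⟨1, one_pos, fun i => he.elim i⟩
    · refine ⟨Finset.univ.inf' Finset.univ_nonempty mu, ?_, fun i =>
        Finset.inf'_le _ (Finset.mem_univ i)⟩
      rw [gt_iff_lt, Finset.lt_inf'_iff]
      exact fun i _ => hmu i
  refine base_nonexact 13 j hj q m hq hqm M η h0 G (min lam (min lam2 lam3))
    (lt_min hlam (lt_min hlam2 hlam3)) (fun l hl hs => h1 l hl (hs.mono Subset.rfl (min_le_left _ _)
      (fun x hx => hx))) (fun l hl hs => ?_)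
  by_cases hall : ∀ p ∈ l, p ∈ M
  · exact Or.inl hall
  · right
    push Not at hall
    obtain ⟨p0, hp0, hp0M⟩ := hall
    obtain ⟨i, hi⟩ := hM p0 hp0M
    refine hG l (List.ne_nil_of_mem hp0) ⟨fun p hp => ⟨hs.1 p hp, i, ?_⟩, fun p hp p' hp' =>
      (hs.2 p hp p' hp').trans_le ((min_le_right _ _).trans (min_le_left _ _))⟩
    have h3 := hmu2 i p0 p (((hs.2 p0 hp0 p hp).trans_le
      ((min_le_right _ _).trans (min_le_right _ _))).trans_le (hle i))
    have h4 := abs_lt.1 h3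
    linarith

theorem baseData_exists : Nonempty (BaseData (RP 13)) := by
  obtain ⟨psi, r, M, eps, Lab, lab, h1, h2, h3, h4, h5, h6, h7⟩ := exists_spheres
  obtain ⟨g0, hg0⟩ := aRP_coord (N := 13) 0
  obtain ⟨g1, hg1⟩ := aRP_coord (N := 13) 1
  obtain ⟨g2, hg2⟩ := aRP_coord (N := 13) 2
  obtain ⟨g3, hg3⟩ := aRP_coord (N := 13) 3
  refine ⟨{
    a := aRP
    a_self := aRP_self
    c := 1 / 32
    c_pos := by norm_num
    a_coc := fun P Q R hs => aRP_coc P Q R (hs.mono Subset.rfl (by norm_num) (fun x hx => hx))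
    psi := psi
    psi_cont := h1
    r := r
    basis := h2
    M := M
    M_closed := h3
    eps := eps
    eps_lim := h4
    Lab := Lab
    lab := lab
    lab_loc := h5
    lab_diam := h6
    nonexact6 := ?_
    Z := ZRP 13 3
    Z_closed := isClosed_ZRP 13 3
    nonexact2 := ?_
    A := beSet 2 3
    B := beSet 0 1
    A_closed := isClosed_beSet 2 3
    B_closed := isClosed_beSet 0 1
    disj := beSet_disj
    etaP := bePrim g0 g1
    etaQ := bePrim g2 g3
    hP := bePrim_eq 0 1 g0 g1 hg0 hg1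
    hQ := bePrim_eq 2 3 g2 g3 hg2 hg3 }⟩
  · rintro k ⟨lam, hlam, η, hη⟩
    obtain ⟨ρ, κ, hκ, hc, hM, hc6, -, htriv⟩ := h7 k
    refine be_nonexact k (M k) ρ κ hκ hc hM htriv 12 6 6 (by norm_num) (by norm_num) (by norm_num)
      (fun P _ => hc6 P)
      (fun l => match l with
        | [x0, x1, x2, x3, x4, x5] => η x0 x1 x2 x3 x4 x5
        | _ => 0) rfl lam hlam ?_
    intro l hl hs
    match l, hl with
    | [x0, x1, x2, x3, x4, x5, x6], _ =>
      have h8 := hη x0 x1 x2 x3 x4 x5 x6 (hs.mono inter_subset_left le_rfl (fun x hx => hx))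
      have e1 : acup aRP 6 [x0, x1, x2, x3, x4, x5, x6] =
          sq3 (cup3 aRP) x0 x1 x2 x3 x4 x5 x6 := by
        simp only [acup, sq3, cup3]
        ring
      rw [e1, h8]
      simp only [lcob]
      ring
  · rintro k ⟨lam, hlam, w, hw⟩
    obtain ⟨ρ, κ, hκ, hc, hM, -, hc1, htriv⟩ := h7 k
    refine be_nonexact k (M k) ρ κ hκ hc hM htriv 3 2 1 (by norm_num) (by norm_num) (by norm_num)
      hc1
      (fun l => match l with
        | [x0, x1] => w x0 x1
        | _ => 0) rfl lam hlam ?_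
    intro l hl hs
    match l, hl with
    | [x0, x1, x2], _ =>
      have h8 := hw x0 x1 x2 hs
      have e1 : acup aRP 2 [x0, x1, x2] = cup2 aRP x0 x1 x2 := by
        simp only [acup, cup2]
        ring
      rw [e1]
      simp only [id] at h8
      rw [h8]
      simp only [lcob]
      ring

end Pool.Agent.CmpDef
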