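import Pool.Agent.CmpDef.Defs

/-!
# Small tuples, mod 2 cochains on small tuples

`Small Z lam l`: the list `l` consists of points of `Z` at pairwise distance `< lam`.
Exactness of a base cochain `z` pulled back along `π : T → D` over the small tuples of `Z ⊆ T`.
-/

open Set TopologicalSpace Filter Topology

namespace Pool.Agent.CmpDef

/-- the members of the list `l` lie in `Z` and have pairwise distance `< lam`. -/
def Small {T : Type*} [PseudoMetricSpace T] (Z : Set T) (lam : ℝ) (l : List T) : Prop :=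
  (∀ p ∈ l, p ∈ Z) ∧ ∀ p ∈ l, ∀ q ∈ l, dist p q < lam

theorem Small.mono {T : Type*} [PseudoMetricSpace T] {Z Z' : Set T} {lam lam' : ℝ}
    {l l' : List T} (h : Small Z lam l) (hZ : Z ⊆ Z') (hl : lam ≤ lam') (hs : l' ⊆ l) :
    Small Z' lam' l' :=
  ⟨fun p hp => hZ (h.1 p (hs hp)), fun p hp q hq => (h.2 p (hs hp) q (hs hq)).trans_le hl⟩

theorem Small.sub {T : Type*} [PseudoMetricSpace T] {Z : Set T} {lam : ℝ}
    {l l' : List T} (h : Small Z lam l) (hs : l' ⊆ l) : Small Z lam l' :=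
  h.mono Subset.rfl le_rfl hs

/-- list coboundary (mod 2):
`lcob ζ [x₀, …, xₙ] = ∑ ζ [x₀, …, x̂ᵢ, …, xₙ]`. -/
def lcob {T : Type*} : (List T → ZMod 2) → List T → ZMod 2
  | _, [] => 0
  | ζ, x :: l => ζ l + lcob (fun m => ζ (x :: m)) l

/-- `acup a n [x₀, …, xₙ] = a x₀ x₁ * ⋯ * a xₙ₋₁ xₙ`. -/
def acup {T : Type*} (a : T → T → ZMod 2) : ℕ → List T → ZMod 2
  | 0, _ => 1
  | n + 1, x :: y :: l => a x y * acup a n (y :: l)
  | _ + 1, _ => 0

variable {T D : Type*} [PseudoMetricSpace T]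

/-- the pull back of the base 2-cochain `z` along `π` is a coboundary on the small triples of `Z`.
-/
def Exact2 (z : D → D → D → ZMod 2) (π : T → D) (Z : Set T) : Prop :=
  ∃ lam > 0, ∃ w : T → T → ZMod 2, ∀ p0 p1 p2, Small Z lam [p0, p1, p2] →
    z (π p0) (π p1) (π p2) = w p1 p2 + w p0 p2 + w p0 p1

/-- the pull back of the base 3-cochain `z` along `π` is a coboundary on the small 4-tuples of
`Z`. -/
def Exact3 (z : D → D → D → D → ZMod 2) (π : T → D) (Z : Set T) : Prop :=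
  ∃ lam > 0, ∃ w : T → T → T → ZMod 2, ∀ p0 p1 p2 p3, Small Z lam [p0, p1, p2, p3] →
    z (π p0) (π p1) (π p2) (π p3) = w p1 p2 p3 + w p0 p2 p3 + w p0 p1 p3 + w p0 p1 p2

/-- the 3-cochain `z` is a cocycle on the small 5-tuples of `M`. -/
def Cocyc3 (z : T → T → T → T → ZMod 2) (M : Set T) : Prop :=
  ∃ lam > 0, ∀ x0 x1 x2 x3 x4, Small M lam [x0, x1, x2, x3, x4] →
    z x1 x2 x3 x4 + z x0 x2 x3 x4 + z x0 x1 x3 x4 + z x0 x1 x2 x4 + z x0 x1 x2 x3 = 0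

/-- the 6-cochain `Z6` is a coboundary on the small 7-tuples of `M`. -/
def Exact6 (Z6 : T → T → T → T → T → T → T → ZMod 2) (M : Set T) : Prop :=
  ∃ lam > 0, ∃ η : T → T → T → T → T → T → ZMod 2,
    ∀ x0 x1 x2 x3 x4 x5 x6, Small M lam [x0, x1, x2, x3, x4, x5, x6] →
      Z6 x0 x1 x2 x3 x4 x5 x6 =
        η x1 x2 x3 x4 x5 x6 + η x0 x2 x3 x4 x5 x6 + η x0 x1 x3 x4 x5 x6 + η x0 x1 x2 x4 x5 x6
          + η x0 x1 x2 x3 x5 x6 + η x0 x1 x2 x3 x4 x6 + η x0 x1 x2 x3 x4 x5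

/-- `a ∪ a`. -/
def cup2 {T : Type*} (a : T → T → ZMod 2) (x0 x1 x2 : T) : ZMod 2 := a x0 x1 * a x1 x2

/-- `a ∪ a ∪ a`. -/
def cup3 {T : Type*} (a : T → T → ZMod 2) (x0 x1 x2 x3 : T) : ZMod 2 :=
  a x0 x1 * a x1 x2 * a x2 x3

/-- `z ∪ z` for a 3-cochain `z`. -/
def sq3 {T : Type*} (z : T → T → T → T → ZMod 2) (x0 x1 x2 x3 x4 x5 x6 : T) : ZMod 2 :=
  z x0 x1 x2 x3 * z x3 x4 x5 x6

/-- Normalised 3-cochains. -/
def Norm3 {T : Type*} (z : T → T → T → T → ZMod 2) : Prop :=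
  ∀ x y t, z x x y t = 0 ∧ z x y y t = 0 ∧ z x y t t = 0

/-- Normalised 2-cochains. -/
def Norm2 {T : Type*} (z : T → T → T → ZMod 2) : Prop :=
  ∀ x y, z x x y = 0 ∧ z x y y = 0

end Pool.Agent.CmpDef
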