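import Mathlib

/-!
# Compactness degrees and compactness deficiency (MP_00f8de_gt)

All indices are shifted by one, so that they are natural numbers:
`SmallLE n X` says `cmp X ≤ n - 1`, `LargeLE n X` says `Cmp X ≤ n - 1`, `CovDimLE n X` says
`dim X ≤ n - 1` (covering dimension) and `DefLE n X` says `def X ≤ n - 1`.
-/

open Set TopologicalSpace

namespace Pool.Agent.CmpDef

/-- `S` is a partition between `A` and `B` in the space `X`: `S` is closed and its complement is
the union of disjoint open sets `V ⊇ A` and `W ⊇ B`. -/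
def IsPartition {X : Type} [TopologicalSpace X] (A B S : Set X) : Prop :=
  IsClosed S ∧ ∃ V W : Set X, IsOpen V ∧ IsOpen W ∧ Disjoint V W ∧ Sᶜ = V ∪ W ∧ A ⊆ V ∧ B ⊆ W

/-- `SmallLE n X`: the small inductive compactness degree satisfies `cmp X ≤ n - 1`. -/
def SmallLE : ℕ → (X : Type) → [TopologicalSpace X] → Prop
  | 0, X, _ => CompactSpace X
  | n + 1, X, _ => ∀ (p : X) (G : Set X), IsClosed G → p ∉ G →
      ∃ S : Set X, IsPartition {p} G S ∧ SmallLE n S

/-- `LargeLE n X`: the large inductive compactness degree satisfies `Cmp X ≤ n - 1`.  As usual,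
`Cmp X = cmp X` if one of them is `-1` or `0`, and for `n ≥ 1`, `Cmp X ≤ n` means that between any
two disjoint closed sets there is a partition `S` with `Cmp S ≤ n - 1`. -/
def LargeLE : ℕ → (X : Type) → [TopologicalSpace X] → Prop
  | 0, X, _ => CompactSpace X
  | 1, X, _ => SmallLE 1 X
  | n + 2, X, _ => ∀ F G : Set X, IsClosed F → IsClosed G → Disjoint F G →
      ∃ S : Set X, IsPartition F G S ∧ LargeLE (n + 1) S

/-- `CovDimLE n Z`: the covering dimension satisfies `dim Z ≤ n - 1`, that is, every finite open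
cover of `Z` has a finite open refinement such that each point lies in at most `n` members. -/
def CovDimLE (n : ℕ) (Z : Type) [TopologicalSpace Z] : Prop :=
  ∀ 𝒰 : Set (Set Z), 𝒰.Finite → (∀ U ∈ 𝒰, IsOpen U) → ⋃₀ 𝒰 = univ →
    ∃ 𝒱 : Set (Set Z), 𝒱.Finite ∧ (∀ V ∈ 𝒱, IsOpen V) ∧ ⋃₀ 𝒱 = univ ∧
      (∀ V ∈ 𝒱, ∃ U ∈ 𝒰, V ⊆ U) ∧ ∀ z : Z, {V ∈ 𝒱 | z ∈ V}.encard ≤ n

/-- `DefLE n X`: the compactness deficiency satisfies `def X ≤ n - 1`, that is, there is a
metrizable compactification `Y` of `X` with `dim (Y \ X) ≤ n - 1`. -/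
def DefLE (n : ℕ) (X : Type) [TopologicalSpace X] : Prop :=
  ∃ (Y : Type) (_ : TopologicalSpace Y) (e : X → Y), CompactSpace Y ∧ MetrizableSpace Y ∧
    Topology.IsEmbedding e ∧ DenseRange e ∧ CovDimLE n ↥((range e)ᶜ)

/-- `cmp X + 1`, an element of `{0, 1, 2, …} ∪ {∞}`. -/
noncomputable def cmpSmallSucc (X : Type) [TopologicalSpace X] : ℕ∞ :=
  ⨅ (n : ℕ) (_ : SmallLE n X), (n : ℕ∞)

/-- `Cmp X + 1`, an element of `{0, 1, 2, …} ∪ {∞}`. -/
noncomputable def cmpLargeSucc (X : Type) [TopologicalSpace X] : ℕ∞ :=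
  ⨅ (n : ℕ) (_ : LargeLE n X), (n : ℕ∞)

/-- `def X + 1`, an element of `{0, 1, 2, …} ∪ {∞}`. -/
noncomputable def defSucc (X : Type) [TopologicalSpace X] : ℕ∞ :=
  ⨅ (n : ℕ) (_ : DefLE n X), (n : ℕ∞)

end Pool.Agent.CmpDef
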