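import Pool.Agent.CmpDef.Basic

/-!
# The fibre spaces
-/

open Set TopologicalSpace Filter Topology

namespace Pool.Agent.CmpDef

/-- The vertices of the fibres: `A`, `B` (colour 0), `one c` (colour 1), `two c` (colour 2). -/
inductive Vx (J : Type) : Type
  | A : Vx J
  | B : Vx J
  | one : J → Vx J
  | two : J → Vx J
  deriving DecidableEq, Fintype

/-- the colours -/
def Vx.col {J : Type} : Vx J → Fin 3
  | .A => 0
  | .B => 0
  | .one _ => 1
  | .two _ => 2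

/-- the set of base points over which a vertex is available -/
def Vx.supp {J D : Type} [MetricSpace D] (ctr : J → D) (ε : ℝ) (φ : D → ℝ) : Vx J → Set D
  | .A => {x | φ x ≤ 2 / 3}
  | .B => {x | 1 / 3 ≤ φ x}
  | .one c => Metric.closedBall (ctr c) ε
  | .two c => Metric.closedBall (ctr c) ε

/-- the fibre over `x` in one coordinate -/
def Kset {J D : Type} [Fintype J] [MetricSpace D] (ctr : J → D) (ε : ℝ) (φ : D → ℝ) (x : D) :
    Set (Vx J → ℝ) :=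
  {q | (∀ v, 0 ≤ q v) ∧ ∑ v, q v = 1 ∧
    (∀ v v', v ≠ v' → v.col = v'.col → q v = 0 ∨ q v' = 0) ∧ ∀ v, q v ≠ 0 → x ∈ v.supp ctr ε φ}

/-- the total space with active coordinates `I` -/
def EE {J D ι : Type} [Fintype J] [MetricSpace D] (ctr : J → D) (ε : ℝ) (φ : ι → D → ℝ)
    (M : Set D) (I : Finset ι) : Set (D × (ι → Vx J → ℝ)) :=
  {p | p.1 ∈ M ∧ (∀ i ∈ I, p.2 i ∈ Kset ctr ε (φ i) p.1) ∧ ∀ i ∉ I, p.2 i = 0}

/-- the space over `E ⊆ T` with one more coordinate -/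
def EK {J D T : Type} [Fintype J] [MetricSpace D] (ctr : J → D) (ε : ℝ) (φ : D → ℝ)
    (π : T → D) (E : Set T) : Set (T × (Vx J → ℝ)) :=
  {p | p.1 ∈ E ∧ p.2 ∈ Kset ctr ε φ (π p.1)}

/-- The properties of `E ⊆ T` over `M ⊆ D` used by the peeling lemma. -/
structure FibreHyp {D T : Type} [MetricSpace D] [MetricSpace T] (π : T → D) (E : Set T)
    (M : Set D) (ε : ℝ) : Prop where
  lip : ∀ p q, dist (π p) (π q) ≤ dist p q
  mem : ∀ p ∈ E, π p ∈ M
  sec : ∀ x ∈ M, ∃ s : D → T, (∀ x' ∈ M, dist x x' < ε / 2 → s x' ∈ E ∧ π (s x') = x') ∧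
    ∀ x' ∈ M, ∀ x'' ∈ M, dist x x' < ε / 2 → dist x x'' < ε / 2 →
      dist (s x') (s x'') ≤ dist x' x''
  conn : ∀ x ∈ M, IsPreconnected {p | p ∈ E ∧ π p = x}

/-- characteristic function of `{θ ≤ φ}` -/
noncomputable def chi {D : Type} (φ : D → ℝ) (θ : ℝ) (x : D) : ZMod 2 :=
  open Classical in if θ ≤ φ x then 1 else 0

/-- `z + δχ ∪ Φ` -/
noncomputable def addU {D : Type} (z : D → D → D → D → ZMod 2) (φ : D → ℝ) (θ : ℝ)
    (Φ : D → D → D → ZMod 2) : D → D → D → D → ZMod 2 :=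
  fun x0 x1 x2 x3 => z x0 x1 x2 x3 + (chi φ θ x0 + chi φ θ x1) * Φ x1 x2 x3

/-- the 2-cochain `Φ` is a cocycle on the small 4-tuples of `M`. -/
def Cocyc2 {T : Type*} [PseudoMetricSpace T] (Φ : T → T → T → ZMod 2) (M : Set T) : Prop :=
  ∃ lam > 0, ∀ x0 x1 x2 x3, Small M lam [x0, x1, x2, x3] →
    Φ x1 x2 x3 + Φ x0 x2 x3 + Φ x0 x1 x3 + Φ x0 x1 x2 = 0

end Pool.Agent.CmpDef
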