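import Pool.Agent.CmpDef.Fibre

/-!
# Facts about the fibre spaces `EE`
-/

open Set TopologicalSpace Filter Topology

namespace Pool.Agent.CmpDef

variable {J D ι : Type} [Fintype J] [MetricSpace D] [Fintype ι] [DecidableEq ι]

namespace FF

/-- the vertex `v` of the simplex -/
noncomputable def ev (v : Vx J) : Vx J → ℝ :=
  open Classical in fun u => if u = v then 1 else 0

omit [Fintype J] in
theorem ev_self (v : Vx J) : ev v v = 1 := by simp [ev]

omit [Fintype J] in
theorem ev_ne {u v : Vx J} (h : u ≠ v) : ev v u = 0 := by simp [ev, h]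

omit [Fintype J] in
theorem ev_ne_zero {u v : Vx J} (h : ev v u ≠ 0) : u = v := by
  by_contra h'
  exact h (ev_ne h')

theorem sum_ev (v : Vx J) : ∑ u, ev v u = 1 := by
  classical
  simp [ev]

omit [Fintype J] in
theorem ev_nonneg (v u : Vx J) : 0 ≤ ev v u := by
  unfold ev
  split_ifs <;> norm_num

theorem ev_mem (ctr : J → D) (ε : ℝ) (φ : D → ℝ) (x : D) (v : Vx J) (hv : x ∈ v.supp ctr ε φ) :
    ev v ∈ Kset ctr ε φ x := by
  refine ⟨ev_nonneg v, sum_ev v, ?_, ?_⟩
  · intro u u' hne _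
    by_cases h : u = v
    · right
      refine ev_ne ?_
      rintro rfl
      exact hne h
    · left
      exact ev_ne h
  · intro u hu
    rw [ev_ne_zero hu]
    exact hv

theorem joined_of_ne_zero (ctr : J → D) (ε : ℝ) (φ : D → ℝ) (x : D) {q : Vx J → ℝ}
    (hq : q ∈ Kset ctr ε φ x) {v : Vx J} (hv : q v ≠ 0) : JoinedIn (Kset ctr ε φ x) q (ev v) := by
  refine JoinedIn.of_segment_subset ?_
  rintro r ⟨a, b, ha, hb, hab, rfl⟩
  obtain ⟨h1, h2, h3, h4⟩ := hq
  have hz : ∀ u, q u = 0 → (a • q + b • ev v) u = 0 := by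
    intro u hu
    have : u ≠ v := by
      rintro rfl
      exact hv hu
    simp [hu, ev_ne this]
  refine ⟨?_, ?_, ?_, ?_⟩
  · intro u
    have := h1 u
    have := ev_nonneg v u
    simp only [Pi.add_apply, Pi.smul_apply, smul_eq_mul]
    positivity
  · simp only [Pi.add_apply, Pi.smul_apply, smul_eq_mul, Finset.sum_add_distrib,
      ← Finset.mul_sum, h2, sum_ev]
    linarith
  · intro u u' hne hcol
    rcases h3 u u' hne hcol with h | h
    · left; exact hz u h
    · right; exact hz u' h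
  · intro u hu
    refine h4 u fun h => hu (hz u h)

theorem joined_ev_ev (ctr : J → D) (ε : ℝ) (φ : D → ℝ) (x : D) {v v' : Vx J}
    (hv : x ∈ v.supp ctr ε φ) (hv' : x ∈ v'.supp ctr ε φ) (hcol : v.col ≠ v'.col) :
    JoinedIn (Kset ctr ε φ x) (ev v) (ev v') := by
  have hne : v ≠ v' := by rintro rfl; exact hcol rfl
  let m : Vx J → ℝ := fun u => (ev v u + ev v' u) / 2
  have hms : ∀ u, m u ≠ 0 → u = v ∨ u = v' := by
    intro u hu
    by_contra h
    push Not at h
    apply hu
    simp only [m, ev_ne h.1, ev_ne h.2]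
    norm_num
  have hm : m ∈ Kset ctr ε φ x := by
    refine ⟨?_, ?_, ?_, ?_⟩
    · intro u
      have := ev_nonneg v u
      have := ev_nonneg v' u
      simp only [m]
      positivity
    · simp only [m, ← Finset.sum_div, Finset.sum_add_distrib, sum_ev]
      norm_num
    · intro u u' hne' hc
      by_contra h
      push Not at h
      rcases hms u h.1 with rfl | rfl <;> rcases hms u' h.2 with rfl | rfl
      · exact hne' rfl
      · exact hcol hc
      · exact hcol hc.symm
      · exact hne' rfl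
    · intro u hu
      rcases hms u hu with rfl | rfl
      · exact hv
      · exact hv'
  have h1 : m v ≠ 0 := by
    simp only [m, ev_self, ev_ne hne]
    norm_num
  have h2 : m v' ≠ 0 := by
    simp only [m, ev_self, ev_ne hne.symm]
    norm_num
  exact (joined_of_ne_zero ctr ε φ x hm h1).symm.trans (joined_of_ne_zero ctr ε φ x hm h2)

end FF

theorem Kset_preconnected (ctr : J → D) (ε : ℝ) (hε : 0 < ε)
    (hctr : ∀ x, ∃ c, dist x (ctr c) < ε / 2) (φ : D → ℝ) (x : D) :
    IsPreconnected (Kset ctr ε φ x) := by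
  obtain ⟨c, hc⟩ := hctr x
  have hc' : x ∈ Metric.closedBall (ctr c) ε := by
    rw [Metric.mem_closedBall]
    linarith
  have h1 : x ∈ (Vx.one c).supp ctr ε φ := hc'
  have h2 : x ∈ (Vx.two c).supp ctr ε φ := hc'
  have hpc : IsPathConnected (Kset ctr ε φ x) := by
    refine ⟨FF.ev (Vx.one c), FF.ev_mem ctr ε φ x _ h1, ?_⟩
    intro q hq
    have hex : ∃ v, q v ≠ 0 := by
      by_contra h
      push Not at h
      have := hq.2.1
      simp [h] at this
    obtain ⟨v, hv⟩ := hex
    have hvs := hq.2.2.2 v hv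
    refine JoinedIn.symm ((FF.joined_of_ne_zero ctr ε φ x hq hv).trans ?_)
    match v, hvs with
    | Vx.A, hvs => exact FF.joined_ev_ev ctr ε φ x hvs h1 (by simp [Vx.col])
    | Vx.B, hvs => exact FF.joined_ev_ev ctr ε φ x hvs h1 (by simp [Vx.col])
    | Vx.two c', hvs => exact FF.joined_ev_ev ctr ε φ x hvs h1 (by simp [Vx.col])
    | Vx.one c', hvs =>
      exact (FF.joined_ev_ev ctr ε φ x hvs h2 (by simp [Vx.col])).trans
        (FF.joined_ev_ev ctr ε φ x h2 h1 (by simp [Vx.col]))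
  exact hpc.isConnected.isPreconnected

theorem fibreHyp_EE (ctr : J → D) (ε : ℝ) (hε : 0 < ε)
    (hctr : ∀ x, ∃ c, dist x (ctr c) < ε / 2) (φ : ι → D → ℝ) (M : Set D) (I : Finset ι) :
    FibreHyp Prod.fst (EE ctr ε φ M I) M ε where
  lip := fun p q => by
    rw [Prod.dist_eq]
    exact le_max_left _ _
  mem := fun p hp => hp.1
  sec := by
    intro x _
    obtain ⟨c, hc⟩ := hctr x
    refine ⟨fun x' => (x', fun i => if i ∈ I then FF.ev (Vx.one c) else 0), ?_, ?_⟩
    · intro x' hx' hd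
      refine ⟨⟨hx', ?_, ?_⟩, rfl⟩
      · intro i hi
        simp only [hi, if_true]
        refine FF.ev_mem ctr ε (φ i) x' _ ?_
        change x' ∈ Metric.closedBall (ctr c) ε
        rw [Metric.mem_closedBall]
        have := dist_triangle x' x (ctr c)
        rw [dist_comm x' x] at this
        linarith
      · intro i hi
        simp only [hi, if_false]
    · intro x' _ x'' _ _ _
      rw [Prod.dist_eq]
      simp
  conn := by
    intro x hx
    have : {p : D × (ι → Vx J → ℝ) | p ∈ EE ctr ε φ M I ∧ p.1 = x} =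
        {x} ×ˢ Set.pi univ (fun i => if i ∈ I then Kset ctr ε (φ i) x else {0}) := by
      ext p
      simp only [mem_prod, mem_singleton_iff, Set.mem_pi, mem_univ, true_implies, mem_ofPred_eq]
      constructor
      · rintro ⟨⟨_, h2, h3⟩, h4⟩
        refine ⟨h4, fun i => ?_⟩
        split_ifs with hi
        · rw [← h4]; exact h2 i hi
        · exact h3 i hi
      · rintro ⟨h1, h2⟩
        refine ⟨⟨h1 ▸ hx, fun i hi => ?_, fun i hi => ?_⟩, h1⟩
        · have := h2 i
          rw [if_pos hi] at this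
          rw [h1]
          exact this
        · have := h2 i
          rw [if_neg hi] at this
          exact this
    rw [this]
    refine isPreconnected_singleton.prod (isPreconnected_univ_pi fun i => ?_)
    split_ifs
    · exact Kset_preconnected ctr ε hε hctr (φ i) x
    · exact isPreconnected_singleton

theorem FF.isClosed_supp (ctr : J → D) (ε : ℝ) {φ : D → ℝ} (hφ : Continuous φ) (v : Vx J) :
    IsClosed (v.supp ctr ε φ) := by
  match v with
  | Vx.A => exact isClosed_le hφ continuous_const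
  | Vx.B => exact isClosed_le continuous_const hφ
  | Vx.one c => exact Metric.isClosed_closedBall
  | Vx.two c => exact Metric.isClosed_closedBall

theorem FF.isClosed_Kset (ctr : J → D) (ε : ℝ) {φ : D → ℝ} (hφ : Continuous φ) :
    IsClosed {p : D × (Vx J → ℝ) | p.2 ∈ Kset ctr ε φ p.1} := by
  have hc : ∀ v : Vx J, Continuous fun p : D × (Vx J → ℝ) => p.2 v := fun v => by fun_prop
  have h1 : IsClosed {p : D × (Vx J → ℝ) | ∀ v, 0 ≤ p.2 v} := by
    rw [ofPred_forall]
    exact isClosed_iInter fun v => isClosed_le continuous_const (hc v)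
  have h2 : IsClosed {p : D × (Vx J → ℝ) | ∑ v, p.2 v = 1} := by
    refine isClosed_eq ?_ continuous_const
    fun_prop
  have h3 : IsClosed {p : D × (Vx J → ℝ) |
      ∀ v v' : Vx J, v ≠ v' → v.col = v'.col → p.2 v = 0 ∨ p.2 v' = 0} := by
    simp only [ofPred_forall]
    refine isClosed_iInter fun v => isClosed_iInter fun v' => isClosed_iInter fun _ =>
      isClosed_iInter fun _ => ?_
    exact (isClosed_eq (hc v) continuous_const).union (isClosed_eq (hc v') continuous_const)
  have h4 : IsClosed {p : D × (Vx J → ℝ) | ∀ v, p.2 v ≠ 0 → p.1 ∈ v.supp ctr ε φ} := by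
    rw [ofPred_forall]
    refine isClosed_iInter fun v => ?_
    have : {p : D × (Vx J → ℝ) | p.2 v ≠ 0 → p.1 ∈ v.supp ctr ε φ} =
        {p : D × (Vx J → ℝ) | p.2 v = 0} ∪ Prod.fst ⁻¹' (v.supp ctr ε φ) := by
      ext p
      simp only [mem_ofPred_eq, mem_union, mem_preimage]
      tauto
    rw [this]
    exact (isClosed_eq (hc v) continuous_const).union
      ((FF.isClosed_supp ctr ε hφ v).preimage continuous_fst)
  exact h1.inter (h2.inter (h3.inter h4))

theorem isCompact_EE [CompactSpace D] (ctr : J → D) (ε : ℝ) (φ : ι → D → ℝ)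
    (hφ : ∀ i, Continuous (φ i)) (M : Set D) (hM : IsClosed M) (I : Finset ι) :
    IsCompact (EE ctr ε φ M I) := by
  have hcl : IsClosed (EE ctr ε φ M I) := by
    have h1 : IsClosed {p : D × (ι → Vx J → ℝ) | p.1 ∈ M} := hM.preimage continuous_fst
    have h2 : IsClosed {p : D × (ι → Vx J → ℝ) | ∀ i ∈ I, p.2 i ∈ Kset ctr ε (φ i) p.1} := by
      simp only [ofPred_forall]
      refine isClosed_iInter fun i => isClosed_iInter fun _ => ?_
      have := (FF.isClosed_Kset ctr ε (hφ i)).preimage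
        (f := fun p : D × (ι → Vx J → ℝ) => (p.1, p.2 i)) (by fun_prop)
      exact this
    have h3 : IsClosed {p : D × (ι → Vx J → ℝ) | ∀ i ∉ I, p.2 i = 0} := by
      simp only [ofPred_forall]
      refine isClosed_iInter fun i => isClosed_iInter fun _ => ?_
      exact isClosed_eq (by fun_prop) continuous_const
    exact h1.inter (h2.inter h3)
  have hK : IsCompact ((univ : Set D) ×ˢ (Set.pi univ fun _ : ι => Set.pi univ fun _ : Vx J =>
      Icc (0:ℝ) 1)) := by
    refine isCompact_univ.prod (isCompact_univ_pi fun _ => isCompact_univ_pi fun _ => isCompact_Icc)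
  refine hK.of_isClosed_subset hcl ?_
  rintro p ⟨_, h2, h3⟩
  refine ⟨mem_univ _, fun i _ v _ => ?_⟩
  by_cases hi : i ∈ I
  · obtain ⟨k1, k2, -, -⟩ := h2 i hi
    refine ⟨k1 v, ?_⟩
    rw [← k2]
    exact Finset.single_le_sum (fun u _ => k1 u) (Finset.mem_univ v)
  · rw [h3 i hi]
    simp

namespace FF

theorem exact3_pull {T T' : Type*} [PseudoMetricSpace T] [PseudoMetricSpace T']
    {z : D → D → D → D → ZMod 2} {π : T → D} {π' : T' → D} {Z : Set T} {Z' : Set T'}
    (F : T → T') (hF : ∀ p q, dist (F p) (F q) ≤ dist p q) (hZ : ∀ p ∈ Z, F p ∈ Z')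
    (hπ : ∀ p, π' (F p) = π p) (h : Exact3 z π' Z') : Exact3 z π Z := by
  obtain ⟨lam, hlam, w, hw⟩ := h
  refine ⟨lam, hlam, fun a b c => w (F a) (F b) (F c), fun p0 p1 p2 p3 hs => ?_⟩
  have := hw (F p0) (F p1) (F p2) (F p3) ⟨?_, ?_⟩
  · simpa only [hπ] using this
  · intro p hp
    have : p ∈ [p0, p1, p2, p3].map F := by simpa using hp
    obtain ⟨a, ha, rfl⟩ := List.mem_map.mp this
    exact hZ a (hs.1 a ha)
  · intro p hp q hq
    have h1 : p ∈ [p0, p1, p2, p3].map F := by simpa using hp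
    have h2 : q ∈ [p0, p1, p2, p3].map F := by simpa using hq
    obtain ⟨a, ha, rfl⟩ := List.mem_map.mp h1
    obtain ⟨b, hb, rfl⟩ := List.mem_map.mp h2
    exact (hF a b).trans_lt (hs.2 a ha b hb)

theorem exact2_pull {T T' : Type*} [PseudoMetricSpace T] [PseudoMetricSpace T']
    {z : D → D → D → ZMod 2} {π : T → D} {π' : T' → D} {Z : Set T} {Z' : Set T'}
    (F : T → T') (hF : ∀ p q, dist (F p) (F q) ≤ dist p q) (hZ : ∀ p ∈ Z, F p ∈ Z')
    (hπ : ∀ p, π' (F p) = π p) (h : Exact2 z π' Z') : Exact2 z π Z := by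
  obtain ⟨lam, hlam, w, hw⟩ := h
  refine ⟨lam, hlam, fun a b => w (F a) (F b), fun p0 p1 p2 hs => ?_⟩
  have := hw (F p0) (F p1) (F p2) ⟨?_, ?_⟩
  · simpa only [hπ] using this
  · intro p hp
    have : p ∈ [p0, p1, p2].map F := by simpa using hp
    obtain ⟨a, ha, rfl⟩ := List.mem_map.mp this
    exact hZ a (hs.1 a ha)
  · intro p hp q hq
    have h1 : p ∈ [p0, p1, p2].map F := by simpa using hp
    have h2 : q ∈ [p0, p1, p2].map F := by simpa using hq
    obtain ⟨a, ha, rfl⟩ := List.mem_map.mp h1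
    obtain ⟨b, hb, rfl⟩ := List.mem_map.mp h2
    exact (hF a b).trans_lt (hs.2 a ha b hb)

/-- the map inserting the coordinate `i` -/
def ins (i : ι) (p : (D × (ι → Vx J → ℝ)) × (Vx J → ℝ)) : D × (ι → Vx J → ℝ) :=
  (p.1.1, Function.update p.1.2 i p.2)

omit [Fintype ι] in
theorem dist_ins [Fintype ι] (i : ι) (p q : (D × (ι → Vx J → ℝ)) × (Vx J → ℝ)) :
    dist (ins i p) (ins i q) ≤ dist p q := by
  have h1 : dist p.1 q.1 ≤ dist p q := by rw [Prod.dist_eq (x := p)]; exact le_max_left _ _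
  have h2 : dist p.2 q.2 ≤ dist p q := by rw [Prod.dist_eq (x := p)]; exact le_max_right _ _
  have h3 : dist p.1.1 q.1.1 ≤ dist p.1 q.1 := by
    rw [Prod.dist_eq (x := p.1)]; exact le_max_left _ _
  have h4 : dist p.1.2 q.1.2 ≤ dist p.1 q.1 := by
    rw [Prod.dist_eq (x := p.1)]; exact le_max_right _ _
  rw [Prod.dist_eq (x := ins i p)]
  refine max_le (h3.trans h1) ?_
  rw [dist_pi_le_iff dist_nonneg]
  intro j
  simp only [ins]
  by_cases hj : j = i
  · subst hj
    simp only [Function.update_self]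
    exact h2
  · simp only [Function.update_of_ne hj]
    exact ((dist_le_pi_dist _ _ j).trans h4).trans h1

theorem ins_mem (ctr : J → D) (ε : ℝ) (φ : ι → D → ℝ) (M : Set D) (I : Finset ι)
    (i : ι) (hi : i ∉ I) (p : (D × (ι → Vx J → ℝ)) × (Vx J → ℝ))
    (hp : p ∈ EK ctr ε (φ i) Prod.fst (EE ctr ε φ M I)) :
    ins i p ∈ EE ctr ε φ M (insert i I) := by
  obtain ⟨⟨h1, h2, h3⟩, h4⟩ := hp
  refine ⟨h1, ?_, ?_⟩
  · intro j hj
    simp only [ins]
    by_cases hji : j = i
    · subst hji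
      rw [Function.update_self]
      exact h4
    · rw [Function.update_of_ne hji]
      exact h2 j ((Finset.mem_insert.mp hj).resolve_left hji)
  · intro j hj
    rw [Finset.mem_insert, not_or] at hj
    simp only [ins]
    rw [Function.update_of_ne hj.1]
    exact h3 j hj.2

end FF

/-- peeling the coordinate `i` off `EE (insert i I)` (3-cochains) -/
theorem exact3_EK_of_insert (ctr : J → D) (ε : ℝ) (φ : ι → D → ℝ) (M : Set D) (I : Finset ι)
    (i : ι) (hi : i ∉ I) (z : D → D → D → D → ZMod 2)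
    (h : Exact3 z Prod.fst (EE ctr ε φ M (insert i I))) :
    Exact3 z (fun p => p.1.1) (EK ctr ε (φ i) Prod.fst (EE ctr ε φ M I)) :=
  FF.exact3_pull (FF.ins i) (FF.dist_ins i) (FF.ins_mem ctr ε φ M I i hi) (fun _ => rfl) h

theorem exact2_EK_of_insert (ctr : J → D) (ε : ℝ) (φ : ι → D → ℝ) (M : Set D) (I : Finset ι)
    (i : ι) (hi : i ∉ I) (z : D → D → D → ZMod 2)
    (h : Exact2 z Prod.fst (EE ctr ε φ M (insert i I))) :
    Exact2 z (fun p => p.1.1) (EK ctr ε (φ i) Prod.fst (EE ctr ε φ M I)) :=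
  FF.exact2_pull (FF.ins i) (FF.dist_ins i) (FF.ins_mem ctr ε φ M I i hi) (fun _ => rfl) h

theorem exact3_of_EE_empty (ctr : J → D) (ε : ℝ) (φ : ι → D → ℝ) (M : Set D)
    (z : D → D → D → D → ZMod 2) (h : Exact3 z Prod.fst (EE ctr ε φ M ∅)) :
    Exact3 z id M := by
  refine FF.exact3_pull (fun x => (x, 0)) ?_ ?_ (fun _ => rfl) h
  · intro p q
    rw [Prod.dist_eq]
    simp
  · intro p hp
    exact ⟨hp, fun i hi => absurd hi (Finset.notMem_empty i), fun i _ => rfl⟩

theorem exact2_of_EE_empty (ctr : J → D) (ε : ℝ) (φ : ι → D → ℝ) (M : Set D)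
    (z : D → D → D → ZMod 2) (h : Exact2 z Prod.fst (EE ctr ε φ M ∅)) :
    Exact2 z id M := by
  refine FF.exact2_pull (fun x => (x, 0)) ?_ ?_ (fun _ => rfl) h
  · intro p q
    rw [Prod.dist_eq]
    simp
  · intro p hp
    exact ⟨hp, fun i hi => absurd hi (Finset.notMem_empty i), fun i _ => rfl⟩

namespace FF

/-- the centre of the vertex `k c` in the support of `y` -/
noncomputable def pick (ctr : J → D) (k : J → Vx J) (y : Vx J → ℝ) (x : D) : D :=
  open Classical in if h : ∃ c, y (k c) ≠ 0 then ctr h.choose else x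

theorem pick_eq (ctr : J → D) (ε : ℝ) {φ : D → ℝ} {k : J → Vx J}
    (hk : Function.Injective k) (hcol : ∀ c c', (k c).col = (k c').col)
    {y : Vx J → ℝ} {x : D} (hy : y ∈ Kset ctr ε φ x) {c : J} (hc : y (k c) ≠ 0) (x' : D) :
    pick ctr k y x' = ctr c := by
  have h : ∃ c, y (k c) ≠ 0 := ⟨c, hc⟩
  have h1 := h.choose_spec
  unfold pick
  rw [dif_pos h]
  congr 1
  by_contra hne
  rcases hy.2.2.1 (k h.choose) (k c) (fun h2 => hne (hk h2)) (hcol _ _) with h3 | h3
  · exact h1 h3
  · exact hc h3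

end FF

/-- The coordinate functions on `EE univ` demanded by `IsPiece`. -/
theorem coord_EE (ctr : J → D) (ε : ℝ) (φ : ι → D → ℝ) (M : Set D) (i : ι) :
    ∃ (f α : ↥(EE ctr ε φ M Finset.univ) → ℝ) (c1 c2 : ↥(EE ctr ε φ M Finset.univ) → D),
      Continuous f ∧ Continuous α ∧
      (∀ q, 0 < f q → φ i q.1.1 ≤ 2 / 3) ∧ (∀ q, f q < 0 → 1 / 3 ≤ φ i q.1.1) ∧
      (∀ q, f q = 0 → 1 / 2 < α q →
        dist (c1 q) q.1.1 ≤ ε ∧ ∀ᶠ q' in 𝓝 q, f q' = 0 → c1 q' = c1 q) ∧
      (∀ q, f q = 0 → α q ≤ 1 / 2 →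
        dist (c2 q) q.1.1 ≤ ε ∧ ∀ᶠ q' in 𝓝 q, f q' = 0 → α q' ≤ 1 / 2 → c2 q' = c2 q) := by
  classical
  have hy : ∀ q : ↥(EE ctr ε φ M Finset.univ), q.1.2 i ∈ Kset ctr ε (φ i) q.1.1 := fun q =>
    q.2.2.1 i (Finset.mem_univ i)
  have hc : ∀ v : Vx J, Continuous fun q : ↥(EE ctr ε φ M Finset.univ) => q.1.2 i v := by
    intro v
    fun_prop
  have hone : Function.Injective (Vx.one : J → Vx J) := fun a b h => by
    injection h
  have htwo : Function.Injective (Vx.two : J → Vx J) := fun a b h => by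
    injection h
  -- local constancy of the choice
  have hloc : ∀ (k : J → Vx J), Function.Injective k → (∀ c c', (k c).col = (k c').col) →
      (∀ c, (k c).supp ctr ε (φ i) = Metric.closedBall (ctr c) ε) →
      ∀ q : ↥(EE ctr ε φ M Finset.univ), (∃ c, q.1.2 i (k c) ≠ 0) →
        dist (FF.pick ctr k (q.1.2 i) q.1.1) q.1.1 ≤ ε ∧
        ∀ᶠ q' in 𝓝 q, FF.pick ctr k (q'.1.2 i) q'.1.1 = FF.pick ctr k (q.1.2 i) q.1.1 := by
    intro k hk hcol hsupp q hq
    obtain ⟨c, hcq⟩ := hq
    have h1 := FF.pick_eq ctr ε hk hcol (hy q) hcq q.1.1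
    refine ⟨?_, ?_⟩
    · rw [h1]
      have h2 := (hy q).2.2.2 (k c) hcq
      rw [hsupp, Metric.mem_closedBall, dist_comm] at h2
      exact h2
    · have h3 : ∀ᶠ q' in 𝓝 q, q'.1.2 i (k c) ≠ 0 :=
        (hc (k c)).continuousAt.eventually_ne hcq
      filter_upwards [h3] with q' hq'
      rw [h1]
      exact FF.pick_eq ctr ε hk hcol (hy q') hq' q'.1.1
  have hsumVx : ∀ y : Vx J → ℝ, ∑ v, y v = y Vx.A + y Vx.B + ∑ c, y (Vx.one c) +
      ∑ c, y (Vx.two c) := by
    intro y
    have huniv : (Finset.univ : Finset (Vx J)) = {Vx.A} ∪ ({Vx.B} ∪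
        (Finset.univ.image Vx.one ∪ Finset.univ.image Vx.two)) := by
      ext v
      cases v <;> simp
    rw [huniv, Finset.sum_union, Finset.sum_union, Finset.sum_union, Finset.sum_singleton,
      Finset.sum_singleton, Finset.sum_image (fun a _ b _ h => hone h),
      Finset.sum_image (fun a _ b _ h => htwo h)]
    · ring
    · rw [Finset.disjoint_left]
      intro v hv hv'
      simp only [Finset.mem_image, Finset.mem_univ, true_and] at hv hv'
      obtain ⟨a, rfl⟩ := hv
      obtain ⟨b, hb⟩ := hv'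
      cases hb
    · simp
    · simp
  refine ⟨fun q => q.1.2 i Vx.A - q.1.2 i Vx.B, fun q => ∑ c, q.1.2 i (Vx.one c),
    fun q => FF.pick ctr Vx.one (q.1.2 i) q.1.1, fun q => FF.pick ctr Vx.two (q.1.2 i) q.1.1,
    (hc _).sub (hc _), continuous_finsetSum _ fun c _ => hc _, ?_, ?_, ?_, ?_⟩
  · intro q hq
    have h1 := (hy q).1 Vx.B
    have h2 : q.1.2 i Vx.A ≠ 0 := by
      simp only at hq
      linarith
    exact (hy q).2.2.2 Vx.A h2
  · intro q hq
    have h1 := (hy q).1 Vx.A
    have h2 : q.1.2 i Vx.B ≠ 0 := by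
      simp only at hq
      intro h
      rw [h] at hq
      linarith
    exact (hy q).2.2.2 Vx.B h2
  · intro q _ hα
    have hex : ∃ c, q.1.2 i (Vx.one c) ≠ 0 := by
      by_contra h
      push Not at h
      simp only [h, Finset.sum_const_zero] at hα
      norm_num at hα
    obtain ⟨h1, h2⟩ := hloc Vx.one hone (fun _ _ => rfl) (fun _ => rfl) q hex
    refine ⟨h1, ?_⟩
    filter_upwards [h2] with q' hq' _
    exact hq'
  · intro q hf hα
    have hex : ∃ c, q.1.2 i (Vx.two c) ≠ 0 := by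
      by_contra h
      push Not at h
      have h1 := (hy q).2.1
      rw [hsumVx] at h1
      have h2 := (hy q).2.2.1 Vx.A Vx.B (fun h => by cases h) rfl
      simp only at hf hα
      have h3 : q.1.2 i Vx.A = 0 ∧ q.1.2 i Vx.B = 0 := by
        rcases h2 with h2 | h2
        · exact ⟨h2, by rw [h2] at hf; linarith⟩
        · exact ⟨by rw [h2] at hf; linarith, h2⟩
      simp only [h, Finset.sum_const_zero, h3.1, h3.2] at h1
      linarith
    obtain ⟨h1, h2⟩ := hloc Vx.two htwo (fun _ _ => rfl) (fun _ => rfl) q hex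
    refine ⟨h1, ?_⟩
    filter_upwards [h2] with q' hq' _ _
    exact hq'

end Pool.Agent.CmpDef
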