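import Pool.Agent.CmpDef.XSpace
import Pool.Agent.CmpDef.Base

/-!
# `Cmp X ≥ 2`
-/

open Set TopologicalSpace Filter Topology

namespace Pool.Agent.CmpDef

open XSp

/-- a locally constant function on a compact set is constant at small distances -/
theorem lc_locconst {E Lab : Type} [MetricSpace E] (S : Set E) (hS : IsCompact S) (lab : E → Lab)
    (hloc : ∀ q ∈ S, ∀ᶠ q' in 𝓝 q, q' ∈ S → lab q' = lab q) :
    ∃ ε > 0, ∀ q ∈ S, ∀ q' ∈ S, dist q q' < ε → lab q = lab q' := by
  have hU : ∀ q : S, ∃ U : Set E, IsOpen U ∧ (q : E) ∈ U ∧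
      ∀ q' ∈ U, q' ∈ S → lab q' = lab q := by
    intro q
    obtain ⟨U, hU, hUo, hqU⟩ := eventually_nhds_iff.mp (hloc q q.2)
    exact ⟨U, hUo, hqU, fun q' h1 h2 => hU q' h1 h2⟩
  choose U hUo hqU hU using hU
  obtain ⟨ε, hε, h⟩ := lebesgue_number_lemma_of_metric hS hUo
    (fun q hq => mem_iUnion.mpr ⟨⟨q, hq⟩, hqU _⟩)
  refine ⟨ε, hε, fun q hq q' hq' hd => ?_⟩
  obtain ⟨i, hi⟩ := h q hq
  have h1 : q ∈ U i := hi (Metric.mem_ball_self hε)
  have h2 : q' ∈ U i := hi (by rw [Metric.mem_ball, dist_comm]; exact hd)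
  rw [hU i q h1 hq, hU i q' h2 hq']

/-- disjoint compact sets have positive distance -/
theorem lc_posdist {E : Type} [MetricSpace E] (K L : Set E) (hK : IsCompact K) (hL : IsClosed L)
    (h : Disjoint K L) : ∃ lam > 0, ∀ p ∈ K, ∀ q ∈ L, lam ≤ dist p q := by
  obtain ⟨δ, hδ, hδ2⟩ := hK.exists_thickening_subset_open hL.isOpen_compl
    h.subset_compl_right
  refine ⟨δ, hδ, fun p hp q hq => ?_⟩
  by_contra hlt
  push Not at hlt
  exact hδ2 (Metric.mem_thickening_iff.mpr ⟨p, hp, by rw [dist_comm]; exact hlt⟩) hq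

/-- The combinatorial part: a partition between the preimages of `A` and `B` in a piece cannot
split into small clopen sets. -/
theorem no_small_partition {D E : Type} [MetricSpace D] [MetricSpace E] [CompactSpace E]
    (Bd : BaseData D) (π : E → D) (hπ : Continuous π)
    (hE : ¬ Exact2 (cup2 Bd.a) π (π ⁻¹' Bd.Z)) (S V W : Set E) (hS : IsClosed S)
    (hV : IsOpen V) (hW : IsOpen W) (hVW : Disjoint V W) (hc : Sᶜ = V ∪ W)
    (hA : π ⁻¹' Bd.A ⊆ V) (hB : π ⁻¹' Bd.B ⊆ W) (Lab : Type) (lab : E → Lab)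
    (hloc : ∀ q ∈ S, ∀ᶠ q' in 𝓝 q, q' ∈ S → lab q' = lab q)
    (hdiam : ∀ q ∈ S, ∀ q' ∈ S, lab q = lab q' → dist (π q) (π q') < Bd.c / 4) : False := by
  classical
  apply hE
  rcases isEmpty_or_nonempty E with hem | hne
  · exact ⟨1, one_pos, fun _ _ => 0, fun p0 => isEmptyElim p0⟩
  have hc4 : 0 < Bd.c / 4 := by have := Bd.c_pos; linarith
  have hZc : IsClosed (π ⁻¹' Bd.Z) := Bd.Z_closed.preimage hπ
  -- the scale of the labels
  obtain ⟨ε1, hε1, hlab⟩ := lc_locconst S hS.isCompact lab hloc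
  -- uniform continuity
  obtain ⟨ε2, hε2, hunif⟩ := Metric.uniformContinuous_iff.mp
    (CompactSpace.uniformContinuous_of_continuous hπ) (Bd.c / 4) hc4
  obtain ⟨ε, hε, h4, h2⟩ : ∃ ε > 0, 4 * ε ≤ ε1 ∧ 2 * ε ≤ ε2 := by
    refine ⟨min ε1 ε2 / 4, by positivity, ?_, ?_⟩
    · have := min_le_left ε1 ε2; linarith
    · have := min_le_right ε1 ε2
      linarith
  set SZ : Set E := S ∩ π ⁻¹' Bd.Z with hSZ
  have hfar : IsClosed {e : E | ∀ s ∈ SZ, ε ≤ dist e s} := by
    simp only [ofPred_forall]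
    exact isClosed_iInter fun s => isClosed_iInter fun _ =>
      isClosed_le continuous_const (continuous_id.dist continuous_const)
  have hK1 : IsClosed (π ⁻¹' Bd.Z ∩ Wᶜ ∩ {e : E | ∀ s ∈ SZ, ε ≤ dist e s}) :=
    (hZc.inter hW.isClosed_compl).inter hfar
  have hK2 : IsClosed (π ⁻¹' Bd.Z ∩ Vᶜ ∩ {e : E | ∀ s ∈ SZ, ε ≤ dist e s}) :=
    (hZc.inter hV.isClosed_compl).inter hfar
  have hdisj : Disjoint (π ⁻¹' Bd.Z ∩ Wᶜ ∩ {e : E | ∀ s ∈ SZ, ε ≤ dist e s})
      (π ⁻¹' Bd.Z ∩ Vᶜ ∩ {e : E | ∀ s ∈ SZ, ε ≤ dist e s}) := by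
    rw [Set.disjoint_left]
    rintro e ⟨⟨h1, h2⟩, h3⟩ ⟨⟨-, h4⟩, -⟩
    have hes : e ∈ S := by
      by_contra hh
      have : e ∈ V ∪ W := hc ▸ hh
      exact this.elim h4 h2
    have := h3 e ⟨hes, h1⟩
    rw [dist_self] at this
    linarith
  obtain ⟨lam0, hlam0, hsep⟩ := lc_posdist _ _ hK1.isCompact hK2 hdisj
  -- choice of close points and representatives
  have hrep : ∀ L : Lab, ∃ t : E, (∃ t', t' ∈ SZ ∧ lab t' = L) → t ∈ SZ ∧ lab t = L := by
    intro L
    by_cases h : ∃ t', t' ∈ SZ ∧ lab t' = L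
    · obtain ⟨t, ht⟩ := h
      exact ⟨t, fun _ => ht⟩
    · exact ⟨Classical.arbitrary E, fun h' => absurd h' h⟩
  choose rep hrep using hrep
  have hnear : ∀ e : E, ∃ s : E, (∃ s', s' ∈ SZ ∧ dist e s' < 2 * ε) →
      s ∈ SZ ∧ dist e s < 2 * ε := by
    intro e
    by_cases h : ∃ s', s' ∈ SZ ∧ dist e s' < 2 * ε
    · obtain ⟨t, ht⟩ := h
      exact ⟨t, fun _ => ht⟩
    · exact ⟨e, fun h' => absurd h' h⟩
  choose nr hnr using hnear
  -- the cochains
  set θ : D → D → ZMod 2 := fun x y => Bd.etaP x y + Bd.etaQ x y with hθ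
  set ζ : E → ZMod 2 := fun e => θ (π (rep (lab (nr e)))) (π e) with hζ
  set χ : E → ZMod 2 := fun e => if e ∈ W then 1 else 0 with hχ
  set lam : ℝ := min lam0 ε with hlam
  have hlampos : 0 < lam := lt_min hlam0 hε
  have hVd : ∀ e ∈ W, π e ∉ Bd.A := fun e he h => Set.disjoint_left.mp hVW (hA h) he
  have hWd : ∀ e, e ∉ W → π e ∉ Bd.B := fun e he h => he (hB h)
  -- the main claim
  have key : ∀ e0 e1 e2 : E, Small (π ⁻¹' Bd.Z) lam [e0, e1, e2] → ¬ (e0 ∈ W ↔ e1 ∈ W) →
      θ (π e1) (π e2) = ζ e1 + ζ e2 := by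
    intro e0 e1 e2 hsm hne'
    have hm : ∀ e ∈ [e0, e1, e2], π e ∈ Bd.Z := fun e he => hsm.1 e he
    have hd : ∀ e ∈ [e0, e1, e2], ∀ e' ∈ [e0, e1, e2], dist e e' < lam :=
      fun e he e' he' => hsm.2 e he e' he'
    -- one of the points is close to `SZ`
    have hcl : ∃ e ∈ [e0, e1, e2], ∃ s ∈ SZ, dist e s < ε := by
      by_contra hcon
      push Not at hcon
      have hpair : ∀ e ∈ [e0, e1, e2], ∀ e' ∈ [e0, e1, e2], e ∉ W → e' ∈ W → False := by
        intro e he e' he' h1 h2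
        have h3 : e' ∉ V := fun h => Set.disjoint_left.mp hVW h h2
        have h5 := hsep e ⟨⟨hm e he, h1⟩, hcon e he⟩ e' ⟨⟨hm e' he', h3⟩, hcon e' he'⟩
        have h6 := (hd e he e' he').trans_le (min_le_left _ _)
        linarith
      by_cases h0 : e0 ∈ W
      · have h1 : e1 ∉ W := fun h1 => hne' ⟨fun _ => h1, fun _ => h0⟩
        exact hpair e1 (by simp) e0 (by simp) h1 h0
      · have h1 : e1 ∈ W := by
          by_contra h1
          exact hne' ⟨fun h => absurd h h0, fun h => absurd h h1⟩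
        exact hpair e0 (by simp) e1 (by simp) h0 h1
    obtain ⟨e, he, s, hs, hes⟩ := hcl
    -- all points are close to `s`
    have hall : ∀ e' ∈ [e0, e1, e2], dist e' s < 2 * ε := by
      intro e' he'
      have h6 := (hd e' he' e he).trans_le (min_le_right _ _)
      have := dist_triangle e' e s
      linarith
    have hlabs : ∀ e' ∈ [e0, e1, e2], lab (nr e') = lab s := by
      intro e' he'
      obtain ⟨h1, h2'⟩ := hnr e' ⟨s, hs, hall e' he'⟩
      refine hlab _ h1.1 _ hs.1 ?_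
      have h3 := dist_triangle (nr e') e' s
      have h5 := hall e' he'
      rw [dist_comm (nr e') e'] at h3
      linarith
    obtain ⟨hr1, hr2⟩ := hrep (lab s) ⟨s, hs, rfl⟩
    set t := rep (lab s) with ht
    have hdt : ∀ e' ∈ [e0, e1, e2], dist (π t) (π e') < Bd.c / 2 := by
      intro e' he'
      have h1 := hdiam t hr1.1 s hs.1 hr2
      have h3 := hunif (a := s) (b := e') (by
        rw [dist_comm]
        have := hall e' he'
        linarith)
      have := dist_triangle (π t) (π s) (π e')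
      linarith
    have hsmall : Small Bd.Z Bd.c [π t, π e1, π e2] := by
      have hcp := Bd.c_pos
      have d1 := hdt e1 (by simp)
      have d2 := hdt e2 (by simp)
      have d3 : dist (π e1) (π e2) < Bd.c := by
        have := dist_triangle_left (π e1) (π e2) (π t)
        linarith
      constructor
      · intro p hp
        simp only [List.mem_cons, List.not_mem_nil, or_false] at hp
        rcases hp with rfl | rfl | rfl
        · exact hr1.2
        · exact hm e1 (by simp)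
        · exact hm e2 (by simp)
      · intro p hp q hq
        simp only [List.mem_cons, List.not_mem_nil, or_false] at hp hq
        rcases hp with rfl | rfl | rfl <;> rcases hq with rfl | rfl | rfl
        · rw [dist_self]; exact hcp
        · linarith
        · linarith
        · rw [dist_comm]; linarith
        · rw [dist_self]; exact hcp
        · exact d3
        · rw [dist_comm]; linarith
        · rw [dist_comm]; exact d3
        · rw [dist_self]; exact hcp
    have htS : t ∉ V ∪ W := by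
      rw [← hc]
      exact fun h => h hr1.1
    have htA : π t ∉ Bd.A := fun h => htS (Or.inl (hA h))
    have htB : π t ∉ Bd.B := fun h => htS (Or.inr (hB h))
    have hP := Bd.hP _ _ _ hsmall htB
    have hQ := Bd.hQ _ _ _ hsmall htA
    have hz1 : ζ e1 = θ (π t) (π e1) := by
      simp only [hζ]
      rw [hlabs e1 (by simp)]
    have hz2 : ζ e2 = θ (π t) (π e2) := by
      simp only [hζ]
      rw [hlabs e2 (by simp)]
    rw [hz1, hz2]
    simp only [hθ]
    rw [hP] at hQ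
    generalize Bd.etaP (π e1) (π e2) = u1 at *
    generalize Bd.etaP (π t) (π e2) = u2 at *
    generalize Bd.etaP (π t) (π e1) = u3 at *
    generalize Bd.etaQ (π e1) (π e2) = v1 at *
    generalize Bd.etaQ (π t) (π e2) = v2 at *
    generalize Bd.etaQ (π t) (π e1) = v3 at *
    clear * - hQ
    revert u1 u2 u3 v1 v2 v3
    decide
  refine ⟨min lam ε, lt_min hlampos hε, fun e0 e1 => Bd.etaP (π e0) (π e1) +
    χ e0 * θ (π e0) (π e1) + (χ e0 + χ e1) * ζ e1, ?_⟩
  intro p0 p1 p2 hsm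
  have hsm' : Small (π ⁻¹' Bd.Z) lam [p0, p1, p2] :=
    hsm.mono Subset.rfl (min_le_left _ _) (List.Subset.refl _)
  have hsmD : Small Bd.Z Bd.c [π p0, π p1, π p2] := by
    constructor
    · intro p hp
      simp only [List.mem_cons, List.not_mem_nil, or_false] at hp
      rcases hp with rfl | rfl | rfl
      · exact hsm.1 p0 (by simp)
      · exact hsm.1 p1 (by simp)
      · exact hsm.1 p2 (by simp)
    · have hh : ∀ e ∈ [p0, p1, p2], ∀ e' ∈ [p0, p1, p2], dist (π e) (π e') < Bd.c := by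
        intro e he e' he'
        have h1 := (hsm.2 e he e' he').trans_le (min_le_right _ _)
        have := hunif (a := e) (b := e') (by linarith)
        have := Bd.c_pos
        linarith
      intro p hp q hq
      simp only [List.mem_cons, List.not_mem_nil, or_false] at hp hq
      rcases hp with rfl | rfl | rfl <;> rcases hq with rfl | rfl | rfl <;>
        exact hh _ (by simp) _ (by simp)
  have hk := key p0 p1 p2 hsm'
  simp only [cup2]
  by_cases h0 : p0 ∈ W
  · have hQ := Bd.hQ _ _ _ hsmD (hVd p0 h0)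
    rw [hQ]
    have hc0 : χ p0 = 1 := by simp [hχ, h0]
    rw [hc0]
    by_cases h1 : p1 ∈ W
    · have hc1 : χ p1 = 1 := by simp [hχ, h1]
      rw [hc1]
      simp only [hθ]
      generalize Bd.etaP (π p1) (π p2) = u1
      generalize Bd.etaP (π p0) (π p2) = u2
      generalize Bd.etaP (π p0) (π p1) = u3
      generalize Bd.etaQ (π p1) (π p2) = v1
      generalize Bd.etaQ (π p0) (π p2) = v2
      generalize Bd.etaQ (π p0) (π p1) = v3
      generalize ζ p1 = z1
      generalize ζ p2 = z2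
      generalize χ p2 = c2
      clear * -
      revert u1 u2 u3 v1 v2 v3 z1 z2 c2
      decide
    · have hc1 : χ p1 = 0 := by simp [hχ, h1]
      have hk' := hk (fun h => h1 (h.mp h0))
      rw [hc1]
      simp only [hθ] at hk' ⊢
      generalize Bd.etaP (π p1) (π p2) = u1 at *
      generalize Bd.etaP (π p0) (π p2) = u2 at *
      generalize Bd.etaP (π p0) (π p1) = u3 at *
      generalize Bd.etaQ (π p1) (π p2) = v1 at *
      generalize Bd.etaQ (π p0) (π p2) = v2 at *
      generalize Bd.etaQ (π p0) (π p1) = v3 at *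
      generalize ζ p1 = z1 at *
      generalize ζ p2 = z2 at *
      generalize χ p2 = c2 at *
      clear * - hk'
      revert u1 u2 u3 v1 v2 v3 z1 z2 c2
      decide
  · have hP := Bd.hP _ _ _ hsmD (hWd p0 h0)
    rw [hP]
    have hc0 : χ p0 = 0 := by simp [hχ, h0]
    rw [hc0]
    by_cases h1 : p1 ∈ W
    · have hc1 : χ p1 = 1 := by simp [hχ, h1]
      have hk' := hk (fun h => h0 (h.mpr h1))
      rw [hc1]
      simp only [hθ] at hk' ⊢
      generalize Bd.etaP (π p1) (π p2) = u1 at *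
      generalize Bd.etaP (π p0) (π p2) = u2 at *
      generalize Bd.etaP (π p0) (π p1) = u3 at *
      generalize Bd.etaQ (π p1) (π p2) = v1 at *
      generalize Bd.etaQ (π p0) (π p2) = v2 at *
      generalize Bd.etaQ (π p0) (π p1) = v3 at *
      generalize ζ p1 = z1 at *
      generalize ζ p2 = z2 at *
      generalize χ p2 = c2 at *
      clear * - hk'
      revert u1 u2 u3 v1 v2 v3 z1 z2 c2
      decide
    · have hc1 : χ p1 = 0 := by simp [hχ, h1]
      rw [hc1]
      simp only [hθ]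
      generalize Bd.etaP (π p1) (π p2) = u1
      generalize Bd.etaP (π p0) (π p2) = u2
      generalize Bd.etaP (π p0) (π p1) = u3
      generalize Bd.etaQ (π p1) (π p2) = v1
      generalize Bd.etaQ (π p0) (π p2) = v2
      generalize Bd.etaQ (π p0) (π p1) = v3
      generalize ζ p1 = z1
      generalize ζ p2 = z2
      generalize χ p2 = c2
      clear * -
      revert u1 u2 u3 v1 v2 v3 z1 z2 c2
      decide

/-- a rim-compact subspace: small neighbourhoods with compact boundary -/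
theorem lc_split {X : Type} [MetricSpace X] (S : Set X) (h1 : SmallLE 1 ↥S) (x : X) (hx : x ∈ S)
    (r : ℝ) (hr : 0 < r) :
    ∃ T V W : Set X, IsCompact T ∧ IsOpen V ∧ IsOpen W ∧ (∀ u ∈ S, u ∈ V → u ∉ W) ∧
      (∀ u ∈ S, u ∉ T → u ∈ V ∨ u ∈ W) ∧ x ∈ V ∧ ∀ u ∈ S, u ∈ V → dist u x < r := by
  obtain ⟨T, ⟨-, V, W, hV, hW, hVW, hc, hp, hG⟩, hT⟩ := h1 ⟨x, hx⟩ {u : S | r ≤ dist (u : X) x}
    (isClosed_le continuous_const (continuous_subtype_val.dist continuous_const)) (by
      simp only [mem_ofPred_eq, dist_self, not_le]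
      exact hr)
  obtain ⟨V', hV', rfl⟩ := isOpen_induced_iff.mp hV
  obtain ⟨W', hW', rfl⟩ := isOpen_induced_iff.mp hW
  have hTc : IsCompact T := isCompact_iff_compactSpace.mpr hT
  refine ⟨Subtype.val '' T, V', W', hTc.image continuous_subtype_val, hV', hW', ?_, ?_, ?_, ?_⟩
  · intro u hu h2 h3
    have h4 := Set.disjoint_left.mp hVW
    exact @h4 ⟨u, hu⟩ h2 h3
  · intro u hu h2
    have h3 : (⟨u, hu⟩ : S) ∈ Tᶜ := fun h => h2 ⟨_, h, rfl⟩
    rw [hc] at h3
    exact h3
  · exact hp (mem_singleton _)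
  · intro u hu h2
    by_contra h3
    push Not at h3
    have h4 := Set.disjoint_left.mp hVW
    exact @h4 ⟨u, hu⟩ h2 (hG h3)

/-- The topological part: a rim-compact partition splits, in some piece of each high level, into
small clopen sets. -/
theorem exists_small_split {D : Type} {E : ℕ → Type} {π : ∀ k, E k → D} [MetricSpace D]
    [∀ k, MetricSpace (E k)] [CompactSpace D] [∀ k, CompactSpace (E k)]
    (hπ : ∀ k, Continuous (π k)) (S : Set (XSp π)) (hS : IsClosed S) (h1 : SmallLE 1 ↥S)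
    (δ : ℝ) (hδ : 0 < δ) :
    ∃ K : ℕ, ∀ k ≥ K, ∃ m : ℕ, ∃ lab : E k → ℕ,
      (∀ q, lev k m q ∈ S → ∀ᶠ q' in 𝓝 q, lev k m q' ∈ S → lab q' = lab q) ∧
      ∀ q q', lev k m q ∈ S → lev k m q' ∈ S → lab q = lab q' → dist (π k q) (π k q') < δ := by
  classical
  have hsp : ∀ x : {x : D // (base x : XSp π) ∈ S}, ∃ T V W : Set (XSp π), IsCompact T ∧
      IsOpen V ∧ IsOpen W ∧ (∀ u ∈ S, u ∈ V → u ∉ W) ∧
      (∀ u ∈ S, u ∉ T → u ∈ V ∨ u ∈ W) ∧ base x.1 ∈ V ∧
      ∀ u ∈ S, u ∈ V → dist u (base x.1) < δ / 2 :=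
    fun x => lc_split S h1 _ x.2 (δ / 2) (half_pos hδ)
  choose T V W hT hV hW hVW hTc hxV hVd using hsp
  have hDS : IsCompact {x : D | (base x : XSp π) ∈ S} :=
    (hS.preimage continuous_base).isCompact
  obtain ⟨F, hF⟩ := hDS.elim_finite_subcover (fun x => (base : D → XSp π) ⁻¹' V x)
    (fun x => (hV x).preimage continuous_base)
    (fun x hx => mem_iUnion.mpr ⟨⟨x, hx⟩, hxV _⟩)
  have hHc : IsClosed (S ∩ (⋃ x ∈ F, V x)ᶜ) :=
    hS.inter (isOpen_biUnion fun x _ => hV x).isClosed_compl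
  obtain ⟨η, hη, K, hK⟩ := key_lemma hπ _ hHc univ isClosed_univ (by
    intro x _ hx
    have h2 := hF hx.1
    simp only [mem_iUnion] at h2
    obtain ⟨y, hy, h3⟩ := h2
    exact hx.2 (mem_biUnion hy h3))
  have hcov : ∀ k ≥ K, ∀ m q, lev k m q ∈ S → ∃ x ∈ F, (lev k m q : XSp π) ∈ V x := by
    intro k hk m q hq
    by_contra hcon
    push Not at hcon
    have h2 := hK k hk m q ⟨hq, by
      simp only [mem_compl_iff, mem_iUnion, not_exists]
      exact fun x hx => hcon x hx⟩ (π k q) (mem_univ _)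
    rw [dist_self] at h2
    linarith
  -- enumerate the finite set
  obtain ⟨idx⟩ : Nonempty (F ≃ Fin F.card) := ⟨F.equivFin⟩
  refine ⟨K, fun k hk => ?_⟩
  obtain ⟨m, hm⟩ := compact_avoid hπ (⋃ x ∈ F, T x) (F.isCompact_biUnion fun x _ => hT x) k
  have hmT : ∀ x ∈ F, ∀ q, (lev k m q : XSp π) ∉ T x := fun x hx q h =>
    hm m le_rfl q (mem_biUnion hx h)
  -- the index
  have hidx : ∀ q : E k, ∃ j : ℕ, (∃ x ∈ F, (lev k m q : XSp π) ∈ V x) →
      (∃ (x : _) (hx : x ∈ F), (lev k m q : XSp π) ∈ V x ∧ (idx ⟨x, hx⟩ : ℕ) = j) ∧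
      ∀ (x : _) (hx : x ∈ F), (lev k m q : XSp π) ∈ V x → j ≤ (idx ⟨x, hx⟩ : ℕ) := by
    intro q
    by_cases h : ∃ x ∈ F, (lev k m q : XSp π) ∈ V x
    · have h' : ∃ j : ℕ, ∃ (x : _) (hx : x ∈ F), (lev k m q : XSp π) ∈ V x ∧
          (idx ⟨x, hx⟩ : ℕ) = j := by
        obtain ⟨x, hx, h2⟩ := h
        exact ⟨_, x, hx, h2, rfl⟩
      exact ⟨Nat.find h', fun _ => ⟨Nat.find_spec h', fun x hx h2 =>
        Nat.find_min' h' ⟨x, hx, h2, rfl⟩⟩⟩
    · exact ⟨0, fun h' => absurd h' h⟩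
  choose lab hlab using hidx
  refine ⟨m, lab, ?_, ?_⟩
  · intro q hq
    have hlevc := continuous_lev hπ k m
    have hev : ∀ x ∈ F, ∀ᶠ q' in 𝓝 q, lev k m q' ∈ S →
        ((lev k m q' : XSp π) ∈ V x ↔ (lev k m q : XSp π) ∈ V x) := by
      intro x hx
      rcases hTc x _ hq (hmT x hx q) with h2 | h2
      · filter_upwards [hlevc.continuousAt.eventually ((hV x).mem_nhds h2)] with q' hq' _
        exact ⟨fun _ => h2, fun _ => hq'⟩
      · filter_upwards [hlevc.continuousAt.eventually ((hW x).mem_nhds h2)] with q' hq' hs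
        exact ⟨fun h3 => absurd hq' (hVW x _ hs h3), fun h3 => absurd h2 (hVW x _ hq h3)⟩
    have hall := (Filter.eventually_all_finset F).mpr hev
    filter_upwards [hall] with q' hq' hs
    have e1 := hlab q (hcov k hk m q hq)
    have e2 := hlab q' (hcov k hk m q' hs)
    apply le_antisymm
    · obtain ⟨x, hx, hxv, hxe⟩ := e1.1
      rw [← hxe]
      exact e2.2 x hx ((hq' x hx hs).mpr hxv)
    · obtain ⟨x, hx, hxv, hxe⟩ := e2.1
      rw [← hxe]
      exact e1.2 x hx ((hq' x hx hs).mp hxv)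
  · intro q q' hq hq' he
    obtain ⟨x, hx, hxv, hxe⟩ := (hlab q (hcov k hk m q hq)).1
    obtain ⟨y, hy, hyv, hye⟩ := (hlab q' (hcov k hk m q' hq')).1
    have hxy : x = y := by
      have h3 : idx ⟨x, hx⟩ = idx ⟨y, hy⟩ := Fin.ext (by rw [hxe, hye, he])
      have h4 := idx.injective h3
      exact congrArg Subtype.val h4
    subst hxy
    have d1 := hVd x _ hq hxv
    have d2 := hVd x _ hq' hyv
    have d3 := dist_proj_le (lev k m q : XSp π) (lev k m q')
    have d4 := dist_triangle_right (lev k m q : XSp π) (lev k m q') (base x.1)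
    have d5 : dist (π k q) (π k q') = dist (lev k m q : XSp π).proj (lev k m q' : XSp π).proj :=
      rfl
    rw [d5]
    linarith

theorem not_large_le {D : Type} {E : ℕ → Type} {π : ∀ k, E k → D} [MetricSpace D]
    [∀ k, MetricSpace (E k)] [CompactSpace D] [∀ k, CompactSpace (E k)]
    (Bd : BaseData D) (φ : ℕ → D → ℝ) (ε : ℕ → ℝ)
    (hE : ∀ k, IsPiece Bd.a (Bd.M k) Bd.Z k φ (ε k) (E k) (π k)) : ¬ LargeLE 2 (XSp π) := by
  intro hL
  have hπ : ∀ k, Continuous (π k) := fun k => (hE k).cont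
  obtain ⟨S, ⟨hSc, V, W, hV, hW, hVW, hc, hA, hB⟩, h1⟩ := hL (proj ⁻¹' Bd.A) (proj ⁻¹' Bd.B)
    (Bd.A_closed.preimage continuous_proj) (Bd.B_closed.preimage continuous_proj)
    (Bd.disj.preimage _)
  obtain ⟨K, hK⟩ := exists_small_split hπ S hSc h1 (Bd.c / 4) (by have := Bd.c_pos; linarith)
  obtain ⟨m, lab, hl1, hl2⟩ := hK K le_rfl
  have hlc := continuous_lev hπ K m
  refine no_small_partition Bd (π K) (hπ K) (hE K).nonexact2 (lev K m ⁻¹' S) (lev K m ⁻¹' V)
    (lev K m ⁻¹' W) (hSc.preimage hlc) (hV.preimage hlc) (hW.preimage hlc) (hVW.preimage _) ?_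
    ?_ ?_ ℕ lab ?_ ?_
  · rw [← preimage_compl, hc, preimage_union]
  · intro q hq
    exact hA (show (lev K m q : XSp π) ∈ proj ⁻¹' Bd.A from hq)
  · intro q hq
    exact hB (show (lev K m q : XSp π) ∈ proj ⁻¹' Bd.B from hq)
  · intro q hq
    exact hl1 q hq
  · intro q hq q' hq' h
    exact hl2 q q' hq hq' h

end Pool.Agent.CmpDef
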