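import Pool.Agent.CmpDef.XSpace
import Pool.Agent.CmpDef.Base
import Pool.Agent.CmpDef.LS

/-!
# `def X ≥ 3`
-/

open Set TopologicalSpace Filter Topology

namespace Pool.Agent.CmpDef

open XSp

theorem ld_dist_lev_base {D : Type} {E : ℕ → Type} {π : ∀ k, E k → D} [MetricSpace D]
    [∀ k, MetricSpace (E k)] (k m : ℕ) (q : E k) (x : D) :
    dist (lev k m q : XSp π) (base x) = dist (π k q) x + (1 / 2) ^ k := rfl

theorem ld_tendsto {D : Type} {E : ℕ → Type} {π : ∀ k, E k → D} [MetricSpace D]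
    [∀ k, MetricSpace (E k)] (k m : ℕ → ℕ) (q : ∀ n, E (k n)) (x : D)
    (hk : Tendsto k atTop atTop) (hx : Tendsto (fun n => π (k n) (q n)) atTop (𝓝 x)) :
    Tendsto (fun n => (lev (k n) (m n) (q n) : XSp π)) atTop (𝓝 (base x)) := by
  rw [tendsto_iff_dist_tendsto_zero]
  have h1 : Tendsto (fun n => dist (π (k n) (q n)) x) atTop (𝓝 0) :=
    tendsto_iff_dist_tendsto_zero.1 hx
  have h2 : Tendsto (fun n : ℕ => ((1 : ℝ) / 2) ^ (k n)) atTop (𝓝 0) :=
    (tendsto_pow_atTop_nhds_zero_of_lt_one (by norm_num) (by norm_num)).comp hk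
  have h3 := h1.add h2
  simp only [add_zero] at h3
  exact h3

/-- In any metrizable compactification, points of high level which are close have close
projections. -/
theorem close_of_close {D : Type} {E : ℕ → Type} {π : ∀ k, E k → D} [MetricSpace D]
    [∀ k, MetricSpace (E k)] [CompactSpace D] [∀ k, CompactSpace (E k)]
    (hπ : ∀ k, Continuous (π k)) {Y : Type} [MetricSpace Y] [CompactSpace Y] (e : XSp π → Y)
    (he : Topology.IsEmbedding e) (c : ℝ) (hc : 0 < c) :
    ∃ k0 : ℕ, ∃ t > 0, ∀ k ≥ k0, ∀ m q m' q', dist (e (lev k m q)) (e (lev k m' q')) < t →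
      dist (π k q) (π k q') < c := by
  by_contra hcon
  push_neg at hcon
  have h1 : ∀ n : ℕ, ∃ k ≥ n, ∃ m q m' q', dist (e (lev k m q)) (e (lev k m' q')) <
      1 / ((n : ℝ) + 1) ∧ c ≤ dist (π k q) (π k q') := by
    intro n
    exact hcon n (1 / ((n : ℝ) + 1)) (by positivity)
  choose k hk m q m' q' hd hge using h1
  have hktop : Tendsto k atTop atTop := tendsto_atTop_mono hk tendsto_id
  obtain ⟨x, -, φ, hφ, hx⟩ := (isCompact_univ (X := D)).tendsto_subseq
    (x := fun n => π (k n) (q n)) (fun n => mem_univ _)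
  obtain ⟨x', -, ψ, hψ, hx'⟩ := (isCompact_univ (X := D)).tendsto_subseq
    (x := fun n => π (k (φ n)) (q' (φ n))) (fun n => mem_univ _)
  have hφψ : Tendsto (fun n => φ (ψ n)) atTop atTop := hφ.tendsto_atTop.comp hψ.tendsto_atTop
  have hxx : Tendsto (fun n => π (k (φ (ψ n))) (q (φ (ψ n)))) atTop (𝓝 x) :=
    hx.comp hψ.tendsto_atTop
  have hu : Tendsto (fun n => (lev (k (φ (ψ n))) (m (φ (ψ n))) (q (φ (ψ n))) : XSp π)) atTop
      (𝓝 (base x)) := ld_tendsto _ _ _ x (hktop.comp hφψ) hxx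
  have hu' : Tendsto (fun n => (lev (k (φ (ψ n))) (m' (φ (ψ n))) (q' (φ (ψ n))) : XSp π)) atTop
      (𝓝 (base x')) := ld_tendsto _ _ _ x' (hktop.comp hφψ) hx'
  have hv := (he.continuous.tendsto _).comp hu
  have hv' := (he.continuous.tendsto _).comp hu'
  have hdist := hv.dist hv'
  have hzero : Tendsto (fun n => dist (e (lev (k (φ (ψ n))) (m (φ (ψ n))) (q (φ (ψ n)))))
      (e (lev (k (φ (ψ n))) (m' (φ (ψ n))) (q' (φ (ψ n)))))) atTop (𝓝 0) := by
    have hlim : Tendsto (fun n => 1 / (((φ (ψ n) : ℕ) : ℝ) + 1)) atTop (𝓝 0) :=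
      tendsto_one_div_add_atTop_nhds_zero_nat.comp hφψ
    exact squeeze_zero (fun n => dist_nonneg) (fun n => (hd _).le) hlim
  have hee : dist (e (base x)) (e (base x')) = 0 := tendsto_nhds_unique hdist hzero
  have hbb : (base x : XSp π) = base x' := he.injective (dist_eq_zero.1 hee)
  have hxe : x = x' := by
    injection hbb
  have hcd : c ≤ dist x x' :=
    ge_of_tendsto (hxx.dist hx') (Eventually.of_forall fun n => hge _)
  rw [hxe, dist_self] at hcd
  linarith

theorem ld_open_fun {Y : Type} [MetricSpace Y] (O : Set Y) (hO : IsOpen O) :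
    ∃ f : Y → ℝ, Continuous f ∧ (∀ y, 0 ≤ f y) ∧ ∀ y, 0 < f y ↔ y ∈ O := by
  by_cases hne : (Oᶜ : Set Y).Nonempty
  · refine ⟨fun y => Metric.infDist y Oᶜ, Metric.continuous_infDist_pt _,
      fun y => Metric.infDist_nonneg, fun y => ?_⟩
    rw [← hO.isClosed_compl.notMem_iff_infDist_pos hne]
    simp
  · refine ⟨fun _ => 1, continuous_const, fun _ => zero_le_one, fun y => ?_⟩
    have : O = univ := by
      rw [not_nonempty_iff_eq_empty] at hne
      exact compl_empty_iff.1 hne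
    simp [this]

/-- In a compact metric space `Y`, let `R ⊆ Y` have covering dimension at most `n - 1` and let
`L ⊆ R` be compact.  Then there are finitely many Lipschitz functions on `Y` with positivity sets
of small diameter such that near `L` at most `n` of them are positive and one is `≥ t0`. -/
theorem cover_near {Y : Type} [MetricSpace Y] [CompactSpace Y] (R : Set Y) (n : ℕ)
    (hR : CovDimLE n ↥R) (L : Set Y) (hL : IsCompact L) (hLR : L ⊆ R) (t : ℝ) (ht : 0 < t) :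
    ∃ (ι : Type) (_ : Fintype ι) (ρ : ι → Y → ℝ) (t0 : ℝ) (U : Set Y), 0 < t0 ∧
      (∀ i, Continuous (ρ i)) ∧ (∀ i y y', 0 < ρ i y → 0 < ρ i y' → dist y y' < t) ∧
      IsOpen U ∧ L ⊆ U ∧ (∀ y ∈ U, {i | 0 < ρ i y}.ncard ≤ n) ∧ ∀ y ∈ U, ∃ i, t0 ≤ ρ i y := by
  classical
  obtain ⟨C, -, hCfin, hCcov⟩ := (isCompact_univ (X := Y)).finite_cover_balls
    (show (0 : ℝ) < t / 3 by positivity)
  -- the open cover of `R`
  obtain ⟨𝒱, h𝒱fin, h𝒱open, h𝒱cov, h𝒱ref, h𝒱ord⟩ := hR
    ((fun c : Y => (Subtype.val ⁻¹' Metric.ball c (t / 3) : Set R)) '' C) (hCfin.image _)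
    (by
      rintro U ⟨c, -, rfl⟩
      exact Metric.isOpen_ball.preimage continuous_subtype_val)
    (by
      ext z
      simp only [mem_sUnion, mem_image, exists_exists_and_eq_and, mem_univ, iff_true]
      have hz := hCcov (mem_univ z.1)
      simp only [mem_iUnion, exists_prop] at hz
      obtain ⟨c, hc, hzc⟩ := hz
      exact ⟨c, hc, hzc⟩)
  have hO : ∀ V : 𝒱, ∃ O : Set Y, IsOpen O ∧ Subtype.val ⁻¹' O = (V : Set R) ∧
      ∃ c : Y, O ⊆ Metric.ball c (t / 3) := by
    intro V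
    obtain ⟨O, hOo, hOV⟩ := isOpen_induced_iff.1 (h𝒱open V V.2)
    obtain ⟨U, ⟨c, hc, rfl⟩, hVU⟩ := h𝒱ref V V.2
    refine ⟨O ∩ Metric.ball c (t / 3), hOo.inter Metric.isOpen_ball, ?_, c, inter_subset_right⟩
    rw [preimage_inter, hOV]
    exact inter_eq_left.2 hVU
  choose O hOo hOV c hOc using hO
  choose f hfc hf0 hfpos using fun V => ld_open_fun (O V) (hOo V)
  haveI : Fintype 𝒱 := h𝒱fin.fintype
  have hmem : ∀ (y : Y) (hy : y ∈ R) (V : 𝒱), 0 < f V y ↔ (⟨y, hy⟩ : R) ∈ (V : Set R) := by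
    intro y hy V
    rw [hfpos, ← hOV V]
    rfl
  -- lower bound for the sum on `L`
  have hsum : ∃ s0 : ℝ, 0 < s0 ∧ ∀ y ∈ L, s0 ≤ ∑ V, f V y := by
    rcases L.eq_empty_or_nonempty with rfl | hne
    · exact ⟨1, one_pos, fun y hy => hy.elim⟩
    · have hcont : Continuous fun y => ∑ V, f V y := continuous_finset_sum _ fun V _ => hfc V
      obtain ⟨y0, hy0, hmin⟩ := hL.exists_isMinOn hne hcont.continuousOn
      refine ⟨∑ V, f V y0, ?_, fun y hy => hmin hy⟩
      have hz : (⟨y0, hLR hy0⟩ : R) ∈ ⋃₀ 𝒱 := by rw [h𝒱cov]; trivial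
      obtain ⟨V, hV, hzV⟩ := hz
      exact Finset.sum_pos' (fun V _ => hf0 V y0) ⟨⟨V, hV⟩, Finset.mem_univ _,
        (hmem y0 (hLR hy0) ⟨V, hV⟩).2 hzV⟩
  obtain ⟨s0, hs0, hs⟩ := hsum
  set N : ℝ := (Fintype.card 𝒱 : ℝ) + 1 with hN
  have hNpos : 0 < N := by positivity
  set t1 : ℝ := s0 / (3 * N) with ht1
  have ht1pos : 0 < t1 := by positivity
  have hbig : ∀ y ∈ L, ∃ V, 3 * t1 ≤ f V y := by
    intro y hy
    by_contra hcon
    push_neg at hcon
    have h1 : ∑ V, f V y ≤ ∑ _V : 𝒱, 3 * t1 := Finset.sum_le_sum fun V _ => (hcon V).le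
    rw [Finset.sum_const, Finset.card_univ, nsmul_eq_mul] at h1
    have h2 := hs y hy
    have h3 : 3 * t1 * N = s0 := by
      rw [ht1]; field_simp
    have h4 : (Fintype.card 𝒱 : ℝ) * (3 * t1) < s0 := by
      rw [← h3, hN]; nlinarith
    linarith
  let S : Set Y := {y | {V | 0 < f V y - t1}.ncard ≤ n ∧ ∃ V, t1 ≤ f V y - t1}
  refine ⟨𝒱, inferInstance, fun V y => f V y - t1, t1, interior S, ht1pos,
    fun V => (hfc V).sub continuous_const, ?_, isOpen_interior, ?_,
    fun y hy => (interior_subset hy).1, fun y hy => (interior_subset hy).2⟩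
  · intro V y y' hy hy'
    have h1 : y ∈ O V := (hfpos V y).1 (by linarith)
    have h2 : y' ∈ O V := (hfpos V y').1 (by linarith)
    have h3 := hOc V h1
    have h4 := hOc V h2
    rw [Metric.mem_ball] at h3 h4
    have h5 := dist_triangle_right y y' (c V)
    linarith
  · intro y hy
    rw [mem_interior_iff_mem_nhds]
    have hyR := hLR hy
    have hev1 : ∀ᶠ y' in 𝓝 y, ∀ V, f V y = 0 → f V y' < t1 := by
      rw [eventually_all]
      intro V
      by_cases h0 : f V y = 0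
      · have : ∀ᶠ y' in 𝓝 y, f V y' < t1 :=
          (hfc V).continuousAt.eventually_lt_const (by rw [h0]; exact ht1pos)
        exact this.mono fun y' h _ => h
      · exact Eventually.of_forall fun y' h => absurd h h0
    obtain ⟨V0, hV0⟩ := hbig y hy
    have hev2 : ∀ᶠ y' in 𝓝 y, 2 * t1 < f V0 y' :=
      (hfc V0).continuousAt.eventually_const_lt (by linarith)
    filter_upwards [hev1, hev2] with y' h1 h2
    refine ⟨?_, V0, by linarith⟩
    have hsub : {V | 0 < f V y' - t1} ⊆ {V : 𝒱 | (⟨y, hyR⟩ : R) ∈ (V : Set R)} := by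
      intro V hV
      rw [mem_setOf_eq] at hV ⊢
      rw [← hmem y hyR V]
      rcases (hf0 V y).lt_or_eq with h | h
      · exact h
      · have := h1 V h.symm
        linarith
    have hcard : {V : 𝒱 | (⟨y, hyR⟩ : R) ∈ (V : Set R)}.encard ≤ n := by
      have h3 := h𝒱ord ⟨y, hyR⟩
      have himg : (Subtype.val '' {V : 𝒱 | (⟨y, hyR⟩ : R) ∈ (V : Set R)}) =
          {V ∈ 𝒱 | (⟨y, hyR⟩ : R) ∈ V} := by
        ext V
        constructor
        · rintro ⟨W, hW, rfl⟩
          exact ⟨W.2, hW⟩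
        · rintro ⟨hV, hz⟩
          exact ⟨⟨V, hV⟩, hz, rfl⟩
      rw [← himg, Subtype.val_injective.encard_image] at h3
      exact h3
    have h4 : {V | 0 < f V y' - t1}.encard ≤ n := (encard_le_encard hsub).trans hcard
    have h5 : {V | 0 < f V y' - t1}.Finite := toFinite _
    rw [← h5.cast_ncard_eq] at h4
    exact_mod_cast h4

theorem ld_nhd {D : Type} {E : ℕ → Type} {π : ∀ k, E k → D} [MetricSpace D]
    [∀ k, MetricSpace (E k)] (u : XSp π) (k : ℕ) :
    ∃ m0, ∃ r > 0, ∀ m ≥ m0, ∀ q, r ≤ dist (lev k m q : XSp π) u := by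
  cases u with
  | base x =>
    refine ⟨0, (1 / 2) ^ k, by positivity, fun m _ q => ?_⟩
    rw [ld_dist_lev_base]
    have := dist_nonneg (x := π k q) (y := x)
    linarith
  | lev k' m' q' =>
    refine ⟨m' + 1, (1 / 2) ^ k, by positivity, fun m hm q => ?_⟩
    rw [dist_def]
    have h1 := dist_nonneg (x := (lev k m q : XSp π).proj) (y := (lev k' m' q' : XSp π).proj)
    have h2 : tau (lev k m q : XSp π) (lev k' m' q') = (1 / 2) ^ k + (1 / 2) ^ k' := by
      rw [tau, dif_neg]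
      rintro ⟨-, h⟩
      omega
    rw [h2]
    have : (0 : ℝ) ≤ (1 / 2) ^ k' := by positivity
    linarith

/-- For fixed `k`, the pieces `E k × {m}` are eventually in any neighbourhood of a compact subset
of the remainder. -/
theorem exists_limit_set {D : Type} {E : ℕ → Type} {π : ∀ k, E k → D} [MetricSpace D]
    [∀ k, MetricSpace (E k)] [CompactSpace D] [∀ k, CompactSpace (E k)]
    (hπ : ∀ k, Continuous (π k)) {Y : Type} [MetricSpace Y] [CompactSpace Y] (e : XSp π → Y)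
    (he : Topology.IsEmbedding e) (k : ℕ) :
    ∃ L : Set Y, IsCompact L ∧ L ⊆ (range e)ᶜ ∧
      ∀ U : Set Y, IsOpen U → L ⊆ U → ∃ m, ∀ q, e (lev k m q) ∈ U := by
  let A : ℕ → Set Y := fun n => {y | ∃ m ≥ n, ∃ q, y = e (lev k m q)}
  refine ⟨⋂ n, closure (A n), (isClosed_iInter fun n => isClosed_closure).isCompact, ?_, ?_⟩
  · rintro y hy ⟨u, rfl⟩
    obtain ⟨m0, r, hr, hru⟩ := ld_nhd u k
    obtain ⟨O, hO, hOV⟩ := isOpen_induced_iff.1
      (he.isInducing.eq_induced ▸ (Metric.isOpen_ball (x := u) (ε := r)))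
    have hyn := mem_iInter.1 hy m0
    rw [mem_closure_iff] at hyn
    have huO : e u ∈ O := by
      have : u ∈ e ⁻¹' O := by rw [hOV]; exact Metric.mem_ball_self hr
      exact this
    obtain ⟨z, hzO, m, hm, q, rfl⟩ := hyn O hO huO
    have h1 : (lev k m q : XSp π) ∈ e ⁻¹' O := hzO
    rw [hOV, Metric.mem_ball] at h1
    exact absurd (hru m hm q) (not_le.2 h1)
  · intro U hU hLU
    by_contra hcon
    push_neg at hcon
    choose q hq using hcon
    obtain ⟨y, -, φ, hφ, hy⟩ := (isCompact_univ (X := Y)).tendsto_subseq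
      (x := fun m => e (lev k m (q m))) (fun m => mem_univ _)
    have hyL : y ∈ ⋂ n, closure (A n) := by
      refine mem_iInter.2 fun n => mem_closure_of_tendsto hy ?_
      filter_upwards [hφ.tendsto_atTop.eventually_ge_atTop n] with j hj
      exact ⟨φ j, hj, q (φ j), rfl⟩
    have hyU : y ∈ Uᶜ := hU.isClosed_compl.mem_of_tendsto hy
      (Eventually.of_forall fun j => hq (φ j))
    exact hyU (hLU hyL)

theorem not_def_le {D : Type} {E : ℕ → Type} {π : ∀ k, E k → D} [MetricSpace D]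
    [∀ k, MetricSpace (E k)] [CompactSpace D] [∀ k, CompactSpace (E k)]
    (Bd : BaseData D) (φ : ℕ → D → ℝ) (ε : ℕ → ℝ)
    (hE : ∀ k, IsPiece Bd.a (Bd.M k) Bd.Z k φ (ε k) (E k) (π k)) : ¬ DefLE 3 (XSp π) := by
  classical
  rintro ⟨Y, τ, e, hYc, hYm, he, -, hdim⟩
  letI : MetricSpace Y := TopologicalSpace.metrizableSpaceMetric Y
  have hπ : ∀ k, Continuous (π k) := fun k => (hE k).cont
  obtain ⟨k, t, ht, hclose⟩ := close_of_close hπ e he Bd.c Bd.c_pos
  obtain ⟨L, hLc, hLR, hLU⟩ := exists_limit_set hπ e he k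
  obtain ⟨ι, hι, ρ, t0, U, ht0, hρc, hρd, hU, hLsU, hcard, hmax⟩ :=
    cover_near _ 3 hdim L hLc hLR t ht
  obtain ⟨m, hm⟩ := hLU U hU hLsU
  have hcl : Continuous fun q : E k => e (lev k m q) := he.continuous.comp (continuous_lev hπ k m)
  have hac : ∀ P Q R : D, dist P Q < Bd.c → dist P R < Bd.c → dist Q R < Bd.c →
      Bd.a Q R + Bd.a P R + Bd.a P Q = 0 := by
    intro P Q R h1 h2 h3
    have hc := Bd.c_pos
    refine Bd.a_coc P Q R ⟨fun p _ => mem_univ _, ?_⟩
    have h1' := h1; have h2' := h2; have h3' := h3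
    rw [dist_comm] at h1' h2' h3'
    simp only [List.mem_cons, List.not_mem_nil, or_false, forall_eq_or_imp, forall_eq, dist_self]
    exact ⟨⟨hc, h1, h2⟩, ⟨h1', hc, h3⟩, ⟨h2', h3', hc⟩⟩
  refine (hE k).nonexact3 ?_
  refine exact3_of_ls Bd.a (π k) univ ?_ ?_
  · have hu : UniformContinuous (π k) := CompactSpace.uniformContinuous_of_continuous (hπ k)
    obtain ⟨lam, hlam, hlam'⟩ := Metric.uniformContinuous_iff.1 hu Bd.c Bd.c_pos
    refine ⟨lam, hlam, fun p0 p1 p2 hs => hac _ _ _ (hlam' ?_) (hlam' ?_) (hlam' ?_)⟩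
    · exact hs.2 _ (by simp) _ (by simp)
    · exact hs.2 _ (by simp) _ (by simp)
    · exact hs.2 _ (by simp) _ (by simp)
  · refine ls_lemma (T := E k) univ (fun p q => Bd.a (π k p) (π k q))
      (fun i q => ρ i (e (lev k m q)))
      (fun i => CompactSpace.uniformContinuous_of_continuous ((hρc i).comp hcl)) 3
      (fun p _ => hcard _ (hm p)) t0 ht0 (fun p _ => hmax _ (hm p))
      (fun i p => if h : ∃ p0, 0 < ρ i (e (lev k m p0)) then
        Bd.a (π k h.choose) (π k p) else 0) ?_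
    intro i p _ q _ hp hq
    have hex : ∃ p0, 0 < ρ i (e (lev k m p0)) := ⟨p, hp⟩
    simp only [dif_pos hex]
    have h0 := hex.choose_spec
    have hd1 := hclose k le_rfl m hex.choose m p (hρd i _ _ h0 hp)
    have hd2 := hclose k le_rfl m hex.choose m q (hρd i _ _ h0 hq)
    have hd3 := hclose k le_rfl m p m q (hρd i _ _ hp hq)
    have h := hac _ _ _ hd1 hd2 hd3
    have h2 : ∀ x y z : ZMod 2, x + y + z = 0 → x = z + y := by decide
    exact h2 _ _ _ h

end Pool.Agent.CmpDef
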