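import Pool.Agent.CmpDef.Fibre

/-!
# The square trick
-/

open Set TopologicalSpace Filter Topology

namespace Pool.Agent.CmpDef

theorem frob_base {D : Type} [MetricSpace D] (M : Set D) (z : D → D → D → D → ZMod 2)
    (h : Exact3 z id M) : Cocyc3 z M ∧ Exact6 (sq3 z) M := by
  obtain ⟨lam, hlam, w, hw⟩ := h
  simp only [id] at hw
  have hc : ∀ x0 x1 x2 x3 x4, Small M lam [x0, x1, x2, x3, x4] →
      z x1 x2 x3 x4 + z x0 x2 x3 x4 + z x0 x1 x3 x4 + z x0 x1 x2 x4 + z x0 x1 x2 x3 = 0 := by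
    intro x0 x1 x2 x3 x4 hs
    have h0 := hw x1 x2 x3 x4 (hs.sub (by simp))
    have h1 := hw x0 x2 x3 x4 (hs.sub (by simp))
    have h2 := hw x0 x1 x3 x4 (hs.sub (by simp))
    have h3 := hw x0 x1 x2 x4 (hs.sub (by simp))
    have h4 := hw x0 x1 x2 x3 (hs.sub (by simp))
    rw [h0, h1, h2, h3, h4]
    (ring_nf; try reduce_mod_char)
  refine ⟨⟨lam, hlam, hc⟩, lam, hlam, fun x0 x1 x2 x3 x4 x5 => w x0 x1 x2 * z x2 x3 x4 x5, ?_⟩
  intro x0 x1 x2 x3 x4 x5 x6 hs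
  have h0 := hw x0 x1 x2 x3 (hs.sub (by simp))
  have h1 := hc x2 x3 x4 x5 x6 (hs.sub (by simp))
  unfold sq3
  linear_combination (norm := (ring_nf; try reduce_mod_char)) (z x3 x4 x5 x6) * h0 + (w x0 x1 x2) * h1

/-- the cup-1 product identity for two 3-cocycles -/
theorem frob_cross {D : Type} (P Q : D → D → D → D → ZMod 2) (x0 x1 x2 x3 x4 x5 x6 : D)
    (p0 : P x3 x4 x5 x6 + P x0 x4 x5 x6 + P x0 x3 x5 x6 + P x0 x3 x4 x6 + P x0 x3 x4 x5 = 0)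
    (p1 : P x1 x4 x5 x6 + P x0 x4 x5 x6 + P x0 x1 x5 x6 + P x0 x1 x4 x6 + P x0 x1 x4 x5 = 0)
    (p2 : P x1 x2 x5 x6 + P x0 x2 x5 x6 + P x0 x1 x5 x6 + P x0 x1 x2 x6 + P x0 x1 x2 x5 = 0)
    (p3 : P x1 x2 x3 x6 + P x0 x2 x3 x6 + P x0 x1 x3 x6 + P x0 x1 x2 x6 + P x0 x1 x2 x3 = 0)
    (q0 : Q x1 x2 x3 x4 + Q x0 x2 x3 x4 + Q x0 x1 x3 x4 + Q x0 x1 x2 x4 + Q x0 x1 x2 x3 = 0)
    (q1 : Q x2 x3 x4 x5 + Q x1 x3 x4 x5 + Q x1 x2 x4 x5 + Q x1 x2 x3 x5 + Q x1 x2 x3 x4 = 0)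
    (q2 : Q x3 x4 x5 x6 + Q x2 x4 x5 x6 + Q x2 x3 x5 x6 + Q x2 x3 x4 x6 + Q x2 x3 x4 x5 = 0) :
    P x0 x1 x2 x3 * Q x3 x4 x5 x6 + Q x0 x1 x2 x3 * P x3 x4 x5 x6 =
      (P x1 x4 x5 x6 * Q x1 x2 x3 x4 + P x1 x2 x5 x6 * Q x2 x3 x4 x5
        + P x1 x2 x3 x6 * Q x3 x4 x5 x6)
      + (P x0 x4 x5 x6 * Q x0 x2 x3 x4 + P x0 x2 x5 x6 * Q x2 x3 x4 x5
        + P x0 x2 x3 x6 * Q x3 x4 x5 x6)
      + (P x0 x4 x5 x6 * Q x0 x1 x3 x4 + P x0 x1 x5 x6 * Q x1 x3 x4 x5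
        + P x0 x1 x3 x6 * Q x3 x4 x5 x6)
      + (P x0 x4 x5 x6 * Q x0 x1 x2 x4 + P x0 x1 x5 x6 * Q x1 x2 x4 x5
        + P x0 x1 x2 x6 * Q x2 x4 x5 x6)
      + (P x0 x3 x5 x6 * Q x0 x1 x2 x3 + P x0 x1 x5 x6 * Q x1 x2 x3 x5
        + P x0 x1 x2 x6 * Q x2 x3 x5 x6)
      + (P x0 x3 x4 x6 * Q x0 x1 x2 x3 + P x0 x1 x4 x6 * Q x1 x2 x3 x4
        + P x0 x1 x2 x6 * Q x2 x3 x4 x6)
      + (P x0 x3 x4 x5 * Q x0 x1 x2 x3 + P x0 x1 x4 x5 * Q x1 x2 x3 x4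
        + P x0 x1 x2 x5 * Q x2 x3 x4 x5) := by
  linear_combination (norm := (ring_nf; try reduce_mod_char)) (Q x0 x1 x2 x3) * p0 + (Q x1 x2 x3 x4) * p1
    + (Q x2 x3 x4 x5) * p2 + (Q x3 x4 x5 x6) * p3 + (P x0 x4 x5 x6) * q0
    + (P x0 x1 x5 x6) * q1 + (P x0 x1 x2 x6) * q2

theorem chi_zero_or_one {D : Type} (φ : D → ℝ) (θ : ℝ) (x : D) :
    (chi φ θ x = 0 ∧ φ x < θ) ∨ (chi φ θ x = 1 ∧ θ ≤ φ x) := by
  unfold chi
  by_cases h : θ ≤ φ x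
  · right; rw [if_pos h]; exact ⟨rfl, h⟩
  · left; rw [if_neg h]; exact ⟨rfl, not_le.1 h⟩

/-- the inductive step -/
theorem frob_step {D : Type} [MetricSpace D] (M : Set D) (φ : D → ℝ) (hφ : UniformContinuous φ)
    (z Z : D → D → D → D → ZMod 2) (Φ : D → D → D → ZMod 2)
    (hΦ : Cocyc2 Φ (M ∩ {x | 1 / 3 ≤ φ x ∧ φ x ≤ 2 / 3}))
    (hz : ∀ x0 x1 x2 x3, Z x0 x1 x2 x3
      = z x0 x1 x2 x3 + (chi φ (1 / 2) x0 + chi φ (1 / 2) x1) * Φ x1 x2 x3)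
    (h1 : Cocyc3 Z M) (h2 : Exact6 (sq3 Z) M) : Cocyc3 z M ∧ Exact6 (sq3 z) M := by
  obtain ⟨l1, hl1, hc⟩ := h1
  obtain ⟨l2, hl2, η, hη⟩ := h2
  obtain ⟨l3, hl3, hd⟩ := hΦ
  obtain ⟨l4, hl4, hu⟩ := Metric.uniformContinuous_iff.1 hφ (1 / 12) (by norm_num)
  obtain ⟨lam, hlam, e1, e2, e3, e4⟩ : ∃ lam > 0, lam ≤ l1 ∧ lam ≤ l2 ∧ lam ≤ l3 ∧ lam ≤ l4 :=
    ⟨min (min l1 l2) (min l3 l4), by positivity, (min_le_left _ _).trans (min_le_left _ _),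
      (min_le_left _ _).trans (min_le_right _ _), (min_le_right _ _).trans (min_le_left _ _),
      (min_le_right _ _).trans (min_le_right _ _)⟩
  -- `φ` varies by less than `1/12` on small tuples
  have hvar : ∀ l : List D, Small M lam l → ∀ x ∈ l, ∀ y ∈ l, |φ x - φ y| < 1 / 12 := by
    intro l hl x hx y hy
    have h := hu ((hl.2 x hx y hy).trans_le e4)
    rwa [Real.dist_eq] at h
  -- if some member has `φ` between `5/12` and `7/12`, then `Φ` is a cocycle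
  have hcyc : ∀ x0 x1 x2 x3 y, Small M lam [y, x0, x1, x2, x3] → 5 / 12 ≤ φ y → φ y ≤ 7 / 12 →
      Φ x1 x2 x3 + Φ x0 x2 x3 + Φ x0 x1 x3 + Φ x0 x1 x2 = 0 := by
    intro x0 x1 x2 x3 y hs hy1 hy2
    refine hd x0 x1 x2 x3 ⟨fun p hp => ⟨hs.1 p (List.mem_cons_of_mem _ hp), ?_, ?_⟩,
      fun p hp q hq => (hs.2 p (List.mem_cons_of_mem _ hp) q (List.mem_cons_of_mem _ hq)).trans_le
        e3⟩
    · have := hvar _ hs p (List.mem_cons_of_mem _ hp) y (by simp)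
      rw [abs_lt] at this
      linarith [this.1]
    · have := hvar _ hs p (List.mem_cons_of_mem _ hp) y (by simp)
      rw [abs_lt] at this
      linarith [this.2]
  set χ := chi φ (1 / 2) with hχ
  set χ' := chi φ (5 / 12) with hχ'
  -- if the values of `χ` at two members are different, the first one is near `1/2`
  have hdiff : ∀ x y l, Small M lam l → x ∈ l → y ∈ l → χ x ≠ χ y →
      5 / 12 < φ x ∧ φ x < 7 / 12 := by
    intro x y l hs hx hy hne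
    have hv := hvar _ hs x hx y hy
    rw [abs_lt] at hv
    rcases chi_zero_or_one φ (1 / 2) x with ⟨ha, ha'⟩ | ⟨ha, ha'⟩ <;>
    rcases chi_zero_or_one φ (1 / 2) y with ⟨hb, hb'⟩ | ⟨hb, hb'⟩
    · exact absurd (ha.trans hb.symm) hne
    · constructor <;> linarith [hv.1, hv.2]
    · constructor <;> linarith [hv.1, hv.2]
    · exact absurd (ha.trans hb.symm) hne
  -- the correction term
  set U : D → D → D → D → ZMod 2 := fun x0 x1 x2 x3 => (χ x0 + χ x1) * Φ x1 x2 x3 with hU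
  have hUc : ∀ x0 x1 x2 x3 x4, Small M lam [x0, x1, x2, x3, x4] →
      U x1 x2 x3 x4 + U x0 x2 x3 x4 + U x0 x1 x3 x4 + U x0 x1 x2 x4 + U x0 x1 x2 x3 = 0 := by
    intro x0 x1 x2 x3 x4 hs
    simp only [hU]
    have key : (χ x0 + χ x1) * (Φ x2 x3 x4 + Φ x1 x3 x4 + Φ x1 x2 x4 + Φ x1 x2 x3) = 0 := by
      by_cases hne : χ x0 = χ x1
      · rw [hne, CharTwo.add_self_eq_zero, zero_mul]
      · obtain ⟨ha, hb⟩ := hdiff x0 x1 _ hs (by simp) (by simp) hne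
        rw [hcyc x1 x2 x3 x4 x0 (hs.sub (by simp)) ha.le hb.le, mul_zero]
    linear_combination (norm := (ring_nf; try reduce_mod_char)) key
  have hz' : ∀ x0 x1 x2 x3, z x0 x1 x2 x3 = Z x0 x1 x2 x3 + U x0 x1 x2 x3 := by
    intro x0 x1 x2 x3
    rw [hz]
    simp only [hU]
    (ring_nf; try reduce_mod_char)
  have hZc : ∀ x0 x1 x2 x3 x4, Small M lam [x0, x1, x2, x3, x4] →
      Z x1 x2 x3 x4 + Z x0 x2 x3 x4 + Z x0 x1 x3 x4 + Z x0 x1 x2 x4 + Z x0 x1 x2 x3 = 0 :=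
    fun x0 x1 x2 x3 x4 hs => hc x0 x1 x2 x3 x4 (hs.mono Subset.rfl e1 (List.Subset.refl _))
  refine ⟨⟨lam, hlam, ?_⟩, lam, hlam, fun x0 x1 x2 x3 x4 x5 => η x0 x1 x2 x3 x4 x5
    + (Z x0 x3 x4 x5 * U x0 x1 x2 x3 + Z x0 x1 x4 x5 * U x1 x2 x3 x4
      + Z x0 x1 x2 x5 * U x2 x3 x4 x5)
    + U x0 x1 x2 x3 * ((χ x3 + χ' x3) * Φ x3 x4 x5), ?_⟩
  · intro x0 x1 x2 x3 x4 hs
    have a1 := hZc x0 x1 x2 x3 x4 hs
    have a2 := hUc x0 x1 x2 x3 x4 hs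
    simp only [hz']
    linear_combination (norm := (ring_nf; try reduce_mod_char)) a1 + a2
  · intro x0 x1 x2 x3 x4 x5 x6 hs
    have b1 := hη x0 x1 x2 x3 x4 x5 x6 (hs.mono Subset.rfl e2 (List.Subset.refl _))
    have b2 := frob_cross Z U x0 x1 x2 x3 x4 x5 x6
      (hZc x0 x3 x4 x5 x6 (hs.sub (by simp))) (hZc x0 x1 x4 x5 x6 (hs.sub (by simp)))
      (hZc x0 x1 x2 x5 x6 (hs.sub (by simp))) (hZc x0 x1 x2 x3 x6 (hs.sub (by simp)))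
      (hUc x0 x1 x2 x3 x4 (hs.sub (by simp))) (hUc x1 x2 x3 x4 x5 (hs.sub (by simp)))
      (hUc x2 x3 x4 x5 x6 (hs.sub (by simp)))
    -- `U ∪ U`
    have b3 : U x0 x1 x2 x3 * ((χ' x3 + χ' x4) * Φ x4 x5 x6) = 0 := by
      by_cases hne : χ x0 = χ x1
      · simp only [hU]
        rw [hne, CharTwo.add_self_eq_zero, zero_mul, zero_mul]
      · obtain ⟨ha, hb⟩ := hdiff x0 x1 _ hs (by simp) (by simp) hne
        have hlow : ∀ y ∈ [x0, x1, x2, x3, x4, x5, x6], χ' y = 1 := by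
          intro y hy
          have hv1 := hvar _ hs x0 (by simp) x1 (by simp)
          have hv2 := hvar _ hs x0 (by simp) y hy
          have hv3 := hvar _ hs x1 (by simp) y hy
          rw [abs_lt] at hv1 hv2 hv3
          rcases chi_zero_or_one φ (5 / 12) y with ⟨hy1, hy2⟩ | ⟨hy1, hy2⟩
          · exfalso
            rcases chi_zero_or_one φ (1 / 2) x0 with ⟨hc1, hc2⟩ | ⟨hc1, hc2⟩ <;>
            rcases chi_zero_or_one φ (1 / 2) x1 with ⟨hd1, hd2⟩ | ⟨hd1, hd2⟩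
            · exact hne (hc1.trans hd1.symm)
            · linarith [hv3.1, hv3.2]
            · linarith [hv2.1, hv2.2]
            · exact hne (hc1.trans hd1.symm)
          · exact hy1
        rw [hlow x3 (by simp), hlow x4 (by simp), CharTwo.add_self_eq_zero, zero_mul, mul_zero]
    have b4 : ∀ y0 y1 y2 y3, Small M lam [y0, y1, y2, y3] →
        (χ y0 + χ' y0) * (Φ y1 y2 y3 + Φ y0 y2 y3 + Φ y0 y1 y3 + Φ y0 y1 y2) = 0 := by
      intro y0 y1 y2 y3 hs'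
      rcases chi_zero_or_one φ (1 / 2) y0 with ⟨hc1, hc2⟩ | ⟨hc1, hc2⟩ <;>
      rcases chi_zero_or_one φ (5 / 12) y0 with ⟨hd1, hd2⟩ | ⟨hd1, hd2⟩
      · rw [hχ, hχ', hc1, hd1, add_zero, zero_mul]
      · rw [hcyc y0 y1 y2 y3 y0 (hs'.sub (by simp)) hd2 (by linarith), mul_zero]
      · exfalso; linarith
      · rw [hχ, hχ', hc1, hd1, CharTwo.add_self_eq_zero, zero_mul]
    have b5 := b4 x3 x4 x5 x6 (hs.sub (by simp))
    have b6 := hUc x0 x1 x2 x3 x4 (hs.sub (by simp))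
    have b7 : sq3 z x0 x1 x2 x3 x4 x5 x6 = sq3 Z x0 x1 x2 x3 x4 x5 x6
        + (Z x0 x1 x2 x3 * U x3 x4 x5 x6 + U x0 x1 x2 x3 * Z x3 x4 x5 x6)
        + U x0 x1 x2 x3 * U x3 x4 x5 x6 := by
      unfold sq3
      rw [hz', hz']
      ring
    have b8 : U x3 x4 x5 x6 = (χ x3 + χ x4) * Φ x4 x5 x6 := rfl
    have b9 : U x0 x1 x2 x3 * U x3 x4 x5 x6 =
        U x0 x1 x2 x3 * (((χ x4 + χ' x4) * Φ x4 x5 x6) + ((χ x3 + χ' x3) * Φ x3 x5 x6)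
          + ((χ x3 + χ' x3) * Φ x3 x4 x6) + ((χ x3 + χ' x3) * Φ x3 x4 x5)) := by
      rw [b8]
      linear_combination (norm := (ring_nf; try reduce_mod_char)) b3 + (U x0 x1 x2 x3) * b5
    rw [b7, b1, b2, b9]
    linear_combination (norm := (ring_nf; try reduce_mod_char)) ((χ x4 + χ' x4) * Φ x4 x5 x6) * b6

/-- If `z` can be killed by peeling off correction terms `δχ ∪ Φ`, then `z` is a cocycle on `M` and
`z ∪ z` is exact on `M`.  Here `X I z` stands for `z is exact on the space with active coordinates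
I`. -/
theorem frob {D ι : Type} [MetricSpace D] [DecidableEq ι] (M : Set D) (φ : ι → D → ℝ)
    (hφ : ∀ i, UniformContinuous (φ i))
    (X : Finset ι → (D → D → D → D → ZMod 2) → Prop)
    (h0 : ∀ z, X ∅ z → Exact3 z id M)
    (hpeel : ∀ (I : Finset ι) (i : ι), i ∉ I → ∀ z, Norm3 z → X (insert i I) z →
      ∃ Φ : D → D → D → ZMod 2, Norm2 Φ ∧
        Cocyc2 Φ (M ∩ {x | 1 / 3 ≤ φ i x ∧ φ i x ≤ 2 / 3}) ∧
        X I (addU z (φ i) (1 / 2) Φ))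
    (I : Finset ι) : ∀ z, Norm3 z → X I z → Cocyc3 z M ∧ Exact6 (sq3 z) M := by
  induction I using Finset.induction_on with
  | empty => exact fun z _ hX => frob_base M z (h0 z hX)
  | insert i I hi ih =>
    intro z hz hX
    obtain ⟨Φ, hΦn, hΦc, hX'⟩ := hpeel I i hi z hz hX
    have hn : Norm3 (addU z (φ i) (1 / 2) Φ) := by
      intro x y t
      unfold addU
      refine ⟨?_, ?_, ?_⟩
      · rw [(hz x y t).1, CharTwo.add_self_eq_zero, zero_mul, add_zero]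
      · rw [(hz x y t).2.1, (hΦn y t).1, mul_zero, add_zero]
      · rw [(hz x y t).2.2, (hΦn y t).2, mul_zero, add_zero]
    obtain ⟨h1, h2⟩ := ih _ hn hX'
    exact frob_step M (φ i) (hφ i) z _ Φ hΦc (fun _ _ _ _ => rfl) h1 h2

end Pool.Agent.CmpDef
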