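import Pool.Agent.CmpDef.PeelB

/-!
# The peeling lemmas
-/

open Set TopologicalSpace Filter Topology

namespace Pool.Agent.CmpDef

variable {J D T : Type} [Fintype J] [MetricSpace D] [MetricSpace T]

namespace Peel

/-- the alternating sum of the `Theta`s -/
noncomputable def RR (w : T × (Vx J → ℝ) → T × (Vx J → ℝ) → T × (Vx J → ℝ) → ZMod 2)
    (L L' : ℕ) (c c' c'' : J) (p : T) : ZMod 2 :=
  Theta w L L' c c' p + Theta w L L' c' c' p + Theta w L L' c c'' p + Theta w L L' c' c'' p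

/-- the primitive of the difference of `PhiW` and the base cochain -/
noncomputable def Xi (w : T × (Vx J → ℝ) → T × (Vx J → ℝ) → T × (Vx J → ℝ) → ZMod 2)
    (L L' : ℕ) (cc : T → J) (p p' : T) : ZMod 2 :=
  Psi w L (p, ev (.one (cc p))) (p', ev (.one (cc p))) + Theta w L L' (cc p) (cc p') p'
    + Theta w L L' (cc p') (cc p') p'

theorem exists_steps (t : ℝ) (ht : 0 < t) : ∃ L : ℕ, 0 < L ∧ Even L ∧ 2 * (1 / (L : ℝ)) < t := by
  obtain ⟨n, hn⟩ := exists_nat_gt (2 / t)
  refine ⟨2 * (n + 1), by omega, ⟨n + 1, by ring⟩, ?_⟩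
  have h1 : (0 : ℝ) < n + 1 := by positivity
  have h2 : 2 / t < 2 * (n + 1 : ℝ) := by linarith
  push_cast
  rw [div_lt_iff₀ ht] at h2
  rw [mul_one_div, div_lt_iff₀ (by positivity)]
  linarith

section

variable (ctr : J → D) (ε : ℝ) (φ : D → ℝ) (π : T → D) (E : Set T)

theorem RR_loc (lam mu : ℝ) (z : D → D → D → D → ZMod 2) (hz : Norm3 z)
    (w : T × (Vx J → ℝ) → T × (Vx J → ℝ) → T × (Vx J → ℝ) → ZMod 2)
    (hw : ∀ y0 y1 y2 y3, Small (EK ctr ε φ π E) lam [y0, y1, y2, y3] →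
      z (π y0.1) (π y1.1) (π y2.1) (π y3.1) = d2 w y0 y1 y2 y3)
    (L : ℕ) (hL : 0 < L) (hLm : 2 * (1 / (L : ℝ)) + mu ≤ lam) (L' : ℕ) (hL' : 0 < L')
    (hev : Even L') (hLm' : 2 * (1 / (L' : ℝ)) < mu) (c c' c'' : J) (p p' : T)
    (hp : p ∈ WE φ π E) (hp' : p' ∈ WE φ π E) (hpp : dist p p' < mu)
    (h1 : dist (π p) (ctr c) ≤ ε) (h2 : dist (π p) (ctr c') ≤ ε) (h3 : dist (π p) (ctr c'') ≤ ε)
    (h1' : dist (π p') (ctr c) ≤ ε) (h2' : dist (π p') (ctr c') ≤ ε)
    (h3' : dist (π p') (ctr c'') ≤ ε) :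
    RR w L L' c c' c'' p = RR w L L' c c' c'' p' := by
  have e1 := dTheta ctr ε φ π E lam mu z hz w hw L hL hLm L' hL' hev hLm' c c' p p' hp hp' hpp
    h1 h2 h1' h2'
  have e2 := dTheta ctr ε φ π E lam mu z hz w hw L hL hLm L' hL' hev hLm' c' c' p p' hp hp' hpp
    h2 h2 h2' h2'
  have e3 := dTheta ctr ε φ π E lam mu z hz w hw L hL hLm L' hL' hev hLm' c c'' p p' hp hp' hpp
    h1 h3 h1' h3'
  have e4 := dTheta ctr ε φ π E lam mu z hz w hw L hL hLm L' hL' hev hLm' c' c'' p p' hp hp' hpp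
    h2 h3 h2' h3'
  simp only [RR]
  linear_combination (norm := skip) e1 + e2 + e3 + e4
  ring_nf
  reduce_mod_char

theorem RR_fib (lam mu : ℝ) (hmu : 0 < mu) (z : D → D → D → D → ZMod 2) (hz : Norm3 z)
    (w : T × (Vx J → ℝ) → T × (Vx J → ℝ) → T × (Vx J → ℝ) → ZMod 2)
    (hw : ∀ y0 y1 y2 y3, Small (EK ctr ε φ π E) lam [y0, y1, y2, y3] →
      z (π y0.1) (π y1.1) (π y2.1) (π y3.1) = d2 w y0 y1 y2 y3)
    (L : ℕ) (hL : 0 < L) (hLm : 2 * (1 / (L : ℝ)) + mu ≤ lam) (L' : ℕ) (hL' : 0 < L')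
    (hev : Even L') (hLm' : 2 * (1 / (L' : ℝ)) < mu) (c c' c'' : J) (p p' : T)
    (hconn : IsPreconnected {q | q ∈ E ∧ π q = π p})
    (hp : p ∈ WE φ π E) (hp' : p' ∈ E) (hpp : π p' = π p)
    (h1 : dist (π p) (ctr c) ≤ ε) (h2 : dist (π p) (ctr c') ≤ ε)
    (h3 : dist (π p) (ctr c'') ≤ ε) :
    RR w L L' c c' c'' p' = RR w L L' c c' c'' p := by
  refine hconn.constant (f := RR w L L' c c' c'') ?_ ⟨hp', hpp⟩ ⟨hp.1, rfl⟩
  intro q hq
  have hev' : ∀ᶠ q' in 𝓝[{q | q ∈ E ∧ π q = π p}] q,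
      RR w L L' c c' c'' q' = RR w L L' c c' c'' q := by
    have hb : ∀ᶠ q' in 𝓝[{q | q ∈ E ∧ π q = π p}] q, q' ∈ Metric.ball q mu :=
      mem_nhdsWithin_of_mem_nhds (Metric.ball_mem_nhds q hmu)
    filter_upwards [hb, self_mem_nhdsWithin] with q' hq' hq''
    refine RR_loc ctr ε φ π E lam mu z hz w hw L hL hLm L' hL' hev hLm' c c' c'' q' q ?_ ?_ hq'
      ?_ ?_ ?_ ?_ ?_ ?_
    · refine ⟨hq''.1, ?_, ?_⟩ <;> rw [hq''.2]
      · exact hp.2.1
      · exact hp.2.2
    · refine ⟨hq.1, ?_, ?_⟩ <;> rw [hq.2]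
      · exact hp.2.1
      · exact hp.2.2
    all_goals first | rw [hq''.2] | rw [hq.2]
    all_goals assumption
  exact (tendsto_const_nhds (x := RR w L L' c c' c'' q)).congr' (by
    filter_upwards [hev'] with q' hq' using hq'.symm)

theorem main_id (lam mu : ℝ) (z : D → D → D → D → ZMod 2) (hz : Norm3 z)
    (w : T × (Vx J → ℝ) → T × (Vx J → ℝ) → T × (Vx J → ℝ) → ZMod 2)
    (hw : ∀ y0 y1 y2 y3, Small (EK ctr ε φ π E) lam [y0, y1, y2, y3] →
      z (π y0.1) (π y1.1) (π y2.1) (π y3.1) = d2 w y0 y1 y2 y3)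
    (L : ℕ) (hL : 0 < L) (hLm : 2 * (1 / (L : ℝ)) + mu ≤ lam) (L' : ℕ) (hL' : 0 < L')
    (hev : Even L') (hLm' : 2 * (1 / (L' : ℝ)) < mu) (cc : T → J)
    (p p' p'' : T) (hsm : Small (WE φ π E) mu [p, p', p''])
    (hc : ∀ q ∈ [p, p', p''], ∀ q' ∈ [p, p', p''], dist (π q) (ctr (cc q')) ≤ ε) :
    PhiW w p p' p'' + (Xi w L L' cc p' p'' + Xi w L L' cc p p'' + Xi w L L' cc p p') =
      RR w L L' (cc p) (cc p') (cc p'') p'' := by
  have hmem : ∀ q ∈ [p, p', p''], q ∈ WE φ π E := hsm.1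
  have e0 := dPsi ctr ε φ π E lam mu z hz w hw L hL hLm (p, ev (.one (cc p)))
    (p', ev (.one (cc p))) (p'', ev (.one (cc p))) (by
      have hq : ∀ q ∈ [p, p', p''],
          ((q, ev (.one (cc p))) : T × (Vx J → ℝ)) ∈ SE ctr ε φ π E := by
        intro q hq
        refine ⟨(hmem q hq).1, (hmem q hq).2.1, (hmem q hq).2.2, ?_⟩
        have hd := hc q hq p (by simp)
        have := sg12_mem (φ := φ) hd hd (t := 0) le_rfl zero_le_one
        rwa [sg_zero] at this
      constructor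
      · intro y hy
        simp only [List.mem_cons, List.not_mem_nil, or_false] at hy
        rcases hy with rfl | rfl | rfl
        · exact hq p (by simp)
        · exact hq p' (by simp)
        · exact hq p'' (by simp)
      · intro y hy y' hy'
        simp only [List.mem_cons, List.not_mem_nil, or_false] at hy hy'
        have := hsm.2
        have hmu : 0 < mu := by simpa using this p (by simp) p (by simp)
        rcases hy with rfl | rfl | rfl <;> rcases hy' with rfl | rfl | rfl <;>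
          rw [Prod.dist_eq, max_lt_iff] <;>
          exact ⟨this _ (by simp) _ (by simp), by simpa using hmu⟩)
  have hd' : ∀ (c c' : T), c ∈ [p, p', p''] → c' ∈ [p, p', p''] →
      Psi w L (p', ev (.one (cc c))) (p'', ev (.one (cc c))) +
        Psi w L (p', ev (.two (cc c'))) (p'', ev (.two (cc c'))) =
      Theta w L L' (cc c) (cc c') p' + Theta w L L' (cc c) (cc c') p'' := by
    intro c c' h h'
    exact dTheta ctr ε φ π E lam mu z hz w hw L hL hLm L' hL' hev hLm' (cc c) (cc c') p' p''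
      (hmem _ (by simp)) (hmem _ (by simp)) (hsm.2 _ (by simp) _ (by simp))
      (hc _ (by simp) _ h) (hc _ (by simp) _ h') (hc _ (by simp) _ h) (hc _ (by simp) _ h')
  have e1 := hd' p p' (by simp) (by simp)
  have e2 := hd' p' p' (by simp) (by simp)
  simp only [d1] at e0
  simp only [Xi, RR]
  linear_combination (norm := skip) e0 + e1 + e2
  ring_nf
  reduce_mod_char

end

end Peel

open Peel

/-- Peeling a coordinate off a trivialisation of a 3-cochain: a correction term appears. -/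
theorem peel3 (ctr : J → D) (ε : ℝ) (hε : 0 < ε) (hctr : ∀ x, ∃ c, dist x (ctr c) < ε / 2)
    (φ : D → ℝ) (hφ : UniformContinuous φ) (π : T → D) (E : Set T) (M : Set D)
    (hF : FibreHyp π E M ε) (z : D → D → D → D → ZMod 2) (hz : Norm3 z)
    (h : Exact3 z (fun p => π p.1) (EK ctr ε φ π E)) :
    ∃ Φ : D → D → D → ZMod 2, Norm2 Φ ∧ Cocyc2 Φ (M ∩ {x | 1 / 3 ≤ φ x ∧ φ x ≤ 2 / 3}) ∧
      Exact3 (addU z φ (1 / 2) Φ) π E := by
  classical
  obtain ⟨lam, hlam, w, hw0⟩ := h
  have hw : ∀ y0 y1 y2 y3, Small (EK ctr ε φ π E) lam [y0, y1, y2, y3] →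
      z (π y0.1) (π y1.1) (π y2.1) (π y3.1) = d2 w y0 y1 y2 y3 := hw0
  choose cD hcD using hctr
  obtain ⟨mu, hmu, L, hL, hLm⟩ : ∃ mu > 0, ∃ L : ℕ, 0 < L ∧ 2 * (1 / (L : ℝ)) + mu ≤ lam := by
    obtain ⟨L, hL, _, hL2⟩ := exists_steps (lam / 2) (by linarith)
    exact ⟨lam / 2, by linarith, L, hL, by linarith⟩
  obtain ⟨L', hL', hev, hLm'⟩ := exists_steps mu hmu
  have hmulam : mu ≤ lam := by
    have : 0 < 2 * (1 / (L : ℝ)) := by positivity
    linarith
  set cc : T → J := fun p => cD (π p) with hcc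
  let Φ : D → D → D → ZMod 2 := fun x x' x'' =>
    if h : ∃ p, p ∈ E ∧ π p = x'' then RR w L L' (cD x) (cD x') (cD x'') h.choose else 0
  -- the value of `Φ`
  have hval : ∀ x x' : D, ∀ p ∈ WE φ π E, dist x (π p) < ε / 2 → dist x' (π p) < ε / 2 →
      Φ x x' (π p) = RR w L L' (cD x) (cD x') (cc p) p := by
    intro x x' p hp hx hx'
    have hex : ∃ q, q ∈ E ∧ π q = π p := ⟨p, hp.1, rfl⟩
    have hΦ : Φ x x' (π p) = RR w L L' (cD x) (cD x') (cD (π p)) hex.choose := by
      simp only [Φ, dif_pos hex]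
    rw [hΦ]
    have hcen : ∀ x : D, dist x (π p) < ε / 2 → dist (π p) (ctr (cD x)) ≤ ε := by
      intro x hx
      have h1 := dist_triangle (π p) x (ctr (cD x))
      have h2 := hcD x
      rw [dist_comm] at hx
      linarith
    refine RR_fib ctr ε φ π E lam mu hmu z hz w hw L hL hLm L' hL' hev hLm' (cD x) (cD x')
      (cD (π p)) p hex.choose (hF.conn _ (hF.mem p hp.1)) hp hex.choose_spec.1
      hex.choose_spec.2 (hcen x hx) (hcen x' hx') (hcen _ ?_)
    rw [dist_self]; linarith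
  have hmain : ∀ p p' p'', Small (WE φ π E) (min mu (ε / 2)) [p, p', p''] →
      PhiW w p p' p'' + (Xi w L L' cc p' p'' + Xi w L L' cc p p'' + Xi w L L' cc p p') =
        Φ (π p) (π p') (π p'') := by
    intro p p' p'' hsm
    have hd : ∀ q ∈ [p, p', p''], ∀ q' ∈ [p, p', p''], dist (π q) (π q') < ε / 2 :=
      fun q hq q' hq' => (hF.lip q q').trans_lt ((hsm.2 q hq q' hq').trans_le (min_le_right _ _))
    rw [main_id ctr ε φ π E lam mu z hz w hw L hL hLm L' hL' hev hLm' cc p p' p''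
      (hsm.mono Subset.rfl (min_le_left _ _) (List.Subset.refl _)) ?_,
      hval (π p) (π p') p'' (hsm.1 p'' (by simp)) (hd _ (by simp) _ (by simp))
        (hd _ (by simp) _ (by simp))]
    intro q hq q' hq'
    have h1 := dist_triangle (π q) (π q') (ctr (cD (π q')))
    have h2 := hcD (π q')
    have h3 := hd q hq q' hq'
    simp only [hcc]
    linarith
  refine ⟨Φ, ?_, ?_, ?_⟩
  · intro x y
    constructor
    · simp only [Φ]
      split_ifs
      · simp only [RR]
        ring_nf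
        reduce_mod_char
      · rfl
    · simp only [Φ]
      split_ifs
      · simp only [RR]
        ring_nf
        reduce_mod_char
      · rfl
  · -- cocycle
    refine ⟨min lam (min mu (ε / 2)), by positivity, ?_⟩
    intro x0 x1 x2 x3 hsm
    obtain ⟨s, hs1, hs2⟩ := hF.sec x0 (hsm.1 x0 (by simp)).1
    have hx0 : ∀ x ∈ [x0, x1, x2, x3], dist x0 x < ε / 2 := fun x hx =>
      (hsm.2 x0 (by simp) x hx).trans_le ((min_le_right _ _).trans (min_le_right _ _))
    have hs3 : ∀ x ∈ [x0, x1, x2, x3], s x ∈ WE φ π E ∧ π (s x) = x := by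
      intro x hx
      obtain ⟨h1, h2⟩ := hs1 x (hsm.1 x hx).1 (hx0 x hx)
      refine ⟨⟨h1, ?_, ?_⟩, h2⟩ <;> rw [h2]
      · exact (hsm.1 x hx).2.1
      · exact (hsm.1 x hx).2.2
    have hs4 : Small (WE φ π E) (min lam (min mu (ε / 2))) [s x0, s x1, s x2, s x3] := by
      have : ∀ x ∈ [x0, x1, x2, x3], ∀ x' ∈ [x0, x1, x2, x3],
          dist (s x) (s x') < min lam (min mu (ε / 2)) := fun x hx x' hx' =>
        (hs2 x (hsm.1 x hx).1 x' (hsm.1 x' hx').1 (hx0 x hx) (hx0 x' hx')).trans_lt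
          (hsm.2 x hx x' hx')
      constructor
      · intro y hy
        simp only [List.mem_cons, List.not_mem_nil, or_false] at hy
        rcases hy with rfl | rfl | rfl | rfl <;> exact (hs3 _ (by simp)).1
      · intro y hy y' hy'
        simp only [List.mem_cons, List.not_mem_nil, or_false] at hy hy'
        rcases hy with rfl | rfl | rfl | rfl <;> rcases hy' with rfl | rfl | rfl | rfl <;>
          exact this _ (by simp) _ (by simp)
    have e1 := hmain (s x1) (s x2) (s x3)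
      (hs4.mono Subset.rfl (min_le_right _ _) (by simp))
    have e2 := hmain (s x0) (s x2) (s x3)
      (hs4.mono Subset.rfl (min_le_right _ _) (by simp))
    have e3 := hmain (s x0) (s x1) (s x3)
      (hs4.mono Subset.rfl (min_le_right _ _) (by simp))
    have e4 := hmain (s x0) (s x1) (s x2)
      (hs4.mono Subset.rfl (min_le_right _ _) (by simp))
    rw [(hs3 x0 (by simp)).2, (hs3 x1 (by simp)).2, (hs3 x2 (by simp)).2] at e4
    rw [(hs3 x0 (by simp)).2, (hs3 x1 (by simp)).2, (hs3 x3 (by simp)).2] at e3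
    rw [(hs3 x0 (by simp)).2, (hs3 x2 (by simp)).2, (hs3 x3 (by simp)).2] at e2
    rw [(hs3 x1 (by simp)).2, (hs3 x2 (by simp)).2, (hs3 x3 (by simp)).2] at e1
    have hEK : ∀ v : Vx J, (v = .A ∨ v = .B) →
        z x0 x1 x2 x3 = d2 w (s x0, ev v) (s x1, ev v) (s x2, ev v) (s x3, ev v) := by
      intro v hv
      have hmem : ∀ x ∈ [x0, x1, x2, x3], ((s x, ev v) : T × (Vx J → ℝ)) ∈ EK ctr ε φ π E := by
        intro x hx
        refine ⟨(hs3 x hx).1.1, ev_mem ?_⟩
        rcases hv with rfl | rfl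
        · exact (hs3 x hx).1.2.2
        · exact (hs3 x hx).1.2.1
      have := hw (s x0, ev v) (s x1, ev v) (s x2, ev v) (s x3, ev v) (by
        constructor
        · intro y hy
          simp only [List.mem_cons, List.not_mem_nil, or_false] at hy
          rcases hy with rfl | rfl | rfl | rfl <;> exact hmem _ (by simp)
        · intro y hy y' hy'
          simp only [List.mem_cons, List.not_mem_nil, or_false] at hy hy'
          rcases hy with rfl | rfl | rfl | rfl <;> rcases hy' with rfl | rfl | rfl | rfl <;>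
            rw [Prod.dist_eq, max_lt_iff] <;>
            exact ⟨(hs4.2 _ (by simp) _ (by simp)).trans_le (min_le_left _ _),
              by simpa using hlam⟩)
      dsimp only at this
      rw [(hs3 x0 (by simp)).2, (hs3 x1 (by simp)).2, (hs3 x2 (by simp)).2,
        (hs3 x3 (by simp)).2] at this
      exact this
    have hA := hEK .A (Or.inl rfl)
    have hB := hEK .B (Or.inr rfl)
    simp only [PhiW] at e1 e2 e3 e4
    simp only [d2] at hA hB
    linear_combination (norm := skip) -e1 - e2 - e3 - e4 + hA + hB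
    ring_nf
    reduce_mod_char
  · -- exactness
    obtain ⟨t, ht, hφt⟩ := Metric.uniformContinuous_iff.mp hφ (1 / 6) (by norm_num)
    refine ⟨min t (min lam (min mu (ε / 2))), by positivity, fun p0 p1 p2 =>
      (if φ (π p0) < 1 / 2 then w (p0, ev .A) (p1, ev .A) (p2, ev .A)
        else w (p0, ev .B) (p1, ev .B) (p2, ev .B)) +
      (chi φ (1 / 2) (π p0) + chi φ (1 / 2) (π p1)) * Xi w L L' cc p1 p2, ?_⟩
    intro p0 p1 p2 p3 hsm
    have hφd : ∀ q ∈ [p0, p1, p2, p3], ∀ q' ∈ [p0, p1, p2, p3],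
        |φ (π q) - φ (π q')| < 1 / 6 := by
      intro q hq q' hq'
      have := hφt ((hF.lip q q').trans_lt ((hsm.2 q hq q' hq').trans_le (min_le_left _ _)))
      rwa [Real.dist_eq] at this
    have hEK : ∀ v : Vx J, (∀ q ∈ [p0, p1, p2, p3], π q ∈ v.supp ctr ε φ) →
        z (π p0) (π p1) (π p2) (π p3) = d2 w (p0, ev v) (p1, ev v) (p2, ev v) (p3, ev v) := by
      intro v hv
      refine hw (p0, ev v) (p1, ev v) (p2, ev v) (p3, ev v) ?_
      constructor
      · intro y hy
        simp only [List.mem_cons, List.not_mem_nil, or_false] at hy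
        rcases hy with rfl | rfl | rfl | rfl
        · exact ⟨hsm.1 _ (by simp), ev_mem (hv _ (by simp))⟩
        · exact ⟨hsm.1 _ (by simp), ev_mem (hv _ (by simp))⟩
        · exact ⟨hsm.1 _ (by simp), ev_mem (hv _ (by simp))⟩
        · exact ⟨hsm.1 _ (by simp), ev_mem (hv _ (by simp))⟩
      · intro y hy y' hy'
        simp only [List.mem_cons, List.not_mem_nil, or_false] at hy hy'
        rcases hy with rfl | rfl | rfl | rfl <;> rcases hy' with rfl | rfl | rfl | rfl <;>
          rw [Prod.dist_eq, max_lt_iff] <;>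
          exact ⟨(hsm.2 _ (by simp) _ (by simp)).trans_le
            ((min_le_right _ _).trans (min_le_left _ _)), by simpa using hlam⟩
    have hlow : ∀ q ∈ [p0, p1, p2, p3], φ (π q) < 1 / 2 →
        ∀ q' ∈ [p0, p1, p2, p3], φ (π q') ≤ 2 / 3 := by
      intro q hq h q' hq'
      have := abs_lt.mp (hφd q hq q' hq')
      linarith [this.1, this.2]
    have hhigh : ∀ q ∈ [p0, p1, p2, p3], ¬ φ (π q) < 1 / 2 →
        ∀ q' ∈ [p0, p1, p2, p3], 1 / 3 ≤ φ (π q') := by
      intro q hq h q' hq'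
      have := abs_lt.mp (hφd q hq q' hq')
      push Not at h
      linarith [this.1, this.2]
    have hm : (∀ q ∈ [p0, p1, p2, p3], 1 / 3 ≤ φ (π q) ∧ φ (π q) ≤ 2 / 3) →
        PhiW w p1 p2 p3 + (Xi w L L' cc p2 p3 + Xi w L L' cc p1 p3 + Xi w L L' cc p1 p2) =
          Φ (π p1) (π p2) (π p3) := by
      intro hW
      refine hmain p1 p2 p3 ⟨?_, ?_⟩
      · intro q hq
        have hq' : q ∈ [p0, p1, p2, p3] := List.mem_cons_of_mem _ hq
        exact ⟨hsm.1 q hq', (hW q hq').1, (hW q hq').2⟩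
      · intro q hq q' hq'
        exact (hsm.2 q (List.mem_cons_of_mem _ hq) q' (List.mem_cons_of_mem _ hq')).trans_le
          ((min_le_right _ _).trans (min_le_right _ _))
    have hchi1 : ∀ q, φ (π q) < 1 / 2 → chi φ (1 / 2) (π q) = 0 := by
      intro q hq
      simp only [chi]
      rw [if_neg (by linarith)]
    have hchi2 : ∀ q, ¬ φ (π q) < 1 / 2 → chi φ (1 / 2) (π q) = 1 := by
      intro q hq
      simp only [chi]
      rw [if_pos (by linarith)]
    simp only [addU]
    by_cases h0 : φ (π p0) < 1 / 2 <;> by_cases h1 : φ (π p1) < 1 / 2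
    · have hA := hEK .A (fun q hq => hlow p0 (by simp) h0 q hq)
      simp only [d2] at hA
      rw [hchi1 _ h0, hchi1 _ h1, if_pos h0, if_pos h1]
      simp only [if_pos h0]
      linear_combination (norm := skip) hA
      ring_nf
      reduce_mod_char
    · have hA := hEK .A (fun q hq => hlow p0 (by simp) h0 q hq)
      have hB := hEK .B (fun q hq => hhigh p1 (by simp) h1 q hq)
      have hM := hm (fun q hq => ⟨hhigh p1 (by simp) h1 q hq, hlow p0 (by simp) h0 q hq⟩)
      simp only [d2] at hA hB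
      simp only [PhiW] at hM
      rw [hchi1 _ h0, hchi2 _ h1, if_neg h1]
      simp only [if_pos h0]
      rw [← hM]
      linear_combination (norm := skip) hA
      ring_nf
      reduce_mod_char
    · have hA := hEK .A (fun q hq => hlow p1 (by simp) h1 q hq)
      have hB := hEK .B (fun q hq => hhigh p0 (by simp) h0 q hq)
      have hM := hm (fun q hq => ⟨hhigh p0 (by simp) h0 q hq, hlow p1 (by simp) h1 q hq⟩)
      simp only [d2] at hA hB
      simp only [PhiW] at hM
      rw [hchi2 _ h0, hchi1 _ h1, if_pos h1]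
      simp only [if_neg h0]
      rw [← hM]
      linear_combination (norm := skip) hB
      ring_nf
      reduce_mod_char
    · have hB := hEK .B (fun q hq => hhigh p0 (by simp) h0 q hq)
      simp only [d2] at hB
      rw [hchi2 _ h0, hchi2 _ h1, if_neg h1]
      simp only [if_neg h0]
      linear_combination (norm := skip) hB
      ring_nf
      reduce_mod_char

namespace Peel

/-- the path integral of a 1-cochain `w` from `ev v` to `y.2` -/
noncomputable def QsiV (w : T × (Vx J → ℝ) → T × (Vx J → ℝ) → ZMod 2) (L : ℕ)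
    (v : Vx J) (y : T × (Vx J → ℝ)) : ZMod 2 :=
  ∑ j ∈ Finset.range L, w (y.1, sg (ev v) y.2 ((j : ℝ) / L))
    (y.1, sg (ev v) y.2 (((j + 1 : ℕ) : ℝ) / L))

/-- the total path integral of a 1-cochain -/
noncomputable def Qsi (w : T × (Vx J → ℝ) → T × (Vx J → ℝ) → ZMod 2) (L : ℕ)
    (y : T × (Vx J → ℝ)) : ZMod 2 := QsiV w L .A y + QsiV w L .B y

section

variable (ctr : J → D) (ε : ℝ) (φ : D → ℝ) (π : T → D) (E : Set T)

theorem dQsiV (lam mu : ℝ) (z : D → D → D → ZMod 2) (hz : Norm2 z)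
    (w : T × (Vx J → ℝ) → T × (Vx J → ℝ) → ZMod 2)
    (hw : ∀ y0 y1 y2, Small (EK ctr ε φ π E) lam [y0, y1, y2] →
      z (π y0.1) (π y1.1) (π y2.1) = d1 w y0 y1 y2)
    (L : ℕ) (hL : 0 < L) (hLm : 2 * (1 / (L : ℝ)) + mu ≤ lam) (v : Vx J) (hv : v.col = 0)
    (hs : ∀ y ∈ SE ctr ε φ π E, π y.1 ∈ v.supp ctr ε φ) (y0 y1 : T × (Vx J → ℝ))
    (h : Small (SE ctr ε φ π E) mu [y0, y1]) :
    w (y0.1, ev v) (y1.1, ev v) + w y0 y1 = QsiV w L v y0 + QsiV w L v y1 := by
  have hL' : (0 : ℝ) < L := by exact_mod_cast hL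
  have tm : ∀ j : ℕ, j ≤ L → 0 ≤ (j : ℝ) / L ∧ (j : ℝ) / L ≤ 1 := by
    intro j hj
    refine ⟨by positivity, ?_⟩
    rw [div_le_one hL']
    exact_mod_cast hj
  have td : ∀ j : ℕ, 2 * |(j : ℝ) / L - ((j + 1 : ℕ) : ℝ) / L| + mu ≤ lam := by
    intro j
    have : (j : ℝ) / L - ((j + 1 : ℕ) : ℝ) / L = -(1 / L) := by
      push_cast
      ring
    rw [this, abs_neg, abs_of_pos (by positivity)]
    exact hLm
  have key := tele2 w (fun j => (y0.1, sg (ev v) y0.2 ((j : ℝ) / L)))
    (fun j => (y1.1, sg (ev v) y1.2 ((j : ℝ) / L))) L 0 ?_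
  · simp only [Nat.cast_zero, zero_div, sg_zero, div_self hL'.ne', sg_one, Prod.mk.eta,
      mul_zero, add_zero] at key
    exact key
  · intro j hj
    have hsm := small_pt ctr ε φ π E lam mu v hv hs _ h _ _ (tm j hj.le) (tm (j + 1) hj) (td j)
      [(y0, (j : ℝ) / L), (y1, (j : ℝ) / L), (y1, ((j + 1 : ℕ) : ℝ) / L)]
      (by simp)
    have hsm' := small_pt ctr ε φ π E lam mu v hv hs _ h _ _ (tm j hj.le) (tm (j + 1) hj) (td j)
      [(y0, (j : ℝ) / L), (y0, ((j + 1 : ℕ) : ℝ) / L), (y1, ((j + 1 : ℕ) : ℝ) / L)]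
      (by simp)
    have e1 := hw _ _ _ hsm
    have e2 := hw _ _ _ hsm'
    dsimp only at e1 e2
    rw [← e1, ← e2, (hz _ _).1, (hz _ _).2, add_zero]

theorem dQsi (lam mu : ℝ) (z : D → D → D → ZMod 2) (hz : Norm2 z)
    (w : T × (Vx J → ℝ) → T × (Vx J → ℝ) → ZMod 2)
    (hw : ∀ y0 y1 y2, Small (EK ctr ε φ π E) lam [y0, y1, y2] →
      z (π y0.1) (π y1.1) (π y2.1) = d1 w y0 y1 y2)
    (L : ℕ) (hL : 0 < L) (hLm : 2 * (1 / (L : ℝ)) + mu ≤ lam) (y0 y1 : T × (Vx J → ℝ))
    (h : Small (SE ctr ε φ π E) mu [y0, y1]) :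
    w (y0.1, ev .A) (y1.1, ev .A) + w (y0.1, ev .B) (y1.1, ev .B) = Qsi w L y0 + Qsi w L y1 := by
  have hA := dQsiV ctr ε φ π E lam mu z hz w hw L hL hLm .A rfl (fun y hy => hy.2.2.1) y0 y1 h
  have hB := dQsiV ctr ε φ π E lam mu z hz w hw L hL hLm .B rfl (fun y hy => hy.2.1) y0 y1 h
  simp only [Qsi]
  linear_combination (norm := skip) hA + hB
  ring_nf
  reduce_mod_char

theorem Qsi_edge (lam mu : ℝ) (hmu : 0 < mu) (z : D → D → D → ZMod 2) (hz : Norm2 z)
    (w : T × (Vx J → ℝ) → T × (Vx J → ℝ) → ZMod 2)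
    (hw : ∀ y0 y1 y2, Small (EK ctr ε φ π E) lam [y0, y1, y2] →
      z (π y0.1) (π y1.1) (π y2.1) = d1 w y0 y1 y2)
    (L : ℕ) (hL : 0 < L) (hLm : 2 * (1 / (L : ℝ)) + mu ≤ lam) (c c' : J) (p : T)
    (hp : p ∈ WE φ π E) (h1 : dist (π p) (ctr c) ≤ ε) (h2 : dist (π p) (ctr c') ≤ ε) :
    Qsi w L (p, ev (.one c)) = Qsi w L (p, ev (.two c')) := by
  obtain ⟨L', hL', -, hLm'⟩ := exists_steps mu hmu
  have hLr : (0 : ℝ) < L' := by exact_mod_cast hL'
  have hlam : 0 < lam := by
    have : 0 < 1 / (L : ℝ) := by positivity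
    linarith
  have tm : ∀ j : ℕ, j ≤ L' → 0 ≤ (j : ℝ) / L' ∧ (j : ℝ) / L' ≤ 1 := by
    intro j hj
    refine ⟨by positivity, ?_⟩
    rw [div_le_one hLr]
    exact_mod_cast hj
  have hww : ∀ v : Vx J, (v = .A ∨ v = .B) → w (p, ev v) (p, ev v) = 0 := by
    intro v hv
    have := hw (p, ev v) (p, ev v) (p, ev v) ⟨by
      intro y hy
      simp only [List.mem_cons, List.not_mem_nil, or_false, or_self] at hy
      subst hy
      refine ⟨hp.1, ev_mem ?_⟩
      rcases hv with rfl | rfl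
      · exact hp.2.2
      · exact hp.2.1, by
      intro y hy y' hy'
      simp only [List.mem_cons, List.not_mem_nil, or_false, or_self] at hy hy'
      subst hy hy'
      simpa using hlam⟩
    rw [(hz _ _).1] at this
    simp only [d1] at this
    linear_combination (norm := skip) -this
    ring_nf
    reduce_mod_char
  have hstep : ∀ j : ℕ, j ≤ L' →
      Qsi w L (p, ev (.one c)) =
        Qsi w L (p, sg (ev (.one c)) (ev (.two c')) ((j : ℝ) / L')) := by
    intro j
    induction j with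
    | zero => intro _; simp [sg_zero]
    | succ j ih =>
      intro hj
      rw [ih (by omega)]
      have hd := dQsi ctr ε φ π E lam mu z hz w hw L hL hLm
        (p, sg (ev (.one c)) (ev (.two c')) ((j : ℝ) / L'))
        (p, sg (ev (.one c)) (ev (.two c')) (((j + 1 : ℕ) : ℝ) / L')) ?_
      · dsimp only at hd
        rw [hww .A (Or.inl rfl), hww .B (Or.inr rfl)] at hd
        linear_combination (norm := skip) -hd
        ring_nf
        reduce_mod_char
      · have hdist : dist (sg (ev (.one c)) (ev (.two c')) ((j : ℝ) / L') : Vx J → ℝ)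
            (sg (ev (.one c)) (ev (.two c')) (((j + 1 : ℕ) : ℝ) / L')) < mu := by
          refine (dist_sg_le (norm_ev_le _) (norm_ev_le _) (tm _ hj).1 (tm _ hj).2).trans_lt ?_
          rw [dist_self, add_zero]
          have : (j : ℝ) / L' - ((j + 1 : ℕ) : ℝ) / L' = -(1 / L') := by
            push_cast
            ring
          rw [this, abs_neg, abs_of_pos (by positivity)]
          exact hLm'
        constructor
        · intro y hy
          simp only [List.mem_cons, List.not_mem_nil, or_false] at hy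
          rcases hy with rfl | rfl
          · exact ⟨hp.1, hp.2.1, hp.2.2, sg12_mem h1 h2 (tm j (by omega)).1 (tm j (by omega)).2⟩
          · exact ⟨hp.1, hp.2.1, hp.2.2, sg12_mem h1 h2 (tm _ hj).1 (tm _ hj).2⟩
        · intro y hy y' hy'
          simp only [List.mem_cons, List.not_mem_nil, or_false] at hy hy'
          rcases hy with rfl | rfl <;> rcases hy' with rfl | rfl <;>
            rw [Prod.dist_eq, max_lt_iff] <;> simp only [dist_self]
          · exact ⟨hmu, hmu⟩
          · exact ⟨hmu, hdist⟩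
          · rw [dist_comm (sg (ev (.one c)) (ev (.two c')) (((j + 1 : ℕ) : ℝ) / L') :
              Vx J → ℝ)]
            exact ⟨hmu, hdist⟩
          · exact ⟨hmu, hmu⟩
  have := hstep L' le_rfl
  rwa [div_self hLr.ne', sg_one] at this

end

end Peel

/-- Peeling a coordinate off a trivialisation of a 2-cochain. -/
theorem peel2 (ctr : J → D) (ε : ℝ) (hε : 0 < ε) (hctr : ∀ x, ∃ c, dist x (ctr c) < ε / 2)
    (φ : D → ℝ) (hφ : UniformContinuous φ) (π : T → D) (E : Set T) (M : Set D)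
    (hF : FibreHyp π E M ε) (z : D → D → D → ZMod 2) (hz : Norm2 z)
    (h : Exact2 z (fun p => π p.1) (EK ctr ε φ π E)) : Exact2 z π E := by
  classical
  obtain ⟨lam, hlam, w, hw0⟩ := h
  have hw : ∀ y0 y1 y2, Small (EK ctr ε φ π E) lam [y0, y1, y2] →
      z (π y0.1) (π y1.1) (π y2.1) = d1 w y0 y1 y2 := hw0
  choose cD hcD using hctr
  obtain ⟨mu, hmu, L, hL, hLm⟩ : ∃ mu > 0, ∃ L : ℕ, 0 < L ∧ 2 * (1 / (L : ℝ)) + mu ≤ lam := by
    obtain ⟨L, hL, _, hL2⟩ := exists_steps (lam / 2) (by linarith)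
    exact ⟨lam / 2, by linarith, L, hL, by linarith⟩
  set cc : T → J := fun p => cD (π p) with hcc
  have hmain : ∀ p p', Small (WE φ π E) (min mu (ε / 2)) [p, p'] →
      w (p, ev .A) (p', ev .A) + w (p, ev .B) (p', ev .B) =
        Qsi w L (p, ev (.one (cc p))) + Qsi w L (p', ev (.one (cc p'))) := by
    intro p p' hsm
    have hd : dist (π p) (π p') < ε / 2 :=
      (hF.lip p p').trans_lt ((hsm.2 p (by simp) p' (by simp)).trans_le (min_le_right _ _))
    have hdm : dist p p' < mu := (hsm.2 p (by simp) p' (by simp)).trans_le (min_le_left _ _)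
    have hp : p ∈ WE φ π E := hsm.1 p (by simp)
    have hp' : p' ∈ WE φ π E := hsm.1 p' (by simp)
    have c1 : dist (π p) (ctr (cc p)) ≤ ε := by
      have := hcD (π p); simp only [hcc]; linarith
    have c2 : dist (π p') (ctr (cc p)) ≤ ε := by
      have h1 := hcD (π p)
      have h2 := dist_triangle (π p') (π p) (ctr (cD (π p)))
      rw [dist_comm (π p') (π p)] at h2
      simp only [hcc]; linarith
    have c3 : dist (π p') (ctr (cc p')) ≤ ε := by
      have := hcD (π p'); simp only [hcc]; linarith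
    have e1 := dQsi ctr ε φ π E lam mu z hz w hw L hL hLm (p, ev (.one (cc p)))
      (p', ev (.one (cc p))) ⟨by
        intro y hy
        simp only [List.mem_cons, List.not_mem_nil, or_false] at hy
        have hh : ∀ q ∈ WE φ π E, dist (π q) (ctr (cc p)) ≤ ε →
            ((q, ev (.one (cc p))) : T × (Vx J → ℝ)) ∈ SE ctr ε φ π E := by
          intro q hq hqd
          refine ⟨hq.1, hq.2.1, hq.2.2, ?_⟩
          have := sg12_mem (φ := φ) hqd hqd (t := 0) le_rfl zero_le_one
          rwa [sg_zero] at this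
        rcases hy with rfl | rfl
        · exact hh p hp c1
        · exact hh p' hp' c2, by
        intro y hy y' hy'
        simp only [List.mem_cons, List.not_mem_nil, or_false] at hy hy'
        rcases hy with rfl | rfl <;> rcases hy' with rfl | rfl <;>
          rw [Prod.dist_eq, max_lt_iff] <;> simp only [dist_self]
        · exact ⟨hmu, hmu⟩
        · exact ⟨hdm, hmu⟩
        · rw [dist_comm p' p]
          exact ⟨hdm, hmu⟩
        · exact ⟨hmu, hmu⟩⟩
    have e2 := Qsi_edge ctr ε φ π E lam mu hmu z hz w hw L hL hLm (cc p) (cc p') p' hp' c2 c3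
    have e3 := Qsi_edge ctr ε φ π E lam mu hmu z hz w hw L hL hLm (cc p') (cc p') p' hp' c3 c3
    dsimp only at e1
    rw [e1, e2, e3]
  obtain ⟨t, ht, hφt⟩ := Metric.uniformContinuous_iff.mp hφ (1 / 6) (by norm_num)
  refine ⟨min t (min lam (min mu (ε / 2))), by positivity, fun p0 p1 =>
    (if φ (π p0) < 1 / 2 then w (p0, ev .A) (p1, ev .A) else w (p0, ev .B) (p1, ev .B)) +
    (chi φ (1 / 2) (π p0) + chi φ (1 / 2) (π p1)) * Qsi w L (p1, ev (.one (cc p1))), ?_⟩
  intro p0 p1 p2 hsm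
  have hφd : ∀ q ∈ [p0, p1, p2], ∀ q' ∈ [p0, p1, p2], |φ (π q) - φ (π q')| < 1 / 6 := by
    intro q hq q' hq'
    have := hφt ((hF.lip q q').trans_lt ((hsm.2 q hq q' hq').trans_le (min_le_left _ _)))
    rwa [Real.dist_eq] at this
  have hEK : ∀ v : Vx J, (∀ q ∈ [p0, p1, p2], π q ∈ v.supp ctr ε φ) →
      z (π p0) (π p1) (π p2) = d1 w (p0, ev v) (p1, ev v) (p2, ev v) := by
    intro v hv
    refine hw (p0, ev v) (p1, ev v) (p2, ev v) ?_
    constructor
    · intro y hy
      simp only [List.mem_cons, List.not_mem_nil, or_false] at hy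
      rcases hy with rfl | rfl | rfl
      · exact ⟨hsm.1 _ (by simp), ev_mem (hv _ (by simp))⟩
      · exact ⟨hsm.1 _ (by simp), ev_mem (hv _ (by simp))⟩
      · exact ⟨hsm.1 _ (by simp), ev_mem (hv _ (by simp))⟩
    · intro y hy y' hy'
      simp only [List.mem_cons, List.not_mem_nil, or_false] at hy hy'
      rcases hy with rfl | rfl | rfl <;> rcases hy' with rfl | rfl | rfl <;>
        rw [Prod.dist_eq, max_lt_iff] <;>
        exact ⟨(hsm.2 _ (by simp) _ (by simp)).trans_le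
          ((min_le_right _ _).trans (min_le_left _ _)), by simpa using hlam⟩
  have hlow : ∀ q ∈ [p0, p1, p2], φ (π q) < 1 / 2 → ∀ q' ∈ [p0, p1, p2], φ (π q') ≤ 2 / 3 := by
    intro q hq h q' hq'
    have := abs_lt.mp (hφd q hq q' hq')
    linarith [this.1, this.2]
  have hhigh : ∀ q ∈ [p0, p1, p2], ¬ φ (π q) < 1 / 2 →
      ∀ q' ∈ [p0, p1, p2], 1 / 3 ≤ φ (π q') := by
    intro q hq h q' hq'
    have := abs_lt.mp (hφd q hq q' hq')
    push Not at h
    linarith [this.1, this.2]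
  have hm : (∀ q ∈ [p0, p1, p2], 1 / 3 ≤ φ (π q) ∧ φ (π q) ≤ 2 / 3) →
      w (p1, ev .A) (p2, ev .A) + w (p1, ev .B) (p2, ev .B) =
        Qsi w L (p1, ev (.one (cc p1))) + Qsi w L (p2, ev (.one (cc p2))) := by
    intro hW
    refine hmain p1 p2 ⟨?_, ?_⟩
    · intro q hq
      have hq' : q ∈ [p0, p1, p2] := List.mem_cons_of_mem _ hq
      exact ⟨hsm.1 q hq', (hW q hq').1, (hW q hq').2⟩
    · intro q hq q' hq'
      exact (hsm.2 q (List.mem_cons_of_mem _ hq) q' (List.mem_cons_of_mem _ hq')).trans_le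
        ((min_le_right _ _).trans (min_le_right _ _))
  have hchi1 : ∀ q, φ (π q) < 1 / 2 → chi φ (1 / 2) (π q) = 0 := by
    intro q hq
    simp only [chi]
    rw [if_neg (by linarith)]
  have hchi2 : ∀ q, ¬ φ (π q) < 1 / 2 → chi φ (1 / 2) (π q) = 1 := by
    intro q hq
    simp only [chi]
    rw [if_pos (by linarith)]
  dsimp only
  by_cases h0 : φ (π p0) < 1 / 2 <;> by_cases h1 : φ (π p1) < 1 / 2
  · have hA := hEK .A (fun q hq => hlow p0 (by simp) h0 q hq)
    simp only [d1] at hA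
    rw [hchi1 _ h0, hchi1 _ h1, if_pos h0, if_pos h1]
    simp only [if_pos h0]
    linear_combination (norm := skip) hA
    ring_nf
    reduce_mod_char
  · have hA := hEK .A (fun q hq => hlow p0 (by simp) h0 q hq)
    have hM := hm (fun q hq => ⟨hhigh p1 (by simp) h1 q hq, hlow p0 (by simp) h0 q hq⟩)
    simp only [d1] at hA
    rw [hchi1 _ h0, hchi2 _ h1, if_neg h1]
    simp only [if_pos h0]
    linear_combination (norm := skip) hA + hM
    ring_nf
    reduce_mod_char
  · have hB := hEK .B (fun q hq => hhigh p0 (by simp) h0 q hq)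
    have hM := hm (fun q hq => ⟨hhigh p0 (by simp) h0 q hq, hlow p1 (by simp) h1 q hq⟩)
    simp only [d1] at hB
    rw [hchi2 _ h0, hchi1 _ h1, if_pos h1]
    simp only [if_neg h0]
    linear_combination (norm := skip) hB + hM
    ring_nf
    reduce_mod_char
  · have hB := hEK .B (fun q hq => hhigh p0 (by simp) h0 q hq)
    simp only [d1] at hB
    rw [hchi2 _ h0, hchi2 _ h1, if_neg h1]
    simp only [if_neg h0]
    linear_combination (norm := skip) hB
    ring_nf
    reduce_mod_char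

end Pool.Agent.CmpDef
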