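import Pool.Agent.CmpDef.FibreFacts
import Pool.Agent.CmpDef.Peel
import Pool.Agent.CmpDef.Frob
import Pool.Agent.CmpDef.Base

/-!
# The pieces exist
-/

open Set TopologicalSpace Filter Topology

namespace Pool.Agent.CmpDef

/-- exactness on a subtype gives exactness in the ambient space -/
theorem pe_exact3_subtype {T D : Type} [MetricSpace T] (E : Set T) (z : D → D → D → D → ZMod 2)
    (π : T → D) (h : Exact3 z (fun q : E => π q.1) univ) : Exact3 z π E := by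
  classical
  obtain ⟨lam, hlam, w, hw⟩ := h
  refine ⟨lam, hlam, fun p0 p1 p2 => if h : p0 ∈ E ∧ p1 ∈ E ∧ p2 ∈ E then
    w ⟨p0, h.1⟩ ⟨p1, h.2.1⟩ ⟨p2, h.2.2⟩ else 0, ?_⟩
  intro p0 p1 p2 p3 hs
  have m0 : p0 ∈ E := hs.1 p0 (by simp)
  have m1 : p1 ∈ E := hs.1 p1 (by simp)
  have m2 : p2 ∈ E := hs.1 p2 (by simp)
  have m3 : p3 ∈ E := hs.1 p3 (by simp)
  beta_reduce
  rw [dif_pos ⟨m1, m2, m3⟩, dif_pos ⟨m0, m2, m3⟩, dif_pos ⟨m0, m1, m3⟩, dif_pos ⟨m0, m1, m2⟩]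
  refine hw ⟨p0, m0⟩ ⟨p1, m1⟩ ⟨p2, m2⟩ ⟨p3, m3⟩ ⟨fun _ _ => mem_univ _, fun p hp q hq => ?_⟩
  refine hs.2 p.1 ?_ q.1 ?_
  · simp only [List.mem_cons, List.not_mem_nil, or_false] at hp ⊢
    rcases hp with h | h | h | h <;> simp [h]
  · simp only [List.mem_cons, List.not_mem_nil, or_false] at hq ⊢
    rcases hq with h | h | h | h <;> simp [h]

/-- exactness on a subset of a subtype gives exactness in the ambient space -/
theorem pe_exact2_subtype {T D : Type} [MetricSpace T] (E : Set T) (z : D → D → D → ZMod 2)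
    (π : T → D) (Z : Set D) (E' : Set T) (hE : ∀ p ∈ E', p ∈ E ∧ π p ∈ Z)
    (h : Exact2 z (fun q : E => π q.1) ((fun q : E => π q.1) ⁻¹' Z)) : Exact2 z π E' := by
  classical
  obtain ⟨lam, hlam, w, hw⟩ := h
  refine ⟨lam, hlam, fun p0 p1 => if h : p0 ∈ E ∧ p1 ∈ E then
    w ⟨p0, h.1⟩ ⟨p1, h.2⟩ else 0, ?_⟩
  intro p0 p1 p2 hs
  have m0 := hE _ (hs.1 p0 (by simp))
  have m1 := hE _ (hs.1 p1 (by simp))
  have m2 := hE _ (hs.1 p2 (by simp))
  beta_reduce
  rw [dif_pos ⟨m1.1, m2.1⟩, dif_pos ⟨m0.1, m2.1⟩, dif_pos ⟨m0.1, m1.1⟩]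
  refine hw ⟨p0, m0.1⟩ ⟨p1, m1.1⟩ ⟨p2, m2.1⟩ ⟨fun p hp => ?_, fun p hp q hq => ?_⟩
  · simp only [List.mem_cons, List.not_mem_nil, or_false] at hp
    rcases hp with h | h | h
    · rw [h]; exact m0.2
    · rw [h]; exact m1.2
    · rw [h]; exact m2.2
  · refine hs.2 p.1 ?_ q.1 ?_
    · simp only [List.mem_cons, List.not_mem_nil, or_false] at hp ⊢
      rcases hp with h | h | h <;> simp [h]
    · simp only [List.mem_cons, List.not_mem_nil, or_false] at hq ⊢
      rcases hq with h | h | h <;> simp [h]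

theorem piece_exists {D : Type} [MetricSpace D] [CompactSpace D] (a : D → D → ZMod 2)
    (a_self : ∀ P, a P P = 0) (M Z : Set D) (hM : IsClosed M) (k : ℕ) (φ : ℕ → D → ℝ)
    (hφ : ∀ i, Continuous (φ i)) (ε : ℝ) (hε : 0 < ε)
    (h6 : ¬ Exact6 (sq3 (cup3 a)) M) (h2 : ¬ Exact2 (cup2 a) id (M ∩ Z)) :
    ∃ (E : Type) (_ : MetricSpace E) (_ : CompactSpace E) (π : E → D),
      IsPiece a M Z k φ ε E π := by
  classical
  obtain ⟨t, -, htf, ht⟩ := finite_cover_balls_of_compact (isCompact_univ (X := D))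
    (show 0 < ε / 2 by linarith)
  have : Fintype t := htf.fintype
  set ctr : t → D := Subtype.val with hctrdef
  have hctr : ∀ x, ∃ c, dist x (ctr c) < ε / 2 := by
    intro x
    have hx := ht (mem_univ x)
    simp only [mem_iUnion, Metric.mem_ball] at hx
    obtain ⟨c, hc, hx⟩ := hx
    exact ⟨⟨c, hc⟩, hx⟩
  set ψ : Fin k → D → ℝ := fun i => φ i.1 with hψ
  have hψc : ∀ i, Continuous (ψ i) := fun i => hφ i.1
  have hψu : ∀ i, UniformContinuous (ψ i) := fun i =>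
    CompactSpace.uniformContinuous_of_continuous (hψc i)
  have hcomp : CompactSpace (EE ctr ε ψ M Finset.univ) :=
    isCompact_iff_compactSpace.1 (isCompact_EE ctr ε ψ hψc M hM Finset.univ)
  refine ⟨EE ctr ε ψ M Finset.univ, inferInstance, hcomp, fun q => q.1.1, ?_, ?_, ?_, ?_, ?_⟩
  · exact continuous_fst.comp continuous_subtype_val
  · exact fun q => q.2.1
  · intro i hi
    exact coord_EE ctr ε ψ M ⟨i, hi⟩
  · intro h
    have h3 : Exact3 (cup3 a) Prod.fst (EE ctr ε ψ M Finset.univ) :=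
      pe_exact3_subtype _ _ Prod.fst h
    have hn : Norm3 (cup3 a) := by
      intro x y t
      unfold cup3
      refine ⟨?_, ?_, ?_⟩ <;> simp [a_self]
    exact h6 (frob M ψ hψu (fun I z => Exact3 z Prod.fst (EE ctr ε ψ M I))
      (fun z hz => exact3_of_EE_empty ctr ε ψ M z hz)
      (fun I i hi z hz hX => peel3 ctr ε hε hctr (ψ i) (hψu i) Prod.fst (EE ctr ε ψ M I) M
        (fibreHyp_EE ctr ε hε hctr ψ M I) z hz (exact3_EK_of_insert ctr ε ψ M I i hi z hX))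
      Finset.univ _ hn h3).2
  · intro h
    have h3 : Exact2 (cup2 a) Prod.fst (EE ctr ε ψ (M ∩ Z) Finset.univ) :=
      pe_exact2_subtype (EE ctr ε ψ M Finset.univ) (cup2 a) Prod.fst Z
        (EE ctr ε ψ (M ∩ Z) Finset.univ) (fun p hp => ⟨⟨hp.1.1, hp.2⟩, hp.1.2⟩) h
    have hn : Norm2 (cup2 a) := by
      intro x y
      unfold cup2
      refine ⟨?_, ?_⟩ <;> simp [a_self]
    have key : ∀ I : Finset (Fin k), Exact2 (cup2 a) Prod.fst (EE ctr ε ψ (M ∩ Z) I) →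
        Exact2 (cup2 a) id (M ∩ Z) := by
      intro I
      induction I using Finset.induction_on with
      | empty => exact fun h => exact2_of_EE_empty ctr ε ψ (M ∩ Z) _ h
      | insert i I hi ih =>
        intro h
        exact ih (peel2 ctr ε hε hctr (ψ i) (hψu i) Prod.fst (EE ctr ε ψ (M ∩ Z) I) (M ∩ Z)
          (fibreHyp_EE ctr ε hε hctr ψ (M ∩ Z) I) _ hn
          (exact2_EK_of_insert ctr ε ψ (M ∩ Z) I i hi _ h))
    exact h2 (key _ h3)

end Pool.Agent.CmpDef
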