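import Pool.Agent.CmpDef.UpperRC
import Pool.Agent.CmpDef.Base

/-!
# The upper bounds
-/

open Set TopologicalSpace Filter Topology

namespace Pool.Agent.CmpDef

open XSp

variable {D : Type} {E : ℕ → Type} {π : ∀ k, E k → D} [MetricSpace D] [∀ k, MetricSpace (E k)]

theorem smallLE_one_of_compact {X : Type} [MetricSpace X] [CompactSpace X] : SmallLE 1 X := by
  intro p G hG hp
  obtain ⟨r, hr, -, h⟩ := exists_radius p G hG hp 1 one_pos
  refine ⟨_, isPartition_sphere p G r hr h, ?_⟩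
  exact isCompact_iff_compactSpace.mp
    (isClosed_eq (continuous_id.dist continuous_const) continuous_const).isCompact

variable [CompactSpace D] [∀ k, CompactSpace (E k)]

/-- `cmp X ≤ 1`. -/
theorem small_le (Bd : BaseData D) (φ : ℕ → D → ℝ) (ε : ℕ → ℝ)
    (hE : ∀ k, IsPiece Bd.a (Bd.M k) Bd.Z k φ (ε k) (E k) (π k)) : SmallLE 2 (XSp π) := by
  have hπ : ∀ k, Continuous (π k) := fun k => (hE k).cont
  intro p G hG hp
  cases p with
  | lev k m q =>
    obtain ⟨r, hr, hrk, h⟩ := exists_radius (lev k m q : XSp π) G hG hp ((1 / 2) ^ k)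
      (half_pow_pos k)
    refine ⟨_, isPartition_sphere _ G r hr h, ?_⟩
    have hcl : IsClosed {u : XSp π | dist u (lev k m q) = r} :=
      isClosed_eq (continuous_id.dist continuous_const) continuous_const
    have hcomp : IsCompact {u : XSp π | dist u (lev k m q) = r} := by
      refine (isCompact_range (continuous_lev hπ k m)).of_isClosed_subset hcl ?_
      intro u hu
      obtain ⟨q', rfl⟩ := exists_of_dist_lt (v := u) (k := k) (m := m) (q := q)
        (by rw [show dist u (lev k m q) = r from hu]; exact hrk)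
      exact ⟨q', rfl⟩
    have : CompactSpace ↥{u : XSp π | dist u (lev k m q) = r} := isCompact_iff_compactSpace.mp hcomp
    exact smallLE_one_of_compact
  | base x =>
    obtain ⟨r, hr, -, h⟩ := exists_radius (base x : XSp π) G hG hp 1 one_pos
    obtain ⟨l, hl1, hl2⟩ := Bd.basis x r hr
    have hC : IsClosed {Q : D | Bd.psi l Q ≤ Bd.r l} :=
      isClosed_le (Bd.psi_cont l) continuous_const
    have hCG : ∀ y ∈ {Q : D | Bd.psi l Q ≤ Bd.r l}, (base y : XSp π) ∉ G := by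
      intro y hy hyG
      have h1 := h _ hyG
      rw [dist_comm, dist_def, tau_base_base, add_zero] at h1
      exact absurd (h1.trans (hl2 y hy)) (lt_irrefl _)
    obtain ⟨η, hη, K0, hK0⟩ := key_lemma hπ G hG _ hC hCG
    have hbig : ∀ k ≥ K0, ∀ m q, (lev k m q : XSp π) ∈ G → Bd.r l < Bd.psi l (π k q) := by
      intro k hk m q hq
      by_contra hle
      push Not at hle
      have := hK0 k hk m q hq (π k q) hle
      rw [dist_self] at this
      linarith
    set K := max K0 (l + 1) with hK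
    have hcont : Continuous fun u : XSp π => Bd.psi l u.proj :=
      (Bd.psi_cont l).comp continuous_proj
    refine ⟨hi π K ∩ {u | Bd.psi l u.proj = Bd.r l}, ⟨(isClosed_hi hπ K).inter
      (isClosed_eq hcont continuous_const), hi π K ∩ {u | Bd.psi l u.proj < Bd.r l},
      (hi π K)ᶜ ∪ {u | Bd.r l < Bd.psi l u.proj}, (isOpen_hi hπ K).inter
      (isOpen_lt hcont continuous_const), (isClosed_hi hπ K).isOpen_compl.union
      (isOpen_lt continuous_const hcont), ?_, ?_, ?_, ?_⟩, ?_⟩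
    · rw [Set.disjoint_left]
      rintro u ⟨h1, h2⟩ (h3 | h3)
      · exact h3 h1
      · have h4 : Bd.psi l u.proj < Bd.r l := h2
        have h5 : Bd.r l < Bd.psi l u.proj := h3
        exact absurd (h4.trans h5) (lt_irrefl _)
    · ext u
      constructor
      · intro hu
        by_cases hh : u ∈ hi π K
        · have hne : Bd.psi l u.proj ≠ Bd.r l := fun heq => hu ⟨hh, heq⟩
          rcases lt_or_gt_of_ne hne with h1 | h1
          · exact Or.inl ⟨hh, h1⟩
          · exact Or.inr (Or.inr h1)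
        · exact Or.inr (Or.inl hh)
      · rintro (⟨h1, h2⟩ | h1 | h1) ⟨h3, h4⟩
        · exact (show Bd.psi l u.proj < Bd.r l from h2).ne h4
        · exact absurd h3 h1
        · exact (show Bd.r l < Bd.psi l u.proj from h1).ne' h4
    · rintro _ rfl
      exact ⟨base_mem_hi K x, hl1⟩
    · intro u hu
      by_cases hh : u ∈ hi π K
      · right
        cases u with
        | base y =>
          change Bd.r l < Bd.psi l y
          by_contra hle
          push Not at hle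
          exact hCG y hle hu
        | lev k m q => exact hbig k ((le_max_left _ _).trans (lev_mem_hi.mp hh)) m q hu
      · exact Or.inl hh
    · refine rc_lemma hπ _ ((isClosed_hi hπ K).inter (isClosed_eq hcont continuous_const)) K
        Bd.Lab (fun k _ q => Bd.lab k l (π k q)) Bd.eps Bd.eps_lim ?_ ?_
      · intro k hk m q hq
        have hlk : l < k := lt_of_lt_of_le (Nat.lt_succ_self l) ((le_max_right _ _).trans hk)
        obtain ⟨t, ht, hloc⟩ := Bd.lab_loc k l hlk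
        have hnear : ∀ᶠ q' in 𝓝 q, dist (π k q') (π k q) < t :=
          ((hπ k).continuousAt.eventually (Metric.ball_mem_nhds _ ht)).mono fun q' h => h
        filter_upwards [hnear] with q' hq' hS
        exact hloc _ ((hE k).mem q') _ ((hE k).mem q) hS.2 hq.2 hq'
      · intro k hk m q q' hq hq' hlab
        have hlk : l < k := lt_of_lt_of_le (Nat.lt_succ_self l) ((le_max_right _ _).trans hk)
        exact Bd.lab_diam k l hlk _ ((hE k).mem q) _ ((hE k).mem q') hq.2 hq'.2 hlab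

omit [CompactSpace D] [∀ k, CompactSpace (E k)] in
theorem isOpen_levUnion (hπ : ∀ k, Continuous (π k)) (K : ℕ) (R : ∀ k, E k → Prop)
    (hR : ∀ k ≥ K, IsOpen {q | R k q}) :
    IsOpen {u : XSp π | ∃ k m q, K ≤ k ∧ u = lev k m q ∧ R k q} := by
  have : {u : XSp π | ∃ k m q, K ≤ k ∧ u = lev k m q ∧ R k q} =
      ⋃ k : ℕ, ⋃ (_ : K ≤ k), ⋃ m : ℕ, (lev k m : E k → XSp π) '' {q | R k q} := by
    ext u
    simp only [mem_iUnion, mem_image]
    constructor
    · rintro ⟨k, m, q, hk, rfl, hq⟩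
      exact ⟨k, hk, m, q, hq, rfl⟩
    · rintro ⟨k, hk, m, q, hq, rfl⟩
      exact ⟨k, m, q, hk, rfl, hq⟩
  rw [this]
  exact isOpen_iUnion fun k => isOpen_iUnion fun hk => isOpen_iUnion fun m =>
    isOpenMap_lev hπ k m _ (hR k hk)

omit [CompactSpace D] [∀ k, CompactSpace (E k)] in
/-- the first partition -/
theorem first_partition (hπ : ∀ k, Continuous (π k)) (F G : Set (XSp π)) (hF : IsClosed F)
    (hG : IsClosed G) (hd : Disjoint F G) (g : D → ℝ) (hg : Continuous g) (K : ℕ)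
    (hFb : ∀ x, (base x : XSp π) ∈ F → g x < 1 / 3)
    (hGb : ∀ x, (base x : XSp π) ∈ G → 2 / 3 < g x)
    (hFl : ∀ k ≥ K, ∀ m q, (lev k m q : XSp π) ∈ F → g (π k q) < 1 / 3)
    (hGl : ∀ k ≥ K, ∀ m q, (lev k m q : XSp π) ∈ G → 2 / 3 < g (π k q))
    (f : ∀ k, E k → ℝ) (hf : ∀ k ≥ K, Continuous (f k))
    (h1 : ∀ k ≥ K, ∀ q, 0 < f k q → g (π k q) ≤ 2 / 3)
    (h2 : ∀ k ≥ K, ∀ q, f k q < 0 → 1 / 3 ≤ g (π k q)) :
    ∃ S, IsPartition F G S ∧ ∀ k ≥ K, ∀ m q, (lev k m q : XSp π) ∈ S → f k q = 0 := by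
  obtain ⟨V0, W0, hV0, hW0, hFV, hGW, hVW⟩ := normal_separation hF hG hd
  have hgp : Continuous fun u : XSp π => g u.proj := hg.comp continuous_proj
  let V : Set (XSp π) := (hi π K ∩ {u | g u.proj < 1 / 3}) ∪ ((hi π K)ᶜ ∩ V0) ∪
    {u | ∃ k m q, K ≤ k ∧ u = lev k m q ∧ 0 < f k q}
  let W : Set (XSp π) := (hi π K ∩ {u | 2 / 3 < g u.proj}) ∪ ((hi π K)ᶜ ∩ W0) ∪
    {u | ∃ k m q, K ≤ k ∧ u = lev k m q ∧ f k q < 0}
  have hVo : IsOpen V := (((isOpen_hi hπ K).inter (isOpen_lt hgp continuous_const)).union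
    ((isClosed_hi hπ K).isOpen_compl.inter hV0)).union
    (isOpen_levUnion hπ K (fun k q => 0 < f k q) fun k hk => isOpen_lt continuous_const (hf k hk))
  have hWo : IsOpen W := (((isOpen_hi hπ K).inter (isOpen_lt continuous_const hgp)).union
    ((isClosed_hi hπ K).isOpen_compl.inter hW0)).union
    (isOpen_levUnion hπ K (fun k q => f k q < 0) fun k hk => isOpen_lt (hf k hk) continuous_const)
  refine ⟨(V ∪ W)ᶜ, ⟨(hVo.union hWo).isClosed_compl, V, W, hVo, hWo, ?_, compl_compl _, ?_, ?_⟩, ?_⟩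
  · rw [Set.disjoint_left]
    rintro u ((⟨a1, a2⟩ | ⟨a1, a2⟩) | ⟨k, m, q, a1, rfl, a2⟩)
      ((⟨b1, b2⟩ | ⟨b1, b2⟩) | ⟨k', m', q', b1, hb, b2⟩)
    · have a3 : g u.proj < 1 / 3 := a2
      have b3 : 2 / 3 < g u.proj := b2
      linarith
    · exact b1 a1
    · subst hb
      have a3 : g (π k' q') < 1 / 3 := a2
      have := h2 k' b1 q' b2
      linarith
    · exact a1 b1
    · exact Set.disjoint_left.mp hVW a2 b2
    · subst hb
      exact a1 b1
    · have b3 : 2 / 3 < g (π k q) := b2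
      have := h1 k a1 q a2
      linarith
    · exact b1 a1
    · injection hb with e1 e2 e3
      subst e1
      have e4 : q = q' := eq_of_heq e3
      subst e4
      linarith
  · intro u hu
    by_cases hh : u ∈ hi π K
    · refine Or.inl (Or.inl ⟨hh, ?_⟩)
      cases u with
      | base x => exact hFb x hu
      | lev k m q => exact hFl k hh m q hu
    · exact Or.inl (Or.inr ⟨hh, hFV hu⟩)
  · intro u hu
    by_cases hh : u ∈ hi π K
    · refine Or.inl (Or.inl ⟨hh, ?_⟩)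
      cases u with
      | base x => exact hGb x hu
      | lev k m q => exact hGl k hh m q hu
    · exact Or.inl (Or.inr ⟨hh, hGW hu⟩)
  · intro k hk m q hq
    by_contra hne
    rcases lt_or_gt_of_ne hne with h | h
    · exact hq (Or.inr (Or.inr ⟨k, m, q, hk, rfl, h⟩))
    · exact hq (Or.inl (Or.inr ⟨k, m, q, hk, rfl, h⟩))

omit [CompactSpace D] [∀ k, CompactSpace (E k)] in
/-- relatively open sets of the third kind -/
theorem isOpen_third (hπ : ∀ k, Continuous (π k)) (S : Set (XSp π)) (K : ℕ)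
    (f : ∀ k, E k → ℝ) (hSf : ∀ k ≥ K, ∀ m q, (lev k m q : XSp π) ∈ S → f k q = 0)
    (α : ∀ k, E k → ℝ) (hα : ∀ k ≥ K, Continuous (α k)) (c1 : ∀ k, E k → D)
    (hc : ∀ k ≥ K, ∀ q, f k q = 0 → 1 / 2 < α k q → ∀ᶠ q' in 𝓝 q, f k q' = 0 → c1 k q' = c1 k q)
    (R : D → Prop) :
    IsOpen {s : ↥S | ∃ k m q, K ≤ k ∧ s.1 = lev k m q ∧ 1 / 2 < α k q ∧ R (c1 k q)} := by
  rw [isOpen_iff_mem_nhds]
  rintro ⟨u, hu⟩ ⟨k, m, q, hk, hs, ha, hR⟩
  have hs' : u = lev k m q := hs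
  subst hs'
  have hfq := hSf k hk m q hu
  have hN : {q' | 1 / 2 < α k q' ∧ (f k q' = 0 → c1 k q' = c1 k q)} ∈ 𝓝 q :=
    ((hα k hk).continuousAt.eventually (lt_mem_nhds ha)).and (hc k hk q hfq ha)
  rw [mem_nhds_induced]
  refine ⟨_, (isOpenMap_lev hπ k m).image_mem_nhds hN, ?_⟩
  rintro ⟨v, hv⟩ ⟨q', ⟨hq1, hq2⟩, hq3⟩
  have hq4 : v = lev k m q' := hq3.symm
  subst hq4
  refine ⟨k, m, q', hk, rfl, hq1, ?_⟩
  rw [hq2 (hSf k hk m q' hv)]
  exact hR

omit [CompactSpace D] [∀ k, CompactSpace (E k)] in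
/-- the second partition -/
theorem second_partition (hπ : ∀ k, Continuous (π k)) (S : Set (XSp π)) (hS : IsClosed S) (K : ℕ)
    (f : ∀ k, E k → ℝ) (hSf : ∀ k ≥ K, ∀ m q, (lev k m q : XSp π) ∈ S → f k q = 0)
    (F G : Set ↥S) (hF : IsClosed F) (hG : IsClosed G) (hd : Disjoint F G)
    (g : D → ℝ) (hg : Continuous g)
    (hFb : ∀ x (h : (base x : XSp π) ∈ S), (⟨_, h⟩ : ↥S) ∈ F → g x < 1 / 3)
    (hGb : ∀ x (h : (base x : XSp π) ∈ S), (⟨_, h⟩ : ↥S) ∈ G → 2 / 3 < g x)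
    (hFl : ∀ k ≥ K, ∀ m q (h : (lev k m q : XSp π) ∈ S), (⟨_, h⟩ : ↥S) ∈ F → g (π k q) < 1 / 3)
    (hGl : ∀ k ≥ K, ∀ m q (h : (lev k m q : XSp π) ∈ S), (⟨_, h⟩ : ↥S) ∈ G → 2 / 3 < g (π k q))
    (α : ∀ k, E k → ℝ) (hα : ∀ k ≥ K, Continuous (α k)) (c1 : ∀ k, E k → D)
    (hc0 : ∀ k ≥ K, ∀ q, f k q = 0 → 1 / 2 < α k q → |g (c1 k q) - g (π k q)| < 1 / 6)
    (hc : ∀ k ≥ K, ∀ q, f k q = 0 → 1 / 2 < α k q →
      ∀ᶠ q' in 𝓝 q, f k q' = 0 → c1 k q' = c1 k q) :
    ∃ S' : Set ↥S, IsPartition F G S' ∧ ∀ k ≥ K, ∀ m q (h : (lev k m q : XSp π) ∈ S),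
      (⟨_, h⟩ : ↥S) ∈ S' → α k q ≤ 1 / 2 := by
  obtain ⟨V0, W0, hV0, hW0, hFV, hGW, hVW⟩ := normal_separation hF hG hd
  have hgp : Continuous fun u : ↥S => g u.1.proj :=
    (hg.comp continuous_proj).comp continuous_subtype_val
  have hio : IsOpen {u : ↥S | u.1 ∈ hi π K} := (isOpen_hi hπ K).preimage continuous_subtype_val
  have hic : IsClosed {u : ↥S | u.1 ∈ hi π K} := (isClosed_hi hπ K).preimage continuous_subtype_val
  let V : Set ↥S := ({u | u.1 ∈ hi π K} ∩ {u | g u.1.proj < 1 / 3}) ∪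
    ({u | u.1 ∈ hi π K}ᶜ ∩ V0) ∪
    {u | ∃ k m q, K ≤ k ∧ u.1 = lev k m q ∧ 1 / 2 < α k q ∧ g (c1 k q) < 1 / 2}
  let W : Set ↥S := ({u | u.1 ∈ hi π K} ∩ {u | 2 / 3 < g u.1.proj}) ∪
    ({u | u.1 ∈ hi π K}ᶜ ∩ W0) ∪
    {u | ∃ k m q, K ≤ k ∧ u.1 = lev k m q ∧ 1 / 2 < α k q ∧ 1 / 2 ≤ g (c1 k q)}
  have hVo : IsOpen V := ((hio.inter (isOpen_lt hgp continuous_const)).union
    (hic.isOpen_compl.inter hV0)).union
    (isOpen_third hπ S K f hSf α hα c1 hc fun x => g x < 1 / 2)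
  have hWo : IsOpen W := ((hio.inter (isOpen_lt continuous_const hgp)).union
    (hic.isOpen_compl.inter hW0)).union
    (isOpen_third hπ S K f hSf α hα c1 hc fun x => 1 / 2 ≤ g x)
  refine ⟨(V ∪ W)ᶜ, ⟨(hVo.union hWo).isClosed_compl, V, W, hVo, hWo, ?_, compl_compl _, ?_, ?_⟩, ?_⟩
  · rw [Set.disjoint_left]
    rintro ⟨u, hu⟩ ((⟨a1, a2⟩ | ⟨a1, a2⟩) | ⟨k, m, q, a1, ha, a2, a3⟩)
      ((⟨b1, b2⟩ | ⟨b1, b2⟩) | ⟨k', m', q', b1, hb, b2, b3⟩)
    · have a3 : g u.proj < 1 / 3 := a2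
      have b3 : 2 / 3 < g u.proj := b2
      linarith
    · exact b1 a1
    · have hb' : u = lev k' m' q' := hb
      subst hb'
      have a3 : g (π k' q') < 1 / 3 := a2
      have := abs_lt.mp (hc0 k' b1 q' (hSf k' b1 m' q' hu) b2)
      linarith [this.1, this.2]
    · exact a1 b1
    · exact Set.disjoint_left.mp hVW a2 b2
    · have hb' : u = lev k' m' q' := hb
      subst hb'
      exact a1 b1
    · have ha' : u = lev k m q := ha
      subst ha'
      have b3 : 2 / 3 < g (π k q) := b2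
      have := abs_lt.mp (hc0 k a1 q (hSf k a1 m q hu) a2)
      linarith [this.1, this.2]
    · have ha' : u = lev k m q := ha
      subst ha'
      exact b1 a1
    · have ha' : u = lev k m q := ha
      subst ha'
      injection hb with e1 e2 e3
      subst e1
      have e4 : q = q' := eq_of_heq e3
      subst e4
      linarith
  · rintro ⟨u, hu⟩ huF
    by_cases hh : u ∈ hi π K
    · refine Or.inl (Or.inl ⟨hh, ?_⟩)
      cases u with
      | base x => exact hFb x hu huF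
      | lev k m q => exact hFl k hh m q hu huF
    · exact Or.inl (Or.inr ⟨hh, hFV huF⟩)
  · rintro ⟨u, hu⟩ huG
    by_cases hh : u ∈ hi π K
    · refine Or.inl (Or.inl ⟨hh, ?_⟩)
      cases u with
      | base x => exact hGb x hu huG
      | lev k m q => exact hGl k hh m q hu huG
    · exact Or.inl (Or.inr ⟨hh, hGW huG⟩)
  · intro k hk m q hq hS'
    by_contra hne
    push Not at hne
    rcases lt_or_ge (g (c1 k q)) (1 / 2) with h | h
    · exact hS' (Or.inl (Or.inr ⟨k, m, q, hk, rfl, hne, h⟩))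
    · exact hS' (Or.inr (Or.inr ⟨k, m, q, hk, rfl, hne, h⟩))

/-- a separating function for the traces of two disjoint closed sets also separates their traces
on the high levels -/
theorem exists_sep (hπ : ∀ k, Continuous (π k)) (φ : ℕ → D → ℝ) (hφ : ∀ i, Continuous (φ i))
    (hsep : ∀ A B : Set D, IsClosed A → IsClosed B → Disjoint A B →
      ∃ i, (∀ x ∈ A, φ i x < 1 / 3) ∧ ∀ x ∈ B, 2 / 3 < φ i x)
    (F G : Set (XSp π)) (hF : IsClosed F) (hG : IsClosed G) (hd : Disjoint F G) :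
    ∃ (i K : ℕ), (∀ x, (base x : XSp π) ∈ F → φ i x < 1 / 3) ∧
      (∀ x, (base x : XSp π) ∈ G → 2 / 3 < φ i x) ∧
      (∀ k ≥ K, ∀ m q, (lev k m q : XSp π) ∈ F → φ i (π k q) < 1 / 3) ∧
      ∀ k ≥ K, ∀ m q, (lev k m q : XSp π) ∈ G → 2 / 3 < φ i (π k q) := by
  obtain ⟨i, hi1, hi2⟩ := hsep (base ⁻¹' F) (base ⁻¹' G) (hF.preimage continuous_base)
    (hG.preimage continuous_base) (hd.preimage base)
  obtain ⟨η1, hη1, K1, hK1⟩ := key_lemma hπ F hF {x | 1 / 3 ≤ φ i x}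
    (isClosed_le continuous_const (hφ i)) (fun x hx hxF => by
      have h1 := hi1 x hxF
      have h2 : 1 / 3 ≤ φ i x := hx
      linarith)
  obtain ⟨η2, hη2, K2, hK2⟩ := key_lemma hπ G hG {x | φ i x ≤ 2 / 3}
    (isClosed_le (hφ i) continuous_const) (fun x hx hxG => by
      have h1 := hi2 x hxG
      have h2 : φ i x ≤ 2 / 3 := hx
      linarith)
  refine ⟨i, max K1 K2, hi1, hi2, fun k hk m q hq => ?_, fun k hk m q hq => ?_⟩
  · by_contra hle
    push Not at hle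
    have := hK1 k ((le_max_left _ _).trans hk) m q hq _ hle
    rw [dist_self] at this
    linarith
  · by_contra hle
    push Not at hle
    have := hK2 k ((le_max_right _ _).trans hk) m q hq _ hle
    rw [dist_self] at this
    linarith

/-- `Cmp X ≤ 2`. -/
theorem large_le (Bd : BaseData D) (φ : ℕ → D → ℝ) (hφ : ∀ i, Continuous (φ i))
    (hsep : ∀ A B : Set D, IsClosed A → IsClosed B → Disjoint A B →
      ∃ i, (∀ x ∈ A, φ i x < 1 / 3) ∧ ∀ x ∈ B, 2 / 3 < φ i x)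
    (ε : ℕ → ℝ) (hε : Tendsto ε atTop (𝓝 0))
    (hE : ∀ k, IsPiece Bd.a (Bd.M k) Bd.Z k φ (ε k) (E k) (π k)) : LargeLE 3 (XSp π) := by
  have hπ : ∀ k, Continuous (π k) := fun k => (hE k).cont
  intro F G hF hG hd
  obtain ⟨i, K0, hFb, hGb, hFl, hGl⟩ := exists_sep hπ φ hφ hsep F G hF hG hd
  have hco : ∀ k, ∃ (f α : E k → ℝ) (c1 c2 : E k → D), i < k → (Continuous f ∧ Continuous α ∧
      (∀ q, 0 < f q → φ i (π k q) ≤ 2 / 3) ∧ (∀ q, f q < 0 → 1 / 3 ≤ φ i (π k q)) ∧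
      (∀ q, f q = 0 → 1 / 2 < α q →
        dist (c1 q) (π k q) ≤ ε k ∧ ∀ᶠ q' in 𝓝 q, f q' = 0 → c1 q' = c1 q) ∧
      (∀ q, f q = 0 → α q ≤ 1 / 2 →
        dist (c2 q) (π k q) ≤ ε k ∧ ∀ᶠ q' in 𝓝 q, f q' = 0 → α q' ≤ 1 / 2 → c2 q' = c2 q)) := by
    intro k
    by_cases h : i < k
    · obtain ⟨f, α, c1, c2, hh⟩ := (hE k).coord i h
      exact ⟨f, α, c1, c2, fun _ => hh⟩
    · exact ⟨fun _ => 0, fun _ => 0, π k, π k, fun hh => absurd hh h⟩
  choose f α c1 c2 hprop using hco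
  set K := max K0 (i + 1) with hK
  have hiK : ∀ k ≥ K, i < k := fun k hk =>
    lt_of_lt_of_le (Nat.lt_succ_self i) ((le_max_right _ _).trans hk)
  obtain ⟨S, hSpart, hSf⟩ := first_partition hπ F G hF hG hd (φ i) (hφ i) K hFb hGb
    (fun k hk => hFl k ((le_max_left _ _).trans hk)) (fun k hk => hGl k ((le_max_left _ _).trans hk))
    f (fun k hk => (hprop k (hiK k hk)).1) (fun k hk => (hprop k (hiK k hk)).2.2.1)
    (fun k hk => (hprop k (hiK k hk)).2.2.2.1)
  refine ⟨S, hSpart, ?_⟩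
  have hS := hSpart.1
  intro F' G' hF' hG' hd'
  have hemb : Topology.IsClosedEmbedding (Subtype.val : ↥S → XSp π) := hS.isClosedEmbedding_subtypeVal
  obtain ⟨j, K1, hFb', hGb', hFl', hGl'⟩ := exists_sep hπ φ hφ hsep (Subtype.val '' F')
    (Subtype.val '' G') (hemb.isClosedMap _ hF') (hemb.isClosedMap _ hG')
    ((Set.disjoint_image_iff Subtype.val_injective).mpr hd')
  -- uniform continuity
  have huc : UniformContinuous (φ j) := CompactSpace.uniformContinuous_of_continuous (hφ j)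
  obtain ⟨δ, hδ, huc'⟩ := Metric.uniformContinuous_iff.mp huc (1 / 6) (by norm_num)
  obtain ⟨K2, hK2⟩ := (hε.eventually (gt_mem_nhds hδ)).exists_forall_of_atTop
  set K' := max K (max K1 K2) with hK'
  have hKK : ∀ k ≥ K', k ≥ K := fun k hk => (le_max_left _ _).trans hk
  have hK1' : ∀ k ≥ K', k ≥ K1 := fun k hk =>
    (le_max_left _ _).trans ((le_max_right _ _).trans hk)
  have hK2' : ∀ k ≥ K', k ≥ K2 := fun k hk =>
    (le_max_right _ _).trans ((le_max_right _ _).trans hk)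
  obtain ⟨S', hS'part, hS'α⟩ := second_partition hπ S hS K' f (fun k hk => hSf k (hKK k hk))
    F' G' hF' hG' hd' (φ j) (hφ j) (fun x h hx => hFb' x ⟨_, hx, rfl⟩)
    (fun x h hx => hGb' x ⟨_, hx, rfl⟩) (fun k hk m q h hx => hFl' k (hK1' k hk) m q ⟨_, hx, rfl⟩)
    (fun k hk m q h hx => hGl' k (hK1' k hk) m q ⟨_, hx, rfl⟩) α
    (fun k hk => (hprop k (hiK k (hKK k hk))).2.1) c1
    (fun k hk q hf ha => by
      have h1 := ((hprop k (hiK k (hKK k hk))).2.2.2.2.1 q hf ha).1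
      have h2 := huc' (a := c1 k q) (b := π k q) (h1.trans_lt (hK2 k (hK2' k hk)))
      rwa [Real.dist_eq] at h2)
    (fun k hk q hf ha => ((hprop k (hiK k (hKK k hk))).2.2.2.2.1 q hf ha).2)
  refine ⟨S', hS'part, ?_⟩
  refine rc_lemma' hπ S hS K' S' hS'part.1 D (fun k _ q => c2 k q) (fun k => 2 * ε k)
    (by simpa using hε.const_mul 2) ?_ ?_
  · intro k hk m q h hS'
    have h1 := ((hprop k (hiK k (hKK k hk))).2.2.2.2.2 q (hSf k (hKK k hk) m q h)
      (hS'α k hk m q h hS')).2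
    filter_upwards [h1] with q' hq' h2 h3
    exact hq' (hSf k (hKK k hk) m q' h2) (hS'α k hk m q' h2 h3)
  · intro k hk m q q' h h' hS1 hS2 hlab
    have h1 := ((hprop k (hiK k (hKK k hk))).2.2.2.2.2 q (hSf k (hKK k hk) m q h)
      (hS'α k hk m q h hS1)).1
    have h2 := ((hprop k (hiK k (hKK k hk))).2.2.2.2.2 q' (hSf k (hKK k hk) m q' h')
      (hS'α k hk m q' h' hS2)).1
    have h3 : c2 k q = c2 k q' := hlab
    have h4 := dist_triangle_left (π k q) (π k q') (c2 k q)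
    rw [h3] at h4 h1
    linarith

end Pool.Agent.CmpDef
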