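import Pool.Agent.CmpDef.BaseExists
import Pool.Agent.CmpDef.PieceExists
import Pool.Agent.CmpDef.Upper
import Pool.Agent.CmpDef.LowerCmp
import Pool.Agent.CmpDef.LowerDef

/-!
# Assembly
-/

open Set TopologicalSpace Filter Topology

namespace Pool.Agent.CmpDef

/-- a partition given by a continuous function -/
theorem fin_partition_of_continuous {X : Type} [TopologicalSpace X] (f : X → ℝ)
    (hf : Continuous f) (c : ℝ) (A B : Set X) (hA : ∀ x ∈ A, f x < c) (hB : ∀ x ∈ B, c < f x) :
    IsPartition A B {x | f x = c} := by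
  refine ⟨isClosed_eq hf continuous_const, {x | f x < c}, {x | c < f x},
    isOpen_lt hf continuous_const, isOpen_lt continuous_const hf, ?_, ?_, hA, hB⟩
  · rw [Set.disjoint_left]
    intro x hx hx'
    exact lt_asymm (show f x < c from hx) hx'
  · ext x
    simp only [mem_compl_iff, mem_setOf_eq, mem_union]
    exact ne_iff_lt_or_gt

/-- `cmp X = -1` implies `cmp X ≤ 0`. -/
theorem largeLE_of_compact {X : Type} [MetricSpace X] (h : CompactSpace X) : LargeLE 1 X := by
  show SmallLE 1 X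
  intro p G hG hp
  obtain ⟨ε, hε, hball⟩ := Metric.isOpen_iff.mp hG.isOpen_compl p hp
  refine ⟨{x | dist x p = ε / 2}, ?_, ?_⟩
  · refine fin_partition_of_continuous (fun x => dist x p) (continuous_id.dist continuous_const)
      (ε / 2) {p} G ?_ ?_
    · intro x hx
      rw [mem_singleton_iff.mp hx, dist_self]
      linarith
    · intro x hx
      by_contra hlt
      push Not at hlt
      exact hball (Metric.mem_ball.mpr (by linarith : dist x p < ε)) hx
  · have hcl : IsClosed {x : X | dist x p = ε / 2} :=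
      isClosed_eq (continuous_id.dist continuous_const) continuous_const
    exact isCompact_iff_compactSpace.mp hcl.isCompact

/-- rim-compactness passes to closed subsets -/
theorem fin_smallLE_one_closed {X : Type} [TopologicalSpace X] (h : SmallLE 1 X) (S : Set X)
    (hS : IsClosed S) : SmallLE 1 ↥S := by
  intro p G hG hp
  have hcl : IsClosed ((Subtype.val : S → X) '' G) := hS.isClosedEmbedding_subtypeVal.isClosedMap G hG
  have hp' : p.1 ∉ (Subtype.val : S → X) '' G := by
    rintro ⟨q, hq, hqp⟩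
    exact hp (Subtype.ext hqp ▸ hq)
  obtain ⟨T, ⟨hT, V, W, hV, hW, hVW, hc, hpV, hGW⟩, hTc⟩ := h p.1 _ hcl hp'
  refine ⟨Subtype.val ⁻¹' T, ⟨hT.preimage continuous_subtype_val, Subtype.val ⁻¹' V,
    Subtype.val ⁻¹' W, hV.preimage continuous_subtype_val, hW.preimage continuous_subtype_val,
    hVW.preimage _, ?_, ?_, ?_⟩, ?_⟩
  · rw [← preimage_compl, hc, preimage_union]
  · intro x hx
    rw [mem_singleton_iff.mp hx]
    exact hpV rfl
  · intro x hx
    exact hGW ⟨x, hx, rfl⟩
  · have hTc' : IsCompact T := isCompact_iff_compactSpace.mpr hTc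
    exact isCompact_iff_compactSpace.mp (hS.isClosedEmbedding_subtypeVal.isCompact_preimage hTc')

/-- `Cmp X ≤ 0` implies `Cmp X ≤ 1`. -/
theorem largeLE_two_of_one {X : Type} [MetricSpace X] [SecondCountableTopology X]
    (h : LargeLE 1 X) : LargeLE 2 X := by
  show ∀ F G : Set X, IsClosed F → IsClosed G → Disjoint F G →
      ∃ S : Set X, IsPartition F G S ∧ LargeLE 1 S
  intro F G hF hG hFG
  obtain ⟨f, hf0, hf1, -⟩ := exists_continuous_zero_one_of_isClosed hF hG hFG
  refine ⟨{x | f x = 1 / 2}, fin_partition_of_continuous f f.continuous (1 / 2) F G ?_ ?_, ?_⟩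
  · intro x hx
    rw [hf0 hx]
    norm_num
  · intro x hx
    rw [hf1 hx]
    norm_num
  · exact fin_smallLE_one_closed h _ (isClosed_eq f.continuous continuous_const)

theorem covDimLE_mono {m n : ℕ} (hmn : m ≤ n) (Z : Type) [TopologicalSpace Z]
    (h : CovDimLE m Z) : CovDimLE n Z := by
  intro U hU hUo hUc
  obtain ⟨V, hV, hVo, hVc, hVU, hcard⟩ := h U hU hUo hUc
  exact ⟨V, hV, hVo, hVc, hVU, fun z => (hcard z).trans (by exact_mod_cast hmn)⟩

theorem defLE_mono {m n : ℕ} (hmn : m ≤ n) (X : Type) [TopologicalSpace X]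
    (h : DefLE m X) : DefLE n X := by
  obtain ⟨Y, τ, e, h1, h2, h3, h4, h5⟩ := h
  exact ⟨Y, τ, e, h1, h2, h3, h4, covDimLE_mono hmn _ h5⟩

/-- a countable family of functions separating disjoint closed sets -/
theorem exists_separating (D : Type) [MetricSpace D] [CompactSpace D] :
    ∃ φ : ℕ → D → ℝ, (∀ i, Continuous (φ i)) ∧ ∀ A B : Set D, IsClosed A → IsClosed B →
      Disjoint A B → ∃ i, (∀ x ∈ A, φ i x < 1 / 3) ∧ ∀ x ∈ B, 2 / 3 < φ i x := by
  have hsep : SeparableSpace C(D, ℝ) := inferInstance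
  refine ⟨fun i => denseSeq C(D, ℝ) i, fun i => (denseSeq C(D, ℝ) i).continuous, ?_⟩
  intro A B hA hB hAB
  obtain ⟨f, hf0, hf1, -⟩ := exists_continuous_zero_one_of_isClosed hA hB hAB
  obtain ⟨i, hg⟩ := (denseRange_denseSeq C(D, ℝ)).exists_dist_lt f
    (show (0 : ℝ) < 1 / 3 by norm_num)
  refine ⟨i, fun x hx => ?_, fun x hx => ?_⟩
  · have h1 := (ContinuousMap.dist_apply_le_dist (f := f) (g := denseSeq C(D, ℝ) i) x).trans_lt hg
    rw [hf0 hx, Real.dist_eq, abs_lt] at h1
    simp only [Pi.zero_apply] at h1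
    linarith [h1.1]
  · have h1 := (ContinuousMap.dist_apply_le_dist (f := f) (g := denseSeq C(D, ℝ) i) x).trans_lt hg
    rw [hf1 hx, Real.dist_eq, abs_lt] at h1
    simp only [Pi.one_apply] at h1
    linarith [h1.2]

/-- There is a separable metrizable space `X` with `cmp X ≤ 1`, `Cmp X ≤ 2`, not `Cmp X ≤ 1`, and
not `def X ≤ 2`. -/
theorem main : ∃ (X : Type) (_ : MetricSpace X), SecondCountableTopology X ∧
    SmallLE 2 X ∧ LargeLE 3 X ∧ ¬ LargeLE 2 X ∧ ¬ DefLE 3 X := by
  obtain ⟨Bd⟩ := baseData_exists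
  have : CompactSpace (RP 13) := compactSpace_RP 13
  obtain ⟨φ, hφ, hsep⟩ := exists_separating (RP 13)
  have hpiece := fun k : ℕ => piece_exists Bd.a Bd.a_self (Bd.M k) Bd.Z (Bd.M_closed k) k φ hφ
    ((1 / 2 : ℝ) ^ k) (by positivity) (Bd.nonexact6 k) (Bd.nonexact2 k)
  choose E hEm hEc π hE using hpiece
  have hπ : ∀ k, Continuous (π k) := fun k => (hE k).cont
  refine ⟨XSp π, inferInstance, XSp.secondCountable hπ, small_le Bd φ _ hE,
    large_le Bd φ hφ hsep _ ?_ hE, not_large_le Bd φ _ hE, not_def_le Bd φ _ hE⟩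
  exact tendsto_pow_atTop_nhds_zero_of_lt_one (by norm_num) (by norm_num)

theorem cmpSmallSucc_le {X : Type} [TopologicalSpace X] {n : ℕ} (h : SmallLE n X) :
    cmpSmallSucc X ≤ n :=
  iInf₂_le n h

theorem cmpLargeSucc_le {X : Type} [TopologicalSpace X] {n : ℕ} (h : LargeLE n X) :
    cmpLargeSucc X ≤ n :=
  iInf₂_le n h

theorem le_cmpLargeSucc {X : Type} [MetricSpace X] [SecondCountableTopology X]
    (h : ¬ LargeLE 2 X) : 3 ≤ cmpLargeSucc X := by
  refine le_iInf₂ fun n hn => ?_
  match n, hn with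
  | 0, hn => exact absurd (largeLE_two_of_one (largeLE_of_compact hn)) h
  | 1, hn => exact absurd (largeLE_two_of_one hn) h
  | 2, hn => exact absurd hn h
  | n + 3, _ => exact_mod_cast (by omega : 3 ≤ n + 3)

theorem le_defSucc {X : Type} [TopologicalSpace X] (h : ¬ DefLE 3 X) : 4 ≤ defSucc X := by
  refine le_iInf₂ fun n hn => ?_
  by_contra hlt
  push Not at hlt
  have h4 : n < 4 := by exact_mod_cast hlt
  exact h (defLE_mono (by omega) X hn)

/-- `cmp X < Cmp X < def X` for some separable metrizable space. -/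
theorem main_deg : ∃ (X : Type) (_ : MetricSpace X), SecondCountableTopology X ∧
    cmpSmallSucc X < cmpLargeSucc X ∧ cmpLargeSucc X < defSucc X := by
  obtain ⟨X, hX, h2, hs, hl, hnl, hnd⟩ := main
  refine ⟨X, hX, h2, ?_, ?_⟩
  · calc cmpSmallSucc X ≤ (2 : ℕ) := cmpSmallSucc_le hs
      _ < 3 := by norm_num
      _ ≤ cmpLargeSucc X := le_cmpLargeSucc hnl
  · calc cmpLargeSucc X ≤ (3 : ℕ) := cmpLargeSucc_le hl
      _ < 4 := by norm_num
      _ ≤ defSucc X := le_defSucc hnd

end Pool.Agent.CmpDef
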