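import Pool.Agent.CmpDef.RP

/-!
# Spheres and nets in the projective space
-/

open Set TopologicalSpace Filter Topology

namespace Pool.Agent.CmpDef

/-! ### Centres and radii -/

/-- Rational centres and radii `r l = 1 / (j + 100) + √2 / N` with `N` injective in `l`. -/
theorem nets_radii : ∃ (z : ℕ → Fin 13 → ℚ) (r : ℕ → ℝ),
    (∀ x : Fin 13 → ℝ, ∀ ε > 0, ∃ l, ‖x - fun i => (z l i : ℝ)‖ < r l ∧ r l < ε) ∧
    (∀ l, 0 < r l ∧ r l ≤ 1 / 16) ∧
    (∀ l, ∀ q : ℚ, r l ≠ q) ∧
    (∀ l l', l ≠ l' → ∀ q : ℚ, r l - r l' ≠ q) ∧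
    (∀ l l', ∀ q : ℚ, r l + r l' ≠ q) := by
  obtain ⟨e, he⟩ := exists_surjective_nat ((Fin 13 → ℚ) × ℕ)
  have hs0 : (0 : ℝ) < √2 := by positivity
  have hs2 : √2 < 2 := by
    rw [Real.sqrt_lt' (by norm_num)]; norm_num
  have hirr : ∀ (a b : ℚ), b ≠ 0 → ∀ q : ℚ, (a : ℝ) + √2 * b ≠ q := by
    intro a b hb q h
    apply irrational_sqrt_two
    refine ⟨(q - a) / b, ?_⟩
    have hb' : (b : ℝ) ≠ 0 := by exact_mod_cast hb
    push_cast
    rw [div_eq_iff hb', ← h]
    ring
  set N : ℕ → ℕ := fun l => Nat.pair l ((e l).2 + 100) + 1 with hN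
  have hNinj : ∀ l l', N l = N l' → l = l' := by
    intro l l' h
    have h1 : Nat.pair l ((e l).2 + 100) = Nat.pair l' ((e l').2 + 100) := by
      simpa [hN] using h
    have h2 := congrArg (fun t => (Nat.unpair t).1) h1
    simpa using h2
  have hNge : ∀ l, (e l).2 + 100 < N l := by
    intro l
    have := Nat.right_le_pair l ((e l).2 + 100)
    simp only [hN]
    omega
  set a : ℕ → ℚ := fun l => 1 / ((e l).2 + 100) with ha
  set b : ℕ → ℚ := fun l => 1 / (N l : ℚ) with hb
  have hNpos : ∀ l, (0 : ℚ) < N l := by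
    intro l
    have := hNge l
    have h' : 0 < N l := by omega
    exact_mod_cast h'
  have hbpos : ∀ l, 0 < b l := by
    intro l
    have := hNpos l
    simp only [hb]
    positivity
  have hapos : ∀ l, 0 < a l := by
    intro l
    simp only [ha]
    positivity
  have hble : ∀ l, b l ≤ a l := by
    intro l
    simp only [ha, hb]
    apply one_div_le_one_div_of_le
    · positivity
    · have := hNge l
      exact_mod_cast this.le
  have hbinj : ∀ l l', b l = b l' → l = l' := by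
    intro l l' h
    apply hNinj
    simp only [hb, one_div, inv_inj] at h
    exact_mod_cast h
  have hR : ∀ l, 0 < ((a l : ℚ) : ℝ) ∧ 0 < ((b l : ℚ) : ℝ) ∧ ((b l : ℚ) : ℝ) ≤ a l := by
    intro l
    exact ⟨by exact_mod_cast hapos l, by exact_mod_cast hbpos l, by exact_mod_cast hble l⟩
  refine ⟨fun l => (e l).1, fun l => (a l : ℝ) + √2 * b l, ?_, ?_, ?_, ?_, ?_⟩
  · intro x ε hε
    obtain ⟨n, hn⟩ := exists_nat_gt (3 / ε)
    have hn' : (0 : ℝ) < (n : ℝ) + 100 := by positivity
    have hq : ∀ i, ∃ q : ℚ, |x i - q| < 1 / ((n : ℝ) + 100) := by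
      intro i
      obtain ⟨q, hq1, hq2⟩ := exists_rat_btwn (show x i - 1 / ((n : ℝ) + 100) < x i by
        have : 0 < 1 / ((n : ℝ) + 100) := by positivity
        linarith)
      refine ⟨q, ?_⟩
      rw [abs_lt]
      constructor <;> linarith
    choose q hq using hq
    obtain ⟨l, hl⟩ := he (q, n)
    refine ⟨l, ?_, ?_⟩
    · have h1 : ‖x - fun i => (((e l).1 i : ℚ) : ℝ)‖ < 1 / ((n : ℝ) + 100) := by
        rw [pi_norm_lt_iff (by positivity)]
        intro i
        rw [hl]
        exact hq i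
      have h2 : ((a l : ℚ) : ℝ) = 1 / ((n : ℝ) + 100) := by
        simp only [ha, hl]
        push_cast
        rfl
      have h3 := (hR l).2.1
      show _ < (a l : ℝ) + √2 * b l
      rw [h2]
      have : 0 < √2 * (b l : ℝ) := by positivity
      linarith
    · have h2 : ((a l : ℚ) : ℝ) = 1 / ((n : ℝ) + 100) := by
        simp only [ha, hl]
        push_cast
        rfl
      have h3 := (hR l).2.2
      have h4 : √2 * (b l : ℝ) ≤ 2 * a l := by
        have := (hR l).2.1
        nlinarith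
      have h5 : (a l : ℝ) * 3 < ε := by
        rw [h2]
        rw [div_lt_iff₀ hε] at hn
        rw [one_div, inv_mul_lt_iff₀ hn']
        nlinarith
      show (a l : ℝ) + √2 * b l < ε
      linarith
  · intro l
    obtain ⟨h1, h2, h3⟩ := hR l
    have h4 : √2 * (b l : ℝ) ≤ 2 * a l := by
      nlinarith
    have h5 : 0 < √2 * (b l : ℝ) := by positivity
    have h6 : (a l : ℝ) ≤ 1 / 100 := by
      have : a l ≤ 1 / 100 := by
        simp only [ha]
        apply one_div_le_one_div_of_le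
        · norm_num
        · have : (0 : ℚ) ≤ ((e l).2 : ℚ) := by positivity
          linarith
      have h7 : ((a l : ℚ) : ℝ) ≤ ((1 / 100 : ℚ) : ℝ) := by exact_mod_cast this
      simpa using h7
    show 0 < (a l : ℝ) + √2 * b l ∧ (a l : ℝ) + √2 * b l ≤ 1 / 16
    constructor
    · linarith
    · linarith
  · intro l q
    exact hirr _ _ (hbpos l).ne' q
  · intro l l' hll q h
    have h1 : b l - b l' ≠ 0 := by
      intro h0
      exact hll (hbinj _ _ (by linarith))
    apply hirr (a l - a l') (b l - b l') h1 q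
    rw [← h]
    push_cast
    ring
  · intro l l' q h
    have h1 : b l + b l' ≠ 0 := by
      have := hbpos l
      have := hbpos l'
      linarith
    apply hirr (a l + a l') (b l + b l') h1 q
    rw [← h]
    push_cast
    ring

/-! ### The coordinate sets -/

/-- signs -/
def nsg (b : Bool) : ℝ := if b then 1 else -1

theorem nsg_cases (b : Bool) : nsg b = 1 ∨ nsg b = -1 := by
  cases b <;> simp [nsg]

/-- the possible coordinates of the points of the sphere of radius `r` around `± z` at which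
the maximum is attained. -/
def netR (z : Fin 13 → ℚ) (r : ℝ) : Set ℝ :=
  range (fun t : Fin 13 × Bool × Bool => nsg t.2.1 * (z t.1 : ℝ) + nsg t.2.2 * r)

/-- the net `± (n + θ) / K`, `|n| ≤ K + 1`. -/
def netP (k l : ℕ) : Set ℝ :=
  {y | ∃ (s : Bool) (n : ℤ), |n| ≤ (k : ℤ) + 2 ∧
    y = nsg s * (((n : ℝ) + ((l : ℝ) + 1) / (2 * ((k : ℝ) + 2))) / ((k : ℝ) + 1))}

theorem netR_finite (z : Fin 13 → ℚ) (r : ℝ) : (netR z r).Finite := finite_range _

theorem netP_finite (k l : ℕ) : (netP k l).Finite := by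
  have h : netP k l ⊆ (fun t : Bool × ℤ =>
      nsg t.1 * (((t.2 : ℝ) + ((l : ℝ) + 1) / (2 * ((k : ℝ) + 2))) / ((k : ℝ) + 1))) ''
      (univ ×ˢ Icc (-((k : ℤ) + 2)) ((k : ℤ) + 2)) := by
    rintro y ⟨s, n, hn, rfl⟩
    exact ⟨(s, n), ⟨mem_univ _, abs_le.mp hn⟩, rfl⟩
  exact ((finite_univ.prod (finite_Icc _ _)).image _).subset h

theorem netP_neg {k l : ℕ} {y : ℝ} (h : y ∈ netP k l) : -y ∈ netP k l := by
  obtain ⟨s, n, hn, rfl⟩ := h
  refine ⟨!s, n, hn, ?_⟩
  cases s <;> simp [nsg]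

theorem netP_rat {k l : ℕ} {y : ℝ} (h : y ∈ netP k l) : ∃ q : ℚ, y = q := by
  obtain ⟨s, n, hn, rfl⟩ := h
  rcases nsg_cases s with h | h
  · refine ⟨(((n : ℚ) + ((l : ℚ) + 1) / (2 * ((k : ℚ) + 2))) / ((k : ℚ) + 1)), ?_⟩
    rw [h]
    push_cast
    ring
  · refine ⟨-(((n : ℚ) + ((l : ℚ) + 1) / (2 * ((k : ℚ) + 2))) / ((k : ℚ) + 1)), ?_⟩
    rw [h]
    push_cast
    ring

theorem netth_mem {k l : ℕ} (h : l < k) : 0 < ((l : ℝ) + 1) / (2 * ((k : ℝ) + 2)) ∧
    ((l : ℝ) + 1) / (2 * ((k : ℝ) + 2)) < 1 / 2 := by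
  constructor
  · positivity
  · rw [div_lt_div_iff₀ (by positivity) (by norm_num)]
    have : (l : ℝ) < k := by exact_mod_cast h
    linarith

theorem netP_disj {k l l' : ℕ} (h : l < k) (h' : l' < k) {y : ℝ} (hy : y ∈ netP k l)
    (hy' : y ∈ netP k l') : l = l' := by
  obtain ⟨s, n, hn, e⟩ := hy
  obtain ⟨s', n', hn', e'⟩ := hy'
  obtain ⟨a1, a2⟩ := netth_mem h
  obtain ⟨b1, b2⟩ := netth_mem h'
  have hk : (0 : ℝ) < (k : ℝ) + 1 := by positivity
  have hk2 : (0 : ℝ) < 2 * ((k : ℝ) + 2) := by positivity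
  have e1 : nsg s * ((n : ℝ) + ((l : ℝ) + 1) / (2 * ((k : ℝ) + 2))) =
      nsg s' * ((n' : ℝ) + ((l' : ℝ) + 1) / (2 * ((k : ℝ) + 2))) := by
    have := e.symm.trans e'
    rw [← mul_div_assoc, ← mul_div_assoc, div_left_inj' hk.ne'] at this
    exact this
  have key : ∀ m : ℤ, (m : ℝ) < 1 → -1 < (m : ℝ) → m = 0 := by
    intro m h1 h2
    have h1' : m < 1 := by exact_mod_cast h1
    have h2' : -1 < m := by exact_mod_cast h2
    omega
  have key2 : ∀ m : ℤ, (m : ℝ) < 0 → -1 < (m : ℝ) → False := by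
    intro m h1 h2
    have h1' : m < 0 := by exact_mod_cast h1
    have h2' : -1 < m := by exact_mod_cast h2
    omega
  set θ := ((l : ℝ) + 1) / (2 * ((k : ℝ) + 2)) with hθ
  set θ' := ((l' : ℝ) + 1) / (2 * ((k : ℝ) + 2)) with hθ'
  have fin : θ = θ' → l = l' := by
    intro h
    rw [hθ, hθ', div_left_inj' hk2.ne'] at h
    have h2 : (l : ℝ) = l' := by linarith
    exact_mod_cast h2
  rcases nsg_cases s with hs | hs <;> rcases nsg_cases s' with hs' | hs' <;> rw [hs, hs'] at e1
  · have := key (n - n') (by push_cast; linarith) (by push_cast; linarith)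
    apply fin
    have h3 : (n : ℝ) = n' := by exact_mod_cast (show n = n' by omega)
    linarith
  · exact (key2 (n + n') (by push_cast; linarith) (by push_cast; linarith)).elim
  · exact (key2 (n + n') (by push_cast; linarith) (by push_cast; linarith)).elim
  · have := key (n - n') (by push_cast; linarith) (by push_cast; linarith)
    apply fin
    have h3 : (n : ℝ) = n' := by exact_mod_cast (show n = n' by omega)
    linarith

/-- the net does not contain `0`, `1`, `-1`. -/
theorem netP_ne {k l : ℕ} (h : l < k) {y : ℝ} (hy : y ∈ netP k l) : y ≠ 0 ∧ y ≠ 1 ∧ y ≠ -1 := by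
  obtain ⟨s, n, hn, e⟩ := hy
  obtain ⟨a1, a2⟩ := netth_mem h
  have hk : (0 : ℝ) < (k : ℝ) + 1 := by positivity
  set θ := ((l : ℝ) + 1) / (2 * ((k : ℝ) + 2)) with hθ
  have e1 : y * ((k : ℝ) + 1) = nsg s * (n + θ) := by
    rw [e]
    field_simp
  have key2 : ∀ m : ℤ, (m : ℝ) < 0 → -1 < (m : ℝ) → False := by
    intro m h1 h2
    have h1' : m < 0 := by exact_mod_cast h1
    have h2' : -1 < m := by exact_mod_cast h2
    omega
  refine ⟨?_, ?_, ?_⟩
  · intro hy
    rw [hy, zero_mul] at e1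
    rcases nsg_cases s with hs | hs <;> rw [hs] at e1
    · exact key2 n (by linarith) (by linarith)
    · exact key2 n (by linarith) (by linarith)
  · intro hy
    rw [hy, one_mul] at e1
    rcases nsg_cases s with hs | hs <;> rw [hs] at e1
    · exact key2 (n - k - 1) (by push_cast; linarith) (by push_cast; linarith)
    · exact key2 (n + k + 1) (by push_cast; linarith) (by push_cast; linarith)
  · intro hy
    rw [hy, neg_one_mul] at e1
    rcases nsg_cases s with hs | hs <;> rw [hs] at e1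
    · exact key2 (n + k + 1) (by push_cast; linarith) (by push_cast; linarith)
    · exact key2 (n - k - 1) (by push_cast; linarith) (by push_cast; linarith)

/-- the net is `1 / (k + 1)`-dense. -/
theorem netP_dense {k l : ℕ} (h : l < k) {x y : ℝ} (hx : -1 ≤ x) (hy : y ≤ 1)
    (hxy : x + 1 / ((k : ℝ) + 1) < y) : ∃ p ∈ netP k l, x ≤ p ∧ p < y := by
  obtain ⟨a1, a2⟩ := netth_mem h
  have hk : (0 : ℝ) < (k : ℝ) + 1 := by positivity
  set θ := ((l : ℝ) + 1) / (2 * ((k : ℝ) + 2)) with hθ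
  set K := (k : ℝ) + 1 with hK
  set n := ⌈K * x - θ⌉ with hn
  have h1 : K * x - θ ≤ n := Int.le_ceil _
  have h2 : (n : ℝ) < K * x - θ + 1 := Int.ceil_lt_add_one _
  have h3 : K * x + 1 < K * y := by
    have := mul_lt_mul_of_pos_left hxy hk
    rw [mul_add, mul_one_div_cancel hk.ne'] at this
    exact this
  refine ⟨nsg true * ((n + θ) / K), ⟨true, n, ?_, rfl⟩, ?_, ?_⟩
  · have h4 : (n : ℝ) < K := by nlinarith
    have h5 : -K - 1 < n := by nlinarith
    have h4' : n < (k : ℤ) + 1 := by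
      rw [hK] at h4
      exact_mod_cast h4
    have h5' : -((k : ℤ) + 1) - 1 < n := by
      rw [hK] at h5
      exact_mod_cast h5
    rw [abs_le]
    constructor <;> omega
  · simp only [nsg, if_true, one_mul]
    rw [le_div_iff₀ hk]
    linarith
  · simp only [nsg, if_true, one_mul]
    rw [div_lt_iff₀ hk]
    linarith


/-- finite sets of real numbers are separated. -/
theorem net_sep (S : Set ℝ) (hS : S.Finite) : ∃ κ : ℝ, 0 < κ ∧ κ ≤ 1 / 16 ∧
    ∀ p ∈ S, ∀ q ∈ S, |p - q| < 2 * κ → p = q := by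
  have hF : ((S ×ˢ S) ∩ {t : ℝ × ℝ | t.1 ≠ t.2}).Finite := (hS.prod hS).subset inter_subset_left
  rcases ((S ×ˢ S) ∩ {t : ℝ × ℝ | t.1 ≠ t.2}).eq_empty_or_nonempty with h | h
  · refine ⟨1 / 16, by norm_num, le_rfl, fun p hp q hq _ => ?_⟩
    by_contra hne
    have : (p, q) ∈ ((S ×ˢ S) ∩ {t : ℝ × ℝ | t.1 ≠ t.2}) := ⟨⟨hp, hq⟩, hne⟩
    rw [h] at this
    exact this
  · obtain ⟨t, ht, hmin⟩ := exists_min_image _ (fun t : ℝ × ℝ => |t.1 - t.2|) hF h
    have ht0 : 0 < |t.1 - t.2| := abs_pos.mpr (sub_ne_zero.mpr ht.2)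
    refine ⟨min (|t.1 - t.2| / 2) (1 / 16), by positivity, min_le_right _ _,
      fun p hp q hq hlt => ?_⟩
    by_contra hne
    have h1 := hmin (p, q) ⟨⟨hp, hq⟩, hne⟩
    have h2 := min_le_left (|t.1 - t.2| / 2) (1 / 16)
    simp only at h1
    linarith

/-- The sets of coordinates are pairwise separated. -/
theorem net_kappa (z : ℕ → Fin 13 → ℚ) (r : ℕ → ℝ)
    (h3 : ∀ l, ∀ q : ℚ, r l ≠ q)
    (h4 : ∀ l l', l ≠ l' → ∀ q : ℚ, r l - r l' ≠ q)
    (h5 : ∀ l l', ∀ q : ℚ, r l + r l' ≠ q) (k : ℕ) :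
    ∃ κ : ℝ, 0 < κ ∧ κ ≤ 1 / 16 ∧ ∀ l < k, ∀ l' < k,
      (∀ p ∈ netR (z l) (r l), ∀ q ∈ netR (z l') (r l'), |p - q| < 2 * κ → l = l') ∧
      (∀ p ∈ netP k l, ∀ q ∈ netP k l', |p - q| < 2 * κ → l = l') ∧
      (∀ p ∈ netR (z l) (r l), ∀ q ∈ netP k l', 2 * κ ≤ |p - q|) ∧
      (∀ p ∈ netR (z l) (r l), 2 * κ ≤ |p| ∧ 2 * κ ≤ |p - 1| ∧ 2 * κ ≤ |p + 1|) ∧
      (∀ p ∈ netP k l, 2 * κ ≤ |p| ∧ 2 * κ ≤ |p - 1| ∧ 2 * κ ≤ |p + 1|) := by
  have hfin : ((⋃ l ∈ Iio k, (netR (z l) (r l) ∪ netP k l)) ∪ {0, 1, -1} : Set ℝ).Finite := by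
    apply Set.Finite.union
    · exact (finite_Iio k).biUnion (fun l _ => (netR_finite _ _).union (netP_finite _ _))
    · exact Set.toFinite _
  obtain ⟨κ, hκ, hκ', hsep⟩ := net_sep _ hfin
  have mR : ∀ l < k, ∀ p ∈ netR (z l) (r l),
      p ∈ ((⋃ l ∈ Iio k, (netR (z l) (r l) ∪ netP k l)) ∪ {0, 1, -1} : Set ℝ) := by
    intro l hl p hp
    left
    exact mem_biUnion (show l ∈ Iio k from hl) (Or.inl hp)
  have mP : ∀ l < k, ∀ p ∈ netP k l,
      p ∈ ((⋃ l ∈ Iio k, (netR (z l) (r l) ∪ netP k l)) ∪ {0, 1, -1} : Set ℝ) := by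
    intro l hl p hp
    left
    exact mem_biUnion (show l ∈ Iio k from hl) (Or.inr hp)
  have m0 : (0 : ℝ) ∈ ((⋃ l ∈ Iio k, (netR (z l) (r l) ∪ netP k l)) ∪ {0, 1, -1} : Set ℝ) := by
    right; simp
  have m1 : (1 : ℝ) ∈ ((⋃ l ∈ Iio k, (netR (z l) (r l) ∪ netP k l)) ∪ {0, 1, -1} : Set ℝ) := by
    right; simp
  have m2 : (-1 : ℝ) ∈ ((⋃ l ∈ Iio k, (netR (z l) (r l) ∪ netP k l)) ∪ {0, 1, -1} : Set ℝ) := by
    right; simp
  -- points of `netR` are irrational
  have irr : ∀ l, ∀ p ∈ netR (z l) (r l), ∀ q : ℚ, p ≠ q := by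
    rintro l p ⟨t, rfl⟩ q h
    simp only at h
    rcases nsg_cases t.2.1 with hs | hs <;> rcases nsg_cases t.2.2 with hs' | hs' <;>
      rw [hs, hs'] at h
    · exact h3 l (q - z l t.1) (by push_cast; linarith)
    · exact h3 l (z l t.1 - q) (by push_cast; linarith)
    · exact h3 l (q + z l t.1) (by push_cast; linarith)
    · exact h3 l (-z l t.1 - q) (by push_cast; linarith)
  have irr2 : ∀ l l', ∀ p, p ∈ netR (z l) (r l) → p ∈ netR (z l') (r l') → l = l' := by
    rintro l l' p ⟨t, ht⟩ ⟨t', ht'⟩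
    by_contra hne
    have h := ht.trans ht'.symm
    simp only at h
    rcases nsg_cases t.2.1 with hs | hs <;> rcases nsg_cases t.2.2 with hs' | hs' <;>
      rcases nsg_cases t'.2.1 with hu | hu <;> rcases nsg_cases t'.2.2 with hu' | hu' <;>
      rw [hs, hs', hu, hu'] at h
    · exact h4 l l' hne (z l' t'.1 - z l t.1) (by push_cast; linarith)
    · exact h5 l l' (z l' t'.1 - z l t.1) (by push_cast; linarith)
    · exact h4 l l' hne (-z l' t'.1 - z l t.1) (by push_cast; linarith)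
    · exact h5 l l' (-z l' t'.1 - z l t.1) (by push_cast; linarith)
    · exact h5 l l' (z l t.1 - z l' t'.1) (by push_cast; linarith)
    · exact h4 l l' hne (z l t.1 - z l' t'.1) (by push_cast; linarith)
    · exact h5 l l' (z l t.1 + z l' t'.1) (by push_cast; linarith)
    · exact h4 l l' hne (z l t.1 + z l' t'.1) (by push_cast; linarith)
    · exact h4 l l' hne (z l' t'.1 + z l t.1) (by push_cast; linarith)
    · exact h5 l l' (z l' t'.1 + z l t.1) (by push_cast; linarith)
    · exact h4 l l' hne (-z l' t'.1 + z l t.1) (by push_cast; linarith)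
    · exact h5 l l' (-z l' t'.1 + z l t.1) (by push_cast; linarith)
    · exact h5 l l' (-z l t.1 - z l' t'.1) (by push_cast; linarith)
    · exact h4 l l' hne (-z l t.1 - z l' t'.1) (by push_cast; linarith)
    · exact h5 l l' (-z l t.1 + z l' t'.1) (by push_cast; linarith)
    · exact h4 l l' hne (-z l t.1 + z l' t'.1) (by push_cast; linarith)
  refine ⟨κ, hκ, hκ', fun l hl l' hl' => ⟨?_, ?_, ?_, ?_, ?_⟩⟩
  · intro p hp q hq h
    have e := hsep p (mR l hl p hp) q (mR l' hl' q hq) h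
    rw [e] at hp
    exact irr2 l l' q hp hq
  · intro p hp q hq h
    have e := hsep p (mP l hl p hp) q (mP l' hl' q hq) h
    rw [e] at hp
    exact netP_disj hl hl' hp hq
  · intro p hp q hq
    by_contra h
    have e := hsep p (mR l hl p hp) q (mP l' hl' q hq) (not_le.mp h)
    obtain ⟨q', hq'⟩ := netP_rat hq
    exact irr l p hp q' (e.trans hq')
  · intro p hp
    refine ⟨?_, ?_, ?_⟩
    · by_contra h
      have e := hsep p (mR l hl p hp) 0 m0 (by simpa using h)
      exact irr l p hp 0 (by simpa using e)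
    · by_contra h
      have e := hsep p (mR l hl p hp) 1 m1 (not_le.mp h)
      exact irr l p hp 1 (by simpa using e)
    · by_contra h
      have e := hsep p (mR l hl p hp) (-1) m2 (by
        rw [sub_neg_eq_add]; exact not_le.mp h)
      exact irr l p hp (-1) (by simpa using e)
  · intro p hp
    obtain ⟨n0, n1, n2⟩ := netP_ne hl hp
    refine ⟨?_, ?_, ?_⟩
    · by_contra h
      exact n0 (hsep p (mP l hl p hp) 0 m0 (by simpa using h))
    · by_contra h
      exact n1 (hsep p (mP l hl p hp) 1 m1 (not_le.mp h))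
    · by_contra h
      exact n2 (hsep p (mP l hl p hp) (-1) m2 (by
        rw [sub_neg_eq_add]; exact not_le.mp h))

/-! ### Counting coordinates -/

theorem net_norm_attained (x : Fin 13 → ℝ) : ∃ i, |x i| = ‖x‖ := by
  by_contra hne
  push Not at hne
  have h1 : ∀ i, |x i| < ‖x‖ := by
    intro i
    have h2 : ‖x i‖ ≤ ‖x‖ := norm_le_pi_norm x i
    rw [Real.norm_eq_abs] at h2
    exact lt_of_le_of_ne h2 (hne i)
  have h3 : 0 < ‖x‖ := (abs_nonneg _).trans_lt (h1 0)
  have h4 : ‖x‖ < ‖x‖ := (pi_norm_lt_iff h3).mpr (fun i => by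
    rw [Real.norm_eq_abs]; exact h1 i)
  exact lt_irrefl _ h4

theorem net_count {k : ℕ} (z : ℕ → Fin 13 → ℚ) (r : ℕ → ℝ) (κ : ℝ)
    (hκ : ∀ l < k, ∀ l' < k,
      (∀ p ∈ netR (z l) (r l), ∀ q ∈ netR (z l') (r l'), |p - q| < 2 * κ → l = l') ∧
      (∀ p ∈ netP k l, ∀ q ∈ netP k l', |p - q| < 2 * κ → l = l') ∧
      (∀ p ∈ netR (z l) (r l), ∀ q ∈ netP k l', 2 * κ ≤ |p - q|) ∧
      (∀ p ∈ netR (z l) (r l), 2 * κ ≤ |p| ∧ 2 * κ ≤ |p - 1| ∧ 2 * κ ≤ |p + 1|) ∧
      (∀ p ∈ netP k l, 2 * κ ≤ |p| ∧ 2 * κ ≤ |p - 1| ∧ 2 * κ ≤ |p + 1|))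
    (x : Fin 13 → ℝ) (L : Set (Fin k))
    (hR : ∀ l ∈ L, ∃ a, ∃ p ∈ netR (z l) (r l), |x a - p| < κ)
    (hP : ∀ l ∈ L, ∃ a, ∃ p ∈ netP k l, |x a - p| < κ)
    (S : Finset (Fin 13)) (hS : ∀ a, x a ≠ 0 → x a ≠ 1 → x a ≠ -1 → a ∈ S) :
    2 * L.ncard ≤ S.card := by
  classical
  choose fR pR hpR hfR using hR
  choose fP pP hpP hfP using hP
  have hpos : ∀ l ∈ L, 0 < κ := fun l hl => (abs_nonneg _).trans_lt (hfR l hl)
  let f : L × Bool → S := fun t => if t.2 then ⟨fR t.1 t.1.2, by
      obtain ⟨h1, h2, h3⟩ := (hκ t.1 t.1.1.2 t.1 t.1.1.2).2.2.2.1 _ (hpR t.1 t.1.2)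
      have h4 := hfR t.1 t.1.2
      have h0 := hpos t.1 t.1.2
      apply hS
      · intro h
        rw [h, zero_sub, abs_neg] at h4
        linarith
      · intro h
        rw [h, abs_sub_comm] at h4
        linarith
      · intro h
        rw [h, abs_sub_comm, sub_neg_eq_add] at h4
        linarith⟩ else ⟨fP t.1 t.1.2, by
      obtain ⟨h1, h2, h3⟩ := (hκ t.1 t.1.1.2 t.1 t.1.1.2).2.2.2.2 _ (hpP t.1 t.1.2)
      have h4 := hfP t.1 t.1.2
      have h0 := hpos t.1 t.1.2
      apply hS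
      · intro h
        rw [h, zero_sub, abs_neg] at h4
        linarith
      · intro h
        rw [h, abs_sub_comm] at h4
        linarith
      · intro h
        rw [h, abs_sub_comm, sub_neg_eq_add] at h4
        linarith⟩
  have tri : ∀ u p q : ℝ, |u - p| < κ → |u - q| < κ → |p - q| < 2 * κ := by
    intro u p q h1 h2
    have h3 := abs_sub_le p u q
    rw [abs_sub_comm p u] at h3
    linarith
  have hf : Function.Injective f := by
    rintro ⟨⟨l, hl⟩, b⟩ ⟨⟨l', hl'⟩, b'⟩ h
    cases b <;> cases b'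
    · have e : fP l hl = fP l' hl' := by simpa [f] using h
      have h1 := hfP l hl
      have h2 := hfP l' hl'
      rw [e] at h1
      have h3 := (hκ l l.2 l' l'.2).2.1 _ (hpP l hl) _ (hpP l' hl') (tri _ _ _ h1 h2)
      have h4 : l = l' := Fin.ext h3
      subst h4
      rfl
    · exfalso
      have e : fP l hl = fR l' hl' := by simpa [f] using h
      have h1 := hfP l hl
      have h2 := hfR l' hl'
      rw [e] at h1
      have h3 := (hκ l' l'.2 l l.2).2.2.1 _ (hpR l' hl') _ (hpP l hl)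
      have h4 := tri _ _ _ h2 h1
      linarith
    · exfalso
      have e : fR l hl = fP l' hl' := by simpa [f] using h
      have h1 := hfR l hl
      have h2 := hfP l' hl'
      rw [e] at h1
      have h3 := (hκ l l.2 l' l'.2).2.2.1 _ (hpR l hl) _ (hpP l' hl')
      have h4 := tri _ _ _ h1 h2
      linarith
    · have e : fR l hl = fR l' hl' := by simpa [f] using h
      have h1 := hfR l hl
      have h2 := hfR l' hl'
      rw [e] at h1
      have h3 := (hκ l l.2 l' l'.2).1 _ (hpR l hl) _ (hpR l' hl') (tri _ _ _ h1 h2)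
      have h4 : l = l' := Fin.ext h3
      subst h4
      rfl
  have hc := Nat.card_le_card_of_injective f hf
  rw [Nat.card_prod, Nat.card_coe_set_eq, Nat.card_eq_fintype_card (α := Bool),
    Fintype.card_bool, Nat.card_eq_fintype_card (α := S), Fintype.card_coe] at hc
  omega


/-! ### Even Lipschitz functions on the sphere -/

theorem net_dist (P Q : RP 13) : dist P Q = dist (ver (sec P)) (ver (sec Q)) := by
  rw [ver_sec, ver_sec]
  rfl

/-- the distance of the lift to a symmetric set is continuous on the projective space. -/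
theorem net_cont (A : Set (Fin 13 → ℝ)) (hA : ∀ y ∈ A, -y ∈ A) :
    Continuous (fun P : RP 13 => Metric.infDist (sec P) A) := by
  have heven : ∀ x, Metric.infDist (-x) A = Metric.infDist x A := by
    intro x
    have hA' : (fun y : Fin 13 → ℝ => -y) '' A = A := by
      ext y
      constructor
      · rintro ⟨u, hu, rfl⟩
        exact hA _ hu
      · intro h
        exact ⟨-y, hA _ h, by simp⟩
    have h1 := Metric.infDist_image (isometry_neg (G := Fin 13 → ℝ)) (x := x) (t := A)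
    rw [show (Neg.neg '' A : Set (Fin 13 → ℝ)) = A from hA'] at h1
    exact h1
  apply Metric.continuous_iff.mpr
  intro Q ε hε
  refine ⟨ε / 2, by positivity, fun P hPQ => ?_⟩
  have h1 := min_norm_le (sec P) (sec Q) (norm_sec P) (norm_sec Q)
  rw [← net_dist] at h1
  have h2 : min ‖sec P - sec Q‖ ‖sec P + sec Q‖ < ε := by linarith
  have lip : ∀ x y : Fin 13 → ℝ, dist x y < ε →
      dist (Metric.infDist x A) (Metric.infDist y A) < ε := by
    intro x y h
    have := (Metric.lipschitz_infDist_pt A).dist_le_mul x y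
    simp only [NNReal.coe_one, one_mul] at this
    linarith
  rcases min_lt_iff.mp h2 with h | h
  · exact lip _ _ (by rwa [dist_eq_norm])
  · rw [← heven (sec Q)]
    exact lip _ _ (by rwa [dist_eq_norm, sub_neg_eq_add])

/-- real centre -/
def netz (z : ℕ → Fin 13 → ℚ) (l : ℕ) : Fin 13 → ℝ := fun i => (z l i : ℝ)

/-- distance of the lift from the centre -/
noncomputable def netpsi (z : ℕ → Fin 13 → ℚ) (l : ℕ) (P : RP 13) : ℝ :=
  Metric.infDist (sec P) {netz z l, -netz z l}

/-- distance of the lift from the net -/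
noncomputable def netnu (k l : ℕ) (P : RP 13) : ℝ :=
  Metric.infDist (sec P) {y | ∃ b, y b ∈ netP k l}

theorem netpsi_cont (z : ℕ → Fin 13 → ℚ) (l : ℕ) : Continuous (netpsi z l) := by
  apply net_cont
  intro y hy
  rcases hy with rfl | hy
  · right; rfl
  · rw [mem_singleton_iff] at hy
    left
    rw [hy, neg_neg]

theorem netnu_cont (k l : ℕ) : Continuous (netnu k l) := by
  apply net_cont
  rintro y ⟨b, hb⟩
  exact ⟨b, netP_neg hb⟩

theorem netpsi_le (z : ℕ → Fin 13 → ℚ) (l : ℕ) (P : RP 13) :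
    netpsi z l P ≤ ‖sec P - netz z l‖ := by
  have h := Metric.infDist_le_dist_of_mem (x := sec P) (y := netz z l)
    (s := {netz z l, -netz z l}) (by simp)
  rwa [dist_eq_norm] at h

theorem netpsi_eq (z : ℕ → Fin 13 → ℚ) (l : ℕ) (P : RP 13) :
    ∃ s : Bool, netpsi z l P = ‖sec P - nsg s • netz z l‖ := by
  obtain ⟨y, hy, h⟩ := IsCompact.exists_infDist_eq_dist
    (s := ({netz z l, -netz z l} : Set (Fin 13 → ℝ))) (Set.Finite.isCompact (Set.toFinite _))
    ⟨_, Or.inl rfl⟩ (sec P)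
  rcases hy with rfl | hy
  · exact ⟨true, by rw [netpsi, h, dist_eq_norm]; simp [nsg]⟩
  · rw [mem_singleton_iff] at hy
    subst hy
    exact ⟨false, by rw [netpsi, h, dist_eq_norm]; simp [nsg]⟩

theorem netpsi_near (z : ℕ → Fin 13 → ℚ) (l : ℕ) (P : RP 13) (r κ : ℝ)
    (h : |netpsi z l P - r| < κ) : ∃ a, ∃ p ∈ netR (z l) r, |sec P a - p| < κ := by
  obtain ⟨s, hs⟩ := netpsi_eq z l P
  obtain ⟨a, ha⟩ := net_norm_attained (sec P - nsg s • netz z l)
  rw [← hs] at ha
  have ha' : (sec P - nsg s • netz z l) a = sec P a - nsg s * (z l a : ℝ) := by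
    simp [netz]
  rw [ha'] at ha
  rcases abs_choice (sec P a - nsg s * (z l a : ℝ)) with h1 | h1
  · refine ⟨a, _, ⟨(a, s, true), rfl⟩, ?_⟩
    have e : sec P a - (nsg s * (z l a : ℝ) + nsg true * r) = netpsi z l P - r := by
      rw [← ha, h1]
      simp [nsg]
      ring
    simp only
    rw [e]
    exact h
  · refine ⟨a, _, ⟨(a, s, false), rfl⟩, ?_⟩
    have e : sec P a - (nsg s * (z l a : ℝ) + nsg false * r) = -(netpsi z l P - r) := by
      rw [← ha, h1]
      simp [nsg]
      ring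
    simp only
    rw [e, abs_neg]
    exact h

theorem netP_nonempty (k l : ℕ) : (netP k l).Nonempty :=
  ⟨_, true, 0, by simp; positivity, rfl⟩

theorem netnu_near (k l : ℕ) (P : RP 13) (κ : ℝ) (h : netnu k l P < κ) :
    ∃ a, ∃ p ∈ netP k l, |sec P a - p| < κ := by
  obtain ⟨p0, hp0⟩ := netP_nonempty k l
  obtain ⟨y, ⟨b, hb⟩, h1⟩ := (Metric.infDist_lt_iff (x := sec P)
    (s := {y : Fin 13 → ℝ | ∃ b, y b ∈ netP k l}) ⟨fun _ => p0, 0, hp0⟩).mp h
  refine ⟨b, y b, hb, ?_⟩
  have h2 := dist_le_pi_dist (sec P) y b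
  rw [Real.dist_eq] at h2
  linarith

theorem netnu_far (k l : ℕ) (P : RP 13) (κ : ℝ) (h : κ ≤ netnu k l P) (b : Fin 13) (p : ℝ)
    (hp : p ∈ netP k l) : κ ≤ |sec P b - p| := by
  have h1 : netnu k l P ≤ dist (sec P) (Function.update (sec P) b p) :=
    Metric.infDist_le_dist_of_mem ⟨b, by simpa using hp⟩
  have h2 : dist (sec P) (Function.update (sec P) b p) ≤ |sec P b - p| := by
    rw [dist_pi_le_iff (abs_nonneg _)]
    intro i
    by_cases hi : i = b
    · subst hi
      simp [Real.dist_eq]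
    · simp [Function.update_of_ne hi]
  linarith

/-- the labels: which net points are below the coordinates -/
def netgap (k l : ℕ) (x : Fin 13 → ℝ) : Fin 13 → Set ℝ := fun b => {p ∈ netP k l | p < x b}

/-- the labels -/
noncomputable def netlab (k l : ℕ) (P : RP 13) : Set (Fin 13 → Set ℝ) :=
  {netgap k l (sec P), netgap k l (-sec P)}

theorem netgap_near (k l : ℕ) (x y : Fin 13 → ℝ) (κ : ℝ)
    (h : ∀ b, ∀ p ∈ netP k l, κ ≤ |x b - p|) (hxy : ‖x - y‖ < κ) :
    netgap k l x = netgap k l y := by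
  funext b
  have h1 : |x b - y b| < κ := by
    have := norm_le_pi_norm (x - y) b
    rw [Pi.sub_apply, Real.norm_eq_abs] at this
    linarith
  rw [abs_lt] at h1
  ext p
  simp only [netgap, mem_ofPred_eq]
  constructor
  · rintro ⟨hp, hlt⟩
    refine ⟨hp, ?_⟩
    have h2 := h b p hp
    rw [abs_of_pos (by linarith)] at h2
    linarith
  · rintro ⟨hp, hlt⟩
    refine ⟨hp, ?_⟩
    by_contra hge
    have h2 := h b p hp
    rw [abs_of_nonpos (by linarith)] at h2
    linarith

theorem netgap_close (k l : ℕ) (hl : l < k) (x y : Fin 13 → ℝ) (hx : ‖x‖ = 1) (hy : ‖y‖ = 1)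
    (h : netgap k l x = netgap k l y) : ‖x - y‖ ≤ 1 / ((k : ℝ) + 1) := by
  have key : ∀ x y : Fin 13 → ℝ, ‖x‖ = 1 → ‖y‖ = 1 → netgap k l x = netgap k l y →
      ∀ b, y b ≤ x b + 1 / ((k : ℝ) + 1) := by
    intro x y hx hy h b
    by_contra hlt
    have h1 : -1 ≤ x b := by
      have := norm_le_pi_norm x b
      rw [hx, Real.norm_eq_abs, abs_le] at this
      exact this.1
    have h2 : y b ≤ 1 := by
      have := norm_le_pi_norm y b
      rw [hy, Real.norm_eq_abs, abs_le] at this
      exact this.2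
    obtain ⟨p, hp, hp1, hp2⟩ := netP_dense hl h1 h2 (not_le.mp hlt)
    have h3 : p ∈ netgap k l y b := ⟨hp, hp2⟩
    rw [← h] at h3
    exact absurd h3.2 (not_lt.mpr hp1)
  rw [pi_norm_le_iff_of_nonneg (by positivity)]
  intro b
  rw [Pi.sub_apply, Real.norm_eq_abs, abs_le]
  have h1 := key x y hx hy h b
  have h2 := key y x hy hx h.symm b
  constructor <;> linarith

theorem exists_spheres : ∃ (psi : ℕ → RP 13 → ℝ) (r : ℕ → ℝ) (M : ℕ → Set (RP 13)) (eps : ℕ → ℝ)
    (Lab : Type) (lab : ℕ → ℕ → RP 13 → Lab),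
    (∀ l, Continuous (psi l)) ∧
    (∀ (P : RP 13) (ε : ℝ), 0 < ε → ∃ l, psi l P < r l ∧ ∀ Q, psi l Q ≤ r l → dist P Q < ε) ∧
    (∀ k, IsClosed (M k)) ∧
    Tendsto eps atTop (𝓝 0) ∧
    (∀ k l, l < k → ∃ t > 0, ∀ P ∈ M k, ∀ Q ∈ M k, psi l P = r l → psi l Q = r l →
      dist P Q < t → lab k l P = lab k l Q) ∧
    (∀ k l, l < k → ∀ P ∈ M k, ∀ Q ∈ M k, psi l P = r l → psi l Q = r l →
      lab k l P = lab k l Q → dist P Q ≤ eps k) ∧
    (∀ k, ∃ (ρ : Fin k → RP 13 → ℝ) (κ : ℝ), 0 < κ ∧ (∀ l, Continuous (ρ l)) ∧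
      (∀ P, P ∉ M k → ∃ l, κ < ρ l P) ∧
      (∀ P, {l | 0 < ρ l P}.ncard ≤ 6) ∧
      (∀ P ∈ ZRP 13 3, {l | 0 < ρ l P}.ncard ≤ 1) ∧
      (∀ l, ∃ g : RP 13 → ZMod 2, ∀ P Q, 0 < ρ l P → 0 < ρ l Q → aRP P Q = g P + g Q)) := by
  obtain ⟨z, r, hz, hr, h3, h4, h5⟩ := nets_radii
  choose κ hκ0 hκ1 hκ using net_kappa z r h3 h4 h5
  let rho : ℕ → ℕ → RP 13 → ℝ := fun k l P =>
    min (κ k - |netpsi z l P - r l|) (κ k - netnu k l P)
  have rho_cont : ∀ k l, Continuous (rho k l) := by
    intro k l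
    exact (continuous_const.sub ((netpsi_cont z l).sub continuous_const).abs).min
      (continuous_const.sub (netnu_cont k l))
  refine ⟨netpsi z, r, fun k => {P | ∀ l < k, rho k l P ≤ κ k / 2}, fun k => 2 / ((k : ℝ) + 1),
    Set (Fin 13 → Set ℝ), netlab, netpsi_cont z, ?_, ?_, ?_, ?_, ?_, ?_⟩
  · -- small spheres
    intro P ε hε
    obtain ⟨l, hl, hl'⟩ := hz (sec P) (ε / 4) (by positivity)
    refine ⟨l, (netpsi_le z l P).trans_lt hl, fun Q hQ => ?_⟩
    obtain ⟨s, hs⟩ := netpsi_eq z l Q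
    rw [hs] at hQ
    have h6 := dist_ver_le (sec P) (sec Q) (norm_sec P) (norm_sec Q)
    rw [← net_dist] at h6
    have h7 : min ‖sec P - sec Q‖ ‖sec P + sec Q‖ < ε / 2 := by
      cases s
      · apply (min_le_right _ _).trans_lt
        have e : sec P + sec Q = (sec P - netz z l) + (sec Q - nsg false • netz z l) := by
          simp [nsg]
        rw [e]
        have := norm_add_le (sec P - netz z l) (sec Q - nsg false • netz z l)
        have hl2 : ‖sec P - netz z l‖ < r l := hl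
        linarith
      · apply (min_le_left _ _).trans_lt
        have e : sec P - sec Q = (sec P - netz z l) - (sec Q - nsg true • netz z l) := by
          simp [nsg]
        rw [e]
        have := norm_sub_le (sec P - netz z l) (sec Q - nsg true • netz z l)
        have hl2 : ‖sec P - netz z l‖ < r l := hl
        linarith
    linarith
  · -- closed
    intro k
    have e : {P | ∀ l < k, rho k l P ≤ κ k / 2} = ⋂ l, ⋂ (_ : l < k), {P | rho k l P ≤ κ k / 2} := by
      ext P
      simp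
    show IsClosed {P | ∀ l < k, rho k l P ≤ κ k / 2}
    rw [e]
    exact isClosed_iInter fun l => isClosed_iInter fun _ =>
      isClosed_le (rho_cont k l) continuous_const
  · -- eps
    have h := tendsto_one_div_add_atTop_nhds_zero_nat (𝕜 := ℝ)
    have h' := h.const_mul 2
    rw [mul_zero] at h'
    refine h'.congr fun k => ?_
    rw [mul_one_div]
  · -- labels are locally constant
    intro k l hl
    refine ⟨κ k / 4, by have := hκ0 k; positivity, fun P hP Q hQ hPl hQl hd => ?_⟩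
    have h6 := hP l hl
    have hκk := hκ0 k
    have h7 : κ k / 2 ≤ netnu k l P := by
      simp only [rho] at h6
      rw [hPl, sub_self, abs_zero, sub_zero] at h6
      rcases min_le_iff.mp h6 with h | h <;> linarith
    have h8 : ∀ b, ∀ p ∈ netP k l, κ k / 2 ≤ |sec P b - p| :=
      fun b p hp => netnu_far k l P _ h7 b p hp
    have h8' : ∀ b, ∀ p ∈ netP k l, κ k / 2 ≤ |(-sec P) b - p| := by
      intro b p hp
      have := h8 b (-p) (netP_neg hp)
      rw [Pi.neg_apply, ← abs_neg]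
      convert this using 2
      ring
    have h9 := min_norm_le (sec P) (sec Q) (norm_sec P) (norm_sec Q)
    rw [← net_dist] at h9
    have h10 : min ‖sec P - sec Q‖ ‖sec P + sec Q‖ < κ k / 2 := by linarith
    rcases min_lt_iff.mp h10 with h | h
    · have e1 := netgap_near k l (sec P) (sec Q) (κ k / 2) h8 h
      have e2 := netgap_near k l (-sec P) (-sec Q) (κ k / 2) h8' (by
        rw [← neg_sub', norm_neg]; exact h)
      rw [netlab, netlab, e1, e2]
    · have e1 := netgap_near k l (sec P) (-sec Q) (κ k / 2) h8 (by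
        rw [sub_neg_eq_add]; exact h)
      have e2 := netgap_near k l (-sec P) (sec Q) (κ k / 2) h8' (by
        rw [← neg_add', norm_neg]; exact h)
      rw [netlab, netlab, e1, e2, pair_comm]
  · -- equal labels
    intro k l hl P hP Q hQ _ _ hlab
    have h6 := dist_ver_le (sec P) (sec Q) (norm_sec P) (norm_sec Q)
    rw [← net_dist] at h6
    have h7 : netgap k l (sec P) ∈ netlab k l Q := by
      rw [← hlab]
      left
      rfl
    have h8 : min ‖sec P - sec Q‖ ‖sec P + sec Q‖ ≤ 1 / ((k : ℝ) + 1) := by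
      rcases h7 with h | h
      · exact (min_le_left _ _).trans (netgap_close k l hl _ _ (norm_sec P) (norm_sec Q) h)
      · rw [mem_singleton_iff] at h
        have := netgap_close k l hl _ _ (norm_sec P) (by rw [norm_neg]; exact norm_sec Q) h
        rw [sub_neg_eq_add] at this
        exact (min_le_right _ _).trans this
    have h9 : 2 / ((k : ℝ) + 1) = 2 * (1 / ((k : ℝ) + 1)) := by ring
    show dist P Q ≤ 2 / ((k : ℝ) + 1)
    rw [h9]
    linarith
  · -- multiplicity
    intro k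
    have hκk := hκ0 k
    have pos : ∀ l P, 0 < rho k l P → |netpsi z l P - r l| < κ k ∧ netnu k l P < κ k := by
      intro l P h
      simp only [rho] at h
      obtain ⟨h1, h2⟩ := lt_min_iff.mp h
      constructor <;> linarith
    have count : ∀ (P : RP 13) (S : Finset (Fin 13)),
        (∀ a, sec P a ≠ 0 → sec P a ≠ 1 → sec P a ≠ -1 → a ∈ S) →
        2 * {l : Fin k | 0 < rho k l P}.ncard ≤ S.card := by
      intro P S hS
      apply net_count z r (κ k) (hκ k) (sec P)
      · intro l hl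
        exact netpsi_near z l P (r l) (κ k) (pos l P hl).1
      · intro l hl
        exact netnu_near k l P (κ k) (pos l P hl).2
      · exact hS
    refine ⟨fun l P => rho k l P, κ k / 2, by positivity, fun l => rho_cont k l, ?_, ?_, ?_, ?_⟩
    · intro P hP
      simp only [mem_ofPred_eq] at hP
      push Not at hP
      obtain ⟨l, hl, h⟩ := hP
      exact ⟨⟨l, hl⟩, h⟩
    · intro P
      obtain ⟨i0, hi0⟩ := net_norm_attained (sec P)
      rw [norm_sec] at hi0
      have h := count P (Finset.univ.erase i0) (by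
        intro a _ h1 h2
        rw [Finset.mem_erase]
        refine ⟨?_, Finset.mem_univ _⟩
        rintro rfl
        rcases abs_choice (sec P a) with h | h <;> rw [h] at hi0
        · exact h1 hi0
        · exact h2 (by linarith))
      rw [Finset.card_erase_of_mem (Finset.mem_univ _), Finset.card_univ, Fintype.card_fin] at h
      show {l : Fin k | 0 < rho k l P}.ncard ≤ 6
      omega
    · intro P hP
      obtain ⟨i0, hi0⟩ := net_norm_attained (sec P)
      rw [norm_sec] at hi0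
      have hi3 : (i0 : ℕ) ≤ 3 := by
        by_contra hlt
        have := hP i0 (not_le.mp hlt)
        rw [this, abs_zero] at hi0
        exact zero_ne_one hi0
      have h := count P ((Finset.univ.filter (fun i : Fin 13 => (i : ℕ) ≤ 3)).erase i0) (by
        intro a h0 h1 h2
        rw [Finset.mem_erase, Finset.mem_filter]
        refine ⟨?_, Finset.mem_univ _, ?_⟩
        · rintro rfl
          rcases abs_choice (sec P a) with h | h <;> rw [h] at hi0
          · exact h1 hi0
          · exact h2 (by linarith)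
        · by_contra hlt
          exact h0 (hP a (not_le.mp hlt)))
      have hm : i0 ∈ Finset.univ.filter (fun i : Fin 13 => (i : ℕ) ≤ 3) := by
        rw [Finset.mem_filter]
        exact ⟨Finset.mem_univ _, hi3⟩
      have hc : (Finset.univ.filter (fun i : Fin 13 => (i : ℕ) ≤ 3)).card = 4 := by decide
      rw [Finset.card_erase_of_mem hm, hc] at h
      show {l : Fin k | 0 < rho k l P}.ncard ≤ 1
      omega
    · intro l
      obtain ⟨g, hg⟩ := aRP_triv (netz z l) (1 / 4) le_rfl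
      have small : ∀ P, 0 < rho k l P → min ‖sec P - netz z l‖ ‖sec P + netz z l‖ < 1 / 4 := by
        intro P hP
        have h1 := (pos l P hP).1
        have h2 := hκ1 k
        have h3 := (hr l).2
        rw [abs_lt] at h1
        obtain ⟨s, hs⟩ := netpsi_eq z l P
        rw [hs] at h1
        cases s
        · apply (min_le_right _ _).trans_lt
          simp only [nsg, Bool.false_eq_true, if_false, neg_smul, one_smul, sub_neg_eq_add] at h1
          linarith
        · apply (min_le_left _ _).trans_lt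
          simp only [nsg, if_true, one_smul] at h1
          linarith
      exact ⟨g, fun P Q hP hQ => hg P Q (small P hP) (small Q hQ)⟩

end Pool.Agent.CmpDef
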