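import Pool.Agent.CmpDef.Fibre

/-!
# Prism operators and the fibres
-/

open Set TopologicalSpace Filter Topology

namespace Pool.Agent.CmpDef

namespace Peel

/-- coboundary of a 2-cochain -/
def d2 {X : Type} (w : X → X → X → ZMod 2) (a b c d : X) : ZMod 2 :=
  w b c d + w a c d + w a b d + w a b c

/-- coboundary of a 1-cochain -/
def d1 {X : Type} (w : X → X → ZMod 2) (a b c : X) : ZMod 2 := w b c + w a c + w a b

/-- prism sum -/
def Hs {X : Type} (w : X → X → X → ZMod 2) (a b : ℕ → X) (N : ℕ) : ZMod 2 :=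
  ∑ j ∈ Finset.range N, (w (a j) (b j) (b (j + 1)) + w (a j) (a (j + 1)) (b (j + 1)))

theorem tele3 {X : Type} (w : X → X → X → ZMod 2) (a b c : ℕ → X) (N : ℕ)
    (h1 : ∀ j < N, d2 w (a j) (b j) (c j) (c (j + 1)) = 0)
    (h2 : ∀ j < N, d2 w (a j) (b j) (b (j + 1)) (c (j + 1)) = 0)
    (h3 : ∀ j < N, d2 w (a j) (a (j + 1)) (b (j + 1)) (c (j + 1)) = 0) :
    w (a 0) (b 0) (c 0) + w (a N) (b N) (c N) = Hs w b c N + Hs w a c N + Hs w a b N := by
  induction N with
  | zero => simp [Hs, CharTwo.add_self_eq_zero]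
  | succ N ih =>
    have e := ih (fun j hj => h1 j (by omega)) (fun j hj => h2 j (by omega))
      (fun j hj => h3 j (by omega))
    have e1 := h1 N (by omega)
    have e2 := h2 N (by omega)
    have e3 := h3 N (by omega)
    simp only [d2] at e1 e2 e3
    simp only [Hs, Finset.sum_range_succ] at e ⊢
    linear_combination (norm := skip) e + e1 + e2 + e3
    ring_nf
    reduce_mod_char

theorem tele2 {X : Type} (w : X → X → ZMod 2) (a b : ℕ → X) (N : ℕ) (c : ZMod 2)
    (h : ∀ j < N, d1 w (a j) (b j) (b (j + 1)) + d1 w (a j) (a (j + 1)) (b (j + 1)) = c) :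
    w (a 0) (b 0) + w (a N) (b N) = ∑ j ∈ Finset.range N, w (a j) (a (j + 1))
      + ∑ j ∈ Finset.range N, w (b j) (b (j + 1)) + N * c := by
  induction N with
  | zero => simp [CharTwo.add_self_eq_zero]
  | succ N ih =>
    have e := ih (fun j hj => h j (by omega))
    have e1 := h N (by omega)
    simp only [d1] at e1
    simp only [Finset.sum_range_succ] at e ⊢
    push_cast
    linear_combination (norm := skip) e + e1
    ring_nf
    reduce_mod_char

section fibre

variable {J D : Type} [Fintype J] [MetricSpace D] {ctr : J → D} {ε : ℝ} {φ : D → ℝ} {x : D}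

/-- the vertex `v` as a point of the fibre -/
noncomputable def ev (v : Vx J) : Vx J → ℝ := by
  classical exact Pi.single v 1

theorem ev_self (v : Vx J) : ev v v = 1 := by
  classical simp [ev]

theorem ev_ne {v v' : Vx J} (h : v' ≠ v) : ev v v' = 0 := by
  classical simp [ev, h]

theorem ev_mem {v : Vx J} (h : x ∈ v.supp ctr ε φ) : ev v ∈ Kset ctr ε φ x := by
  classical
  refine ⟨fun u => ?_, ?_, fun u u' hne _ => ?_, fun u hu => ?_⟩
  · by_cases hu : u = v
    · rw [hu, ev_self]; norm_num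
    · rw [ev_ne hu]
  · rw [Finset.sum_eq_single v]
    · exact ev_self v
    · intro b _ hb; exact ev_ne hb
    · intro h; exact absurd (Finset.mem_univ v) h
  · by_cases hu : u = v
    · right; exact ev_ne (fun h => hne (hu.trans h.symm))
    · left; exact ev_ne hu
  · by_cases huv : u = v
    · rw [huv]; exact h
    · exact absurd (ev_ne huv) hu

/-- straight segments in the fibre -/
noncomputable def sg (q q' : Vx J → ℝ) (t : ℝ) : Vx J → ℝ := (1 - t) • q + t • q'

theorem sg_zero (q q' : Vx J → ℝ) : sg q q' 0 = q := by simp [sg]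

theorem sg_one (q q' : Vx J → ℝ) : sg q q' 1 = q' := by simp [sg]

theorem sg_mem {q q' : Vx J → ℝ} (hq : q ∈ Kset ctr ε φ x) (hq' : q' ∈ Kset ctr ε φ x)
    (hcol : ∀ v v', v ≠ v' → v.col = v'.col → q v = 0 ∨ q' v' = 0) {t : ℝ} (h0 : 0 ≤ t)
    (h1 : t ≤ 1) : sg q q' t ∈ Kset ctr ε φ x := by
  obtain ⟨a1, a2, a3, a4⟩ := hq
  obtain ⟨b1, b2, b3, b4⟩ := hq'
  have hval : ∀ v, sg q q' t v = (1 - t) * q v + t * q' v := fun v => by simp [sg]
  have hne : ∀ v, sg q q' t v ≠ 0 → q v ≠ 0 ∨ q' v ≠ 0 := by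
    intro v hv
    by_contra hcon
    push Not at hcon
    exact hv (by rw [hval, hcon.1, hcon.2]; ring)
  refine ⟨fun v => ?_, ?_, fun v v' hvv hc => ?_, fun v hv => ?_⟩
  · rw [hval]
    have := a1 v
    have := b1 v
    have : 0 ≤ 1 - t := by linarith
    positivity
  · simp only [hval, Finset.sum_add_distrib, ← Finset.mul_sum, a2, b2]
    ring
  · by_contra hcon
    push Not at hcon
    obtain ⟨hv, hv'⟩ := hcon
    rcases hne v hv with h | h <;> rcases hne v' hv' with h' | h'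
    · rcases a3 v v' hvv hc with h3 | h3 <;> contradiction
    · rcases hcol v v' hvv hc with h3 | h3 <;> contradiction
    · rcases hcol v' v (Ne.symm hvv) hc.symm with h3 | h3 <;> contradiction
    · rcases b3 v v' hvv hc with h3 | h3 <;> contradiction
  · rcases hne v hv with h | h
    · exact a4 v h
    · exact b4 v h

theorem norm_le_one {q : Vx J → ℝ} (hq : q ∈ Kset ctr ε φ x) : ‖q‖ ≤ 1 := by
  rw [pi_norm_le_iff_of_nonneg zero_le_one]
  intro v
  rw [Real.norm_of_nonneg (hq.1 v), ← hq.2.1]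
  exact Finset.single_le_sum (fun i _ => hq.1 i) (Finset.mem_univ v)

theorem norm_ev_le (v : Vx J) : ‖(ev v : Vx J → ℝ)‖ ≤ 1 := by
  rw [pi_norm_le_iff_of_nonneg zero_le_one]
  intro u
  by_cases h : u = v
  · rw [h, ev_self]; simp
  · rw [ev_ne h]; simp

theorem dist_sg_le {a q q' : Vx J → ℝ} (ha : ‖a‖ ≤ 1) (hq : ‖q‖ ≤ 1) {t t' : ℝ}
    (h0 : 0 ≤ t') (h1 : t' ≤ 1) :
    dist (sg a q t) (sg a q' t') ≤ 2 * |t - t'| + dist q q' := by
  have e : sg a q t - sg a q' t' = (t' - t) • a + (t - t') • q + t' • (q - q') := by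
    simp only [sg]
    module
  rw [dist_eq_norm, e]
  calc ‖(t' - t) • a + (t - t') • q + t' • (q - q')‖
      ≤ ‖(t' - t) • a‖ + ‖(t - t') • q‖ + ‖t' • (q - q')‖ := norm_add₃_le
    _ = |t' - t| * ‖a‖ + |t - t'| * ‖q‖ + |t'| * ‖q - q'‖ := by
        simp only [norm_smul, Real.norm_eq_abs]
    _ ≤ |t' - t| * 1 + |t - t'| * 1 + 1 * ‖q - q'‖ := by
        gcongr
        rw [abs_of_nonneg h0]; exact h1
    _ = 2 * |t - t'| + dist q q' := by
        rw [abs_sub_comm t' t, dist_eq_norm]; ring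

/-- the points of the fibre without colour 0 -/
def SK (ctr : J → D) (ε : ℝ) (φ : D → ℝ) (x : D) : Set (Vx J → ℝ) :=
  {q | q ∈ Kset ctr ε φ x ∧ q .A = 0 ∧ q .B = 0}

theorem sgA_mem {q : Vx J → ℝ} (hq : q ∈ SK ctr ε φ x) {v : Vx J} (hv : v.col = 0)
    (hx : x ∈ v.supp ctr ε φ) {t : ℝ} (h0 : 0 ≤ t) (h1 : t ≤ 1) :
    sg (ev v) q t ∈ Kset ctr ε φ x := by
  refine sg_mem (ev_mem hx) hq.1 (fun u u' _ hc => ?_) h0 h1
  by_cases hu : u = v
  · right
    subst hu
    have : u'.col = 0 := hc ▸ hv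
    cases u' with
    | A => exact hq.2.1
    | B => exact hq.2.2
    | one c => simp [Vx.col] at this
    | two c => simp [Vx.col] at this
  · left; exact ev_ne hu

theorem sg12_mem {c c' : J} (hc : dist x (ctr c) ≤ ε) (hc' : dist x (ctr c') ≤ ε) {t : ℝ}
    (h0 : 0 ≤ t) (h1 : t ≤ 1) : sg (ev (.one c)) (ev (.two c')) t ∈ SK ctr ε φ x := by
  refine ⟨sg_mem (ev_mem (by simpa [Vx.supp] using hc)) (ev_mem (by simpa [Vx.supp] using hc'))
    (fun u u' _ huc => ?_) h0 h1, ?_, ?_⟩
  · by_cases hu : u = .one c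
    · right
      refine ev_ne (fun h => ?_)
      rw [hu, h] at huc
      simp [Vx.col] at huc
    · left; exact ev_ne hu
  · simp [sg, ev_ne (show (Vx.A : Vx J) ≠ .one c by simp),
      ev_ne (show (Vx.A : Vx J) ≠ .two c' by simp)]
  · simp [sg, ev_ne (show (Vx.B : Vx J) ≠ .one c by simp),
      ev_ne (show (Vx.B : Vx J) ≠ .two c' by simp)]

end fibre

end Peel

end Pool.Agent.CmpDef
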