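import Pool.Agent.CmpDef.PeelA

/-!
# The cochains `Psi` and `Theta`
-/

open Set TopologicalSpace Filter Topology

namespace Pool.Agent.CmpDef

namespace Peel

variable {J D T : Type} [Fintype J] [MetricSpace D] [MetricSpace T]

/-- the colour-0-free part over `{1/3 ≤ φ ≤ 2/3}` -/
def SE (ctr : J → D) (ε : ℝ) (φ : D → ℝ) (π : T → D) (E : Set T) : Set (T × (Vx J → ℝ)) :=
  {y | y.1 ∈ E ∧ 1 / 3 ≤ φ (π y.1) ∧ φ (π y.1) ≤ 2 / 3 ∧ y.2 ∈ SK ctr ε φ (π y.1)}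

variable (ctr : J → D) (ε : ℝ) (φ : D → ℝ) (π : T → D) (E : Set T)

theorem small_pt (lam mu : ℝ) (v : Vx J) (hv : v.col = 0)
    (hs : ∀ y ∈ SE ctr ε φ π E, π y.1 ∈ v.supp ctr ε φ)
    (L0 : List (T × (Vx J → ℝ))) (h : Small (SE ctr ε φ π E) mu L0) (t t' : ℝ)
    (ht : 0 ≤ t ∧ t ≤ 1) (ht' : 0 ≤ t' ∧ t' ≤ 1) (htt : 2 * |t - t'| + mu ≤ lam)
    (l : List ((T × (Vx J → ℝ)) × ℝ)) (hl : ∀ p ∈ l, p.1 ∈ L0 ∧ (p.2 = t ∨ p.2 = t')) :
    Small (EK ctr ε φ π E) lam (l.map fun p => (p.1.1, sg (ev v) p.1.2 p.2)) := by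
  have h01 : ∀ p ∈ l, 0 ≤ p.2 ∧ p.2 ≤ 1 := by
    intro p hp
    rcases (hl p hp).2 with h | h <;> rw [h] <;> assumption
  constructor
  · intro y hy
    rw [List.mem_map] at hy
    obtain ⟨p, hp, rfl⟩ := hy
    have hS := h.1 _ (hl p hp).1
    exact ⟨hS.1, sgA_mem hS.2.2.2 hv (hs _ hS) (h01 p hp).1 (h01 p hp).2⟩
  · intro y hy y' hy'
    rw [List.mem_map] at hy hy'
    obtain ⟨p, hp, rfl⟩ := hy
    obtain ⟨p', hp', rfl⟩ := hy'
    have hS := h.1 _ (hl p hp).1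
    have hd := h.2 _ (hl p hp).1 _ (hl p' hp').1
    rw [Prod.dist_eq, max_lt_iff] at hd ⊢
    have habs : |p.2 - p'.2| ≤ |t - t'| := by
      rcases (hl p hp).2 with h | h <;> rcases (hl p' hp').2 with h' | h' <;> rw [h, h']
      · simp
      · rw [abs_sub_comm]
      · simp
    have h2 : 0 ≤ |t - t'| := abs_nonneg _
    refine ⟨by dsimp only; linarith [hd.1], ?_⟩
    dsimp only
    calc dist (sg (ev v) p.1.2 p.2) (sg (ev v) p'.1.2 p'.2)
        ≤ 2 * |p.2 - p'.2| + dist p.1.2 p'.1.2 :=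
          dist_sg_le (norm_ev_le v) (norm_le_one hS.2.2.2.1) (h01 p' hp').1 (h01 p' hp').2
      _ < lam := by linarith [hd.2]

/-- the path integral of `w` from `ev v` to `y.2` -/
noncomputable def PsiV (w : T × (Vx J → ℝ) → T × (Vx J → ℝ) → T × (Vx J → ℝ) → ZMod 2) (L : ℕ)
    (v : Vx J) (y y' : T × (Vx J → ℝ)) : ZMod 2 :=
  Hs w (fun j => (y.1, sg (ev v) y.2 ((j : ℝ) / L))) (fun j => (y'.1, sg (ev v) y'.2 ((j : ℝ) / L)))
    L

theorem dPsiV (lam mu : ℝ) (z : D → D → D → D → ZMod 2) (hz : Norm3 z)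
    (w : T × (Vx J → ℝ) → T × (Vx J → ℝ) → T × (Vx J → ℝ) → ZMod 2)
    (hw : ∀ y0 y1 y2 y3, Small (EK ctr ε φ π E) lam [y0, y1, y2, y3] →
      z (π y0.1) (π y1.1) (π y2.1) (π y3.1) = d2 w y0 y1 y2 y3)
    (L : ℕ) (hL : 0 < L) (hLm : 2 * (1 / (L : ℝ)) + mu ≤ lam) (v : Vx J) (hv : v.col = 0)
    (hs : ∀ y ∈ SE ctr ε φ π E, π y.1 ∈ v.supp ctr ε φ) (y0 y1 y2 : T × (Vx J → ℝ))
    (h : Small (SE ctr ε φ π E) mu [y0, y1, y2]) :
    w (y0.1, ev v) (y1.1, ev v) (y2.1, ev v) + w y0 y1 y2 =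
      PsiV w L v y1 y2 + PsiV w L v y0 y2 + PsiV w L v y0 y1 := by
  have hL' : (0 : ℝ) < L := by exact_mod_cast hL
  have tm : ∀ j : ℕ, j ≤ L → 0 ≤ (j : ℝ) / L ∧ (j : ℝ) / L ≤ 1 := by
    intro j hj
    refine ⟨by positivity, ?_⟩
    rw [div_le_one hL']
    exact_mod_cast hj
  have td : ∀ j : ℕ, 2 * |(j : ℝ) / L - ((j + 1 : ℕ) : ℝ) / L| + mu ≤ lam := by
    intro j
    have : (j : ℝ) / L - ((j + 1 : ℕ) : ℝ) / L = -(1 / L) := by
      push_cast
      ring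
    rw [this, abs_neg, abs_of_pos (by positivity)]
    exact hLm
  have key := tele3 w (fun j => (y0.1, sg (ev v) y0.2 ((j : ℝ) / L)))
    (fun j => (y1.1, sg (ev v) y1.2 ((j : ℝ) / L)))
    (fun j => (y2.1, sg (ev v) y2.2 ((j : ℝ) / L))) L ?_ ?_ ?_
  · simp only [Nat.cast_zero, zero_div, sg_zero, div_self hL'.ne', sg_one, Prod.mk.eta] at key
    exact key
  · intro j hj
    have hsm := small_pt ctr ε φ π E lam mu v hv hs _ h _ _ (tm j hj.le) (tm (j + 1) hj) (td j)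
      [(y0, (j : ℝ) / L), (y1, (j : ℝ) / L), (y2, (j : ℝ) / L), (y2, ((j + 1 : ℕ) : ℝ) / L)]
      (by simp)
    have := hw _ _ _ _ hsm
    dsimp only at this
    rw [← this]
    exact (hz _ _ _).2.2
  · intro j hj
    have hsm := small_pt ctr ε φ π E lam mu v hv hs _ h _ _ (tm j hj.le) (tm (j + 1) hj) (td j)
      [(y0, (j : ℝ) / L), (y1, (j : ℝ) / L), (y1, ((j + 1 : ℕ) : ℝ) / L),
        (y2, ((j + 1 : ℕ) : ℝ) / L)]
      (by simp)
    have := hw _ _ _ _ hsm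
    dsimp only at this
    rw [← this]
    exact (hz _ _ _).2.1
  · intro j hj
    have hsm := small_pt ctr ε φ π E lam mu v hv hs _ h _ _ (tm j hj.le) (tm (j + 1) hj) (td j)
      [(y0, (j : ℝ) / L), (y0, ((j + 1 : ℕ) : ℝ) / L), (y1, ((j + 1 : ℕ) : ℝ) / L),
        (y2, ((j + 1 : ℕ) : ℝ) / L)]
      (by simp)
    have := hw _ _ _ _ hsm
    dsimp only at this
    rw [← this]
    exact (hz _ _ _).1

/-- the total path integral `ev A → y.2 → ev B` -/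
noncomputable def Psi (w : T × (Vx J → ℝ) → T × (Vx J → ℝ) → T × (Vx J → ℝ) → ZMod 2) (L : ℕ)
    (y y' : T × (Vx J → ℝ)) : ZMod 2 :=
  PsiV w L .A y y' + PsiV w L .B y y'

/-- the difference of the two sheets -/
noncomputable def PhiW (w : T × (Vx J → ℝ) → T × (Vx J → ℝ) → T × (Vx J → ℝ) → ZMod 2)
    (p p' p'' : T) : ZMod 2 :=
  w (p, ev .A) (p', ev .A) (p'', ev .A) + w (p, ev .B) (p', ev .B) (p'', ev .B)

theorem dPsi (lam mu : ℝ) (z : D → D → D → D → ZMod 2) (hz : Norm3 z)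
    (w : T × (Vx J → ℝ) → T × (Vx J → ℝ) → T × (Vx J → ℝ) → ZMod 2)
    (hw : ∀ y0 y1 y2 y3, Small (EK ctr ε φ π E) lam [y0, y1, y2, y3] →
      z (π y0.1) (π y1.1) (π y2.1) (π y3.1) = d2 w y0 y1 y2 y3)
    (L : ℕ) (hL : 0 < L) (hLm : 2 * (1 / (L : ℝ)) + mu ≤ lam) (y0 y1 y2 : T × (Vx J → ℝ))
    (h : Small (SE ctr ε φ π E) mu [y0, y1, y2]) :
    d1 (Psi w L) y0 y1 y2 = PhiW w y0.1 y1.1 y2.1 := by
  have hA := dPsiV ctr ε φ π E lam mu z hz w hw L hL hLm .A rfl (fun y hy => hy.2.2.1) y0 y1 y2 h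
  have hB := dPsiV ctr ε φ π E lam mu z hz w hw L hL hLm .B rfl (fun y hy => hy.2.1) y0 y1 y2 h
  simp only [d1, Psi, PhiW]
  linear_combination (norm := skip) hA + hB
  ring_nf
  reduce_mod_char

/-- the integral of `Psi` along the edge from `one c` to `two c'` -/
noncomputable def Theta (w : T × (Vx J → ℝ) → T × (Vx J → ℝ) → T × (Vx J → ℝ) → ZMod 2)
    (L L' : ℕ) (c c' : J) (p : T) : ZMod 2 :=
  ∑ l ∈ Finset.range L', Psi w L (p, sg (ev (.one c)) (ev (.two c')) ((l : ℝ) / L'))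
    (p, sg (ev (.one c)) (ev (.two c')) (((l + 1 : ℕ) : ℝ) / L'))

/-- the base points over which everything happens -/
def WE (φ : D → ℝ) (π : T → D) (E : Set T) : Set T :=
  {p | p ∈ E ∧ 1 / 3 ≤ φ (π p) ∧ φ (π p) ≤ 2 / 3}

theorem dTheta (lam mu : ℝ) (z : D → D → D → D → ZMod 2) (hz : Norm3 z)
    (w : T × (Vx J → ℝ) → T × (Vx J → ℝ) → T × (Vx J → ℝ) → ZMod 2)
    (hw : ∀ y0 y1 y2 y3, Small (EK ctr ε φ π E) lam [y0, y1, y2, y3] →
      z (π y0.1) (π y1.1) (π y2.1) (π y3.1) = d2 w y0 y1 y2 y3)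
    (L : ℕ) (hL : 0 < L) (hLm : 2 * (1 / (L : ℝ)) + mu ≤ lam) (L' : ℕ) (hL' : 0 < L')
    (hev : Even L') (hLm' : 2 * (1 / (L' : ℝ)) < mu) (c c' : J) (p p' : T)
    (hp : p ∈ WE φ π E) (hp' : p' ∈ WE φ π E) (hpp : dist p p' < mu)
    (h1 : dist (π p) (ctr c) ≤ ε) (h2 : dist (π p) (ctr c') ≤ ε)
    (h3 : dist (π p') (ctr c) ≤ ε) (h4 : dist (π p') (ctr c') ≤ ε) :
    Psi w L (p, ev (.one c)) (p', ev (.one c)) + Psi w L (p, ev (.two c')) (p', ev (.two c')) =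
      Theta w L L' c c' p + Theta w L L' c c' p' := by
  have hLr : (0 : ℝ) < L' := by exact_mod_cast hL'
  have hmu : 0 < mu := by
    have : 0 < 1 / (L' : ℝ) := by positivity
    linarith
  have tm : ∀ j : ℕ, j ≤ L' → 0 ≤ (j : ℝ) / L' ∧ (j : ℝ) / L' ≤ 1 := by
    intro j hj
    refine ⟨by positivity, ?_⟩
    rw [div_le_one hLr]
    exact_mod_cast hj
  have td : ∀ j : ℕ, 2 * |(j : ℝ) / L' - ((j + 1 : ℕ) : ℝ) / L'| < mu := by
    intro j
    have : (j : ℝ) / L' - ((j + 1 : ℕ) : ℝ) / L' = -(1 / L') := by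
      push_cast
      ring
    rw [this, abs_neg, abs_of_pos (by positivity)]
    exact hLm'
  have mem : ∀ (j : ℕ), j ≤ L' →
      ((p, sg (ev (.one c)) (ev (.two c')) ((j : ℝ) / L')) : T × (Vx J → ℝ)) ∈ SE ctr ε φ π E ∧
      ((p', sg (ev (.one c)) (ev (.two c')) ((j : ℝ) / L')) : T × (Vx J → ℝ)) ∈
        SE ctr ε φ π E := fun j hj =>
    ⟨⟨hp.1, hp.2.1, hp.2.2, sg12_mem h1 h2 (tm j hj).1 (tm j hj).2⟩,
      ⟨hp'.1, hp'.2.1, hp'.2.2, sg12_mem h3 h4 (tm j hj).1 (tm j hj).2⟩⟩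
  have dst : ∀ (i j k : ℕ), k ≤ L' → (i = k ∨ i = k + 1) → (j = k ∨ j = k + 1) → k + 1 ≤ L' →
      dist (sg (ev (.one c)) (ev (.two c')) ((i : ℝ) / L') : Vx J → ℝ)
        (sg (ev (.one c)) (ev (.two c')) ((j : ℝ) / L')) < mu := by
    intro i j k hk hi hj hk'
    have hjL : j ≤ L' := by omega
    refine (dist_sg_le (norm_ev_le _) (norm_ev_le _) (tm j hjL).1 (tm j hjL).2).trans_lt ?_
    rw [dist_self, add_zero]
    rcases hi with rfl | rfl <;> rcases hj with rfl | rfl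
    · simpa using hmu
    · exact td _
    · rw [abs_sub_comm]; exact td _
    · simpa using hmu
  have small3 : ∀ (k : ℕ), k + 1 ≤ L' → ∀ l : List (T × (Vx J → ℝ)),
      (∀ y ∈ l, (y.1 = p ∨ y.1 = p') ∧
        (y.2 = sg (ev (.one c)) (ev (.two c')) ((k : ℝ) / L') ∨
          y.2 = sg (ev (.one c)) (ev (.two c')) (((k + 1 : ℕ) : ℝ) / L'))) →
      Small (SE ctr ε φ π E) mu l := by
    intro k hk l hl
    constructor
    · intro y hy
      obtain ⟨ha, hb⟩ := hl y hy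
      have hyy : y = (y.1, y.2) := rfl
      rw [hyy]
      rcases ha with ha | ha <;> rcases hb with hb | hb <;> rw [ha, hb]
      · exact (mem k (by omega)).1
      · exact (mem (k + 1) hk).1
      · exact (mem k (by omega)).2
      · exact (mem (k + 1) hk).2
    · intro y hy y' hy'
      obtain ⟨ha, hb⟩ := hl y hy
      obtain ⟨ha', hb'⟩ := hl y' hy'
      rw [Prod.dist_eq, max_lt_iff]
      constructor
      · rcases ha with ha | ha <;> rcases ha' with ha' | ha' <;> rw [ha, ha']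
        · simpa using hmu
        · exact hpp
        · rw [dist_comm]; exact hpp
        · simpa using hmu
      · rcases hb with hb | hb <;> rcases hb' with hb' | hb' <;> rw [hb, hb']
        · exact dst _ _ k (by omega) (Or.inl rfl) (Or.inl rfl) hk
        · exact dst _ _ k (by omega) (Or.inl rfl) (Or.inr rfl) hk
        · exact dst _ _ k (by omega) (Or.inr rfl) (Or.inl rfl) hk
        · exact dst _ _ k (by omega) (Or.inr rfl) (Or.inr rfl) hk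
  have key := tele2 (Psi w L) (fun j : ℕ => (p, sg (ev (.one c)) (ev (.two c')) ((j : ℝ) / L')))
    (fun j : ℕ => (p', sg (ev (.one c)) (ev (.two c')) ((j : ℝ) / L'))) L'
    (PhiW w p p' p' + PhiW w p p p') ?_
  · have hz2 : ((L' : ℕ) : ZMod 2) = 0 := by
      obtain ⟨r, hr⟩ := hev
      rw [hr]
      push_cast
      exact CharTwo.add_self_eq_zero _
    simp only [Nat.cast_zero, zero_div, sg_zero, div_self hLr.ne', sg_one, hz2, zero_mul,
      add_zero] at key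
    exact key
  · intro j hj
    rw [dPsi ctr ε φ π E lam mu z hz w hw L hL hLm _ _ _ (small3 j hj _ (by simp)),
      dPsi ctr ε φ π E lam mu z hz w hw L hL hLm _ _ _ (small3 j hj _ (by simp))]

end Peel

end Pool.Agent.CmpDef
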