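import Pool.Agent.CmpDef.BU

/-!
# Real projective space and its characteristic class
-/

open Set TopologicalSpace Filter Topology

namespace Pool.Agent.CmpDef

/-- the map `x ↦ (x i * x j)` which identifies exactly `x` and `-x` (on the unit sphere). -/
def ver {N : ℕ} (x : Fin N → ℝ) : Fin N → Fin N → ℝ := fun i j => x i * x j

/-- real projective space of dimension `N - 1` -/
def RPset (N : ℕ) : Set (Fin N → Fin N → ℝ) := ver '' {x | ‖x‖ = 1}

/-- real projective space of dimension `N - 1` -/
abbrev RP (N : ℕ) : Type := ↥(RPset N)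

/-- a (discontinuous) section of the double covering -/
noncomputable def sec {N : ℕ} (P : RP N) : Fin N → ℝ := P.2.choose

theorem norm_sec {N : ℕ} (P : RP N) : ‖sec P‖ = 1 := P.2.choose_spec.1

theorem ver_sec {N : ℕ} (P : RP N) : ver (sec P) = P.1 := P.2.choose_spec.2

/-- the characteristic class -/
noncomputable def aRP {N : ℕ} (P Q : RP N) : ZMod 2 := if ‖sec P - sec Q‖ < 1 then 0 else 1

/-- the `j`-dimensional projective subspace -/
def ZRP (N j : ℕ) : Set (RP N) := {P | ∀ i : Fin N, j < (i : ℕ) → sec P i = 0}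

theorem rp_continuous_ver {N : ℕ} : Continuous (ver (N := N)) := by
  refine continuous_pi fun i => continuous_pi fun j => ?_
  exact (continuous_apply i).mul (continuous_apply j)

theorem compactSpace_RP (N : ℕ) : CompactSpace (RP N) := by
  have h : IsCompact (RPset N) := by
    have h1 : {x : Fin N → ℝ | ‖x‖ = 1} = Metric.sphere 0 1 := by
      ext x
      simp
    rw [RPset, h1]
    exact (isCompact_sphere _ _).image rp_continuous_ver
  exact isCompact_iff_compactSpace.1 h

theorem sq_sec {N : ℕ} (P : RP N) (i : Fin N) : sec P i ^ 2 = P.1 i i := by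
  rw [← ver_sec P]
  simp [ver, sq]

theorem isClosed_ZRP (N j : ℕ) : IsClosed (ZRP N j) := by
  have h : ZRP N j = ⋂ i : Fin N, {P : RP N | j < (i : ℕ) → P.1 i i = 0} := by
    ext P
    simp only [ZRP, mem_ofPred_eq, mem_iInter]
    refine forall_congr' fun i => imp_congr_right fun _ => ?_
    rw [← sq_sec, sq_eq_zero_iff]
  rw [h]
  refine isClosed_iInter fun i => ?_
  by_cases hi : j < (i : ℕ)
  · simp only [hi, true_imp_iff]
    refine isClosed_eq ?_ continuous_const
    exact (continuous_apply i).comp ((continuous_apply i).comp continuous_subtype_val)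
  · simp only [hi, false_imp_iff, ofPred_true]
    exact isClosed_univ

theorem rp_ver_neg {N : ℕ} (x : Fin N → ℝ) : ver (-x) = ver x := by
  funext i j
  simp [ver]

theorem rp_exists_abs {N : ℕ} (x : Fin N → ℝ) (hx : ‖x‖ = 1) : ∃ i, |x i| = 1 := by
  have hN : Nonempty (Fin N) := by
    by_contra hcon
    rw [not_nonempty_iff] at hcon
    have : x = 0 := Subsingleton.elim _ _
    rw [this] at hx
    simp at hx
  obtain ⟨i, -, hi⟩ := Finset.exists_mem_eq_sup' (Finset.univ_nonempty (α := Fin N)) (fun i => ‖x i‖₊)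
  refine ⟨i, ?_⟩
  have h2 : ‖x‖₊ = ‖x i‖₊ := by
    rw [← hi, Pi.nnnorm_def, Finset.sup'_eq_sup]
  have h3 : ‖x‖ = ‖x i‖ := congrArg NNReal.toReal h2
  rw [← Real.norm_eq_abs, ← h3, hx]

theorem rp_min_aux {N : ℕ} (x y : Fin N → ℝ) (hy : ‖y‖ = 1) (i : Fin N)
    (hxi : x i = 1) (hyi : 0 ≤ y i) : ‖x - y‖ ≤ 2 * dist (ver x) (ver y) := by
  set ε := dist (ver x) (ver y) with hε
  have hε0 : 0 ≤ ε := dist_nonneg
  have key : ∀ a b : Fin N, |x a * x b - y a * y b| ≤ ε := by
    intro a b
    have h1 : dist (ver x a) (ver y a) ≤ ε := dist_le_pi_dist (ver x) (ver y) a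
    have h2 : dist (ver x a b) (ver y a b) ≤ dist (ver x a) (ver y a) :=
      dist_le_pi_dist (ver x a) (ver y a) b
    have h3 := h2.trans h1
    rwa [Real.dist_eq] at h3
  have hyle : ∀ a, |y a| ≤ 1 := fun a => by
    rw [← hy, ← Real.norm_eq_abs]
    exact norm_le_pi_norm y a
  have h1 := key i i
  rw [hxi] at h1
  have h2 := (abs_le.1 h1).2
  have hyi1 : y i ≤ 1 := (le_abs_self _).trans (hyle i)
  have h3 : 1 - ε ≤ y i := by nlinarith
  rw [pi_norm_le_iff_of_nonneg (by positivity)]
  intro a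
  rw [Real.norm_eq_abs, Pi.sub_apply]
  have h4 := key i a
  rw [hxi, one_mul] at h4
  have h5 : |y i * y a - y a| ≤ ε := by
    have : y i * y a - y a = -((1 - y i) * y a) := by ring
    rw [this, abs_neg, abs_mul, abs_of_nonneg (by linarith)]
    calc (1 - y i) * |y a| ≤ (1 - y i) * 1 :=
          mul_le_mul_of_nonneg_left (hyle a) (by linarith)
      _ ≤ ε := by linarith
  calc |x a - y a| = |(x a - y i * y a) + (y i * y a - y a)| := by ring_nf
    _ ≤ |x a - y i * y a| + |y i * y a - y a| := abs_add_le _ _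
    _ ≤ 2 * ε := by linarith

/-- the metric of `RP N` controls the distance of the lifts. -/
theorem min_norm_le {N : ℕ} (x y : Fin N → ℝ) (hx : ‖x‖ = 1) (hy : ‖y‖ = 1) :
    min ‖x - y‖ ‖x + y‖ ≤ 2 * dist (ver x) (ver y) := by
  obtain ⟨i, hi⟩ := rp_exists_abs x hx
  have hny : ‖-y‖ = 1 := by rw [norm_neg, hy]
  have e1 : ‖x + y‖ = ‖x - -y‖ := by rw [sub_neg_eq_add]
  have e2 : ‖x - y‖ = ‖-x - -y‖ := by
    rw [← norm_neg]
    congr 1
    abel
  have e3 : ‖x + y‖ = ‖-x - y‖ := by
    rw [← norm_neg]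
    congr 1
    abel
  rcases le_total 0 (y i) with hyi | hyi <;> rcases eq_or_eq_neg_of_abs_eq hi with hxi | hxi
  · exact (min_le_left _ _).trans (rp_min_aux x y hy i hxi hyi)
  · refine (min_le_right _ _).trans ?_
    rw [e3, ← rp_ver_neg x]
    exact rp_min_aux (-x) y hy i (by simp [hxi]) hyi
  · refine (min_le_right _ _).trans ?_
    rw [e1, ← rp_ver_neg y]
    exact rp_min_aux x (-y) hny i hxi (by simpa using hyi)
  · refine (min_le_left _ _).trans ?_
    rw [e2, ← rp_ver_neg x, ← rp_ver_neg y]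
    exact rp_min_aux (-x) (-y) hny i (by simp [hxi]) (by simpa using hyi)

theorem rp_dist_aux {N : ℕ} (x y : Fin N → ℝ) (hx : ‖x‖ = 1) (hy : ‖y‖ = 1) :
    dist (ver x) (ver y) ≤ 2 * ‖x - y‖ := by
  have h0 : 0 ≤ 2 * ‖x - y‖ := by positivity
  rw [dist_pi_le_iff h0]
  intro a
  rw [dist_pi_le_iff h0]
  intro b
  rw [Real.dist_eq]
  have h1 : |x a| ≤ 1 := by
    rw [← hx, ← Real.norm_eq_abs]
    exact norm_le_pi_norm x a
  have h2 : |y b| ≤ 1 := by
    rw [← hy, ← Real.norm_eq_abs]
    exact norm_le_pi_norm y b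
  have h3 : |x a - y a| ≤ ‖x - y‖ := by
    rw [← Real.norm_eq_abs]
    exact norm_le_pi_norm (x - y) a
  have h4 : |x b - y b| ≤ ‖x - y‖ := by
    rw [← Real.norm_eq_abs]
    exact norm_le_pi_norm (x - y) b
  calc |ver x a b - ver y a b| = |x a * (x b - y b) + (x a - y a) * y b| := by
        simp only [ver]
        ring_nf
    _ ≤ |x a * (x b - y b)| + |(x a - y a) * y b| := abs_add_le _ _
    _ = |x a| * |x b - y b| + |x a - y a| * |y b| := by rw [abs_mul, abs_mul]
    _ ≤ 1 * ‖x - y‖ + ‖x - y‖ * 1 := by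
        gcongr
    _ = 2 * ‖x - y‖ := by ring

theorem dist_ver_le {N : ℕ} (x y : Fin N → ℝ) (hx : ‖x‖ = 1) (hy : ‖y‖ = 1) :
    dist (ver x) (ver y) ≤ 2 * min ‖x - y‖ ‖x + y‖ := by
  rcases min_choice ‖x - y‖ ‖x + y‖ with h | h <;> rw [h]
  · exact rp_dist_aux x y hx hy
  · have := rp_dist_aux x (-y) hx (by rw [norm_neg, hy])
    rwa [rp_ver_neg, sub_neg_eq_add] at this

theorem aRP_self {N : ℕ} (P : RP N) : aRP P P = 0 := by
  simp [aRP]

/-- the two distances add up to at least `2`. -/
theorem rp_two_le {N : ℕ} (x y : Fin N → ℝ) (hx : ‖x‖ = 1) : 2 ≤ ‖x - y‖ + ‖x + y‖ := by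
  have h : (x - y) + (x + y) = (2 : ℝ) • x := by
    rw [two_smul]
    abel
  calc (2 : ℝ) = ‖(2 : ℝ) • x‖ := by
        rw [norm_smul, hx]
        norm_num
    _ = ‖(x - y) + (x + y)‖ := by rw [h]
    _ ≤ _ := norm_add_le _ _

theorem rp_aRP_zero {N : ℕ} {P Q : RP N} (h : ‖sec P - sec Q‖ < 1) : aRP P Q = 0 := if_pos h

theorem rp_aRP_one {N : ℕ} {P Q : RP N} (h : ‖sec P + sec Q‖ < 1) : aRP P Q = 1 := by
  refine if_neg ?_
  have := rp_two_le (sec P) (sec Q) (norm_sec P)
  intro h'
  linarith

theorem rp_small_or {N : ℕ} (P Q : RP N) (c : ℝ) (h : dist P Q < c) :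
    ‖sec P - sec Q‖ < 2 * c ∨ ‖sec P + sec Q‖ < 2 * c := by
  have h1 := min_norm_le (sec P) (sec Q) (norm_sec P) (norm_sec Q)
  rw [ver_sec, ver_sec] at h1
  have h2 : dist P.1 Q.1 = dist P Q := rfl
  rw [h2] at h1
  rcases min_choice ‖sec P - sec Q‖ ‖sec P + sec Q‖ with h3 | h3 <;> rw [h3] at h1
  · left
    linarith
  · right
    linarith

theorem rp_aRP_comm {N : ℕ} (P Q : RP N) : aRP P Q = aRP Q P := by
  simp only [aRP]
  rw [norm_sub_rev]

theorem aRP_coc {N : ℕ} (P Q R : RP N) (h : Small univ (1 / 8) [P, Q, R]) :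
    aRP Q R + aRP P R + aRP P Q = 0 := by
  have h1 : dist P Q < 1 / 8 := h.2 P (by simp) Q (by simp)
  have h2 : dist Q R < 1 / 8 := h.2 Q (by simp) R (by simp)
  have h3 : dist P R < 1 / 8 := h.2 P (by simp) R (by simp)
  set x := sec P with hx
  set y := sec Q with hy
  set z := sec R with hz
  have nx : ‖x‖ = 1 := norm_sec P
  have ny : ‖y‖ = 1 := norm_sec Q
  have nz : ‖z‖ = 1 := norm_sec R
  have t1 := rp_two_le x z nx
  rcases rp_small_or P Q _ h1 with a1 | a1 <;> rcases rp_small_or Q R _ h2 with a2 | a2 <;>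
    rcases rp_small_or P R _ h3 with a3 | a3
  · rw [rp_aRP_zero (by linarith), rp_aRP_zero (by linarith), rp_aRP_zero (by linarith)]
    decide
  · exfalso
    have : ‖x - z‖ ≤ ‖x - y‖ + ‖y - z‖ := norm_sub_le_norm_sub_add_norm_sub x y z
    linarith
  · exfalso
    have : ‖x + z‖ ≤ ‖x - y‖ + ‖y + z‖ := by
      have e : x + z = (x - y) + (y + z) := by abel
      rw [e]
      exact norm_add_le _ _
    linarith
  · rw [rp_aRP_one (P := Q) (Q := R) (by linarith), rp_aRP_one (P := P) (Q := R) (by linarith),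
      rp_aRP_zero (P := P) (Q := Q) (by linarith)]
    decide
  · exfalso
    have : ‖x + z‖ ≤ ‖x + y‖ + ‖y - z‖ := by
      have e : x + z = (x + y) - (y - z) := by abel
      rw [e]
      exact norm_sub_le _ _
    linarith
  · rw [rp_aRP_zero (P := Q) (Q := R) (by linarith), rp_aRP_one (P := P) (Q := R) (by linarith),
      rp_aRP_one (P := P) (Q := Q) (by linarith)]
    decide
  · rw [rp_aRP_one (P := Q) (Q := R) (by linarith), rp_aRP_zero (P := P) (Q := R) (by linarith),
      rp_aRP_one (P := P) (Q := Q) (by linarith)]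
    decide
  · exfalso
    have : ‖x - z‖ ≤ ‖x + y‖ + ‖y + z‖ := by
      have e : x - z = (x + y) - (y + z) := by abel
      rw [e]
      exact norm_sub_le _ _
    linarith

/-- `aRP` is trivial near the image of a point. -/
theorem aRP_triv {N : ℕ} (z : Fin N → ℝ) (c : ℝ) (hc : c ≤ 1 / 4) :
    ∃ g : RP N → ZMod 2, ∀ P Q : RP N, min ‖sec P - z‖ ‖sec P + z‖ < c →
      min ‖sec Q - z‖ ‖sec Q + z‖ < c → aRP P Q = g P + g Q := by
  refine ⟨fun P => if ‖sec P - z‖ < c then 0 else 1, fun P Q hP hQ => ?_⟩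
  have hP' : ¬ ‖sec P - z‖ < c → ‖sec P + z‖ < c := fun h => (min_lt_iff.1 hP).resolve_left h
  have hQ' : ¬ ‖sec Q - z‖ < c → ‖sec Q + z‖ < c := fun h => (min_lt_iff.1 hQ).resolve_left h
  by_cases h1 : ‖sec P - z‖ < c <;> by_cases h2 : ‖sec Q - z‖ < c
  · simp only [h1, h2, if_true]
    refine rp_aRP_zero ?_
    have : ‖sec P - sec Q‖ ≤ ‖sec P - z‖ + ‖sec Q - z‖ := by
      have e : sec P - sec Q = (sec P - z) - (sec Q - z) := by abel
      rw [e]
      exact norm_sub_le _ _
    linarith
  · simp only [h1, h2, if_true, if_false]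
    rw [zero_add]
    refine rp_aRP_one ?_
    have := hQ' h2
    have : ‖sec P + sec Q‖ ≤ ‖sec P - z‖ + ‖sec Q + z‖ := by
      have e : sec P + sec Q = (sec P - z) + (sec Q + z) := by abel
      rw [e]
      exact norm_add_le _ _
    linarith
  · simp only [h1, h2, if_true, if_false]
    rw [add_zero]
    refine rp_aRP_one ?_
    have := hP' h1
    have : ‖sec P + sec Q‖ ≤ ‖sec P + z‖ + ‖sec Q - z‖ := by
      have e : sec P + sec Q = (sec P + z) + (sec Q - z) := by abel
      rw [e]
      exact norm_add_le _ _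
    linarith
  · simp only [h1, h2, if_false]
    have e0 : (1 : ZMod 2) + 1 = 0 := by decide
    rw [e0]
    refine rp_aRP_zero ?_
    have := hP' h1
    have := hQ' h2
    have : ‖sec P - sec Q‖ ≤ ‖sec P + z‖ + ‖sec Q + z‖ := by
      have e : sec P - sec Q = (sec P + z) - (sec Q + z) := by abel
      rw [e]
      exact norm_sub_le _ _
    linarith

/-- `aRP` is trivial where the `j`-th coordinate is not small. -/
theorem aRP_coord {N : ℕ} (j : Fin N) : ∃ g : RP N → ZMod 2, ∀ P Q : RP N,
    1 / 8 < |sec P j| → 1 / 8 < |sec Q j| → dist P Q < 1 / 16 → aRP P Q = g P + g Q := by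
  refine ⟨fun P => if 0 < sec P j then 0 else 1, fun P Q hP hQ h => ?_⟩
  rcases rp_small_or P Q _ h with h1 | h1
  · rw [rp_aRP_zero (by linarith)]
    have h2 : |sec P j - sec Q j| < 2 * (1 / 16) :=
      lt_of_le_of_lt (norm_le_pi_norm (sec P - sec Q) j) h1
    have h3 := abs_lt.1 h2
    by_cases hp : 0 < sec P j <;> by_cases hq : 0 < sec Q j
    · simp only [hp, hq, if_true]
      decide
    · exfalso
      rw [abs_of_pos hp] at hP
      linarith
    · exfalso
      rw [abs_of_pos hq] at hQ
      linarith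
    · simp only [hp, hq, if_false]
      decide
  · rw [rp_aRP_one (by linarith)]
    have h2 : |sec P j + sec Q j| < 2 * (1 / 16) :=
      lt_of_le_of_lt (norm_le_pi_norm (sec P + sec Q) j) h1
    have h3 := abs_lt.1 h2
    by_cases hp : 0 < sec P j <;> by_cases hq : 0 < sec Q j
    · exfalso
      rw [abs_of_pos hp] at hP
      linarith
    · simp only [hp, hq, if_true, if_false]
      decide
    · simp only [hp, hq, if_true, if_false]
      decide
    · exfalso
      rw [abs_of_nonpos (not_lt.1 hp)] at hP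
      have := not_lt.1 hq
      linarith

/-! ### The chain construction -/

section chain

variable {T : Type*}

/-- `(δ s₁) ∪ ⋯ ∪ (δ s_m) ∪ f` -/
def rpChain : List (T → ZMod 2) → (List T → ZMod 2) → List T → ZMod 2
  | [], f, l => f l
  | s :: ss, f, x :: y :: l => (s x + s y) * rpChain ss f (y :: l)
  | _ :: _, _, _ => 0

theorem rp_chain_cup (s1 s2 : List (T → ZMod 2)) (l : List T) :
    cupList (s1 ++ s2) l = rpChain s1 (cupList s2) l := by
  induction s1 generalizing l with
  | nil => rw [List.nil_append, rpChain]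
  | cons s s1 ih =>
    match l with
    | [] => simp [cupList, rpChain]
    | [x] => simp [cupList, rpChain]
    | x :: y :: l =>
      rw [List.cons_append, cupList, rpChain, ih]

theorem rp_chain_nil (s1 : List (T → ZMod 2)) (f : List T → ZMod 2) (hf : f [] = 0) :
    rpChain s1 f [] = 0 := by
  cases s1 with
  | nil => rw [rpChain, hf]
  | cons s s1 => simp [rpChain]

theorem rp_lcob_step (s : T → ZMod 2) (f g : List T → ZMod 2) (hf : f [] = 0)
    (hg0 : g [] = 0) (hg1 : ∀ x, g [x] = 0)
    (hg : ∀ x y l, g (x :: y :: l) = (s x + s y) * f (y :: l)) (x y : T) (l : List T) :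
    lcob g (x :: y :: l) = (s x + s y) * lcob f (y :: l) := by
  match l with
  | [] =>
    simp only [bu_lcob_cons, bu_lcob_nil, hg1, hf]
    simp
  | z :: l =>
    rw [bu_lcob_cons g x, bu_lcob_cons (fun m => g (x :: m)) y]
    have e1 : lcob (fun m => g (x :: y :: m)) (z :: l) =
        (s x + s y) * lcob (fun m => f (y :: m)) (z :: l) := by
      rw [← bu_lcob_mul]
      congr 1
      funext m
      rw [hg]
    rw [e1, hg, hg, bu_lcob_cons f y]
    generalize f (z :: l) = a
    generalize lcob (fun m => f (y :: m)) (z :: l) = b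
    generalize s x = c
    generalize s y = d
    generalize s z = e
    revert a b c d e
    decide

theorem rp_lcob_chain (s1 : List (T → ZMod 2)) (f : List T → ZMod 2) (hf : f [] = 0)
    (l : List T) : lcob (rpChain s1 f) l = rpChain s1 (lcob f) l := by
  induction s1 generalizing l with
  | nil =>
    rw [rpChain]
    congr 1
  | cons s s1 ih =>
    match l with
    | [] => simp [bu_lcob_nil, rpChain]
    | [x] =>
      rw [bu_lcob_cons, bu_lcob_nil]
      simp [rpChain]
    | x :: y :: l =>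
      rw [rpChain, ← ih]
      refine rp_lcob_step s (rpChain s1 f) (rpChain (s :: s1) f) (rp_chain_nil s1 f hf) ?_ ?_ ?_
        x y l
      · simp [rpChain]
      · intro x
        simp [rpChain]
      · intro x y l
        rw [rpChain]

theorem rp_chain_congr (s1 : List (T → ZMod 2)) (f g : List T → ZMod 2) (l : List T)
    (h : ∀ m, m.length + s1.length = l.length → m ⊆ l → f m = g m) :
    rpChain s1 f l = rpChain s1 g l := by
  induction s1 generalizing l with
  | nil =>
    rw [rpChain, rpChain]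
    exact h l (by simp) (List.Subset.refl _)
  | cons s s1 ih =>
    match l with
    | [] => simp [rpChain]
    | [x] => simp [rpChain]
    | x :: y :: l =>
      rw [rpChain, rpChain, ih]
      intro m hm hml
      refine h m ?_ ?_
      · simp only [List.length_cons] at hm ⊢
        omega
      · exact fun a ha => List.mem_cons_of_mem _ (hml ha)

theorem rp_chain_zero (s1 : List (T → ZMod 2)) (f : List T → ZMod 2) (l : List T)
    (s : T → ZMod 2) (hs : s ∈ s1) (h : ∀ x ∈ l, ∀ y ∈ l, s x + s y = 0) :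
    rpChain s1 f l = 0 := by
  induction s1 generalizing l with
  | nil => simp at hs
  | cons t s1 ih =>
    match l with
    | [] => simp [rpChain]
    | [x] => simp [rpChain]
    | x :: y :: l =>
      rw [rpChain]
      rcases List.mem_cons.1 hs with rfl | hs
      · rw [h x (by simp) y (by simp), zero_mul]
      · rw [ih (y :: l) hs (fun a ha b hb => h a (List.mem_cons_of_mem _ ha) b
          (List.mem_cons_of_mem _ hb)), mul_zero]

theorem rp_chain_map (s1 : List (T → ZMod 2)) (f : List T → ZMod 2) (l : List T) (φ : T → T)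
    (h : ∀ s ∈ s1, ∀ x ∈ l, ∀ y ∈ l, s (φ x) + s (φ y) = s x + s y)
    (hf : ∀ m, m ⊆ l → f (m.map φ) = f m) : rpChain s1 f (l.map φ) = rpChain s1 f l := by
  induction s1 generalizing l with
  | nil =>
    rw [rpChain, rpChain]
    exact hf l (List.Subset.refl _)
  | cons s s1 ih =>
    match l with
    | [] => simp [rpChain]
    | [x] => simp [rpChain]
    | x :: y :: l =>
      have e : (y :: l).map φ = φ y :: l.map φ := rfl
      rw [List.map_cons, List.map_cons, rpChain, rpChain, ← e, ih (y :: l),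
        h s (by simp) x (by simp) y (by simp)]
      · exact fun t ht a ha b hb => h t (List.mem_cons_of_mem _ ht) a (List.mem_cons_of_mem _ ha) b
          (List.mem_cons_of_mem _ hb)
      · exact fun m hm => hf m fun a ha => List.mem_cons_of_mem _ (hm ha)

end chain

theorem rp_acup_cup {T U : Type*} (a : U → U → ZMod 2) (φ : T → U) (s : T → ZMod 2) (q : ℕ)
    (l : List T) (hl : l.length = q + 1)
    (h : ∀ x ∈ l, ∀ y ∈ l, a (φ x) (φ y) = s x + s y) :
    acup a q (l.map φ) = cupList (List.replicate q s) l := by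
  induction q generalizing l with
  | zero =>
    rw [acup, List.replicate_zero, cupList]
  | succ q ih =>
    match l, hl with
    | [x], hl =>
      simp at hl
    | x :: y :: l, hl =>
      rw [List.replicate_succ, cupList, List.map_cons, List.map_cons, acup,
        h x (by simp) y (by simp), ← ih (y :: l) (by simpa using hl), List.map_cons]
      exact fun a ha b hb => h a (List.mem_cons_of_mem _ ha) b (List.mem_cons_of_mem _ hb)

/-- The consequence of the Borsuk–Ulam theorem which we need. -/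
theorem base_nonexact (N j : ℕ) (hj : j < N) (q m : ℕ) (hq : 0 < q) (hqm : q + m = j) (M : Set (RP N))
    (η : List (RP N) → ZMod 2) (h0 : η [] = 0) (G : ℕ → RP N → ZMod 2) (δ : ℝ) (hδ : 0 < δ)
    (h1 : ∀ l : List (RP N), l.length = q + 1 → Small (M ∩ ZRP N j) δ l →
      acup aRP q l = lcob η l)
    (h2 : ∀ l : List (RP N), l.length = j + 1 → Small (ZRP N j) δ l →
      (∀ p ∈ l, p ∈ M) ∨ ∃ b < m, ∀ p ∈ l, ∀ p' ∈ l, aRP p p' = G b p + G b p') : False := by
  classical
  have hN : 0 < N := by omega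
  have : Nonempty (Fin N) := ⟨⟨0, hN⟩⟩
  have hP0 : ∃ x : Fin N → ℝ, ‖x‖ = 1 := ⟨fun _ => 1, by
    rw [pi_norm_const]
    simp⟩
  obtain ⟨x0, hx0⟩ := hP0
  set toRP : (Fin N → ℝ) → RP N := fun x =>
    if h : ‖x‖ = 1 then ⟨ver x, x, h, rfl⟩ else ⟨ver x0, x0, hx0, rfl⟩ with htoRP
  have toRP_pos : ∀ x : Fin N → ℝ, ‖x‖ = 1 → (toRP x).1 = ver x := by
    intro x hx
    rw [htoRP]
    simp only [hx, dif_pos]
  have toRP_neg : ∀ x : Fin N → ℝ, toRP (-x) = toRP x := by
    intro x
    rw [htoRP]
    by_cases hx : ‖x‖ = 1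
    · have hx' : ‖-x‖ = 1 := by rw [norm_neg, hx]
      simp only [hx, hx', dif_pos]
      exact Subtype.ext (rp_ver_neg x)
    · have hx' : ¬ ‖-x‖ = 1 := by rwa [norm_neg]
      simp only [hx, hx', dif_neg, not_false_eq_true]
  have sec_or : ∀ x : Fin N → ℝ, ‖x‖ = 1 → sec (toRP x) = x ∨ sec (toRP x) = -x := by
    intro x hx
    have h3 := min_norm_le (sec (toRP x)) x (norm_sec _) hx
    rw [ver_sec, toRP_pos x hx, dist_self, mul_zero] at h3
    rcases min_choice ‖sec (toRP x) - x‖ ‖sec (toRP x) + x‖ with h4 | h4 <;> rw [h4] at h3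
    · left
      exact sub_eq_zero.1 (norm_le_zero_iff.1 h3)
    · right
      exact eq_neg_of_add_eq_zero_left (norm_le_zero_iff.1 h3)
  have ne_neg : ∀ x : Fin N → ℝ, ‖x‖ = 1 → x ≠ -x := by
    intro x hx h
    have : x = 0 := self_eq_neg.1 h
    rw [this] at hx
    simp at hx
  set s : (Fin N → ℝ) → ZMod 2 := fun x => if sec (toRP x) = x then 0 else 1 with hs
  have s_odd : ∀ x : Fin N → ℝ, ‖x‖ = 1 → s (-x) = s x + 1 := by
    intro x hx
    rw [hs]
    simp only [toRP_neg]
    rcases sec_or x hx with h | h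
    · rw [h, if_neg (ne_neg x hx), if_pos rfl, zero_add]
    · rw [h, if_pos rfl, if_neg (ne_neg x hx).symm]
      decide
  have s_aRP : ∀ x y : Fin N → ℝ, ‖x‖ = 1 → ‖y‖ = 1 → ‖x - y‖ < 1 →
      aRP (toRP x) (toRP y) = s x + s y := by
    intro x y hx hy hxy
    rw [hs]
    simp only
    rcases sec_or x hx with h | h <;> rcases sec_or y hy with h' | h'
    · rw [h, h', if_pos rfl, if_pos rfl, rp_aRP_zero (by rwa [h, h'])]
      decide
    · rw [h, h', if_pos rfl, if_neg (ne_neg y hy).symm, rp_aRP_one]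
      · decide
      · rw [h, h', ← sub_eq_add_neg]
        exact hxy
    · rw [h, h', if_pos rfl, if_neg (ne_neg x hx).symm, rp_aRP_one]
      · decide
      · rw [h, h', neg_add_eq_sub, norm_sub_rev]
        exact hxy
    · rw [h, h', if_neg (ne_neg x hx).symm, if_neg (ne_neg y hy).symm, rp_aRP_zero]
      · decide
      · rw [h, h', neg_sub_neg, norm_sub_rev]
        exact hxy
  set s1 : List ((Fin N → ℝ) → ZMod 2) :=
    (List.range m).map (fun b x => s x + G b (toRP x)) with hs1
  set ss := s1 ++ List.replicate q s with hss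
  have hlen : ss.length = j := by
    rw [hss, hs1, List.length_append, List.length_map, List.length_range, List.length_replicate]
    omega
  have hodd : ∀ t ∈ ss, ∀ x ∈ Sph N j, t (-x) = t x + 1 := by
    intro t ht x hx
    rw [hss, List.mem_append] at ht
    rcases ht with ht | ht
    · rw [hs1, List.mem_map] at ht
      obtain ⟨b, -, rfl⟩ := ht
      simp only [toRP_neg, s_odd x hx.1]
      ring
    · rw [List.eq_of_mem_replicate ht]
      exact s_odd x hx.1
  set f : List (Fin N → ℝ) → ZMod 2 := fun l => η (l.map toRP) with hf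
  have hf0 : f [] = 0 := by
    rw [hf]
    simpa using h0
  have hlcf : ∀ l, lcob f l = lcob η (l.map toRP) := fun l => by
    rw [hf, bu_lcob_map]
  set ζ := rpChain s1 f with hζ
  have hζ0 : ζ [] = 0 := rp_chain_nil s1 f hf0
  have heven : ∀ l : List (Fin N → ℝ), (∀ x ∈ l, x ∈ Sph N j) →
      ζ (l.map (fun x => -x)) = ζ l := by
    intro l hl
    rw [hζ]
    refine rp_chain_map s1 f l (fun x => -x) ?_ ?_
    · intro t ht x hx y hy
      have ht' : t ∈ ss := by
        rw [hss]
        exact List.mem_append_left _ ht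
      rw [hodd t ht' x (hl x hx), hodd t ht' y (hl y hy)]
      generalize t x = a
      generalize t y = b
      revert a b
      decide
    · intro m' _
      rw [hf]
      simp only [List.map_map]
      congr 1
      refine List.map_congr_left fun x _ => ?_
      exact toRP_neg x
  set δ' := min (δ / 2) (1 / 2) with hδ'
  have hδ'0 : 0 < δ' := by positivity
  refine borsukUlam_lists N j hj ss hlen hodd ζ hζ0 heven δ' hδ'0 ?_
  intro l hl hsm
  have hnorm : ∀ x ∈ l, ‖x‖ = 1 := fun x hx => (hsm.1 x hx).1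
  have hclose : ∀ x ∈ l, ∀ y ∈ l, ‖x - y‖ < δ' := by
    intro x hx y hy
    have := hsm.2 x hx y hy
    rwa [dist_eq_norm] at this
  have hZ : ∀ x ∈ l, toRP x ∈ ZRP N j := by
    intro x hx i hi
    rcases sec_or x (hnorm x hx) with h | h
    · rw [h]
      exact (hsm.1 x hx).2 i hi
    · rw [h, Pi.neg_apply, (hsm.1 x hx).2 i hi, neg_zero]
  have hdist : ∀ x ∈ l, ∀ y ∈ l, dist (toRP x) (toRP y) < δ := by
    intro x hx y hy
    have h3 : dist (toRP x) (toRP y) = dist (ver x) (ver y) := by
      rw [Subtype.dist_eq, toRP_pos x (hnorm x hx), toRP_pos y (hnorm y hy)]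
    rw [h3]
    have h4 := rp_dist_aux x y (hnorm x hx) (hnorm y hy)
    have h5 := hclose x hx y hy
    have h6 : δ' ≤ δ / 2 := min_le_left _ _
    linarith
  have hsmall : Small (ZRP N j) δ (l.map toRP) := by
    constructor
    · intro p hp
      obtain ⟨x, hx, rfl⟩ := List.mem_map.1 hp
      exact hZ x hx
    · intro p hp p' hp'
      obtain ⟨x, hx, rfl⟩ := List.mem_map.1 hp
      obtain ⟨y, hy, rfl⟩ := List.mem_map.1 hp'
      exact hdist x hx y hy
  have haRP : ∀ x ∈ l, ∀ y ∈ l, aRP (toRP x) (toRP y) = s x + s y := by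
    intro x hx y hy
    refine s_aRP x y (hnorm x hx) (hnorm y hy) ?_
    have h5 := hclose x hx y hy
    have h6 : δ' ≤ 1 / 2 := min_le_right _ _
    linarith
  have hcup : cupList ss l = rpChain s1 (cupList (List.replicate q s)) l := by
    rw [hss, rp_chain_cup]
  have hlc : lcob ζ l = rpChain s1 (lcob f) l := rp_lcob_chain s1 f hf0 l
  rw [hlc, hcup]
  rcases h2 (l.map toRP) (by rw [List.length_map, hl]) hsmall with hM | ⟨b, hb, hG⟩
  · refine rp_chain_congr s1 _ _ l ?_
    intro m' hm' hml
    have hlm : s1.length = m := by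
      rw [hs1, List.length_map, List.length_range]
    have hm'' : m'.length = q + 1 := by omega
    rw [hlcf, ← rp_acup_cup aRP toRP s q m' hm'' (fun x hx y hy => haRP x (hml hx) y (hml hy))]
    symm
    refine h1 _ (by rw [List.length_map, hm'']) ?_
    constructor
    · intro p hp
      obtain ⟨x, hx, rfl⟩ := List.mem_map.1 hp
      exact ⟨hM _ (List.mem_map_of_mem (hml hx)), hZ x (hml hx)⟩
    · intro p hp p' hp'
      obtain ⟨x, hx, rfl⟩ := List.mem_map.1 hp
      obtain ⟨y, hy, rfl⟩ := List.mem_map.1 hp'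
      exact hdist x (hml hx) y (hml hy)
  · have hmem : (fun x => s x + G b (toRP x)) ∈ s1 := by
      rw [hs1]
      exact List.mem_map_of_mem (List.mem_range.2 hb)
    have hz : ∀ x ∈ l, ∀ y ∈ l, (fun x => s x + G b (toRP x)) x +
        (fun x => s x + G b (toRP x)) y = 0 := by
      intro x hx y hy
      have e1 := haRP x hx y hy
      have e2 := hG _ (List.mem_map_of_mem hx) _ (List.mem_map_of_mem hy)
      simp only
      have e3 : s x + s y = G b (toRP x) + G b (toRP y) := by rw [← e1, e2]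
      have e4 : s x + G b (toRP x) + (s y + G b (toRP y)) =
          (s x + s y) + (G b (toRP x) + G b (toRP y)) := by ring
      rw [e4, e3]
      exact CharTwo.add_self_eq_zero _
    rw [rp_chain_zero s1 _ l _ hmem hz, rp_chain_zero s1 _ l _ hmem hz]

end Pool.Agent.CmpDef
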