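import Pool.Agent.CmpDef.XSpace

/-!
# Rim-compactness of unions of small pieces
-/

open Set TopologicalSpace Filter Topology

namespace Pool.Agent.CmpDef

open XSp

variable {D : Type} {E : ℕ → Type} {π : ∀ k, E k → D} [MetricSpace D] [∀ k, MetricSpace (E k)]

/-- the points of `D` and of the levels `≥ K` -/
def hi (π : ∀ k, E k → D) (K : ℕ) : Set (XSp π) :=
  {u | match u with
    | base _ => True
    | lev k _ _ => K ≤ k}

omit [MetricSpace D] [∀ k, MetricSpace (E k)] in
theorem base_mem_hi (K : ℕ) (x : D) : (base x : XSp π) ∈ hi π K := trivial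

omit [MetricSpace D] [∀ k, MetricSpace (E k)] in
theorem lev_mem_hi {K k m : ℕ} {q : E k} : (lev k m q : XSp π) ∈ hi π K ↔ K ≤ k := Iff.rfl

theorem isOpen_hi (hπ : ∀ k, Continuous (π k)) (K : ℕ) : IsOpen (hi π K) := by
  rw [isOpen_iff' hπ]
  refine ⟨fun k m => ?_, fun x _ => ⟨1, one_pos, K, fun y _ => base_mem_hi K y,
    fun k hk m q _ => lev_mem_hi.mpr hk⟩⟩
  by_cases h : K ≤ k
  · convert isOpen_univ
    exact Set.eq_univ_of_forall fun q => (show (lev k m q : XSp π) ∈ hi π K from h)
  · convert isOpen_empty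
    rw [Set.eq_empty_iff_forall_notMem]
    exact fun q hq => h (show K ≤ k from hq)

theorem isClosed_hi (hπ : ∀ k, Continuous (π k)) (K : ℕ) : IsClosed (hi π K) := by
  rw [← isOpen_compl_iff]
  refine isOpen_of_lev hπ _ (fun k m => ?_) (fun x h => h (base_mem_hi K x))
  by_cases h : K ≤ k
  · convert isOpen_empty
    rw [Set.eq_empty_iff_forall_notMem]
    exact fun q hq => hq (show (lev k m q : XSp π) ∈ hi π K from h)
  · convert isOpen_univ
    exact Set.eq_univ_of_forall fun q hq => h (show K ≤ k from hq)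

theorem isOpenMap_lev (hπ : ∀ k, Continuous (π k)) (k m : ℕ) :
    IsOpenMap (lev k m : E k → XSp π) := by
  intro O hO
  refine isOpen_of_lev hπ _ (fun k' m' => ?_) (fun x h => ?_)
  · by_cases hh : k' = k ∧ m' = m
    · obtain ⟨rfl, rfl⟩ := hh
      convert hO
      ext q
      constructor
      · rintro ⟨q', hq', h⟩
        injection h with h1 h2 h3
        exact h3 ▸ hq'
      · exact fun h => ⟨q, h, rfl⟩
    · convert isOpen_empty
      rw [Set.eq_empty_iff_forall_notMem]
      rintro q ⟨q', _, h⟩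
      injection h with h1 h2 h3
      exact hh ⟨h1.symm, h2.symm⟩
  · obtain ⟨q', _, h⟩ := h
    cases h

/-- a partition between a point and a closed set in a metric space -/
theorem isPartition_sphere {X : Type} [MetricSpace X] (p : X) (G : Set X) (r : ℝ) (hr : 0 < r)
    (h : ∀ u ∈ G, r < dist u p) : IsPartition {p} G {u | dist u p = r} := by
  refine ⟨isClosed_eq (continuous_id.dist continuous_const) continuous_const,
    {u | dist u p < r}, {u | r < dist u p}, isOpen_lt (continuous_id.dist continuous_const)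
    continuous_const, isOpen_lt continuous_const (continuous_id.dist continuous_const), ?_, ?_,
    ?_, fun u hu => h u hu⟩
  · rw [Set.disjoint_left]
    intro u hu hu'
    have h1 : dist u p < r := hu
    have h2 : r < dist u p := hu'
    exact absurd (h1.trans h2) (lt_irrefl _)
  · ext u
    constructor
    · intro hu
      exact lt_or_gt_of_ne (show dist u p ≠ r from hu)
    · rintro (h1 | h1)
      · exact (show dist u p < r from h1).ne
      · exact (show r < dist u p from h1).ne'
  · rintro _ rfl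
    simpa using hr

theorem exists_radius {X : Type} [MetricSpace X] (p : X) (G : Set X) (hG : IsClosed G)
    (hp : p ∉ G) (R : ℝ) (hR : 0 < R) : ∃ r > 0, r < R ∧ ∀ u ∈ G, r < dist u p := by
  obtain ⟨s, hs, hball⟩ := Metric.isOpen_iff.mp hG.isOpen_compl p hp
  refine ⟨min s R / 2, half_pos (lt_min hs hR), ?_, fun u hu => ?_⟩
  · have := min_le_right s R
    have h0 : 0 < min s R := lt_min hs hR
    linarith
  · by_contra hlt
    push Not at hlt
    have h0 : 0 < min s R := lt_min hs hR
    have := min_le_left s R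
    exact hball (Metric.mem_ball.mpr (by linarith)) hu

/-- homeomorphism invariance of `cmp ≤ 0`. -/
theorem smallLE_one_of_homeo {X Y : Type} [TopologicalSpace X] [TopologicalSpace Y]
    (e : X ≃ₜ Y) (h : SmallLE 1 X) : SmallLE 1 Y := by
  intro p G hG hp
  obtain ⟨S, ⟨hS, V, W, hV, hW, hVW, hc, hpV, hGW⟩, hcomp⟩ := h (e.symm p) (e ⁻¹' G)
    (hG.preimage e.continuous) (by simpa using hp)
  refine ⟨e.symm ⁻¹' S, ⟨hS.preimage e.symm.continuous, e.symm ⁻¹' V, e.symm ⁻¹' W,
    hV.preimage e.symm.continuous, hW.preimage e.symm.continuous, hVW.preimage _, ?_, ?_, ?_⟩, ?_⟩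
  · rw [← Set.preimage_compl, hc, Set.preimage_union]
  · rintro _ rfl
    exact hpV rfl
  · intro y hy
    apply hGW
    simpa using hy
  · have h1 : IsCompact S := isCompact_iff_compactSpace.mpr hcomp
    have h2 : IsCompact (e.symm ⁻¹' S) := by
      rw [← e.image_eq_preimage_symm]
      exact h1.image e.continuous
    exact isCompact_iff_compactSpace.mp h2

variable [CompactSpace D] [∀ k, CompactSpace (E k)]

/-- closed subsets whose traces on the pieces split into small clopen sets are rim-compact -/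
theorem rc_lemma (hπ : ∀ k, Continuous (π k)) (S : Set (XSp π)) (hS : IsClosed S) (K : ℕ)
    (Lab : Type) (lab : ∀ k : ℕ, ℕ → E k → Lab) (e : ℕ → ℝ) (he : Tendsto e atTop (𝓝 0))
    (hloc : ∀ k ≥ K, ∀ m q, lev k m q ∈ S →
      ∀ᶠ q' in 𝓝 q, lev k m q' ∈ S → lab k m q' = lab k m q)
    (hdiam : ∀ k ≥ K, ∀ m q q', lev k m q ∈ S → lev k m q' ∈ S → lab k m q = lab k m q' →
      dist (π k q) (π k q') ≤ e k) :
    SmallLE 1 ↥S := by
  intro p G hG hp
  obtain ⟨u, hu⟩ := p
  cases u with
  | lev k m q =>
    obtain ⟨r, hr, hrk, h⟩ := exists_radius (⟨lev k m q, hu⟩ : ↥S) G hG hp ((1 / 2) ^ k)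
      (half_pow_pos k)
    refine ⟨_, isPartition_sphere _ G r hr h, ?_⟩
    have hcomp : IsCompact {u : ↥S | dist u ⟨lev k m q, hu⟩ = r} := by
      rw [Subtype.isCompact_iff]
      have hcl : IsClosed (Subtype.val '' {u : ↥S | dist u ⟨lev k m q, hu⟩ = r}) :=
        hS.isClosedEmbedding_subtypeVal.isClosedMap _
          (isClosed_eq (continuous_id.dist continuous_const) continuous_const)
      refine (isCompact_range (continuous_lev hπ k m)).of_isClosed_subset hcl ?_
      rintro _ ⟨u, hu', rfl⟩
      have h1 : dist (u : XSp π) (lev k m q) = r := hu'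
      obtain ⟨q', hq'⟩ := exists_of_dist_lt (v := (u : XSp π)) (k := k) (m := m) (q := q)
        (by rw [h1]; exact hrk)
      exact ⟨q', hq'.symm⟩
    exact isCompact_iff_compactSpace.mp hcomp
  | base x =>
    obtain ⟨r, hr, -, h⟩ := exists_radius (⟨base x, hu⟩ : ↥S) G hG hp 1 one_pos
    -- the level
    obtain ⟨Ka, hKa⟩ := exists_half_pow_lt (half_pos hr)
    obtain ⟨Kb, hKb⟩ := (he.eventually (gt_mem_nhds (show (0 : ℝ) < r / 6 by positivity))
      ).exists_forall_of_atTop
    set K1 := max K (max Ka Kb) with hK1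
    have k1 : ∀ k ≥ K1, k ≥ K := fun k hk => (le_max_left _ _).trans hk
    have k2 : ∀ k ≥ K1, (1 / 2 : ℝ) ^ k < r / 2 := fun k hk =>
      hKa k ((le_max_left _ _).trans ((le_max_right _ _).trans hk))
    have k3 : ∀ k ≥ K1, e k < r / 6 := fun k hk =>
      hKb k ((le_max_right _ _).trans ((le_max_right _ _).trans hk))
    have hpc : Continuous fun u : XSp π => dist u.proj x := continuous_proj.dist continuous_const
    let T : Set ↥S := {s | ∃ k m q, K1 ≤ k ∧ s.1 = lev k m q ∧
      ∃ q', (lev k m q' : XSp π) ∈ S ∧ lab k m q' = lab k m q ∧ dist (π k q') x < r / 6}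
    let T' : Set ↥S := {s | ∃ k m q, K1 ≤ k ∧ s.1 = lev k m q ∧
      ∀ q', (lev k m q' : XSp π) ∈ S → lab k m q' = lab k m q → r / 6 ≤ dist (π k q') x}
    let O1 : Set ↥S := Subtype.val ⁻¹' (hi π K1 ∩ {u | dist u.proj x < r / 6})
    let L : Set ↥S := Subtype.val ⁻¹' (hi π K1)ᶜ
    let B : Set ↥S := {s | ∃ y, s.1 = base y ∧ r / 6 < dist y x}
    have hO1 : IsOpen O1 := ((isOpen_hi hπ K1).inter (isOpen_lt hpc continuous_const)).preimage
      continuous_subtype_val
    have hL : IsOpen L := (isClosed_hi hπ K1).isOpen_compl.preimage continuous_subtype_val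
    have hT : IsOpen T := by
      rw [isOpen_iff_mem_nhds]
      rintro ⟨v, hv⟩ ⟨k, m, q, hk, hs, hq⟩
      have hs' : v = lev k m q := hs
      subst hs'
      rw [mem_nhds_induced]
      refine ⟨_, (isOpenMap_lev hπ k m).image_mem_nhds (hloc k (k1 k hk) m q hv), ?_⟩
      rintro ⟨w, hw⟩ ⟨q'', hq'', hq3⟩
      have hq4 : w = lev k m q'' := hq3.symm
      subst hq4
      obtain ⟨q', h1, h2, h3⟩ := hq
      exact ⟨k, m, q'', hk, rfl, q', h1, h2.trans (hq'' hw).symm, h3⟩
    have hT' : IsOpen T' := by
      rw [isOpen_iff_mem_nhds]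
      rintro ⟨v, hv⟩ ⟨k, m, q, hk, hs, hq⟩
      have hs' : v = lev k m q := hs
      subst hs'
      rw [mem_nhds_induced]
      refine ⟨_, (isOpenMap_lev hπ k m).image_mem_nhds (hloc k (k1 k hk) m q hv), ?_⟩
      rintro ⟨w, hw⟩ ⟨q'', hq'', hq3⟩
      have hq4 : w = lev k m q'' := hq3.symm
      subst hq4
      exact ⟨k, m, q'', hk, rfl, fun q' h1 h2 => hq q' h1 (h2.trans (hq'' hw))⟩
    have hW : IsOpen (L ∪ B ∪ T') := by
      rw [isOpen_iff_mem_nhds]
      rintro ⟨v, hv⟩ ((h1 | h1) | h1)
      · exact mem_of_superset (hL.mem_nhds h1) fun s hs => Or.inl (Or.inl hs)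
      · obtain ⟨y, hy, hyx⟩ := h1
        have hy' : v = base y := hy
        subst hy'
        obtain ⟨K3, hK3⟩ := (he.eventually (gt_mem_nhds (show (0 : ℝ) < (dist y x - r / 6) / 2 by
          linarith))).exists_forall_of_atTop
        have hN : IsOpen (hi π (max K1 K3) ∩ {u : XSp π | (dist y x + r / 6) / 2 < dist u.proj x}) :=
          (isOpen_hi hπ _).inter (isOpen_lt continuous_const hpc)
        refine mem_of_superset ((hN.preimage continuous_subtype_val).mem_nhds
          ⟨base_mem_hi _ y, ?_⟩) ?_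
        · change (dist y x + r / 6) / 2 < dist y x
          linarith
        · rintro ⟨w, hw⟩ ⟨h2, h3⟩
          cases w with
          | base y' =>
            have h4 : (dist y x + r / 6) / 2 < dist y' x := h3
            exact Or.inl (Or.inr ⟨y', rfl, by linarith⟩)
          | lev k m q =>
            have h4 : (dist y x + r / 6) / 2 < dist (π k q) x := h3
            have h5 : max K1 K3 ≤ k := h2
            have h6 : K1 ≤ k := (le_max_left _ _).trans h5
            refine Or.inr ⟨k, m, q, h6, rfl, fun q' hq' hlab => ?_⟩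
            have h7 := hdiam k (k1 k h6) m q q' hw hq' hlab.symm
            have h8 := hK3 k ((le_max_right _ _).trans h5)
            have h9 := dist_triangle (π k q) (π k q') x
            linarith
      · exact mem_of_superset (hT'.mem_nhds h1) fun s hs => Or.inr hs
    have hc : {s : ↥S | ∃ y, s.1 = base y ∧ dist y x = r / 6}ᶜ = (O1 ∪ T) ∪ (L ∪ B ∪ T') := by
      ext ⟨v, hv⟩
      constructor
      · intro hn
        cases v with
        | base y =>
          rcases lt_trichotomy (dist y x) (r / 6) with h1 | h1 | h1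
          · exact Or.inl (Or.inl ⟨base_mem_hi _ y, h1⟩)
          · exact absurd ⟨y, rfl, h1⟩ hn
          · exact Or.inr (Or.inl (Or.inr ⟨y, rfl, h1⟩))
        | lev k m q =>
          by_cases hk : K1 ≤ k
          · by_cases hex : ∃ q', (lev k m q' : XSp π) ∈ S ∧ lab k m q' = lab k m q ∧
              dist (π k q') x < r / 6
            · exact Or.inl (Or.inr ⟨k, m, q, hk, rfl, hex⟩)
            · push Not at hex
              exact Or.inr (Or.inr ⟨k, m, q, hk, rfl, hex⟩)
          · exact Or.inr (Or.inl (Or.inl hk))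
      · rintro ((⟨-, h1⟩ | ⟨k, m, q, -, h1, -⟩) | ((h1 | ⟨y, h1, h2⟩) | ⟨k, m, q, -, h1, -⟩))
          ⟨y', hy', hyx⟩
        · have hy2 : v = base y' := hy'
          subst hy2
          have h2 : dist y' x < r / 6 := h1
          exact absurd hyx h2.ne
        · have h2 : (base y' : XSp π) = lev k m q := hy'.symm.trans h1
          cases h2
        · have hy2 : v = base y' := hy'
          subst hy2
          exact h1 (base_mem_hi _ y')
        · have h3 : (base y' : XSp π) = base y := hy'.symm.trans h1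
          injection h3 with h4
          subst h4
          exact absurd hyx h2.ne'
        · have h2 : (base y' : XSp π) = lev k m q := hy'.symm.trans h1
          cases h2
    have hclosed : IsClosed {s : ↥S | ∃ y, s.1 = base y ∧ dist y x = r / 6} := by
      rw [← isOpen_compl_iff, hc]
      exact (hO1.union hT).union hW
    refine ⟨{s | ∃ y, s.1 = base y ∧ dist y x = r / 6}, ⟨hclosed, O1 ∪ T, L ∪ B ∪ T', hO1.union hT,
      hW, ?_, hc, ?_, ?_⟩, ?_⟩
    · rw [Set.disjoint_left]
      rintro ⟨v, hv⟩ (⟨h1, h2⟩ | ⟨k, m, q, hk, h1, q', a1, a2, a3⟩)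
        ((h3 | ⟨y, h3, h4⟩) | ⟨k', m', q'', hk', h3, h4⟩)
      · exact h3 h1
      · have h5 : v = base y := h3
        subst h5
        have h6 : dist y x < r / 6 := h2
        exact absurd (h6.trans h4) (lt_irrefl _)
      · have h5 : v = lev k' m' q'' := h3
        subst h5
        have h6 : dist (π k' q'') x < r / 6 := h2
        exact absurd (h6.trans_le (h4 q'' hv rfl)) (lt_irrefl _)
      · have h5 : v = lev k m q := h1
        subst h5
        exact h3 hk
      · have h5 : (base y : XSp π) = lev k m q := h3.symm.trans h1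
        cases h5
      · have h5 : (lev k m q : XSp π) = lev k' m' q'' := h1.symm.trans h3
        injection h5 with e1 e2 e3
        subst e1
        subst e2
        have e4 : q = q'' := eq_of_heq e3
        subst e4
        exact absurd (a3.trans_le (h4 q' a1 a2)) (lt_irrefl _)
    · rintro _ rfl
      refine Or.inl ⟨base_mem_hi _ x, ?_⟩
      change dist x x < r / 6
      rw [dist_self]
      positivity
    · rintro ⟨v, hv⟩ hvG
      have h1 := h _ hvG
      cases v with
      | base y =>
        have h2 : r < dist (base y : XSp π) (base x) := h1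
        rw [dist_def, tau_base_base, add_zero] at h2
        have h3 : r < dist y x := h2
        exact Or.inl (Or.inr ⟨y, rfl, by linarith⟩)
      | lev k m q =>
        by_cases hk : K1 ≤ k
        · refine Or.inr ⟨k, m, q, hk, rfl, fun q' hq' hlab => ?_⟩
          have h2 : r < dist (lev k m q : XSp π) (base x) := h1
          rw [dist_comm, dist_base_lev] at h2
          have h3 := k2 k hk
          have h4 := k3 k hk
          have h5 := hdiam k (k1 k hk) m q q' hv hq' hlab.symm
          have h6 := dist_triangle x (π k q') (π k q)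
          rw [dist_comm (π k q) (π k q')] at h5
          rw [dist_comm x (π k q')] at h6
          linarith
        · exact Or.inl (Or.inl hk)
    · have hcomp : IsCompact {s : ↥S | ∃ y, s.1 = base y ∧ dist y x = r / 6} := by
        rw [Subtype.isCompact_iff]
        have h1 : IsCompact ((base : D → XSp π) '' {y | (base y : XSp π) ∈ S ∧ dist y x = r / 6}) :=
          ((hS.preimage continuous_base).inter (isClosed_eq (continuous_id.dist continuous_const)
            continuous_const)).isCompact.image continuous_base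
        convert h1
        ext v
        constructor
        · rintro ⟨⟨w, hw⟩, ⟨y, hy, hyx⟩, rfl⟩
          have hy2 : w = base y := hy
          subst hy2
          exact ⟨y, ⟨hw, hyx⟩, rfl⟩
        · rintro ⟨y, ⟨hy, hyx⟩, rfl⟩
          exact ⟨⟨base y, hy⟩, ⟨y, rfl, hyx⟩, rfl⟩
      exact isCompact_iff_compactSpace.mp hcomp

/-- the same for subsets of subsets -/
theorem rc_lemma' (hπ : ∀ k, Continuous (π k)) (S : Set (XSp π)) (hS : IsClosed S) (K : ℕ)
    (S' : Set ↥S) (hS' : IsClosed S')
    (Lab : Type) (lab : ∀ k : ℕ, ℕ → E k → Lab) (e : ℕ → ℝ) (he : Tendsto e atTop (𝓝 0))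
    (hloc : ∀ k ≥ K, ∀ m q (h : lev k m q ∈ S), (⟨_, h⟩ : ↥S) ∈ S' →
      ∀ᶠ q' in 𝓝 q, ∀ h' : lev k m q' ∈ S, (⟨_, h'⟩ : ↥S) ∈ S' → lab k m q' = lab k m q)
    (hdiam : ∀ k ≥ K, ∀ m q q' (h : lev k m q ∈ S) (h' : lev k m q' ∈ S),
      (⟨_, h⟩ : ↥S) ∈ S' → (⟨_, h'⟩ : ↥S) ∈ S' → lab k m q = lab k m q' →
      dist (π k q) (π k q') ≤ e k) :
    SmallLE 1 ↥S' := by
  have hemb : Topology.IsClosedEmbedding (Subtype.val : ↥S → XSp π) :=
    hS.isClosedEmbedding_subtypeVal
  refine smallLE_one_of_homeo (hemb.isEmbedding.homeomorphImage S').symm ?_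
  refine rc_lemma hπ (Subtype.val '' S') (hemb.isClosedMap _ hS') K Lab lab e he ?_ ?_
  · rintro k hk m q ⟨⟨v, hv⟩, hv', hvq⟩
    have hvq' : v = lev k m q := hvq
    subst hvq'
    filter_upwards [hloc k hk m q hv hv'] with q' hq' h
    obtain ⟨⟨w, hw⟩, hw', hwq⟩ := h
    have hwq' : w = lev k m q' := hwq
    subst hwq'
    exact hq' hw hw'
  · rintro k hk m q q' ⟨⟨v, hv⟩, hv', hvq⟩ ⟨⟨w, hw⟩, hw', hwq⟩
    have hvq' : v = lev k m q := hvq
    subst hvq'
    have hwq' : w = lev k m q' := hwq
    subst hwq'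
    exact hdiam k hk m q q' hv hw hv' hw'

end Pool.Agent.CmpDef
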