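import Pool.Agent.CmpDef.Basic

/-!
# The space `X`
-/

open Set TopologicalSpace Filter Topology

namespace Pool.Agent.CmpDef

/-- The underlying set of the space `X = D ⊔ ⨆ₖ E k × ℕ`. -/
inductive XSp {D : Type} {E : ℕ → Type} (π : ∀ k, E k → D) : Type
  | base : D → XSp π
  | lev : (k m : ℕ) → E k → XSp π

namespace XSp

variable {D : Type} {E : ℕ → Type} {π : ∀ k, E k → D}

/-- the projection to `D` -/
def proj : XSp π → D
  | base x => x
  | lev k _ q => π k q

/-- the height -/
noncomputable def ht : XSp π → ℝ
  | base _ => 0
  | lev k _ _ => (1 / 2) ^ k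

variable [MetricSpace D] [∀ k, MetricSpace (E k)]

/-- the fibre part of the metric -/
noncomputable def tau : XSp π → XSp π → ℝ
  | base _, base _ => 0
  | base _, lev k _ _ => (1 / 2) ^ k
  | lev k _ _, base _ => (1 / 2) ^ k
  | lev k m q, lev k' m' q' =>
      if h : k = k' ∧ m = m' then min ((1 / 2) ^ k) (dist (h.1 ▸ q : E k') q')
      else (1 / 2) ^ k + (1 / 2) ^ k'

theorem tau_base_base (x y : D) : tau (base x : XSp π) (base y) = 0 := rfl

theorem tau_base_lev (x : D) (k m : ℕ) (q : E k) :
    tau (base x : XSp π) (lev k m q) = (1 / 2) ^ k := rfl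

theorem tau_lev_base (x : D) (k m : ℕ) (q : E k) :
    tau (lev k m q) (base x : XSp π) = (1 / 2) ^ k := rfl

theorem tau_lev_same (k m : ℕ) (q q' : E k) :
    tau (lev k m q : XSp π) (lev k m q') = min ((1 / 2) ^ k) (dist q q') := by
  simp [tau]

theorem tau_lev_ne {k m k' m' : ℕ} (h : ¬ (k = k' ∧ m = m')) (q : E k) (q' : E k') :
    tau (lev k m q : XSp π) (lev k' m' q') = (1 / 2) ^ k + (1 / 2) ^ k' := by
  simp [tau, h]

theorem half_pow_pos (k : ℕ) : (0 : ℝ) < (1 / 2) ^ k := by positivity

theorem tau_nonneg (u v : XSp π) : 0 ≤ tau u v := by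
  cases u with
  | base x =>
    cases v with
    | base y => rw [tau_base_base]
    | lev k m q => rw [tau_base_lev]; exact (half_pow_pos k).le
  | lev k m q =>
    cases v with
    | base y => rw [tau_lev_base]; exact (half_pow_pos k).le
    | lev k' m' q' =>
      by_cases h : k = k' ∧ m = m'
      · obtain ⟨rfl, rfl⟩ := h
        rw [tau_lev_same]
        exact le_min (half_pow_pos k).le dist_nonneg
      · rw [tau_lev_ne h]
        exact add_nonneg (half_pow_pos k).le (half_pow_pos k').le

theorem tau_self (u : XSp π) : tau u u = 0 := by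
  cases u with
  | base x => rw [tau_base_base]
  | lev k m q =>
    rw [tau_lev_same, dist_self]
    exact min_eq_right (half_pow_pos k).le

theorem tau_comm (u v : XSp π) : tau u v = tau v u := by
  cases u with
  | base x =>
    cases v with
    | base y => rw [tau_base_base, tau_base_base]
    | lev k m q => rw [tau_base_lev, tau_lev_base]
  | lev k m q =>
    cases v with
    | base y => rw [tau_base_lev, tau_lev_base]
    | lev k' m' q' =>
      by_cases h : k = k' ∧ m = m'
      · obtain ⟨rfl, rfl⟩ := h
        rw [tau_lev_same, tau_lev_same, dist_comm]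
      · have h' : ¬ (k' = k ∧ m' = m) := fun hh => h ⟨hh.1.symm, hh.2.symm⟩
        rw [tau_lev_ne h, tau_lev_ne h', add_comm]

theorem tau_le_ht (u v : XSp π) : tau u v ≤ ht u + ht v := by
  cases u with
  | base x =>
    cases v with
    | base y => rw [tau_base_base]; simp [ht]
    | lev k m q => rw [tau_base_lev]; simp [ht]
  | lev k m q =>
    cases v with
    | base y => rw [tau_lev_base]; simp [ht]
    | lev k' m' q' =>
      by_cases h : k = k' ∧ m = m'
      · obtain ⟨rfl, rfl⟩ := h
        rw [tau_lev_same]
        have := half_pow_pos k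
        exact (min_le_left _ _).trans (by simp only [ht]; linarith)
      · rw [tau_lev_ne h]; simp [ht]

/-- two points lie in the same piece -/
def SamePiece : XSp π → XSp π → Prop
  | lev k m _, lev k' m' _ => k = k' ∧ m = m'
  | _, _ => False

theorem tau_eq_of_not {u v : XSp π} (h : ¬ SamePiece u v) : tau u v = ht u + ht v := by
  cases u with
  | base x =>
    cases v with
    | base y => rw [tau_base_base]; simp [ht]
    | lev k m q => rw [tau_base_lev]; simp [ht]
  | lev k m q =>
    cases v with
    | base y => rw [tau_lev_base]; simp [ht]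
    | lev k' m' q' => rw [tau_lev_ne h]; simp [ht]

theorem ht_nonneg (u : XSp π) : 0 ≤ ht u := by
  cases u with
  | base x => simp [ht]
  | lev k m q => exact (half_pow_pos k).le

theorem SamePiece.ht_eq {u v : XSp π} (h : SamePiece u v) : ht u = ht v := by
  cases u with
  | base x => exact h.elim
  | lev k m q =>
    cases v with
    | base y => exact h.elim
    | lev k' m' q' =>
      obtain ⟨rfl, rfl⟩ := h
      rfl

theorem SamePiece.symm' {u v : XSp π} (h : SamePiece u v) : SamePiece v u := by
  cases u with
  | base x => exact h.elim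
  | lev k m q =>
    cases v with
    | base y => exact h.elim
    | lev k' m' q' => exact ⟨h.1.symm, h.2.symm⟩

theorem SamePiece.trans' {u v w : XSp π} (h : SamePiece u v) (h' : SamePiece v w) :
    SamePiece u w := by
  cases u with
  | base x => exact h.elim
  | lev k m q =>
    cases v with
    | base y => exact h.elim
    | lev k' m' q' =>
      cases w with
      | base y => exact h'.elim
      | lev k'' m'' q'' => exact ⟨h.1.trans h'.1, h.2.trans h'.2⟩

theorem tau_triangle (u v w : XSp π) : tau u w ≤ tau u v + tau v w := by
  by_cases h1 : SamePiece u v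
  · by_cases h2 : SamePiece v w
    · cases u with
      | base x => exact h1.elim
      | lev k m q =>
        cases v with
        | base y => exact h1.elim
        | lev k' m' q' =>
          obtain ⟨rfl, rfl⟩ := h1
          cases w with
          | base y => exact h2.elim
          | lev k'' m'' q'' =>
            obtain ⟨rfl, rfl⟩ := h2
            rw [tau_lev_same, tau_lev_same, tau_lev_same]
            have hk := half_pow_pos k
            have ht := dist_triangle q q' q''
            have d1 : 0 ≤ dist q q' := dist_nonneg
            have d2 : 0 ≤ dist q' q'' := dist_nonneg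
            rcases le_total ((1 / 2 : ℝ) ^ k) (dist q q') with a | a
            · rw [min_eq_left a]
              have : (0 : ℝ) ≤ min ((1 / 2) ^ k) (dist q' q'') := le_min hk.le d2
              exact (min_le_left _ _).trans (by linarith)
            · rcases le_total ((1 / 2 : ℝ) ^ k) (dist q' q'') with b | b
              · rw [min_eq_left b, min_eq_right a]
                exact (min_le_left _ _).trans (by linarith)
              · rw [min_eq_right a, min_eq_right b]
                exact (min_le_right _ _).trans ht
    · rw [tau_eq_of_not h2]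
      have := tau_le_ht u w
      have h3 := h1.ht_eq
      have h4 := tau_nonneg u v
      linarith
  · rw [tau_eq_of_not h1]
    by_cases h2 : SamePiece v w
    · have := tau_le_ht u w
      have h3 := h2.ht_eq
      have h4 := tau_nonneg v w
      linarith
    · rw [tau_eq_of_not h2]
      have := tau_le_ht u w
      have h3 := ht_nonneg v
      linarith

noncomputable instance : MetricSpace (XSp π) where
  dist u v := dist u.proj v.proj + tau u v
  dist_self := by
    intro u
    simp [tau_self]
  dist_comm := by
    intro u v
    rw [dist_comm u.proj, tau_comm]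
  dist_triangle := by
    intro u v w
    have h1 := dist_triangle u.proj v.proj w.proj
    have h2 := tau_triangle u v w
    show dist u.proj w.proj + tau u w ≤
      dist u.proj v.proj + tau u v + (dist v.proj w.proj + tau v w)
    linarith
  eq_of_dist_eq_zero := by
    intro u v h
    change dist u.proj v.proj + tau u v = 0 at h
    have h1 : 0 ≤ dist u.proj v.proj := dist_nonneg
    have h2 := tau_nonneg u v
    have h3 : dist u.proj v.proj = 0 := by linarith
    have h4 : tau u v = 0 := by linarith
    cases u with
    | base x =>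
      cases v with
      | base y => exact congrArg base (dist_eq_zero.mp h3)
      | lev k m q => exact absurd h4 (half_pow_pos k).ne'
    | lev k m q =>
      cases v with
      | base y => exact absurd h4 (half_pow_pos k).ne'
      | lev k' m' q' =>
        by_cases h : k = k' ∧ m = m'
        · obtain ⟨rfl, rfl⟩ := h
          rw [tau_lev_same] at h4
          have hk := half_pow_pos k
          have h5 : dist q q' = 0 := by
            rcases le_total ((1 / 2 : ℝ) ^ k) (dist q q') with a | a
            · rw [min_eq_left a] at h4; exact absurd h4 hk.ne'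
            · rwa [min_eq_right a] at h4
          rw [dist_eq_zero.mp h5]
        · rw [tau_lev_ne h] at h4
          have := half_pow_pos k
          have := half_pow_pos k'
          exfalso; linarith

theorem dist_def (u v : XSp π) : dist u v = dist u.proj v.proj + tau u v := rfl

theorem dist_proj_le (u v : XSp π) : dist u.proj v.proj ≤ dist u v := by
  rw [dist_def]
  have := tau_nonneg u v
  linarith

theorem tau_le_dist (u v : XSp π) : tau u v ≤ dist u v := by
  rw [dist_def]
  have : 0 ≤ dist u.proj v.proj := dist_nonneg
  linarith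

theorem dist_base_lev (x : D) (k m : ℕ) (q : E k) :
    dist (base x : XSp π) (lev k m q) = dist x (π k q) + (1 / 2) ^ k := rfl

theorem dist_lev_same (k m : ℕ) (q q' : E k) :
    dist (lev k m q : XSp π) (lev k m q') =
      dist (π k q) (π k q') + min ((1 / 2) ^ k) (dist q q') := by
  rw [dist_def, tau_lev_same]
  rfl

theorem exists_half_pow_lt {r : ℝ} (hr : 0 < r) : ∃ K : ℕ, ∀ k ≥ K, (1 / 2 : ℝ) ^ k < r := by
  obtain ⟨K, hK⟩ := exists_pow_lt_of_lt_one hr (by norm_num : (1 / 2 : ℝ) < 1)
  exact ⟨K, fun k hk => (pow_le_pow_of_le_one (by norm_num) (by norm_num) hk).trans_lt hK⟩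

/-- a point at distance less than `(1/2)^k` from a point of the piece `(k, m)` lies in it -/
theorem exists_of_dist_lt {k m : ℕ} {q : E k} {v : XSp π}
    (h : dist v (lev k m q) < (1 / 2) ^ k) : ∃ q', v = lev k m q' := by
  have h1 := (tau_le_dist v (lev k m q)).trans_lt h
  cases v with
  | base x => rw [tau_base_lev] at h1; exact absurd h1 (lt_irrefl _)
  | lev k' m' q' =>
    by_cases hh : k' = k ∧ m' = m
    · obtain ⟨rfl, rfl⟩ := hh
      exact ⟨q', rfl⟩
    · rw [tau_lev_ne hh] at h1
      have := half_pow_pos k'
      exfalso; linarith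

theorem continuous_base : Continuous (base : D → XSp π) := by
  have : Isometry (base : D → XSp π) := Isometry.of_dist_eq fun x y => by
    rw [dist_def, tau_base_base, add_zero]; rfl
  exact this.continuous

theorem continuous_proj : Continuous (proj : XSp π → D) := by
  have : LipschitzWith 1 (proj : XSp π → D) := LipschitzWith.mk_one dist_proj_le
  exact this.continuous

section

variable (hπ : ∀ k, Continuous (π k))

include hπ in
theorem continuous_lev (k m : ℕ) : Continuous (lev k m : E k → XSp π) := by
  rw [continuous_iff_continuousAt]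
  intro q
  rw [ContinuousAt, tendsto_iff_dist_tendsto_zero]
  have h : Continuous fun q' : E k =>
      dist (π k q') (π k q) + min ((1 / 2 : ℝ) ^ k) (dist q' q) :=
    (((hπ k).dist continuous_const)).add (continuous_const.min (continuous_id.dist continuous_const))
  have h1 := h.tendsto q
  simp only [dist_self, zero_add] at h1
  rw [min_eq_right (half_pow_pos k).le] at h1
  refine h1.congr fun q' => ?_
  rw [dist_lev_same]

include hπ in
/-- the openness criterion -/
theorem isOpen_iff' (U : Set (XSp π)) : IsOpen U ↔
    (∀ k m, IsOpen ((lev k m : E k → XSp π) ⁻¹' U)) ∧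
    ∀ x, base x ∈ U → ∃ ε > 0, ∃ K : ℕ, (∀ y, dist x y < ε → base y ∈ U) ∧
      ∀ k ≥ K, ∀ m q, dist x (π k q) < ε → lev k m q ∈ U := by
  constructor
  · intro hU
    refine ⟨fun k m => hU.preimage (continuous_lev hπ k m), fun x hx => ?_⟩
    obtain ⟨r, hr, hball⟩ := Metric.isOpen_iff.mp hU _ hx
    obtain ⟨K, hK⟩ := exists_half_pow_lt (half_pos hr)
    refine ⟨r / 2, half_pos hr, K, fun y hy => hball ?_, fun k hk m q hq => hball ?_⟩
    · rw [Metric.mem_ball, dist_comm, dist_def, tau_base_base]
      change dist x y + 0 < r
      linarith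
    · rw [Metric.mem_ball, dist_comm, dist_base_lev]
      have := hK k hk
      linarith
  · rintro ⟨h1, h2⟩
    rw [Metric.isOpen_iff]
    intro u hu
    cases u with
    | base x =>
      obtain ⟨ε, hε, K, ha, hb⟩ := h2 x hu
      refine ⟨min ε ((1 / 2) ^ K), lt_min hε (half_pow_pos K), fun v hv => ?_⟩
      rw [Metric.mem_ball, dist_comm] at hv
      cases v with
      | base y =>
        apply ha
        rw [dist_def, tau_base_base] at hv
        have h3 : dist x y + 0 < min ε ((1 / 2) ^ K) := hv
        have h4 := min_le_left ε ((1 / 2 : ℝ) ^ K)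
        linarith
      | lev k m q =>
        rw [dist_base_lev] at hv
        have h4 := min_le_left ε ((1 / 2 : ℝ) ^ K)
        have h5 := min_le_right ε ((1 / 2 : ℝ) ^ K)
        have h6 := half_pow_pos k
        have h7 : 0 ≤ dist x (π k q) := dist_nonneg
        refine hb k ?_ m q (by linarith)
        by_contra hlt
        push Not at hlt
        have h8 : (1 / 2 : ℝ) ^ K ≤ (1 / 2) ^ k :=
          pow_le_pow_of_le_one (by norm_num) (by norm_num) hlt.le
        linarith
    | lev k m q =>
      obtain ⟨δ, hδ, hball⟩ := Metric.isOpen_iff.mp (h1 k m) q hu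
      refine ⟨min δ ((1 / 2) ^ k), lt_min hδ (half_pow_pos k), fun v hv => ?_⟩
      rw [Metric.mem_ball] at hv
      obtain ⟨q', rfl⟩ := exists_of_dist_lt (hv.trans_le (min_le_right _ _))
      have h3 := (tau_le_dist _ _).trans_lt hv
      rw [tau_lev_same] at h3
      apply hball
      rw [Metric.mem_ball]
      rcases le_total ((1 / 2 : ℝ) ^ k) (dist q' q) with a | a
      · rw [min_eq_left a] at h3
        exact absurd (h3.trans_le (min_le_right _ _)) (lt_irrefl _)
      · rw [min_eq_right a] at h3
        exact h3.trans_le (min_le_left _ _)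

include hπ in
/-- a set which contains no point of `D` is open if its traces on the pieces are open -/
theorem isOpen_of_lev (U : Set (XSp π)) (h : ∀ k m, IsOpen ((lev k m : E k → XSp π) ⁻¹' U))
    (h0 : ∀ x, base x ∉ U) : IsOpen U :=
  (isOpen_iff' hπ U).mpr ⟨h, fun x hx => absurd hx (h0 x)⟩

/-- the points which are not in a piece `(k, m)` with `m ≥ n` -/
def belowSet (π : ∀ k, E k → D) (k n : ℕ) : Set (XSp π) := {u | ∀ m ≥ n, ∀ q, u ≠ lev k m q}

include hπ in
theorem isOpen_belowSet (k n : ℕ) : IsOpen (belowSet π k n) := by
  rw [isOpen_iff' hπ]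
  refine ⟨fun k' m' => ?_, fun x _ => ⟨1, one_pos, k + 1, fun y _ m _ q => by simp,
    fun k' hk' m' q' _ m _ q h => ?_⟩⟩
  · by_cases hh : k' = k ∧ n ≤ m'
    · obtain ⟨rfl, hm⟩ := hh
      convert isOpen_empty
      rw [Set.eq_empty_iff_forall_notMem]
      intro q hq
      exact hq m' hm q rfl
    · convert isOpen_univ
      rw [Set.eq_univ_iff_forall]
      intro q m hm q' h
      injection h with h1 h2
      subst h2
      exact hh ⟨h1, hm⟩
  · injection h with h1 h2
    omega

include hπ in
/-- a compact set meets only finitely many pieces of the same level -/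
theorem compact_avoid (C : Set (XSp π)) (hC : IsCompact C) (k : ℕ) :
    ∃ m0, ∀ m ≥ m0, ∀ q, lev k m q ∉ C := by
  obtain ⟨n, hn⟩ := hC.elim_directed_cover (fun n => belowSet π k n)
    (fun n => isOpen_belowSet hπ k n) (fun u _ => by
      rw [Set.mem_iUnion]
      cases u with
      | base x => exact ⟨0, fun m _ q => by simp⟩
      | lev k' m' q' =>
        refine ⟨m' + 1, fun m hm q h => ?_⟩
        injection h with h1 h2
        omega) (by
      intro a b
      refine ⟨max a b, fun u hu m hm q => hu m (le_trans (le_max_left _ _) hm) q,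
        fun u hu m hm q => hu m (le_trans (le_max_right _ _) hm) q⟩)
  exact ⟨n, fun m hm q hq => hn hq m hm q rfl⟩

end

variable [CompactSpace D] [∀ k, CompactSpace (E k)] (hπ : ∀ k, Continuous (π k))

include hπ in
theorem secondCountable : SecondCountableTopology (XSp π) := by
  have h : IsSeparable (univ : Set (XSp π)) := by
    have h1 : (univ : Set (XSp π)) ⊆ range (base : D → XSp π) ∪
        ⋃ k : ℕ, ⋃ m : ℕ, range (lev k m : E k → XSp π) := by
      intro u _
      cases u with
      | base x => exact Or.inl ⟨x, rfl⟩
      | lev k m q =>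
        refine Or.inr ?_
        rw [Set.mem_iUnion]
        refine ⟨k, ?_⟩
        rw [Set.mem_iUnion]
        exact ⟨m, q, rfl⟩
    refine IsSeparable.mono ?_ h1
    refine IsSeparable.union (isSeparable_range continuous_base) ?_
    refine IsSeparable.iUnion fun k => IsSeparable.iUnion fun m => ?_
    exact isSeparable_range (continuous_lev hπ k m)
  have : SeparableSpace (XSp π) := isSeparable_univ_iff.mp h
  exact UniformSpace.secondCountable_of_separable (XSp π)

include hπ in
/-- the key lemma -/
theorem key_lemma (H : Set (XSp π)) (hH : IsClosed H) (C : Set D) (hC : IsClosed C)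
    (h : ∀ x ∈ C, base x ∉ H) :
    ∃ η > 0, ∃ K : ℕ, ∀ k ≥ K, ∀ m q, lev k m q ∈ H → ∀ x ∈ C, η ≤ dist x (π k q) := by
  have hC' : IsCompact ((base : D → XSp π) '' C) := hC.isCompact.image continuous_base
  have hsub : (base : D → XSp π) '' C ⊆ Hᶜ := by
    rintro _ ⟨x, hx, rfl⟩
    exact h x hx
  obtain ⟨δ, hδ, hδ2⟩ := hC'.exists_thickening_subset_open hH.isOpen_compl hsub
  obtain ⟨K, hK⟩ := exists_half_pow_lt (half_pos hδ)
  refine ⟨δ / 2, half_pos hδ, K, fun k hk m q hq x hx => ?_⟩
  by_contra hlt
  push Not at hlt
  have h1 : (lev k m q : XSp π) ∈ Metric.thickening δ ((base : D → XSp π) '' C) := by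
    rw [Metric.mem_thickening_iff]
    refine ⟨base x, ⟨x, hx, rfl⟩, ?_⟩
    rw [dist_comm, dist_base_lev]
    have := hK k hk
    linarith
  exact hδ2 h1 hq

end XSp

end Pool.Agent.CmpDef
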